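import Pool.Agent.Nfv.Zl

/-! A vector which no Sylow `r`-subgroup fixes, `r ≥ 5`. -/

set_option autoImplicit false

namespace Pool.Agent.Nfv

open Pool.Agent.Nan Pool.Agent.Nas

section
variable {p : ℕ} [Fact p.Prime] {L W : Type} [Group L] [Finite L] [AddCommGroup W]
  [Module (ZMod p) W] [Finite W] [Nontrivial W] {ρ : Representation (ZMod p) L W}
  {U : Subgroup L}

/-- The nonzero vectors which are fixed by an `x` with `Pe U x` which centralizes `U`. -/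
def Bk (ρ : Representation (ZMod p) L W) (U : Subgroup L) : Set W :=
  {w | w ≠ 0 ∧ ∃ x : L, Pe U x ∧ (∀ u ∈ U, x * u = u * x) ∧ ρ x w = w}

/-- The nonzero vectors which are fixed by an element of prime order `≥ 5` which does not
centralize `U`. -/
def Bg (ρ : Representation (ZMod p) L W) (U : Subgroup L) : Set W :=
  {w | w ≠ 0 ∧ ∃ x : L, P5 x ∧ (∃ u ∈ U, x * u ≠ u * x) ∧ ρ x w = w}

-- BEGIN cf1
private theorem cf1_dc {ρ : Representation (ZMod p) L W} (P : L → Prop) (m s : ℕ)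
    (hm : ∀ x, P x → ∀ w : W, ρ x w = w → m ≤ Nat.card {y : L // P y ∧ ρ y w = w})
    (hs : ∀ x, P x → Nat.card {w : W // ρ x w = w} ≤ s + 1) :
    m * Nat.card {w : W // w ≠ 0 ∧ ∃ x : L, P x ∧ ρ x w = w} ≤ Nat.card {x : L // P x} * s := by
  classical
  have := Fintype.ofFinite L
  have := Fintype.ofFinite W
  have h := Finset.card_mul_le_card_mul (fun (w : W) (x : L) => ρ x w = w)
    (s := Finset.univ.filter fun w : W => w ≠ 0 ∧ ∃ x : L, P x ∧ ρ x w = w)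
    (t := Finset.univ.filter fun x : L => P x) (m := m) (n := s) (by
      intro w hw
      obtain ⟨_, x, hx, hxw⟩ := (Finset.mem_filter.1 hw).2
      refine (hm x hx w hxw).trans (le_of_eq ?_)
      rw [Nat.card_eq_fintype_card, Fintype.card_subtype, Finset.bipartiteAbove, Finset.filter_filter]) (by
      intro x hx
      have h1 := hs x (Finset.mem_filter.1 hx).2
      rw [Nat.card_eq_fintype_card, Fintype.card_subtype] at h1
      have h0 : (0 : W) ∈ Finset.univ.filter fun w : W => ρ x w = w :=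
        Finset.mem_filter.2 ⟨Finset.mem_univ _, map_zero _⟩
      have h2 : (Finset.univ.filter fun w : W => w ≠ 0 ∧ ∃ x : L, P x ∧ ρ x w = w).bipartiteBelow
          (fun (w : W) (x : L) => ρ x w = w) x ⊆ (Finset.univ.filter fun w : W => ρ x w = w).erase 0 := by
        intro w hw
        rw [Finset.bipartiteBelow, Finset.mem_filter] at hw
        exact Finset.mem_erase.2 ⟨(Finset.mem_filter.1 hw.1).2.1,
          Finset.mem_filter.2 ⟨Finset.mem_univ _, hw.2⟩⟩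
      have h3 := Finset.card_le_card h2
      rw [Finset.card_erase_of_mem h0] at h3
      omega)
  rw [Nat.card_eq_fintype_card, Nat.card_eq_fintype_card, Fintype.card_subtype, Fintype.card_subtype,
    mul_comm m]
  exact h

private theorem cf1_pow {ρ : Representation (ZMod p) L W} (x : L) (w : W) (hw : ρ x w = w) (i : ℕ) :
    ρ (x ^ i) w = w := by
  induction i with
  | zero => simp
  | succ i ih =>
    rw [pow_succ, map_mul, Module.End.mul_apply, hw, ih]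

private theorem cf1_many {ρ : Representation (ZMod p) L W} (x : L) (hx1 : x ≠ 1) (l : ℕ) (hl : l.Prime)
    (hl5 : 5 ≤ l) (hlU : ¬ l ∣ Nat.card U) (hxl : x ^ l = 1) (hc : ∀ u ∈ U, x * u = u * x) (w : W)
    (hw : ρ x w = w) :
    l - 1 ≤ Nat.card {y : L // (Pe U y ∧ ∀ u ∈ U, y * u = u * y) ∧ ρ y w = w} := by
  have h1 : orderOf x = l := (Nat.Prime.dvd_iff_eq hl (by rw [Ne, orderOf_eq_one_iff]; exact hx1)).1
    (orderOf_dvd_of_pow_eq_one hxl) |>.symm
  have hlt : ∀ i : Fin (l - 1), (i : ℕ) + 1 < orderOf x := fun i => by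
    have := i.2
    omega
  have h2 : Nat.card (Fin (l - 1)) ≤ Nat.card {y : L // (Pe U y ∧ ∀ u ∈ U, y * u = u * y) ∧ ρ y w = w} := by
    refine Nat.card_le_card_of_injective (fun i => ⟨x ^ ((i : ℕ) + 1), ⟨⟨?_, l, hl, hl5, hlU, ?_⟩, ?_⟩, ?_⟩) ?_
    · exact pow_ne_one_of_lt_orderOf (Nat.succ_ne_zero _) (hlt i)
    · rw [← pow_mul, mul_comm, pow_mul, hxl, one_pow]
    · intro u hu
      exact (Commute.pow_left (show Commute x u from hc u hu) _)
    · exact cf1_pow x w hw _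
    · intro i j hij
      have h3 : x ^ ((i : ℕ) + 1) = x ^ ((j : ℕ) + 1) := congrArg Subtype.val hij
      have h4 := pow_injOn_Iio_orderOf (hlt i) (hlt j) h3
      exact Fin.ext (Nat.succ_injective h4)
  rwa [Nat.card_fin] at h2

/-- (cf1, size 4) Double counting of the pairs `(x, w)`, `w ∈ Bk`, `ρ x w = w`, `Pe U x`, `x ∈ centralizer U`. PROOF. Every `w` in the set is fixed by at least `l - 1 ≥ q` such elements (the powers of `x`), every `x` fixes at most `c - 1` nonzero vectors,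
and there are at most `Ct U E * e ^ 2` elements `x` (`pe_ct`). -/
theorem bk_cnt (h : QP ρ U) (hs : Group.IsSolvable L) {E : Subgroup L} {n : ℕ}
    {M : Fin n → Subgroup L} (hE : SE U E n M) (e q c : ℕ) (he : U.relIndex E = e ^ 2)
    (hq : ∀ (x : L) (l : ℕ), Pe U x → (∀ u ∈ U, x * u = u * x) → l.Prime → x ^ l = 1 → q + 1 ≤ l)
    (hc : ∀ x : L, Pe U x → (∀ u ∈ U, x * u = u * x) → Nat.card {w : W // ρ x w = w} ≤ c) :
    q * Nat.card (Bk ρ U) ≤ Ct U E * e ^ 2 * (c - 1) := by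
  have hcy : IsCyclic U := qp_cyc h
  have hB : Nat.card (Bk ρ U) =
      Nat.card {w : W // w ≠ 0 ∧ ∃ x : L, (Pe U x ∧ ∀ u ∈ U, x * u = u * x) ∧ ρ x w = w} := by
    refine Nat.card_congr (Equiv.subtypeEquivRight ?_)
    intro w
    exact ⟨fun ⟨a, x, b, c, d⟩ => ⟨a, x, ⟨b, c⟩, d⟩, fun ⟨a, x, ⟨b, c⟩, d⟩ => ⟨a, x, b, c, d⟩⟩
  rw [hB]
  refine (cf1_dc (ρ := ρ) (fun x => Pe U x ∧ ∀ u ∈ U, x * u = u * x) q (c - 1) ?_ ?_).trans
    (Nat.mul_le_mul_right _ (pe_ct hcy hE e he))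
  · rintro x ⟨hx, hxc⟩ w hw
    obtain ⟨hx1, l, hl, hl5, hlU, hxl⟩ := hx
    have h1 := hq x l ⟨hx1, l, hl, hl5, hlU, hxl⟩ hxc hl hxl
    exact le_trans (by omega) (cf1_many x hx1 l hl hl5 hlU hxl hxc w hw)
  · rintro x ⟨hx, hxc⟩
    have h1 := hc x hx hxc
    omega
-- END cf1

-- BEGIN cf2
private theorem cf2_notE {E : Subgroup L} {n : ℕ} {M : Fin n → Subgroup L} (hc : IsCyclic U)
    (hE : SE U E n M) (l : ℕ) (hl : l.Prime) (hlU : ¬ l ∣ Nat.card U) (x : L) (hx : x ≠ 1)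
    (hxl : x ^ l = 1) : x ∉ E := by
  intro hxE
  obtain ⟨e, _, he, hs⟩ := sq_ex (U := U) (E := E) ⟨hc, hE.UE, hE.cU, hE.com, hE.cen⟩
  have h1 : orderOf x = l := (Nat.Prime.dvd_iff_eq hl (by rw [Ne, orderOf_eq_one_iff]; exact hx)).1
    (orderOf_dvd_of_pow_eq_one hxl) |>.symm
  have h2 : orderOf (⟨x, hxE⟩ : E) ∣ Nat.card E := orderOf_dvd_natCard _
  rw [Subgroup.orderOf_mk, h1] at h2
  have h3 : Nat.card U * U.relIndex E = Nat.card E := by
    have := Subgroup.relIndex_mul_relIndex (⊥ : Subgroup L) U E bot_le hE.UE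
    rwa [Subgroup.relIndex_bot_left, Subgroup.relIndex_bot_left] at this
  rw [← h3, he] at h2
  rcases (Nat.Prime.dvd_mul hl).1 h2 with h4 | h4
  · exact hlU h4
  · exact hlU (hs l hl (hl.dvd_of_dvd_pow h4))

private theorem cf2_mod {ρ : Representation (ZMod p) L W} (x : L) (l : ℕ) (hl : l.Prime)
    (hxl : x ^ l = 1) :
    Nat.card W ≡ Nat.card {w : W // ρ x w = w} [MOD l] := by
  haveI : Fact l.Prime := ⟨hl⟩
  letI act : MulAction (Subgroup.zpowers x) W :=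
    { smul := fun g w => ρ (g : L) w
      one_smul := by
        intro w
        show ρ ((1 : Subgroup.zpowers x) : L) w = w
        simp
      mul_smul := by
        intro a b w
        show ρ ((a * b : Subgroup.zpowers x) : L) w = ρ (a : L) (ρ (b : L) w)
        rw [Subgroup.coe_mul, map_mul]
        rfl }
  have hsm : ∀ (g : Subgroup.zpowers x) (w : W), g • w = ρ (g : L) w := fun _ _ => rfl
  have hG : IsPGroup l (Subgroup.zpowers x) := by
    refine IsPGroup.of_card_dvd_pow (n := 1) ?_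
    rw [Nat.card_zpowers, pow_one]
    exact orderOf_dvd_of_pow_eq_one hxl
  have h1 := hG.card_modEq_card_fixedPoints W
  have h2 : Nat.card (MulAction.fixedPoints (Subgroup.zpowers x) W) =
      Nat.card {w : W // ρ x w = w} := by
    refine Nat.card_congr (Equiv.subtypeEquivRight ?_)
    intro w
    constructor
    · intro hw
      have := hw ⟨x, Subgroup.mem_zpowers x⟩
      rwa [hsm] at this
    · intro hw g
      rw [hsm]
      obtain ⟨g, hg⟩ := g
      obtain ⟨i, rfl⟩ := Subgroup.mem_zpowers_iff.1 hg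
      have hinv : ρ x⁻¹ w = w := by
        calc ρ x⁻¹ w = ρ x⁻¹ (ρ x w) := by rw [hw]
          _ = (ρ x⁻¹ * ρ x) w := rfl
          _ = w := by rw [← map_mul, inv_mul_cancel, map_one]; rfl
      have hp : ∀ (y : L), ρ y w = w → ∀ k : ℕ, ρ (y ^ k) w = w := by
        intro y hy k
        induction k with
        | zero => simp
        | succ k ih => rw [pow_succ, map_mul, Module.End.mul_apply, hy, ih]
      show ρ (x ^ i) w = w
      obtain ⟨k, rfl | rfl⟩ := i.eq_nat_or_neg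
      · rw [zpow_natCast]
        exact hp x hw k
      · rw [zpow_neg, zpow_natCast, ← inv_pow]
        exact hp _ hinv k
  rwa [h2] at h1

/-- (cf2, size 3) The fixed vectors of one element. PROOF. First part: `fix_half` (`x ∉ E` since `l` does not divide `card E`). Second part: `W` is the direct sum of the fixed vectors of `x` and of `[W, x]` (coprime action: `l` is not `p`), and `x` permutes the nonzero vectors of `[W, x]` in orbits of length
`l`; or: the subgroup `W / C_W(x)` has `p ^ m` elements, `x` permutes the vectors outside `C_W(x)` in orbits of length `l`, so `l ∣ card W - card C_W(x)`. `m ≥ 1` as `x` acts non-trivially. -/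
theorem fix_m (h : QP ρ U) {E : Subgroup L} {n : ℕ} {M : Fin n → Subgroup L}
    (hE : SE U E n M) (x : L) (hx : Pe U x) (hxU : ∀ u ∈ U, x * u = u * x) :
    Nat.card {w : W // ρ x w = w} ^ 2 ≤ Nat.card W ∧
    ∀ l : ℕ, l.Prime → x ^ l = 1 → l ≠ p →
      ∃ m : ℕ, 0 < m ∧ Nat.card {w : W // ρ x w = w} * p ^ m = Nat.card W ∧ l ∣ p ^ m - 1 := by
  obtain ⟨hx1, l₀, hl₀, hl5, hlU, hxl₀⟩ := hx
  refine ⟨fix_half h hE l₀ hl₀ (by omega) hlU x hxU hxl₀
    (cf2_notE (qp_cyc h) hE l₀ hl₀ hlU x hx1 hxl₀), ?_⟩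
  intro l hl hxl hlp
  have hp : p.Prime := Fact.out
  let F : Submodule (ZMod p) W := LinearMap.ker (ρ x - 1)
  have hF : ∀ w, w ∈ F ↔ ρ x w = w := by
    intro w
    show (ρ x - 1) w = 0 ↔ _
    rw [LinearMap.sub_apply, sub_eq_zero]
    rfl
  have hcF : Nat.card {w : W // ρ x w = w} = Nat.card F :=
    Nat.card_congr (Equiv.subtypeEquivRight fun w => (hF w).symm)
  have hmul : Nat.card F * Nat.card (W ⧸ F) = Nat.card W := 
    (Submodule.card_eq_card_quotient_mul_card F).symm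
  obtain ⟨m, hm⟩ : ∃ m : ℕ, Nat.card (W ⧸ F) = p ^ m := by
    refine ⟨Module.finrank (ZMod p) (W ⧸ F), ?_⟩
    rw [Module.natCard_eq_pow_finrank (K := ZMod p), Nat.card_zmod]
  obtain ⟨k, hk⟩ : ∃ k : ℕ, Nat.card F = p ^ k := by
    refine ⟨Module.finrank (ZMod p) F, ?_⟩
    rw [Module.natCard_eq_pow_finrank (K := ZMod p), Nat.card_zmod]
  have hm0 : 0 < m := by
    rcases Nat.eq_zero_or_pos m with h0 | h0
    · exfalso
      rw [h0, pow_zero] at hm
      have hFt : F = ⊤ := by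
        have h1 : Subsingleton (W ⧸ F) := (Nat.card_eq_one_iff_unique.1 hm).1
        refine Submodule.eq_top_iff'.2 fun w => ?_
        rw [← Submodule.Quotient.mk_eq_zero F]
        exact Subsingleton.elim _ _
      refine hx1 (h.fai x fun w => (hF w).1 ?_)
      rw [hFt]
      exact Submodule.mem_top
    · exact h0
  refine ⟨m, hm0, ?_, ?_⟩
  · rw [hcF, ← hm, hmul]
  · have h1 := cf2_mod (ρ := ρ) x l hl hxl
    rw [hcF, ← hmul, hm, hk] at h1
    have h2 : p ^ k ≡ p ^ k * p ^ m [MOD l] := h1.symm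
    have hle : p ^ k ≤ p ^ k * p ^ m := Nat.le_mul_of_pos_right _ (pow_pos hp.pos m)
    have h3 := (Nat.modEq_iff_dvd' hle).1 h2
    have h4 : p ^ k * p ^ m - p ^ k = p ^ k * (p ^ m - 1) := by
      rw [Nat.mul_sub, mul_one]
    rw [h4] at h3
    have hcop : Nat.Coprime l (p ^ k) := Nat.Coprime.pow_right k ((Nat.coprime_primes hl hp).2 hlp)
    exact hcop.dvd_of_dvd_mul_left h3
-- END cf2

-- BEGIN cf3
private theorem cf3_ord (x : L) (hx : x ≠ 1) (l : ℕ) (hl : l.Prime) (hxl : x ^ l = 1) :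
    orderOf x = l :=
  (Nat.Prime.dvd_iff_eq hl (by rw [Ne, orderOf_eq_one_iff]; exact hx)).1
    (orderOf_dvd_of_pow_eq_one hxl) |>.symm

private theorem cf3_card {E : Subgroup L} {n : ℕ} {M : Fin n → Subgroup L} (hc : IsCyclic U)
    (hE : SE U E n M) (e : ℕ) (he : U.relIndex E = e ^ 2) (s : ℕ) (hs : s.Prime) :
    (s ∣ e → s ∣ Nat.card U) ∧ (s ∣ Nat.card E → s ∣ Nat.card U) := by
  obtain ⟨e', he'0, he', hs'⟩ := sq_ex (U := U) (E := E) ⟨hc, hE.UE, hE.cU, hE.com, hE.cen⟩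
  have hee : e' = e := by
    have : e' ^ 2 = e ^ 2 := by rw [← he', he]
    exact Nat.pow_left_injective (n := 2) (by norm_num) this
  subst hee
  refine ⟨hs' s hs, fun h => ?_⟩
  have h1 : Nat.card U * U.relIndex E = Nat.card E := by
    have := Subgroup.relIndex_mul_relIndex (⊥ : Subgroup L) U E bot_le hE.UE
    rwa [Subgroup.relIndex_bot_left, Subgroup.relIndex_bot_left] at this
  rw [← h1, he] at h
  rcases (Nat.Prime.dvd_mul hs).1 h with h2 | h2
  · exact h2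
  · exact hs' s hs (hs.dvd_of_dvd_pow h2)

private theorem cf3_notE {E : Subgroup L} {n : ℕ} {M : Fin n → Subgroup L} (hc : IsCyclic U)
    (hE : SE U E n M) (e : ℕ) (he : U.relIndex E = e ^ 2) (l : ℕ) (hl : l.Prime)
    (hlU : ¬ l ∣ Nat.card U) (x : L) (hx : x ≠ 1) (hxl : x ^ l = 1) : x ∉ E := by
  intro hxE
  have h1 : orderOf x = l := cf3_ord x hx l hl hxl
  have h2 : orderOf (⟨x, hxE⟩ : E) ∣ Nat.card E := orderOf_dvd_natCard _
  rw [Subgroup.orderOf_mk, h1] at h2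
  exact hlU ((cf3_card hc hE e he l hl).2 h2)

/-- the primes: every `x` with `Pe U x` has order `l ≥ 5` with `l ∣ s ^ (2 k) - 1`, `s ^ k ∣ e` -/
private theorem cf3_prm {E : Subgroup L} {n : ℕ} {M : Fin n → Subgroup L} (hc : IsCyclic U)
    (hE : SE U E n M) (e : ℕ) (he : U.relIndex E = e ^ 2) (x : L) (hx : Pe U x)
    (hxU : ∀ u ∈ U, x * u = u * x) : ∃ l s k : ℕ, l.Prime ∧ 5 ≤ l ∧ orderOf x = l ∧ x ^ l = 1 ∧
      s.Prime ∧ 0 < k ∧ s ^ k ∣ e ∧ 4 ≤ s ^ k ∧ s ^ k ≠ 5 ∧ s ^ k ≠ 7 ∧ (s ^ k = 4 → l = 5) ∧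
      (s ^ k = 8 → l = 7) ∧ (s ^ k = 9 → l = 5) := by
  obtain ⟨hx1, l, hl, hl5, hlU, hxl⟩ := hx
  obtain ⟨s, k, hsp, hk, hske, hld⟩ := prm_act hc hE e he l hl
    (fun h' => hlU ((cf3_card hc hE e he l hl).1 h')) x hxU hxl
    (cf3_notE hc hE e he l hl hlU x hx1 hxl)
  obtain ⟨h1, h2, h3, h4, h5, h6⟩ := pn5 l s k hl hl5 hsp hk hld
  exact ⟨l, s, k, hl, hl5, cf3_ord x hx1 l hl hxl, hxl, hsp, hk, hske, h1, h2, h3, h4, h5, h6⟩

private theorem cf3_q (x : L) (l : ℕ) (hx : Pe U x) (hl : l.Prime) (hxl : x ^ l = 1) :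
    4 + 1 ≤ l := by
  obtain ⟨hx1, l', hl', hl5, hlU, hxl'⟩ := hx
  have h1 := cf3_ord x hx1 l hl hxl
  have h2 := cf3_ord x hx1 l' hl' hxl'
  omega

private theorem cf3_Ct {E : Subgroup L} [E.Normal] :
    Ct U E ≤ E.relIndex (Subgroup.centralizer (U : Set L)) := by
  classical
  have h2 : Nat.card ((Subgroup.centralizer (U : Set L)) ⧸
      E.subgroupOf (Subgroup.centralizer (U : Set L))) =
      E.relIndex (Subgroup.centralizer (U : Set L)) := rfl
  rw [← h2, Ct]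
  have hmem : ∀ x : L, (∀ u ∈ U, x * u = u * x) → x ∈ Subgroup.centralizer (U : Set L) := by
    intro x hx
    rw [Subgroup.mem_centralizer_iff]
    intro u hu
    exact (hx u hu).symm
  refine Nat.card_le_card_of_injective (fun y => QuotientGroup.mk
    (⟨y.2.choose, hmem _ y.2.choose_spec.2.2⟩ : Subgroup.centralizer (U : Set L))) ?_
  intro y z hyz
  have h3 := QuotientGroup.eq.1 hyz
  rw [Subgroup.mem_subgroupOf] at h3
  have h4 : (y.2.choose)⁻¹ * z.2.choose ∈ E := by simpa using h3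
  have h5 : ((y.2.choose : L) : L ⧸ E) = ((z.2.choose : L) : L ⧸ E) := QuotientGroup.eq.2 h4
  apply Subtype.ext
  rw [← y.2.choose_spec.1, ← z.2.choose_spec.1]
  exact h5

private theorem cf3_bk (h : QP ρ U) (hs : Group.IsSolvable L) {E : Subgroup L} {n : ℕ}
    {M : Fin n → Subgroup L} (hE : SE U E n M) (e : ℕ)
    (he : U.relIndex E = e ^ 2) :
    4 * Nat.card (Bk ρ U) ≤ Ct U E * e ^ 2 * (Nat.sqrt (Nat.card W) - 1) := by
  refine bk_cnt h hs hE e 4 (Nat.sqrt (Nat.card W)) he ?_ ?_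
  · intro x l hx _ hl hxl
    exact cf3_q x l hx hl hxl
  · intro x hx hxU
    rw [Nat.le_sqrt']
    exact (fix_m h hE x hx hxU).1

/-- (cf3, size 3) The general bound. PROOF. `bk_cnt` with `q = 4`, `c = Nat.sqrt (card W)` (`fix_m`), `Ct U E ≤ E.relIndex (centralizer U)`, `4 * E.relIndex (centralizer U) ≤ e ^ 6` (`cs_ob` with `ob`). Second part: for `x` as in the definition of `Bk`: `x ∉ E`, `prm_act`, `pn5`. -/
theorem bk_gen (h : QP ρ U) (hs : Group.IsSolvable L) {E : Subgroup L} {n : ℕ}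
    {M : Fin n → Subgroup L} (hE : SE U E n M) (hn : 0 < n) (e : ℕ)
    (he : U.relIndex E = e ^ 2) :
    16 * Nat.card (Bk ρ U) ≤ e ^ 8 * Nat.sqrt (Nat.card W) ∧
    (Nat.card (Bk ρ U) ≠ 0 → ∃ s k : ℕ, s.Prime ∧ 0 < k ∧ s ^ k ∣ e ∧ 4 ≤ s ^ k ∧ s ^ k ≠ 5 ∧
      s ^ k ≠ 7) := by
  have hc : IsCyclic U := qp_cyc h
  have := hE.nor
  have hN : U.Normal := h.ab.nor
  constructor
  · have h1 := cf3_bk h hs hE e he
    have h2 := cs_ob hs hN hE hn (U.relIndex E) (ob _) le_rfl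
    rw [he] at h2
    have h3 : 4 * Ct U E ≤ (e ^ 2) ^ 3 := (Nat.mul_le_mul_left 4 cf3_Ct).trans h2
    calc 16 * Nat.card (Bk ρ U) = 4 * (4 * Nat.card (Bk ρ U)) := by ring
      _ ≤ 4 * (Ct U E * e ^ 2 * (Nat.sqrt (Nat.card W) - 1)) := Nat.mul_le_mul_left _ h1
      _ = (4 * Ct U E) * e ^ 2 * (Nat.sqrt (Nat.card W) - 1) := by ring
      _ ≤ (e ^ 2) ^ 3 * e ^ 2 * Nat.sqrt (Nat.card W) :=
        Nat.mul_le_mul (Nat.mul_le_mul_right _ h3) (Nat.sub_le _ _)
      _ = e ^ 8 * Nat.sqrt (Nat.card W) := by ring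
  · intro h0
    have hne : Nonempty (Bk ρ U) := by
      by_contra hcon
      rw [not_nonempty_iff] at hcon
      exact h0 Nat.card_of_isEmpty
    obtain ⟨w, hw0, x, hx, hxU, hxw⟩ := hne
    obtain ⟨l, s, k, _, _, _, _, hsp, hk, hske, h1, h2, h3, _⟩ := cf3_prm hc hE e he x hx hxU
    exact ⟨s, k, hsp, hk, hske, h1, h2, h3⟩
-- END cf3

-- BEGIN cf4
private theorem cf4_ord (x : L) (hx : x ≠ 1) (l : ℕ) (hl : l.Prime) (hxl : x ^ l = 1) :
    orderOf x = l :=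
  (Nat.Prime.dvd_iff_eq hl (by rw [Ne, orderOf_eq_one_iff]; exact hx)).1
    (orderOf_dvd_of_pow_eq_one hxl) |>.symm

private theorem cf4_card {E : Subgroup L} {n : ℕ} {M : Fin n → Subgroup L} (hc : IsCyclic U)
    (hE : SE U E n M) (e : ℕ) (he : U.relIndex E = e ^ 2) (s : ℕ) (hs : s.Prime) :
    (s ∣ e → s ∣ Nat.card U) ∧ (s ∣ Nat.card E → s ∣ Nat.card U) := by
  obtain ⟨e', he'0, he', hs'⟩ := sq_ex (U := U) (E := E) ⟨hc, hE.UE, hE.cU, hE.com, hE.cen⟩
  have hee : e' = e := by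
    have : e' ^ 2 = e ^ 2 := by rw [← he', he]
    exact Nat.pow_left_injective (n := 2) (by norm_num) this
  subst hee
  refine ⟨hs' s hs, fun h => ?_⟩
  have h1 : Nat.card U * U.relIndex E = Nat.card E := by
    have := Subgroup.relIndex_mul_relIndex (⊥ : Subgroup L) U E bot_le hE.UE
    rwa [Subgroup.relIndex_bot_left, Subgroup.relIndex_bot_left] at this
  rw [← h1, he] at h
  rcases (Nat.Prime.dvd_mul hs).1 h with h2 | h2
  · exact h2
  · exact hs' s hs (hs.dvd_of_dvd_pow h2)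

private theorem cf4_notE {E : Subgroup L} {n : ℕ} {M : Fin n → Subgroup L} (hc : IsCyclic U)
    (hE : SE U E n M) (e : ℕ) (he : U.relIndex E = e ^ 2) (l : ℕ) (hl : l.Prime)
    (hlU : ¬ l ∣ Nat.card U) (x : L) (hx : x ≠ 1) (hxl : x ^ l = 1) : x ∉ E := by
  intro hxE
  have h1 : orderOf x = l := cf4_ord x hx l hl hxl
  have h2 : orderOf (⟨x, hxE⟩ : E) ∣ Nat.card E := orderOf_dvd_natCard _
  rw [Subgroup.orderOf_mk, h1] at h2
  exact hlU ((cf4_card hc hE e he l hl).2 h2)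

private theorem cf4_q (x : L) (l : ℕ) (hx : Pe U x) (hl : l.Prime) (hxl : x ^ l = 1) :
    4 + 1 ≤ l := by
  obtain ⟨hx1, l', hl', hl5, hlU, hxl'⟩ := hx
  have h1 := cf4_ord x hx1 l hl hxl
  have h2 := cf4_ord x hx1 l' hl' hxl'
  omega

private theorem cf4_bk (h : QP ρ U) (hs : Group.IsSolvable L) {E : Subgroup L} {n : ℕ}
    {M : Fin n → Subgroup L} (hE : SE U E n M) (e : ℕ)
    (he : U.relIndex E = e ^ 2) :
    4 * Nat.card (Bk ρ U) ≤ Ct U E * e ^ 2 * (Nat.sqrt (Nat.card W) - 1) := by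
  refine bk_cnt h hs hE e 4 (Nat.sqrt (Nat.card W)) he ?_ ?_
  · intro x l hx _ hl hxl
    exact cf4_q x l hx hl hxl
  · intro x hx hxU
    rw [Nat.le_sqrt']
    exact (fix_m h hE x hx hxU).1

/-- From `4 b ≤ C * x * (r - 1)`, `C ≤ K`, `K * x ≤ 4 * y`, `y ≤ r`, `r = √V`. -/
private theorem cf4_num (b C x K y V : ℕ) (h1 : 4 * b ≤ C * x * (Nat.sqrt V - 1)) (hC : C ≤ K)
    (hK : K * x ≤ 4 * y) (hy : 2 ≤ y) (hV : y ^ 2 ≤ V) : b + 1 < V := by
  set r := Nat.sqrt V with hr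
  have hyr : y ≤ r := by rw [hr, Nat.le_sqrt']; exact hV
  have hrr : r * r ≤ V := Nat.sqrt_le V
  have h2 : C * x ≤ 4 * r := (Nat.mul_le_mul_right x hC).trans (hK.trans (by omega))
  have h3 : 4 * b ≤ 4 * (r * (r - 1)) := by
    refine h1.trans ?_
    rw [← mul_assoc]
    exact Nat.mul_le_mul_right _ h2
  have h4 : r * (r - 1) = r * r - r := by
    rw [Nat.mul_sub, mul_one]
  have h5 : r ≤ r * r := Nat.le_mul_self r
  omega

/-- the same with 6 in the place of 4 -/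
private theorem cf4_num6 (b C x K y V : ℕ) (h1 : 6 * b ≤ C * x * (Nat.sqrt V - 1)) (hC : C ≤ K)
    (hK : K * x ≤ 6 * y) (hy : 2 ≤ y) (hV : y ^ 2 ≤ V) : b + 1 < V := by
  set r := Nat.sqrt V with hr
  have hyr : y ≤ r := by rw [hr, Nat.le_sqrt']; exact hV
  have hrr : r * r ≤ V := Nat.sqrt_le V
  have h2 : C * x ≤ 6 * r := (Nat.mul_le_mul_right x hC).trans (hK.trans (by omega))
  have h3 : 6 * b ≤ 6 * (r * (r - 1)) := by
    refine h1.trans ?_
    rw [← mul_assoc]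
    exact Nat.mul_le_mul_right _ h2
  have h4 : r * (r - 1) = r * r - r := by
    rw [Nat.mul_sub, mul_one]
  have h5 : r ≤ r * r := Nat.le_mul_self r
  omega

/-- `p ^ a = 3`: `p = 3` -/
private theorem cf4_three (p a : ℕ) (hp : p.Prime) (h : p ^ a = 3) : p = 3 := by
  have ha : a ≠ 0 := by
    rintro rfl
    norm_num at h
  have h1 : p ∣ 3 := by
    have : p ∣ p ^ a := dvd_pow_self p ha
    rwa [h] at this
  exact (Nat.prime_dvd_prime_iff_eq hp Nat.prime_three).1 h1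

private theorem cf4_m5 (m : ℕ) (h0 : 0 < m) (h5 : 5 ∣ 3 ^ m - 1) : 4 ≤ m := by
  by_contra hcon
  have h : m = 1 ∨ m = 2 ∨ m = 3 := by omega
  rcases h with rfl | rfl | rfl <;> revert h5 <;> decide

private theorem cf4_m7 (m : ℕ) (h0 : 0 < m) (h5 : 7 ∣ 3 ^ m - 1) : 6 ≤ m := by
  by_contra hcon
  have h : m = 1 ∨ m = 2 ∨ m = 3 ∨ m = 4 ∨ m = 5 := by omega
  rcases h with rfl | rfl | rfl | rfl | rfl <;> revert h5 <;> decide

/-- the order of the elements for `e = 4` -/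
private theorem cf4_l5 {E : Subgroup L} {n : ℕ} {M : Fin n → Subgroup L} (hc : IsCyclic U)
    (hE : SE U E n M) (he : U.relIndex E = 4 ^ 2) (x : L) (hx : Pe U x)
    (hxU : ∀ u ∈ U, x * u = u * x) : x ^ 5 = 1 := by
  obtain ⟨hx1, l, hl, hl5, hlU, hxl⟩ := hx
  obtain ⟨s, k, hsp, hk, hske, hld⟩ := prm_act hc hE 4 he l hl
    (fun h' => hlU ((cf4_card hc hE 4 he l hl).1 h')) x hxU hxl
    (cf4_notE hc hE 4 he l hl hlU x hx1 hxl)
  obtain ⟨h1, h2, h3, h4, h5, h6⟩ := pn5 l s k hl hl5 hsp hk hld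
  have h9 : s ^ k = 4 := by
    have hle : s ^ k ≤ 4 := Nat.le_of_dvd (by norm_num) hske
    omega
  have hl' : l = 5 := h4 h9
  rw [← hl']
  exact hxl

private theorem cf4_fix (h : QP ρ U) {E : Subgroup L} {n : ℕ} {M : Fin n → Subgroup L}
    (hE : SE U E n M) (hp3 : p = 3) (x : L) (hx : Pe U x) (hxU : ∀ u ∈ U, x * u = u * x) :
    (x ^ 5 = 1 → Nat.card {w : W // ρ x w = w} ≤ Nat.card W / 81) ∧
    (x ^ 7 = 1 → Nat.card {w : W // ρ x w = w} ≤ Nat.card W / 729) := by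
  obtain ⟨-, f2⟩ := fix_m h hE x hx hxU
  constructor
  · intro h5
    obtain ⟨m, hm0, hm1, hm2⟩ := f2 5 (by norm_num) h5 (by omega)
    subst hp3
    rw [Nat.le_div_iff_mul_le (by norm_num)]
    calc Nat.card {w : W // ρ x w = w} * 81 = Nat.card {w : W // ρ x w = w} * 3 ^ 4 := by norm_num
      _ ≤ Nat.card {w : W // ρ x w = w} * 3 ^ m :=
        Nat.mul_le_mul_left _ (Nat.pow_le_pow_right (by norm_num) (cf4_m5 m hm0 hm2))
      _ = Nat.card W := hm1
  · intro h7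
    obtain ⟨m, hm0, hm1, hm2⟩ := f2 7 (by norm_num) h7 (by omega)
    subst hp3
    rw [Nat.le_div_iff_mul_le (by norm_num)]
    calc Nat.card {w : W // ρ x w = w} * 729 = Nat.card {w : W // ρ x w = w} * 3 ^ 6 := by norm_num
      _ ≤ Nat.card {w : W // ρ x w = w} * 3 ^ m :=
        Nat.mul_le_mul_left _ (Nat.pow_le_pow_right (by norm_num) (cf4_m7 m hm0 hm2))
      _ = Nat.card W := hm1

/-- (cf4, size 4) The small values of `e`, first part. `Q = p ^ a`, `V = card W ≥ Q ^ e` (`qp_dim`, `qp_gal`), `Q ≡ 1` modulo the primes which divide `e` (`sq_ex`: they divide `card U`). PROOF. Every `x` as in `Bk` has order 5 if `e = 4` (`prm_act`, `pn5`: `s ^ k ∣ 4`, so `s ^ k = 4`), and also `l ≠ p` if `Q = 3`.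
`e = 4`: `ct4`, `bk_cnt` with `q = 4`: `4 bk ≤ 4 * 16 * (c - 1)`. `Q = 3`: by `fix_m` `c * 3 ^ m = V`, `5 ∣ 3 ^ m - 1`, so `m ≥ 4`: `81 c ≤ V`. `Q ≥ 5`: `c = √V ≥ 25`. `e = 8`: `ct_num`. First case: `4 bk ≤ 4 * 64 * (√V - 1)`, `√V ≥ 81`. Second case (`l = 7`, `q = 6`):
`6 bk ≤ 48 * 64 * (c - 1)`; `Q = 3`: `7 ∣ 3 ^ m - 1`, so `m ≥ 6`, `729 c ≤ V`; `Q ≥ 5`: `c = √V ≥ 625`. -/
theorem bk_48 (h : QP ρ U) (hs : Group.IsSolvable L) {E : Subgroup L} {n : ℕ}
    {M : Fin n → Subgroup L} (hE : SE U E n M) (hn : 0 < n) (e : ℕ)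
    (he : U.relIndex E = e ^ 2) (he2 : e = 4 ∨ e = 8) :
    Nat.card (Bk ρ U) + 1 < Nat.card W := by
  have hc : IsCyclic U := qp_cyc h
  have hN : U.Normal := h.ab.nor
  have hp : p.Prime := Fact.out
  obtain ⟨a, ha0, hUa, _, hAA, _, _⟩ := qp_gal h
  have hV : (p ^ a) ^ e ≤ Nat.card W := by
    rw [← hAA]
    exact qp_dim h hE e he
  have h2e : 2 ∣ e := by rcases he2 with rfl | rfl <;> norm_num
  have hd2 : 2 ∣ p ^ a - 1 := ((cf4_card hc hE e he 2 Nat.prime_two).1 h2e).trans hUa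
  have hp1 : 1 < p ^ a := Nat.one_lt_pow (by omega) hp.one_lt
  have hbk := cf4_bk h hs hE e he
  have key : ∀ K q y : ℕ, Ct U E ≤ K → q ≤ p ^ a → K * e ^ 2 ≤ 4 * y → 2 ≤ y → y ^ 2 ≤ q ^ e →
      Nat.card (Bk ρ U) + 1 < Nat.card W := by
    intro K q y hK hq hKy hy hyq
    exact cf4_num _ _ _ K y _ hbk hK hKy hy (hyq.trans ((Nat.pow_le_pow_left hq e).trans hV))
  have hQ : p ^ a = 3 ∨ 5 ≤ p ^ a := by omega
  rcases he2 with rfl | rfl
  · have hC := ct4 hs hc hN h.mx hE he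
    rcases hQ with hQ | hQ
    · have hp3 := cf4_three p a hp hQ
      rw [hQ] at hV
      have h1 := bk_cnt h hs hE 4 4 (Nat.card W / 81) he
        (fun x l hx _ hl hxl => cf4_q x l hx hl hxl)
        (fun x hx hxU => (cf4_fix h hE hp3 x hx hxU).1 (cf4_l5 hc hE he x hx hxU))
      have h2 : Ct U E * 4 ^ 2 * (Nat.card W / 81 - 1) ≤ 4 * 4 ^ 2 * (Nat.card W / 81 - 1) :=
        Nat.mul_le_mul_right _ (Nat.mul_le_mul_right _ hC)
      have h3 : 81 * (Nat.card W / 81) ≤ Nat.card W := Nat.mul_div_le _ _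
      have h4 := h1.trans h2
      norm_num at hV h4
      omega
    · exact key 4 5 16 hC hQ (by norm_num) (by norm_num) (by norm_num)
  · obtain ⟨c8, -⟩ := ct_num hs hc hN h.mx hE 8 he
    rcases c8 rfl with ⟨hC, -⟩ | ⟨hC, h7⟩
    · exact key 4 3 64 hC (by omega) (by norm_num) (by norm_num) (by norm_num)
    · have hq7 : ∀ (x : L) (l : ℕ), Pe U x → (∀ u ∈ U, x * u = u * x) → l.Prime → x ^ l = 1 →
          6 + 1 ≤ l := by
        intro x l hx hxU hl hxl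
        have h8 := cf4_ord x hx.1 l hl hxl
        have h9 := cf4_ord x hx.1 7 (by norm_num) (h7 x hx hxU)
        omega
      rcases hQ with hQ | hQ
      · have hp3 := cf4_three p a hp hQ
        rw [hQ] at hV
        have h1 := bk_cnt h hs hE 8 6 (Nat.card W / 729) he hq7
          (fun x hx hxU => (cf4_fix h hE hp3 x hx hxU).2 (h7 x hx hxU))
        have h2 : Ct U E * 8 ^ 2 * (Nat.card W / 729 - 1) ≤ 48 * 8 ^ 2 * (Nat.card W / 729 - 1) :=
          Nat.mul_le_mul_right _ (Nat.mul_le_mul_right _ hC)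
        have h3 : 729 * (Nat.card W / 729) ≤ Nat.card W := Nat.mul_div_le _ _
        have h4 := h1.trans h2
        norm_num at hV h4
        omega
      · have h1 := bk_cnt h hs hE 8 6 (Nat.sqrt (Nat.card W)) he hq7 (fun x hx hxU => by
          rw [Nat.le_sqrt']
          exact (fix_m h hE x hx hxU).1)
        exact cf4_num6 _ _ _ 48 512 _ h1 hC (by norm_num) (by norm_num)
          ((by norm_num : 512 ^ 2 ≤ 5 ^ 8).trans ((Nat.pow_le_pow_left hQ 8).trans hV))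
-- END cf4

-- BEGIN cf5
private theorem cf5_ord (x : L) (hx : x ≠ 1) (l : ℕ) (hl : l.Prime) (hxl : x ^ l = 1) :
    orderOf x = l :=
  (Nat.Prime.dvd_iff_eq hl (by rw [Ne, orderOf_eq_one_iff]; exact hx)).1
    (orderOf_dvd_of_pow_eq_one hxl) |>.symm

private theorem cf5_card {E : Subgroup L} {n : ℕ} {M : Fin n → Subgroup L} (hc : IsCyclic U)
    (hE : SE U E n M) (e : ℕ) (he : U.relIndex E = e ^ 2) (s : ℕ) (hs : s.Prime) :
    (s ∣ e → s ∣ Nat.card U) ∧ (s ∣ Nat.card E → s ∣ Nat.card U) := by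
  obtain ⟨e', he'0, he', hs'⟩ := sq_ex (U := U) (E := E) ⟨hc, hE.UE, hE.cU, hE.com, hE.cen⟩
  have hee : e' = e := by
    have : e' ^ 2 = e ^ 2 := by rw [← he', he]
    exact Nat.pow_left_injective (n := 2) (by norm_num) this
  subst hee
  refine ⟨hs' s hs, fun h => ?_⟩
  have h1 : Nat.card U * U.relIndex E = Nat.card E := by
    have := Subgroup.relIndex_mul_relIndex (⊥ : Subgroup L) U E bot_le hE.UE
    rwa [Subgroup.relIndex_bot_left, Subgroup.relIndex_bot_left] at this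
  rw [← h1, he] at h
  rcases (Nat.Prime.dvd_mul hs).1 h with h2 | h2
  · exact h2
  · exact hs' s hs (hs.dvd_of_dvd_pow h2)

private theorem cf5_notE {E : Subgroup L} {n : ℕ} {M : Fin n → Subgroup L} (hc : IsCyclic U)
    (hE : SE U E n M) (e : ℕ) (he : U.relIndex E = e ^ 2) (l : ℕ) (hl : l.Prime)
    (hlU : ¬ l ∣ Nat.card U) (x : L) (hx : x ≠ 1) (hxl : x ^ l = 1) : x ∉ E := by
  intro hxE
  have h1 : orderOf x = l := cf5_ord x hx l hl hxl
  have h2 : orderOf (⟨x, hxE⟩ : E) ∣ Nat.card E := orderOf_dvd_natCard _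
  rw [Subgroup.orderOf_mk, h1] at h2
  exact hlU ((cf5_card hc hE e he l hl).2 h2)

private theorem cf5_q (x : L) (l : ℕ) (hx : Pe U x) (hl : l.Prime) (hxl : x ^ l = 1) :
    4 + 1 ≤ l := by
  obtain ⟨hx1, l', hl', hl5, hlU, hxl'⟩ := hx
  have h1 := cf5_ord x hx1 l hl hxl
  have h2 := cf5_ord x hx1 l' hl' hxl'
  omega

private theorem cf5_bk (h : QP ρ U) (hs : Group.IsSolvable L) {E : Subgroup L} {n : ℕ}
    {M : Fin n → Subgroup L} (hE : SE U E n M) (e : ℕ)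
    (he : U.relIndex E = e ^ 2) :
    4 * Nat.card (Bk ρ U) ≤ Ct U E * e ^ 2 * (Nat.sqrt (Nat.card W) - 1) := by
  refine bk_cnt h hs hE e 4 (Nat.sqrt (Nat.card W)) he ?_ ?_
  · intro x l hx _ hl hxl
    exact cf5_q x l hx hl hxl
  · intro x hx hxU
    rw [Nat.le_sqrt']
    exact (fix_m h hE x hx hxU).1

/-- From `4 b ≤ C * x * (r - 1)`, `C ≤ K`, `K * x ≤ 4 * y`, `y ≤ r`, `r = √V`. -/
private theorem cf5_num (b C x K y V : ℕ) (h1 : 4 * b ≤ C * x * (Nat.sqrt V - 1)) (hC : C ≤ K)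
    (hK : K * x ≤ 4 * y) (hy : 2 ≤ y) (hV : y ^ 2 ≤ V) : b + 1 < V := by
  set r := Nat.sqrt V with hr
  have hyr : y ≤ r := by rw [hr, Nat.le_sqrt']; exact hV
  have hrr : r * r ≤ V := Nat.sqrt_le V
  have h2 : C * x ≤ 4 * r := (Nat.mul_le_mul_right x hC).trans (hK.trans (by omega))
  have h3 : 4 * b ≤ 4 * (r * (r - 1)) := by
    refine h1.trans ?_
    rw [← mul_assoc]
    exact Nat.mul_le_mul_right _ h2
  have h4 : r * (r - 1) = r * r - r := by
    rw [Nat.mul_sub, mul_one]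
  have h5 : r ≤ r * r := Nat.le_mul_self r
  omega

private theorem cf5_Q (p a s : ℕ) (hp : p.Prime) (hs : s ∣ p ^ a - 1) : ∃ t, p ^ a = s * t + 1 := by
  obtain ⟨t, ht⟩ := hs
  exact ⟨t, by
    have : 0 < p ^ a := pow_pos hp.pos a
    omega⟩

/-- `p ^ a = 4`: `p = 2` -/
private theorem cf5_four (p a : ℕ) (hp : p.Prime) (h : p ^ a = 4) : p = 2 := by
  have h1 : p ∣ 2 ^ 2 := by
    have ha : a ≠ 0 := by
      rintro rfl
      norm_num at h
    have : p ∣ p ^ a := dvd_pow_self p ha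
    rw [h] at this
    exact this
  exact (Nat.prime_dvd_prime_iff_eq hp Nat.prime_two).1 (hp.dvd_of_dvd_pow h1)

private theorem cf5_m (m : ℕ) (h5 : 5 ∣ 2 ^ m - 1) (h9 : 9 ≤ m) : 12 ≤ m := by
  by_contra hcon
  have h : m = 9 ∨ m = 10 ∨ m = 11 := by omega
  rcases h with rfl | rfl | rfl <;> revert h5 <;> decide

private theorem cf5_nine (h : QP ρ U) (hs : Group.IsSolvable L) {E : Subgroup L} {n : ℕ}
    {M : Fin n → Subgroup L} (hE : SE U E n M)
    (he : U.relIndex E = 9 ^ 2) (hC : Ct U E ≤ 64) (hp2 : p = 2) (hV : 4 ^ 9 ≤ Nat.card W) :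
    Nat.card (Bk ρ U) + 1 < Nat.card W := by
  have hc : IsCyclic U := qp_cyc h
  have hfix : ∀ x : L, Pe U x → (∀ u ∈ U, x * u = u * x) →
      Nat.card {w : W // ρ x w = w} ≤ Nat.card W / 4096 := by
    intro x hx hxU
    obtain ⟨f1, f2⟩ := fix_m h hE x hx hxU
    obtain ⟨hx1, l, hl, hl5, hlU, hxl⟩ := hx
    obtain ⟨s, k, hsp, hk, hske, hld⟩ := prm_act hc hE 9 he l hl
      (fun h' => hlU ((cf5_card hc hE 9 he l hl).1 h')) x hxU hxl
      (cf5_notE hc hE 9 he l hl hlU x hx1 hxl)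
    obtain ⟨h1, h2, h3, h4, h5, h6⟩ := pn5 l s k hl hl5 hsp hk hld
    have h9 : s ^ k = 9 := by
      have hle : s ^ k ≤ 9 := Nat.le_of_dvd (by norm_num) hske
      generalize s ^ k = t at *
      interval_cases t <;> first | rfl | (exfalso; revert hske; decide)
    have hl' : l = 5 := h6 h9
    subst hl'
    obtain ⟨m, hm0, hm1, hm2⟩ := f2 5 hl hxl (by omega)
    subst hp2
    set c := Nat.card {w : W // ρ x w = w} with hcdef
    have hcm : c ≤ 2 ^ m := by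
      by_contra hcon
      have h7 : 2 ^ m < c := by omega
      have h8 : c * 2 ^ m < c * c := Nat.mul_lt_mul_of_pos_left h7 (lt_of_le_of_lt (Nat.zero_le _) h7)
      have h9 : c ^ 2 = c * c := sq c
      omega
    have h7 : 4 ^ 9 ≤ 2 ^ (2 * m) := by
      calc 4 ^ 9 ≤ Nat.card W := hV
        _ = c * 2 ^ m := hm1.symm
        _ ≤ 2 ^ m * 2 ^ m := Nat.mul_le_mul_right _ hcm
        _ = 2 ^ (2 * m) := by rw [← pow_add]; congr 1; omega
    have h8 : 9 ≤ m := by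
      have h10 : (2 : ℕ) ^ 18 ≤ 2 ^ (2 * m) := by
        calc (2 : ℕ) ^ 18 = 4 ^ 9 := by norm_num
          _ ≤ _ := h7
      have h11 := (Nat.pow_le_pow_iff_right (by norm_num : 1 < 2)).1 h10
      omega
    have h12 := cf5_m m hm2 h8
    rw [Nat.le_div_iff_mul_le (by norm_num)]
    calc c * 4096 = c * 2 ^ 12 := by norm_num
      _ ≤ c * 2 ^ m := Nat.mul_le_mul_left _ (Nat.pow_le_pow_right (by norm_num) h12)
      _ = Nat.card W := hm1
  have h1 := bk_cnt h hs hE 9 4 (Nat.card W / 4096) he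
    (fun x l hx _ hl hxl => cf5_q x l hx hl hxl) hfix
  have h2 : Ct U E * 9 ^ 2 * (Nat.card W / 4096 - 1) ≤ 64 * 9 ^ 2 * (Nat.card W / 4096 - 1) :=
    Nat.mul_le_mul_right _ (Nat.mul_le_mul_right _ hC)
  have h3 : 4096 * (Nat.card W / 4096) ≤ Nat.card W := Nat.mul_div_le _ _
  have h4 := h1.trans h2
  norm_num at hV h4
  omega

/-- (cf5, size 4) The small values of `e`, second part. PROOF. As before, `ct_num`, `bk_cnt` with `q = 4`, `c = √V` (`fix_m`): `bk ≤ Ct * e ^ 2 / 4 * (√V - 1)`. `e = 9`: `1296 (√V - 1)`, `Q = 4` or `Q ≥ 7` (`3 ∣ Q - 1`): `Q ≥ 7`: `√V ≥ 6352`. `Q = 4` (`p = 2`): `l = 5` (`prm_act`, `pn5`: `s ^ k ∣ 9`, so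
`s ^ k = 9`), `c * 2 ^ m = V`, `5 ∣ 2 ^ m - 1`, so `4 ∣ m`; `c ^ 2 ≤ V`, `V ≥ 2 ^ 18`, `V` is a power of 2: `m ≥ 9`, so `m ≥ 12`, `4096 c ≤ V`. `e = 12`: `144 (√V - 1)`, `√V ≥ 7 ^ 6`. `e = 16`: `3072 (√V - 1)`, `√V ≥ 6561`. `e = 18`: `5184`, `√V ≥ 7 ^ 9`.
`e = 27`: `65536 * 729 / 4 < 11943937`, `√V ≥ 2 ^ 27`. `e = 32`: `155520 * 1024 / 4 = 39813120 < 3 ^ 16 ≤ √V`. -/
theorem bk_sp (h : QP ρ U) (hs : Group.IsSolvable L) {E : Subgroup L} {n : ℕ}
    {M : Fin n → Subgroup L} (hE : SE U E n M) (hn : 0 < n) (e : ℕ)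
    (he : U.relIndex E = e ^ 2)
    (he2 : e = 9 ∨ e = 12 ∨ e = 16 ∨ e = 18 ∨ e = 27 ∨ e = 32) :
    Nat.card (Bk ρ U) + 1 < Nat.card W := by
  have hc : IsCyclic U := qp_cyc h
  have hN : U.Normal := h.ab.nor
  have hp : p.Prime := Fact.out
  obtain ⟨a, ha0, hUa, _, hAA, _, _⟩ := qp_gal h
  have hV : (p ^ a) ^ e ≤ Nat.card W := by
    rw [← hAA]
    exact qp_dim h hE e he
  have hdv : ∀ s : ℕ, s.Prime → s ∣ e → s ∣ p ^ a - 1 := fun s hsp hse =>
    ((cf5_card hc hE e he s hsp).1 hse).trans hUa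
  obtain ⟨_, c9, c12, c16, c18, c27, c32⟩ := ct_num hs hc hN h.mx hE e he
  have hbk := cf5_bk h hs hE e he
  have hp1 : 1 < p ^ a := Nat.one_lt_pow (by omega) hp.one_lt
  -- divisibility by 2 and by 3
  have hd2 : 2 ∣ e → ∃ t, p ^ a = 2 * t + 1 := fun hse => cf5_Q p a 2 hp (hdv 2 Nat.prime_two hse)
  have hd3 : 3 ∣ e → ∃ t, p ^ a = 3 * t + 1 := fun hse => cf5_Q p a 3 hp (hdv 3 Nat.prime_three hse)
  have key : ∀ K q y : ℕ, Ct U E ≤ K → q ≤ p ^ a → K * e ^ 2 ≤ 4 * y → 2 ≤ y → y ^ 2 ≤ q ^ e →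
      Nat.card (Bk ρ U) + 1 < Nat.card W := by
    intro K q y hK hq hKy hy hyq
    exact cf5_num _ _ _ K y _ hbk hK hKy hy (hyq.trans ((Nat.pow_le_pow_left hq e).trans hV))
  rcases he2 with rfl | rfl | rfl | rfl | rfl | rfl
  · obtain ⟨t, ht⟩ := hd3 (by norm_num)
    rcases Nat.lt_or_ge (p ^ a) 7 with h7 | h7
    · have h4 : p ^ a = 4 := by omega
      refine cf5_nine h hs hE he (c9 rfl) (cf5_four p a hp h4) ?_
      rw [← h4]
      exact hV
    · exact key 64 7 1296 (c9 rfl) h7 (by norm_num) (by norm_num) (by norm_num)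
  · obtain ⟨t, ht⟩ := hd3 (by norm_num)
    obtain ⟨t', ht'⟩ := hd2 (by norm_num)
    exact key 4 7 144 (c12 rfl) (by omega) (by norm_num) (by norm_num) (by norm_num)
  · obtain ⟨t', ht'⟩ := hd2 (by norm_num)
    exact key 48 3 3072 (c16 rfl) (by omega) (by norm_num) (by norm_num) (by norm_num)
  · obtain ⟨t, ht⟩ := hd3 (by norm_num)
    obtain ⟨t', ht'⟩ := hd2 (by norm_num)
    exact key 64 7 5184 (c18 rfl) (by omega) (by norm_num) (by norm_num) (by norm_num)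
  · obtain ⟨t, ht⟩ := hd3 (by norm_num)
    exact key 65536 4 11943936 (c27 rfl) (by omega) (by norm_num) (by norm_num) (by norm_num)
  · obtain ⟨t', ht'⟩ := hd2 (by norm_num)
    exact key 155520 3 39813120 (c32 rfl) (by omega) (by norm_num) (by norm_num) (by norm_num)
-- END cf5

-- BEGIN cf6
theorem bk_fin0 (m e Q : ℕ) (h : m ≤ Q) (h2 : e ^ 16 + 512 < 256 * m ^ e) :
    e ^ 16 + 512 < 256 * Q ^ e :=
  lt_of_lt_of_le h2 (Nat.mul_le_mul_left _ (Nat.pow_le_pow_left h e))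

theorem bk_fin1 (s e Q : ℕ) (hQ2 : 2 ≤ Q) (hd : ∀ s : ℕ, s.Prime → s ∣ e → s ∣ Q - 1)
    (hs : s.Prime) (hse : s ∣ e) (h2 : e ^ 16 + 512 < 256 * (s + 1) ^ e) :
    e ^ 16 + 512 < 256 * Q ^ e := by
  have h := Nat.le_of_dvd (by omega) (hd s hs hse)
  exact bk_fin0 (s + 1) e Q (by omega) h2

theorem bk_fin2 (s t e Q : ℕ) (hQ2 : 2 ≤ Q) (hd : ∀ s : ℕ, s.Prime → s ∣ e → s ∣ Q - 1)
    (hs : s.Prime) (ht : t.Prime) (hse : s ∣ e) (hte : t ∣ e) (hst : Nat.Coprime s t)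
    (h2 : e ^ 16 + 512 < 256 * (s * t + 1) ^ e) :
    e ^ 16 + 512 < 256 * Q ^ e := by
  have h := Nat.le_of_dvd (by omega)
    (Nat.Coprime.mul_dvd_of_dvd_of_dvd hst (hd s hs hse) (hd t ht hte))
  exact bk_fin0 (s * t + 1) e Q (by omega) h2

theorem bk_two (p a x y : ℕ) (hp : p.Prime) (hx : x.Prime) (hy : y.Prime) (hxy : x ≠ y)
    (h1 : x ∣ p ^ a) (h2 : y ∣ p ^ a) : False :=
  hxy (((Nat.prime_dvd_prime_iff_eq hx hp).mp (hx.dvd_of_dvd_pow h1)).trans
    ((Nat.prime_dvd_prime_iff_eq hy hp).mp (hy.dvd_of_dvd_pow h2)).symm)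

theorem bkx_11 (p a Q : ℕ) (hp : p.Prime) (hQ : p ^ a = Q) (hQ2 : 2 ≤ Q)
    (hd : ∀ s : ℕ, s.Prime → s ∣ 11 → s ∣ Q - 1) : 11 ^ 16 + 512 < 256 * Q ^ 11 := by
  obtain ⟨c, hc⟩ := hd 11 (by norm_num) (by norm_num)
  have h1 : c ≠ 1 := by
    rintro rfl
    have h3 : Q = 12 := by omega
    exact bk_two p a 2 3 hp (by norm_num) (by norm_num) (by norm_num)
      (by rw [hQ, h3]; norm_num) (by rw [hQ, h3]; norm_num)
  exact bk_fin0 23 11 Q (by omega) (by norm_num)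

theorem bkx_13 (p a Q : ℕ) (hp : p.Prime) (hQ : p ^ a = Q) (hQ2 : 2 ≤ Q)
    (hd : ∀ s : ℕ, s.Prime → s ∣ 13 → s ∣ Q - 1) : 13 ^ 16 + 512 < 256 * Q ^ 13 := by
  obtain ⟨c, hc⟩ := hd 13 (by norm_num) (by norm_num)
  have h1 : c ≠ 1 := by
    rintro rfl
    have h3 : Q = 14 := by omega
    exact bk_two p a 2 7 hp (by norm_num) (by norm_num) (by norm_num)
      (by rw [hQ, h3]; norm_num) (by rw [hQ, h3]; norm_num)
  exact bk_fin0 27 13 Q (by omega) (by norm_num)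

theorem bkx_25 (p a Q : ℕ) (hp : p.Prime) (hQ : p ^ a = Q) (hQ2 : 2 ≤ Q)
    (hd : ∀ s : ℕ, s.Prime → s ∣ 25 → s ∣ Q - 1) : 25 ^ 16 + 512 < 256 * Q ^ 25 := by
  obtain ⟨c, hc⟩ := hd 5 (by norm_num) (by norm_num)
  have h1 : c ≠ 1 := by
    rintro rfl
    have h3 : Q = 6 := by omega
    exact bk_two p a 2 3 hp (by norm_num) (by norm_num) (by norm_num)
      (by rw [hQ, h3]; norm_num) (by rw [hQ, h3]; norm_num)
  exact bk_fin0 11 25 Q (by omega) (by norm_num)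

theorem bk_210 (s k : ℕ) (hs : s.Prime) (hk : 0 < k) (h4 : 4 ≤ s ^ k) (h5 : s ^ k ≠ 5)
    (h7 : s ^ k ≠ 7) (h : s ^ k ∣ 210) : False := by
  have h0 : s ∣ 210 := (dvd_pow_self s hk.ne').trans h
  have h1 : s = 2 ∨ s = 3 ∨ s = 5 ∨ s = 7 := by
    have h2 : s ∣ 2 * (3 * (5 * 7)) := h0
    rcases (hs.dvd_mul).mp h2 with h2 | h2
    · exact Or.inl ((Nat.prime_dvd_prime_iff_eq hs (by norm_num)).mp h2)
    rcases (hs.dvd_mul).mp h2 with h2 | h2
    · exact Or.inr (Or.inl ((Nat.prime_dvd_prime_iff_eq hs (by norm_num)).mp h2))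
    rcases (hs.dvd_mul).mp h2 with h2 | h2
    · exact Or.inr (Or.inr (Or.inl ((Nat.prime_dvd_prime_iff_eq hs (by norm_num)).mp h2)))
    · exact Or.inr (Or.inr (Or.inr ((Nat.prime_dvd_prime_iff_eq hs (by norm_num)).mp h2)))
  have h2 : k ≠ 1 := by
    rintro rfl
    rw [pow_one] at h4 h5 h7
    omega
  have h3 : s ^ 2 ∣ 210 := (pow_dvd_pow s (by omega)).trans h
  rcases h1 with rfl | rfl | rfl | rfl <;> revert h3 <;> norm_num

theorem bk_big (e : ℕ) (he : 64 ≤ e) : e ^ 16 + 512 < 256 * 3 ^ e := by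
  induction e, he using Nat.le_induction with
  | base => norm_num
  | succ e he ih =>
    have h1 : (64 * (e + 1)) ^ 16 ≤ (65 * e) ^ 16 := Nat.pow_le_pow_left (by omega) 16
    rw [mul_pow, mul_pow] at h1
    have h2 : (e + 1) ^ 16 ≤ 3 * e ^ 16 := by
      generalize (e + 1) ^ 16 = y at h1 ⊢
      generalize e ^ 16 = z at h1 ⊢
      norm_num at h1
      omega
    have h3 : 3 ^ (e + 1) = 3 * 3 ^ e := pow_succ' 3 e
    rw [h3]
    omega

theorem bk_core (p a e Q s k : ℕ) (hp : p.Prime) (hQ : p ^ a = Q) (hQ2 : 2 ≤ Q) (he : 2 ≤ e)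
    (hd : ∀ s : ℕ, s.Prime → s ∣ e → s ∣ Q - 1) (hs : s.Prime) (hk : 0 < k) (hse : s ^ k ∣ e)
    (h4 : 4 ≤ s ^ k) (h5 : s ^ k ≠ 5) (h7 : s ^ k ≠ 7)
    (hsp : e ≠ 4 ∧ e ≠ 8 ∧ e ≠ 9 ∧ e ≠ 12 ∧ e ≠ 16 ∧ e ≠ 18 ∧ e ≠ 27 ∧ e ≠ 32) :
    e ^ 16 + 512 < 256 * Q ^ e := by
  by_cases he64 : 64 ≤ e
  · have h1 : 3 ≤ Q := by
      have h2 := hd s hs ((dvd_pow_self s hk.ne').trans hse)
      have h3 := Nat.le_of_dvd (by omega) h2
      have h4 := hs.two_le
      omega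
    exact bk_fin0 3 e Q h1 (bk_big e he64)
  have h210 : ¬ e ∣ 210 := fun h => bk_210 s k hs hk h4 h5 h7 (hse.trans h)
  clear hse h4 h5 h7 hk
  rw [not_le] at he64
  interval_cases e
  · exact absurd (by norm_num) h210
  · exact absurd (by norm_num) h210
  · exact absurd rfl hsp.1
  · exact absurd (by norm_num) h210
  · exact absurd (by norm_num) h210
  · exact absurd (by norm_num) h210
  · exact absurd rfl hsp.2.1
  · exact absurd rfl hsp.2.2.1
  · exact absurd (by norm_num) h210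
  · exact bkx_11 p a Q hp hQ hQ2 hd
  · exact absurd rfl hsp.2.2.2.1
  · exact bkx_13 p a Q hp hQ hQ2 hd
  · exact absurd (by norm_num) h210
  · exact absurd (by norm_num) h210
  · exact absurd rfl hsp.2.2.2.2.1
  · exact bk_fin1 17 17 Q hQ2 hd (by norm_num) (by norm_num) (by norm_num)
  · exact absurd rfl hsp.2.2.2.2.2.1
  · exact bk_fin1 19 19 Q hQ2 hd (by norm_num) (by norm_num) (by norm_num)
  · exact bk_fin2 5 2 20 Q hQ2 hd (by norm_num) (by norm_num) (by norm_num) (by norm_num) (by norm_num) (by norm_num)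
  · exact absurd (by norm_num) h210
  · exact bk_fin1 11 22 Q hQ2 hd (by norm_num) (by norm_num) (by norm_num)
  · exact bk_fin1 23 23 Q hQ2 hd (by norm_num) (by norm_num) (by norm_num)
  · exact bk_fin2 3 2 24 Q hQ2 hd (by norm_num) (by norm_num) (by norm_num) (by norm_num) (by norm_num) (by norm_num)
  · exact bkx_25 p a Q hp hQ hQ2 hd
  · exact bk_fin1 13 26 Q hQ2 hd (by norm_num) (by norm_num) (by norm_num)
  · exact absurd rfl hsp.2.2.2.2.2.2.1
  · exact bk_fin1 7 28 Q hQ2 hd (by norm_num) (by norm_num) (by norm_num)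
  · exact bk_fin1 29 29 Q hQ2 hd (by norm_num) (by norm_num) (by norm_num)
  · exact absurd (by norm_num) h210
  · exact bk_fin1 31 31 Q hQ2 hd (by norm_num) (by norm_num) (by norm_num)
  · exact absurd rfl hsp.2.2.2.2.2.2.2
  · exact bk_fin1 11 33 Q hQ2 hd (by norm_num) (by norm_num) (by norm_num)
  · exact bk_fin1 17 34 Q hQ2 hd (by norm_num) (by norm_num) (by norm_num)
  · exact absurd (by norm_num) h210
  · exact bk_fin2 3 2 36 Q hQ2 hd (by norm_num) (by norm_num) (by norm_num) (by norm_num) (by norm_num) (by norm_num)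
  · exact bk_fin1 37 37 Q hQ2 hd (by norm_num) (by norm_num) (by norm_num)
  · exact bk_fin1 19 38 Q hQ2 hd (by norm_num) (by norm_num) (by norm_num)
  · exact bk_fin1 13 39 Q hQ2 hd (by norm_num) (by norm_num) (by norm_num)
  · exact bk_fin1 5 40 Q hQ2 hd (by norm_num) (by norm_num) (by norm_num)
  · exact bk_fin1 41 41 Q hQ2 hd (by norm_num) (by norm_num) (by norm_num)
  · exact absurd (by norm_num) h210
  · exact bk_fin1 43 43 Q hQ2 hd (by norm_num) (by norm_num) (by norm_num)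
  · exact bk_fin1 11 44 Q hQ2 hd (by norm_num) (by norm_num) (by norm_num)
  · exact bk_fin1 5 45 Q hQ2 hd (by norm_num) (by norm_num) (by norm_num)
  · exact bk_fin1 23 46 Q hQ2 hd (by norm_num) (by norm_num) (by norm_num)
  · exact bk_fin1 47 47 Q hQ2 hd (by norm_num) (by norm_num) (by norm_num)
  · exact bk_fin1 3 48 Q hQ2 hd (by norm_num) (by norm_num) (by norm_num)
  · exact bk_fin1 7 49 Q hQ2 hd (by norm_num) (by norm_num) (by norm_num)
  · exact bk_fin1 5 50 Q hQ2 hd (by norm_num) (by norm_num) (by norm_num)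
  · exact bk_fin1 17 51 Q hQ2 hd (by norm_num) (by norm_num) (by norm_num)
  · exact bk_fin1 13 52 Q hQ2 hd (by norm_num) (by norm_num) (by norm_num)
  · exact bk_fin1 53 53 Q hQ2 hd (by norm_num) (by norm_num) (by norm_num)
  · exact bk_fin1 3 54 Q hQ2 hd (by norm_num) (by norm_num) (by norm_num)
  · exact bk_fin1 11 55 Q hQ2 hd (by norm_num) (by norm_num) (by norm_num)
  · exact bk_fin1 7 56 Q hQ2 hd (by norm_num) (by norm_num) (by norm_num)
  · exact bk_fin1 19 57 Q hQ2 hd (by norm_num) (by norm_num) (by norm_num)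
  · exact bk_fin1 29 58 Q hQ2 hd (by norm_num) (by norm_num) (by norm_num)
  · exact bk_fin1 59 59 Q hQ2 hd (by norm_num) (by norm_num) (by norm_num)
  · exact bk_fin1 5 60 Q hQ2 hd (by norm_num) (by norm_num) (by norm_num)
  · exact bk_fin1 61 61 Q hQ2 hd (by norm_num) (by norm_num) (by norm_num)
  · exact bk_fin1 31 62 Q hQ2 hd (by norm_num) (by norm_num) (by norm_num)
  · exact bk_fin1 7 63 Q hQ2 hd (by norm_num) (by norm_num) (by norm_num)

/-- (cf6, size 4) Numbers: the other values of `e`. PROOF. `Q = p ^ a` is congruent to 1 modulo all the primes which divide `e`, `r = √V`, `r ^ 2 ≤ V < (r + 1) ^ 2`, `V ≥ Q ^ e`. It suffices that `e ^ 8 / 16 + 1 < Q ^ (e / 2)`. For `e ≥ 64` this follows from `Q ≥ 3` (induction). For `e < 64` (`interval_cases e`): the `e`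
without a divisor `s ^ k` as in the hypothesis are `2, 3, 5, 6, 7, 10, 14, 15, 21, 30, 35, 42`; for the others `Q - 1` is divisible by the product of the primes which divide `e`, which gives a lower bound for `Q` which suffices, except for `e = 11` (`Q = 12` is not a power of a prime, so `Q ≥ 23`), `e = 13` (`Q = 14` is not one, so
`Q ≥ 27`), `e = 25` (`Q = 6` is not one, so `Q ≥ 11`). Examples: `e = 20`: `Q ≥ 11`; `e = 24, 36, 48, 54`: `Q ≥ 7`; `e = 28, 56`: `Q ≥ 15`; `e = 17, 19, 23, ..`: `Q ≥ e + 1`. -/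
theorem bk_num (p a e V b s k : ℕ) (hp : p.Prime) (ha : 0 < a) (he : 2 ≤ e)
    (hd : ∀ s : ℕ, s.Prime → s ∣ e → s ∣ p ^ a - 1) (hV : (p ^ a) ^ e ≤ V)
    (h1 : 16 * b ≤ e ^ 8 * Nat.sqrt V) (hs : s.Prime) (hk : 0 < k) (hse : s ^ k ∣ e)
    (h4 : 4 ≤ s ^ k) (h5 : s ^ k ≠ 5) (h7 : s ^ k ≠ 7)
    (hsp : e ≠ 4 ∧ e ≠ 8 ∧ e ≠ 9 ∧ e ≠ 12 ∧ e ≠ 16 ∧ e ≠ 18 ∧ e ≠ 27 ∧ e ≠ 32) :
    b + 1 < V := by
  have hQ2 : 2 ≤ p ^ a := hp.two_le.trans (Nat.le_self_pow ha.ne' p)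
  have hN := bk_core p a e (p ^ a) s k hp rfl hQ2 he hd hs hk hse h4 h5 h7 hsp
  have hV2 : e ^ 16 + 512 < 256 * V := lt_of_lt_of_le hN (Nat.mul_le_mul_left _ hV)
  by_contra hb
  rw [not_lt] at hb
  obtain ⟨v, rfl⟩ : ∃ v, V = v + 2 := ⟨V - 2, by omega⟩
  have hr : Nat.sqrt (v + 2) ^ 2 ≤ v + 2 := Nat.sqrt_le' _
  have h8 : (16 * b) ^ 2 ≤ (e ^ 8 * Nat.sqrt (v + 2)) ^ 2 := Nat.pow_le_pow_left h1 2
  have h9 : (e ^ 8 * Nat.sqrt (v + 2)) ^ 2 ≤ e ^ 16 * (v + 2) := by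
    rw [mul_pow, ← pow_mul]
    exact Nat.mul_le_mul_left _ hr
  have h10 : (16 * (v + 1)) ^ 2 ≤ e ^ 16 * (v + 2) :=
    (Nat.pow_le_pow_left (by omega) 2).trans (h8.trans h9)
  have h11 : e ^ 16 < 256 * v := by omega
  generalize e ^ 16 = z at h10 h11
  nlinarith
-- END cf6

-- BEGIN cg1
private theorem cg1_pow {G : Type} [Group G] [Finite G] [IsCyclic G] {l : ℕ} (hl : l.Prime)
    {x y : G} (hx : orderOf x = l) (hy : y ^ l = 1) : ∃ j : ℕ, x ^ j = y := by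
  classical
  haveI := Fintype.ofFinite G
  have h1 : (Finset.univ.filter fun a : G => a ^ l = 1).card ≤ l :=
    IsCyclic.card_pow_eq_one_le hl.pos
  have h2 : Finset.image (fun j : ℕ => x ^ j) (Finset.range l) =
      (Finset.univ.filter fun a : G => a ^ l = 1) := by
    apply Finset.eq_of_subset_of_card_le
    · intro a ha
      rw [Finset.mem_image] at ha
      obtain ⟨j, -, rfl⟩ := ha
      rw [Finset.mem_filter]
      refine ⟨Finset.mem_univ _, ?_⟩
      rw [← pow_mul, mul_comm, pow_mul, ← hx, pow_orderOf_eq_one, one_pow]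
    · rw [Finset.card_image_of_injOn, Finset.card_range]
      · exact h1
      · intro i hi j hj hij
        rw [Finset.coe_range, Set.mem_Iio] at hi hj
        exact pow_injOn_Iio_orderOf (by rwa [Set.mem_Iio, hx]) (by rwa [Set.mem_Iio, hx]) hij
  have h3 : y ∈ Finset.image (fun j : ℕ => x ^ j) (Finset.range l) := by
    rw [h2, Finset.mem_filter]
    exact ⟨Finset.mem_univ _, hy⟩
  rw [Finset.mem_image] at h3
  obtain ⟨j, -, hj⟩ := h3
  exact ⟨j, hj⟩

private theorem cg1_five (P : Finset ℕ) (i : ℕ) (hi : 0 < i)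
    (hP : ∀ l ∈ P, l.Prime ∧ 5 ≤ l ∧ l ∣ i) : 5 * P.card ≤ i := by
  have h1 : ∏ l ∈ P, l ∣ i := by
    apply Finset.prod_primes_dvd
    · intro l hl
      exact (hP l hl).1.prime
    · intro l hl
      exact (hP l hl).2.2
  have h2 : 5 ^ P.card ≤ ∏ l ∈ P, l :=
    Finset.pow_card_le_prod (s := P) (f := fun l => l) (n := 5) fun l hl => (hP l hl).2.1
  have h3 : ∀ t : ℕ, 5 * (t + 1) ≤ 5 ^ (t + 1) := by
    intro t
    induction t with
    | zero => norm_num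
    | succ t ih =>
      rw [pow_succ]
      omega
  rcases Nat.eq_zero_or_pos P.card with h0 | h0
  · rw [h0]
    omega
  · obtain ⟨t, ht⟩ := Nat.exists_eq_succ_of_ne_zero h0.ne'
    have h4 := h3 t
    rw [ht] at h2 ⊢
    exact h4.trans (h2.trans (Nat.le_of_dvd hi h1))

private theorem cg1_cyc (K : Type) [Field K] [Finite K] [CharP K p] : IsCyclic (K ≃+* K) := by
  let _ := ZMod.algebra K p
  let e : (K ≃ₐ[ZMod p] K) →* (K ≃+* K) :=
    { toFun := fun f => f.toRingEquiv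
      map_one' := rfl
      map_mul' := fun f g => rfl }
  refine isCyclic_of_surjective e ?_
  intro f
  refine ⟨AlgEquiv.ofRingEquiv (f := f) fun r => ?_, ?_⟩
  · have h1 : (f : K →+* K).comp (algebraMap (ZMod p) K) = algebraMap (ZMod p) K :=
      Subsingleton.elim _ _
    exact congrArg (fun g : ZMod p →+* K => g r) h1
  · ext c
    rfl

/-- (cg1, size 4) The vectors which are fixed by an element of prime order `≥ 5` outside the centralizer. PROOF. `C = centralizer U`, `σ`, `K` of `qp_fld`: `L / C` is isomorphic to the range of `σ`, a subgroup of the automorphism group of the finite field `K`, which is cyclic. Its order `i = C.index` divides `a`. For a prime `l ≥ 5`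
with `l ∣ i` choose `y l ∈ L` such that the class of `y l` generates the subgroup of order `l` of `L / C`. If `x ∉ C` has prime order `l ≥ 5` then `l ∣ i` and some power `x ^ j` is in the coset `(y l) C`; `x ^ j` has order `l`, and it fixes the same vectors as `x`. So `Bg` is contained in the union over the primes `l ≥ 5` which divide `i`
and over the `x' ∈ (y l) C` of order `l` of the sets of the nonzero fixed vectors of `x'`. Let `c` be the maximum of the numbers `card {w // ρ x w = w}` for these `x` (`c = 1` if there is none): `c ^ 5 ≤ c ^ l ≤ card W` (`qp_gal`). The number of primes `l ≥ 5` which divide `i` is at most `i / 5 ≤ a / 5` (their product divides `i`, and `5 t ≤ 5 ^ t` for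
`t ≥ 1`). -/
theorem bg_cnt (h : QP ρ U) (a : ℕ) (ha : Nat.card (AA ρ U) = p ^ a) :
    ∃ c : ℕ, 0 < c ∧ c ^ 5 ≤ Nat.card W ∧
      5 * Nat.card (Bg ρ U) ≤ a * Nat.card (Subgroup.centralizer (U : Set L)) * (c - 1) ∧
      (Nat.card (Bg ρ U) ≠ 0 → ∃ l : ℕ, l.Prime ∧ 5 ≤ l ∧ l ∣ a) := by
  classical
  obtain ⟨b, hb, hU, hC, hAA, -, hfix⟩ := qp_gal h
  have hp : 2 ≤ p := (Fact.out : p.Prime).two_le
  have hab : b = a := Nat.pow_right_injective hp (hAA.symm.trans ha)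
  subst hab
  obtain ⟨K, iF, iFin, iCh, iMod, χ, σ, hχ, hχρ, hσρ, hσ, hgen⟩ := qp_fld h
  haveI : IsCyclic (K ≃+* K) := cg1_cyc (p := p) K
  haveI : Finite (K ≃+* K) :=
    Finite.of_injective (fun (f : K ≃+* K) => (f : K → K)) DFunLike.coe_injective
  have hker : Subgroup.centralizer (U : Set L) = σ.ker := by
    ext g
    rw [MonoidHom.mem_ker, hσ, Subgroup.mem_centralizer_iff]
    exact ⟨fun h1 u hu => (h1 u hu).symm, fun h1 u hu => (h1 u hu).symm⟩
  have hnc : ∀ x : L, (∃ u ∈ U, x * u ≠ u * x) → x ∉ Subgroup.centralizer (U : Set L) := by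
    rintro x ⟨u, hu, hxu⟩ hx
    rw [Subgroup.mem_centralizer_iff] at hx
    exact hxu (hx u hu).symm
  set i := (Subgroup.centralizer (U : Set L)).index with hi
  have hir : Nat.card σ.range = i := by rw [hi, hker, Subgroup.index_ker]
  have hi0 : 0 < i := Nat.pos_of_dvd_of_pos hC hb
  have hW : 0 < Nat.card W := Nat.card_pos
  obtain ⟨c, hc, hc2⟩ : ∃ t : ℕ, t ^ 5 ≤ Nat.card W ∧ ∀ s : ℕ, s ^ 5 ≤ Nat.card W → s ≤ t := by
    refine ⟨Nat.findGreatest (fun s => s ^ 5 ≤ Nat.card W) (Nat.card W), ?_, ?_⟩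
    · exact Nat.findGreatest_spec (P := fun s => s ^ 5 ≤ Nat.card W) (m := 0) (Nat.zero_le _)
        (by norm_num)
    · intro s hs2
      exact Nat.le_findGreatest ((Nat.le_self_pow (by norm_num) s).trans hs2) hs2
  have hc0 : 0 < c := hc2 1 (by rw [one_pow]; exact hW)
  have hfc : ∀ (l : ℕ) (x : L), l.Prime → 5 ≤ l → x ^ l = 1 →
      x ∉ Subgroup.centralizer (U : Set L) → Nat.card {w : W // ρ x w = w} ≤ c := by
    intro l x hl hl5 hxl hxc
    apply hc2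
    refine le_trans (Nat.pow_le_pow_right ?_ hl5) (hfix l x hl hxl hxc)
    haveI : Nonempty {w : W // ρ x w = w} := ⟨⟨0, map_zero _⟩⟩
    exact Nat.card_pos
  -- the order of `σ x`
  have hord : ∀ (l : ℕ) (x : L), l.Prime → x ^ l = 1 →
      x ∉ Subgroup.centralizer (U : Set L) → orderOf (σ x) = l := by
    intro l x hl hxl hxc
    haveI : Fact l.Prime := ⟨hl⟩
    refine orderOf_eq_prime ?_ ?_
    · rw [← map_pow, hxl, map_one]
    · intro h1
      exact hxc (by rw [hker]; exact h1)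
  have hdvd : ∀ (l : ℕ) (x : L), l.Prime → x ^ l = 1 →
      x ∉ Subgroup.centralizer (U : Set L) → l ∣ i := by
    intro l x hl hxl hxc
    rw [← hir, ← hord l x hl hxl hxc]
    have h1 : orderOf (⟨σ x, ⟨x, rfl⟩⟩ : σ.range) ∣ Nat.card σ.range := orderOf_dvd_natCard _
    rwa [← Subgroup.orderOf_coe] at h1
  set P : Finset ℕ := i.primeFactors.filter fun l => 5 ≤ l with hP
  have hP1 : ∀ l, l ∈ P ↔ l.Prime ∧ 5 ≤ l ∧ l ∣ i := by
    intro l
    rw [hP, Finset.mem_filter, Nat.mem_primeFactors]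
    constructor
    · rintro ⟨⟨h1, h2, -⟩, h3⟩
      exact ⟨h1, h3, h2⟩
    · rintro ⟨h1, h2, h3⟩
      exact ⟨⟨h1, h3, hi0.ne'⟩, h2⟩
  have hy : ∀ l : ℕ, ∃ y : L, l ∈ P → orderOf (σ y) = l := by
    intro l
    by_cases hl : l ∈ P
    · obtain ⟨h1, -, h3⟩ := (hP1 l).1 hl
      haveI : Fact l.Prime := ⟨h1⟩
      rw [← hir] at h3
      obtain ⟨⟨g, y, hy⟩, hg⟩ := exists_prime_orderOf_dvd_card' (G := σ.range) l h3
      refine ⟨y, fun _ => ?_⟩
      rw [hy, ← hg, ← Subgroup.orderOf_coe]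
    · exact ⟨1, fun h1 => absurd h1 hl⟩
  choose y hy using hy
  haveI := Fintype.ofFinite L
  haveI := Fintype.ofFinite W
  let C := Subgroup.centralizer (U : Set L)
  let T : ℕ → C → Finset W := fun l g => if (y l * (g : L)) ^ l = 1 then
    (Finset.univ.filter fun w : W => ρ (y l * (g : L)) w = w).erase 0 else ∅
  have hT : ∀ l ∈ P, ∀ g : C, (T l g).card ≤ c - 1 := by
    intro l hl g
    obtain ⟨h1, h2, h3⟩ := (hP1 l).1 hl
    by_cases hg : (y l * (g : L)) ^ l = 1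
    · simp only [T, if_pos hg]
      rw [Finset.card_erase_of_mem (by
        rw [Finset.mem_filter]
        exact ⟨Finset.mem_univ _, map_zero _⟩)]
      have h4 : y l * (g : L) ∉ Subgroup.centralizer (U : Set L) := by
        intro h5
        have h6 : y l ∈ Subgroup.centralizer (U : Set L) :=
          (Subgroup.mul_mem_cancel_right _ g.2).1 h5
        rw [hker, MonoidHom.mem_ker] at h6
        have h7 := hy l hl
        rw [h6, orderOf_one] at h7
        omega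
      have h5 := hfc l _ h1 h2 hg h4
      rw [Nat.card_eq_fintype_card, Fintype.card_subtype] at h5
      omega
    · simp only [T, if_neg hg]
      rw [Finset.card_empty]
      exact Nat.zero_le _
  have hcov : ∀ w ∈ Bg ρ U, ∃ l ∈ P, ∃ g : C, w ∈ T l g := by
    rintro w ⟨hw0, x, ⟨hx1, l, hl, hl5, hxl⟩, hxu, hxw⟩
    have hxc := hnc x hxu
    have hlP : l ∈ P := (hP1 l).2 ⟨hl, hl5, hdvd l x hl hxl hxc⟩
    obtain ⟨j, hj⟩ := cg1_pow hl (hord l x hl hxl hxc)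
      (y := σ (y l)) (by
        have h1 := pow_orderOf_eq_one (σ (y l))
        rwa [hy l hlP] at h1)
    have hg : (y l)⁻¹ * x ^ j ∈ C := by
      change _ ∈ Subgroup.centralizer (U : Set L)
      rw [hker, MonoidHom.mem_ker, map_mul, map_inv, map_pow, hj, inv_mul_cancel]
    refine ⟨l, hlP, ⟨_, hg⟩, ?_⟩
    have h2 : y l * ((y l)⁻¹ * x ^ j) = x ^ j := mul_inv_cancel_left _ _
    have h3 : (x ^ j) ^ l = 1 := by rw [← pow_mul, mul_comm, pow_mul, hxl, one_pow]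
    have h4 : ρ (x ^ j) w = w := by
      clear hj hg h2 h3
      induction j with
      | zero => rw [pow_zero, map_one]; rfl
      | succ j ih =>
        rw [pow_succ, map_mul]
        change ρ (x ^ j) (ρ x w) = w
        rw [hxw, ih]
    simp only [T, h2, if_pos h3]
    rw [Finset.mem_erase, Finset.mem_filter]
    exact ⟨hw0, Finset.mem_univ _, h4⟩
  have hcard : Nat.card (Bg ρ U) ≤ P.card * (Nat.card C * (c - 1)) := by
    have h1 : Nat.card (Bg ρ U) = (Finset.univ.filter fun w : W => w ∈ Bg ρ U).card := by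
      rw [Nat.card_eq_fintype_card, ← Set.toFinset_card]
      congr 1
      ext w
      rw [Set.mem_toFinset, Finset.mem_filter]
      exact ⟨fun h1 => ⟨Finset.mem_univ _, h1⟩, fun h1 => h1.2⟩
    have h2 : (Finset.univ.filter fun w : W => w ∈ Bg ρ U) ⊆
        P.biUnion fun l => (Finset.univ : Finset C).biUnion fun g => T l g := by
      intro w hw
      rw [Finset.mem_filter] at hw
      obtain ⟨l, hl, g, hg⟩ := hcov w hw.2
      rw [Finset.mem_biUnion]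
      exact ⟨l, hl, Finset.mem_biUnion.2 ⟨g, Finset.mem_univ _, hg⟩⟩
    rw [h1]
    refine (Finset.card_le_card h2).trans ?_
    refine Finset.card_biUnion_le_card_mul _ _ _ fun l hl => ?_
    rw [Nat.card_eq_fintype_card, ← Finset.card_univ]
    exact Finset.card_biUnion_le_card_mul _ _ _ fun g _ => hT l hl g
  refine ⟨c, hc0, hc, ?_, ?_⟩
  · have h1 : 5 * P.card ≤ b :=
      (cg1_five P i hi0 fun l hl => (hP1 l).1 hl).trans (Nat.le_of_dvd hb hC)
    calc 5 * Nat.card (Bg ρ U) ≤ 5 * (P.card * (Nat.card C * (c - 1))) :=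
          Nat.mul_le_mul_left 5 hcard
      _ = (5 * P.card) * (Nat.card C * (c - 1)) := by ring
      _ ≤ b * (Nat.card C * (c - 1)) := Nat.mul_le_mul_right _ h1
      _ = b * Nat.card C * (c - 1) := by ring
  · intro h0
    have h1 : 0 < Nat.card (Bg ρ U) := Nat.pos_of_ne_zero h0
    have h2 : Nonempty (Bg ρ U) := (Nat.card_pos_iff.1 h1).1
    obtain ⟨w, hw⟩ := h2
    obtain ⟨l, hl, -⟩ := hcov w hw
    obtain ⟨h3, h4, h5⟩ := (hP1 l).1 hl
    exact ⟨l, h3, h4, h5.trans hC⟩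
-- END cg1

-- BEGIN cg2
/-- A group with 4 elements has at most 6 automorphisms. -/
theorem cg2_aut (T : Type) [Group T] [Finite T] (h : Nat.card T = 4) :
    Nat.card (MulAut T) ≤ 6 := by
  have h1 : Nat.card {q : T // q ≠ 1} ≤ 3 := by
    have h2 : Nat.card {q : T // q ≠ 1} < Nat.card T :=
      Finite.card_subtype_lt (x := (1 : T)) (fun h => h rfl)
    omega
  let F : MulAut T → Equiv.Perm {q : T // q ≠ 1} := fun f =>
    f.toEquiv.subtypeEquiv fun q => by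
      show q ≠ 1 ↔ f q ≠ 1
      rw [ne_eq, ne_eq, map_eq_one_iff f f.injective]
  have hF : Function.Injective F := by
    intro f g hfg
    ext q
    by_cases hq : q = 1
    · rw [hq, map_one, map_one]
    · have h3 := Equiv.congr_fun hfg ⟨q, hq⟩
      exact congrArg Subtype.val h3
  calc Nat.card (MulAut T) ≤ Nat.card (Equiv.Perm {q : T // q ≠ 1}) :=
        Nat.card_le_card_of_injective F hF
    _ = (Nat.card {q : T // q ≠ 1}).factorial := Nat.card_perm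
    _ ≤ Nat.factorial 3 := Nat.factorial_le h1
    _ = 6 := rfl

theorem cg2_six {L : Type} [Group L] [Finite L] {U E : Subgroup L} {n : ℕ}
    {M : Fin n → Subgroup L} (hN : U.Normal) (hE : SE U E n M) (he : U.relIndex E = 4) :
    E.relIndex (Subgroup.centralizer (U : Set L)) ≤ 6 := by
  have := hN
  have := hE.nor
  let T : Subgroup (L ⧸ U) := E.map (QuotientGroup.mk' U)
  have hTN : T.Normal := Subgroup.Normal.map hE.nor _ (QuotientGroup.mk'_surjective U)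
  have hT : Nat.card T = 4 := by
    rw [← Subgroup.relIndex_bot_left, ← Subgroup.relIndex_comap, MonoidHom.comap_bot,
      QuotientGroup.ker_mk', he]
  have h1 := cg2_aut T hT
  refine le_trans ?_ h1
  let C := Subgroup.centralizer (U : Set L)
  let φ : L →* MulAut T := (MulAut.conjNormal (H := T)).comp (QuotientGroup.mk' U)
  have hφ : ∀ x y : L, φ x = φ y → x ∈ C → y ∈ C → y⁻¹ * x ∈ E := by
    intro x y hxy hx hy
    have hC : y⁻¹ * x ∈ C := C.mul_mem (C.inv_mem hy) hx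
    refine hE.big _ (fun u hu => ?_) fun z hz => ?_
    · exact (Subgroup.mem_centralizer_iff.1 hC u hu).symm
    · have h2 : φ (y⁻¹ * x) = 1 := by
        rw [map_mul, map_inv, hxy, inv_mul_cancel]
      have h3 := DFunLike.congr_fun h2 (⟨(QuotientGroup.mk' U) z, Subgroup.mem_map_of_mem _ hz⟩ : T)
      have h4 := congrArg Subtype.val h3
      have h5 : (QuotientGroup.mk' U) (y⁻¹ * x) * (QuotientGroup.mk' U) z *
          ((QuotientGroup.mk' U) (y⁻¹ * x))⁻¹ = (QuotientGroup.mk' U) z := h4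
      have h6 : (QuotientGroup.mk' U) (y⁻¹ * x * z * (y⁻¹ * x)⁻¹ * z⁻¹) = 1 := by
        rw [map_mul, map_mul, map_mul, map_inv _ z, map_inv _ (y⁻¹ * x), h5, mul_inv_cancel]
      have h7 : y⁻¹ * x * z * (y⁻¹ * x)⁻¹ * z⁻¹ ∈ (QuotientGroup.mk' U).ker :=
        MonoidHom.mem_ker.2 h6
      rwa [QuotientGroup.ker_mk'] at h7
  refine Nat.card_le_card_of_injective (fun q : C ⧸ E.subgroupOf C => φ (q.out : C)) ?_
  intro q q' hq
  have h2 := hφ _ _ hq (q.out : C).2 (q'.out : C).2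
  rw [← QuotientGroup.out_eq' q, ← QuotientGroup.out_eq' q']
  refine (QuotientGroup.eq.2 ?_).symm
  rw [Subgroup.mem_subgroupOf]
  exact h2

/-- (cg2, size 3) PROOF. `card C = card U * e ^ 2 * E.relIndex C` (`U ≤ E ≤ C`). `e = 2`: `E.relIndex C ≤ 6`: `C` acts by conjugation on the 4 elements of `E / U` and fixes the trivial one, and an element of `C` which acts trivially is in `E` (`big`). In general `4 * E.relIndex C ≤ e ^ 6` (`cs_ob`, `ob`). `card U ∣ p ^ a - 1` (`qp_gal`). -/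
theorem card_C (h : QP ρ U) (hs : Group.IsSolvable L) {E : Subgroup L} {n : ℕ}
    {M : Fin n → Subgroup L} (hE : SE U E n M) (hn : 0 < n) (e a : ℕ)
    (he : U.relIndex E = e ^ 2) (ha : Nat.card (AA ρ U) = p ^ a) :
    (e = 2 → Nat.card (Subgroup.centralizer (U : Set L)) ≤ 24 * (p ^ a - 1)) ∧
    4 * Nat.card (Subgroup.centralizer (U : Set L)) ≤ (p ^ a - 1) * e ^ 8 := by
  have hN : U.Normal := h.ab.nor
  have hEC : E ≤ Subgroup.centralizer (U : Set L) := fun x hx =>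
    Subgroup.mem_centralizer_iff.2 fun u hu => (hE.cU x hx u hu).symm
  obtain ⟨a', ha0, hUd, -, ha', -⟩ := qp_gal h
  have haa : p ^ a = p ^ a' := ha.symm.trans ha'
  have hp := (Fact.out : p.Prime).two_le
  have hpa : 0 < p ^ a' - 1 := by
    have h1 : 2 ≤ p ^ a' := hp.trans (Nat.le_self_pow ha0.ne' p)
    omega
  have hU : Nat.card U ≤ p ^ a - 1 := by
    rw [haa]
    exact Nat.le_of_dvd hpa hUd
  have hC : Nat.card (Subgroup.centralizer (U : Set L)) =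
      Nat.card U * (e ^ 2 * E.relIndex (Subgroup.centralizer (U : Set L))) := by
    rw [← he, Subgroup.relIndex_mul_relIndex _ _ _ hE.UE hEC, ← Subgroup.relIndex_bot_left,
      ← Subgroup.relIndex_bot_left, Subgroup.relIndex_mul_relIndex _ _ _ bot_le
        (hE.UE.trans hEC)]
  refine ⟨fun he2 => ?_, ?_⟩
  · subst he2
    have h6 := cg2_six hN hE (he.trans (by norm_num))
    rw [hC]
    calc Nat.card U * (2 ^ 2 * E.relIndex (Subgroup.centralizer (U : Set L)))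
        ≤ (p ^ a - 1) * (2 ^ 2 * 6) := Nat.mul_le_mul hU (Nat.mul_le_mul_left _ h6)
      _ = 24 * (p ^ a - 1) := by ring
  · have h6 := cs_ob hs hN hE hn (U.relIndex E) (ob _) le_rfl
    rw [hC]
    calc 4 * (Nat.card U * (e ^ 2 * E.relIndex (Subgroup.centralizer (U : Set L))))
        = Nat.card U * (e ^ 2 * (4 * E.relIndex (Subgroup.centralizer (U : Set L)))) := by ring
      _ ≤ (p ^ a - 1) * (e ^ 2 * (U.relIndex E ^ 3)) :=
          Nat.mul_le_mul hU (Nat.mul_le_mul_left _ h6)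
      _ = (p ^ a - 1) * e ^ 8 := by
          rw [he]
          ring
-- END cg2

-- BEGIN cg3
theorem cg3_one {s p a : ℕ} (hp : p.Prime) (hs : s ∣ p ^ a - 1) : (p : ZMod s) ^ a = 1 := by
  have h1 : ((p ^ a - 1 : ℕ) : ZMod s) = 0 := (ZMod.natCast_eq_zero_iff _ _).2 hs
  rw [Nat.cast_sub (Nat.one_le_pow _ _ hp.pos)] at h1
  push_cast at h1
  exact sub_eq_zero.1 h1

theorem cg3_ge {s p : ℕ} (hp : p.Prime) (h3 : 3 ≤ s) (h : (p : ZMod s) = 1) : 4 ≤ p := by
  have h1 : ((p - 1 : ℕ) : ZMod s) = 0 := by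
    rw [Nat.cast_sub hp.one_le, h]
    simp
  have h2 : s ∣ p - 1 := (ZMod.natCast_eq_zero_iff _ _).1 h1
  have h4 := hp.two_le
  have h5 := Nat.le_of_dvd (by omega) h2
  omega

theorem cg3_Q {p a l s : ℕ} (hp : p.Prime) (hl : l.Prime) (hl5 : 5 ≤ l) (hla : l ∣ a)
    (ha : 0 < a) (hs : s = 3 ∨ s = 5 ∨ s = 7) (hd : s ∣ p ^ a - 1) : 1024 ≤ p ^ a := by
  by_cases h10 : 10 ≤ a
  · calc 1024 = 2 ^ 10 := by norm_num
      _ ≤ 2 ^ a := Nat.pow_le_pow_right (by norm_num) h10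
      _ ≤ p ^ a := Nat.pow_le_pow_left hp.two_le a
  · have hal : a = 5 ∨ a = 7 := by
      obtain ⟨k, hk⟩ := hla
      have hk1 : k = 1 := by
        rcases Nat.lt_or_ge k 2 with h | h
        · interval_cases k
          · omega
          · rfl
        · have : 5 * 2 ≤ l * k := Nat.mul_le_mul hl5 h
          omega
      rw [hk1, mul_one] at hk
      have h9 : l ≤ 9 := by omega
      interval_cases l
      · left; exact hk
      · exact absurd hl (by norm_num)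
      · right; exact hk
      · exact absurd hl (by norm_num)
      · exact absurd hl (by norm_num)
    have h1 := cg3_one hp hd
    have h2 : (p : ZMod s) = 1 := by
      rcases hs with rfl | rfl | rfl <;> rcases hal with rfl | rfl
      · exact (by decide : ∀ x : ZMod 3, x ^ 5 = 1 → x = 1) _ h1
      · exact (by decide : ∀ x : ZMod 3, x ^ 7 = 1 → x = 1) _ h1
      · exact (by decide : ∀ x : ZMod 5, x ^ 5 = 1 → x = 1) _ h1
      · exact (by decide : ∀ x : ZMod 5, x ^ 7 = 1 → x = 1) _ h1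
      · exact (by decide : ∀ x : ZMod 7, x ^ 5 = 1 → x = 1) _ h1
      · exact (by decide : ∀ x : ZMod 7, x ^ 7 = 1 → x = 1) _ h1
    have h4 := cg3_ge hp (by omega) h2
    calc 1024 = 4 ^ 5 := by norm_num
      _ ≤ 4 ^ a := Nat.pow_le_pow_right (by norm_num) (by omega)
      _ ≤ p ^ a := Nat.pow_le_pow_left h4 a

theorem cg3_a5 (a : ℕ) (h : 5 ≤ a) : a ^ 5 ≤ 4 * (2 ^ a) ^ 2 := by
  induction a, h using Nat.le_induction with
  | base => norm_num
  | succ n hn ih =>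
    have h1 : (n + 1) ^ 5 ≤ 4 * n ^ 5 := by
      obtain ⟨m, rfl⟩ := Nat.exists_eq_add_of_le hn
      ring_nf
      nlinarith [sq_nonneg m, sq_nonneg (m ^ 2)]
    calc (n + 1) ^ 5 ≤ 4 * n ^ 5 := h1
      _ ≤ 4 * (4 * (2 ^ n) ^ 2) := Nat.mul_le_mul_left 4 ih
      _ = 4 * (2 ^ (n + 1)) ^ 2 := by ring

theorem cg3_a27 (a : ℕ) (h : 5 ≤ a) : (24 * a) ^ 5 ≤ 5 ^ 5 * (3 ^ a) ^ 3 := by
  induction a, h using Nat.le_induction with
  | base => norm_num
  | succ n hn ih =>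
    have h1 : (n + 1) ^ 5 ≤ 4 * n ^ 5 := by
      obtain ⟨m, rfl⟩ := Nat.exists_eq_add_of_le hn
      ring_nf
      nlinarith [sq_nonneg m, sq_nonneg (m ^ 2)]
    calc (24 * (n + 1)) ^ 5 = 24 ^ 5 * (n + 1) ^ 5 := by ring
      _ ≤ 24 ^ 5 * (4 * n ^ 5) := Nat.mul_le_mul_left _ h1
      _ = 4 * (24 * n) ^ 5 := by ring
      _ ≤ 4 * (5 ^ 5 * (3 ^ n) ^ 3) := Nat.mul_le_mul_left _ ih
      _ ≤ 27 * (5 ^ 5 * (3 ^ n) ^ 3) := Nat.mul_le_mul_right _ (by norm_num)
      _ = 5 ^ 5 * (3 ^ (n + 1)) ^ 3 := by ring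

theorem cg3_e16 (e : ℕ) (h : 10 ≤ e) : e ^ 16 ≤ 16 * 32 ^ e := by
  induction e, h using Nat.le_induction with
  | base => norm_num
  | succ n hn ih =>
    have h1 : (n + 1) ^ 16 ≤ 32 * n ^ 16 := by
      have h2 : 10 * (n + 1) ≤ 11 * n := by omega
      have h3 : (10 * (n + 1)) ^ 16 ≤ (11 * n) ^ 16 := Nat.pow_le_pow_left h2 16
      rw [mul_pow, mul_pow] at h3
      have h4 : 11 ^ 16 * n ^ 16 ≤ 10 ^ 16 * (32 * n ^ 16) := by
        rw [← mul_assoc]
        exact Nat.mul_le_mul_right _ (by norm_num)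
      exact Nat.le_of_mul_le_mul_left (h3.trans h4) (by positivity)
    calc (n + 1) ^ 16 ≤ 32 * n ^ 16 := h1
      _ ≤ 32 * (16 * 32 ^ n) := Nat.mul_le_mul_left _ ih
      _ = 16 * 32 ^ (n + 1) := by ring

theorem cg3_e40 (e : ℕ) (h : 7 ≤ e) : 4 * e ^ 40 ≤ 10 ^ 5 * 32 ^ (4 * e - 7) := by
  induction e, h using Nat.le_induction with
  | base => norm_num
  | succ n hn ih =>
    have h1 : (n + 1) ^ 40 ≤ 1048576 * n ^ 40 := by
      have h2 : 7 * (n + 1) ≤ 8 * n := by omega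
      have h3 : (7 * (n + 1)) ^ 40 ≤ (8 * n) ^ 40 := Nat.pow_le_pow_left h2 40
      rw [mul_pow, mul_pow] at h3
      have h4 : 8 ^ 40 * n ^ 40 ≤ 7 ^ 40 * (1048576 * n ^ 40) := by
        rw [← mul_assoc]
        exact Nat.mul_le_mul_right _ (by norm_num)
      exact Nat.le_of_mul_le_mul_left (h3.trans h4) (by positivity)
    have h5 : 4 * (n + 1) - 7 = (4 * n - 7) + 4 := by omega
    calc 4 * (n + 1) ^ 40 ≤ 4 * (1048576 * n ^ 40) := Nat.mul_le_mul_left _ h1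
      _ = 1048576 * (4 * n ^ 40) := by ring
      _ ≤ 1048576 * (10 ^ 5 * 32 ^ (4 * n - 7)) := Nat.mul_le_mul_left _ ih
      _ = 10 ^ 5 * 32 ^ (4 * (n + 1) - 7) := by rw [h5, pow_add]; ring

/-- Both numerical inequalities. -/
theorem cg3_ineq {p a e l : ℕ} (hp : p.Prime) (he : 3 ≤ e)
    (hd : ∀ s : ℕ, s.Prime → s ∣ e → s ∣ p ^ a - 1)
    (hl : l.Prime) (hl5 : 5 ≤ l) (hla : l ∣ a) (ha : 0 < a) :
    (4 ≤ e → e ^ 16 ≤ 16 * (p ^ a) ^ e) ∧ 4 * e ^ 40 ≤ 10 ^ 5 * (p ^ a) ^ (4 * e - 7) := by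
  have ha5 : 5 ≤ a := hl5.trans (Nat.le_of_dvd ha hla)
  have h32 : 32 ≤ p ^ a := by
    calc 32 = 2 ^ 5 := by norm_num
      _ ≤ 2 ^ a := Nat.pow_le_pow_right (by norm_num) ha5
      _ ≤ p ^ a := Nat.pow_le_pow_left hp.two_le a
  have h243 : 2 ∣ e → 243 ≤ p ^ a := by
    intro h2
    have h3 := hd 2 Nat.prime_two h2
    have h4 : p ≠ 2 := by
      rintro rfl
      have h5 : 2 ∣ 2 ^ a := dvd_pow_self 2 (by omega)
      have h6 : 1 ≤ 2 ^ a := Nat.one_le_two_pow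
      omega
    have h7 : 3 ≤ p := by
      have := hp.two_le
      omega
    calc 243 = 3 ^ 5 := by norm_num
      _ ≤ 3 ^ a := Nat.pow_le_pow_right (by norm_num) ha5
      _ ≤ p ^ a := Nat.pow_le_pow_left h7 a
  have hodd : ∀ s, (s = 3 ∨ s = 5 ∨ s = 7) → s ∣ e → 1024 ≤ p ^ a := by
    intro s hs hse
    have hsp : s.Prime := by rcases hs with rfl | rfl | rfl <;> norm_num
    exact cg3_Q hp hl hl5 hla ha hs (hd s hsp hse)
  have hpw : ∀ b n, b ≤ p ^ a → b ^ n ≤ (p ^ a) ^ n := fun b n h => Nat.pow_le_pow_left h n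
  rcases Nat.lt_or_ge e 10 with h | h
  · interval_cases e
    · have h1 := hodd 3 (Or.inl rfl) (by norm_num)
      refine ⟨fun h => absurd h (by norm_num), ?_⟩
      have := hpw 1024 (4 * 3 - 7) h1
      norm_num at this ⊢
      omega
    · have h1 := h243 (by norm_num)
      have t1 := hpw 243 4 h1
      have t2 := hpw 243 (4 * 4 - 7) h1
      norm_num at t1 t2 ⊢
      exact ⟨by omega, by omega⟩
    · have h1 := hodd 5 (Or.inr (Or.inl rfl)) (by norm_num)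
      have t1 := hpw 1024 5 h1
      have t2 := hpw 1024 (4 * 5 - 7) h1
      norm_num at t1 t2 ⊢
      exact ⟨by omega, by omega⟩
    · have h1 := h243 (by norm_num)
      have t1 := hpw 243 6 h1
      have t2 := hpw 243 (4 * 6 - 7) h1
      norm_num at t1 t2 ⊢
      exact ⟨by omega, by omega⟩
    · have h1 := hodd 7 (Or.inr (Or.inr rfl)) (by norm_num)
      have t1 := hpw 1024 7 h1
      have t2 := hpw 1024 (4 * 7 - 7) h1
      norm_num at t1 t2 ⊢
      exact ⟨by omega, by omega⟩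
    · have h1 := h243 (by norm_num)
      have t1 := hpw 243 8 h1
      have t2 := hpw 243 (4 * 8 - 7) h1
      norm_num at t1 t2 ⊢
      exact ⟨by omega, by omega⟩
    · have h1 := hodd 3 (Or.inl rfl) (by norm_num)
      have t1 := hpw 1024 9 h1
      have t2 := hpw 1024 (4 * 9 - 7) h1
      norm_num at t1 t2 ⊢
      exact ⟨by omega, by omega⟩
  · refine ⟨fun _ => ?_, ?_⟩
    · exact (cg3_e16 e h).trans (Nat.mul_le_mul_left _ (hpw 32 e h32))
    · exact (cg3_e40 e (by omega)).trans (Nat.mul_le_mul_left _ (hpw 32 _ h32))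

/-- (cg3, size 4) Numbers. `Q = p ^ a`, `a ≥ 5`. PROOF. Lower bounds for `Q`: `Q ≥ 32`; if `2 ∣ e` then `Q ≥ 3 ^ 5`. If `a ≥ 10` then `Q ≥ 1024`. If `a < 10` then `l ∣ a` gives `a = 5` or `a = 7`, and for an odd prime `s ∣ e`, `s ≤ 7`: the order of `p` modulo `s` divides `s - 1` and `a`, so it is 1 (`gcd (a, s - 1) = 1`), `p ≥ s + 1 ≥ 4`: `Q ≥ 1024`.
So `Q ≥ 1024` if `e` is one of `3, 5, 6, 7, 9`. `e = 2`: `bk = 0`, `B = 24 a (Q - 1)`: `5 bg ≤ B (c - 1)` and `(24 a) ^ 5 ≤ 5 ^ 5 Q ^ 3` (`Q ≥ 3 ^ a`; `a = 5`: `120 ^ 5 = 24883200000 < 3125 * 3 ^ 15 = 44840334375`), so `(B c) ^ 5 < (24 a) ^ 5 Q ^ 5 V ≤ 5 ^ 5 Q ^ 8 V ≤ (5 V) ^ 5`, `B c < 5 V`, and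
`bg + 1 < V` (`5 bg + 5 ≤ B c - B + 5 < 5 V`). `e ≥ 3`: (i) `16 bk ≤ e ^ 8 √V` and `(e ^ 8 / 4) ^ 2 ≤ Q ^ e ≤ V`, that is `e ^ 16 ≤ 16 Q ^ e`, so `4 bk ≤ V`. (ii) `20 bg ≤ a (Q - 1) e ^ 8 c`, `(a e ^ 8) ^ 5 ≤ 10 ^ 5 Q ^ (4 e - 5)`, so `(a Q e ^ 8 c) ^ 5 ≤ 10 ^ 5 Q ^ (4 e) V ≤ (10 V) ^ 5`, `20 bg ≤ 10 V`, `2 bg ≤ V`.
(iii) `bk + bg ≤ 3 V / 4 < V - 1`. Inequality (i): `e = 3, 5, 6, 7, 9`: `Q ≥ 1024`; `e = 4, 8`: `Q ≥ 243`; `e ≥ 10`: `e ^ 16 ≤ 16 * 32 ^ e` (induction). Inequality (ii): `Q ≥ 2 ^ a`, and the same lower bounds; `e = 3`: `(6561 a) ^ 5 ≤ 10 ^ 5 Q ^ 7` with `Q ≥ 1024` if `a ≤ 10`, `Q ≥ 2 ^ a` if `a ≥ 10`; `e = 4`: `Q ≥ 3 ^ a`: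
`(65536 a) ^ 5 ≤ 10 ^ 5 * 3 ^ (11 a)`; `e ≥ 5`: more room. -/
theorem bg_num (p a e V bk bg c N l : ℕ) (hp : p.Prime) (he : 2 ≤ e)
    (hd : ∀ s : ℕ, s.Prime → s ∣ e → s ∣ p ^ a - 1) (hV : (p ^ a) ^ e ≤ V)
    (hl : l.Prime) (hl5 : 5 ≤ l) (hla : l ∣ a) (ha : 0 < a) (h0 : e < 4 → bk = 0)
    (h1 : 16 * bk ≤ e ^ 8 * Nat.sqrt V) (hc : c ^ 5 ≤ V) (hc0 : 0 < c)
    (h2 : 5 * bg ≤ a * N * (c - 1)) (h3 : e = 2 → N ≤ 24 * (p ^ a - 1))
    (h4 : 4 * N ≤ (p ^ a - 1) * e ^ 8) : bk + bg + 1 < V := by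
  have ha5 : 5 ≤ a := hl5.trans (Nat.le_of_dvd ha hla)
  have hQ2 : 2 ^ a ≤ p ^ a := Nat.pow_le_pow_left hp.two_le a
  have h32 : 32 ≤ p ^ a := by
    calc 32 = 2 ^ 5 := by norm_num
      _ ≤ 2 ^ a := Nat.pow_le_pow_right (by norm_num) ha5
      _ ≤ p ^ a := hQ2
  rcases Nat.lt_or_ge e 3 with he3 | he3
  · -- `e = 2`
    have he2 : e = 2 := by omega
    subst he2
    have hbk : bk = 0 := h0 (by norm_num)
    have hN := h3 rfl
    have hp3 : 3 ≤ p := by
      have h5 := hd 2 Nat.prime_two (dvd_refl 2)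
      have h6 : p ≠ 2 := by
        rintro rfl
        have h7 : 2 ∣ 2 ^ a := dvd_pow_self 2 (by omega)
        have h8 : 1 ≤ 2 ^ a := Nat.one_le_two_pow
        omega
      have := hp.two_le
      omega
    have hQ3 : 3 ^ a ≤ p ^ a := Nat.pow_le_pow_left hp3 a
    obtain ⟨Q, hQ⟩ : ∃ Q, p ^ a = Q + 1 := ⟨p ^ a - 1, by omega⟩
    obtain ⟨b, hb⟩ : ∃ b, c = b + 1 := ⟨c - 1, by omega⟩
    have k1 : (24 * a) ^ 5 ≤ 5 ^ 5 * (p ^ a) ^ 3 :=
      (cg3_a27 a ha5).trans (Nat.mul_le_mul_left _ (Nat.pow_le_pow_left hQ3 3))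
    have k2 : (24 * a * p ^ a * c) ^ 5 ≤ (5 * V) ^ 5 := by
      calc (24 * a * p ^ a * c) ^ 5 = (24 * a) ^ 5 * (p ^ a) ^ 5 * c ^ 5 := by ring
        _ ≤ (5 ^ 5 * (p ^ a) ^ 3) * (p ^ a) ^ 5 * V :=
            Nat.mul_le_mul (Nat.mul_le_mul_right _ k1) hc
        _ = 5 ^ 5 * ((p ^ a) ^ 2) ^ 4 * V := by ring
        _ ≤ 5 ^ 5 * V ^ 4 * V :=
            Nat.mul_le_mul_right _ (Nat.mul_le_mul_left _ (Nat.pow_le_pow_left hV 4))
        _ = (5 * V) ^ 5 := by ring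
    have k3 : 24 * a * p ^ a * c ≤ 5 * V := (Nat.pow_le_pow_iff_left (by norm_num)).1 k2
    have k4 : 5 * bg ≤ a * (24 * Q) * b := by
      have e1 : p ^ a - 1 = Q := by omega
      have e2 : c - 1 = b := by omega
      rw [e1] at hN
      rw [e2] at h2
      exact h2.trans (Nat.mul_le_mul_right _ (Nat.mul_le_mul_left _ hN))
    have k5 : 24 * a * p ^ a * c = a * (24 * Q) * b + 24 * a * (Q + b + 1) := by
      rw [hQ, hb]
      ring
    have k6 : 5 * 24 ≤ 24 * a * (Q + b + 1) := by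
      calc 5 * 24 = 24 * 5 * 1 := by norm_num
        _ ≤ 24 * a * (Q + b + 1) := Nat.mul_le_mul (Nat.mul_le_mul_left _ ha5) (by omega)
    rw [hbk]
    omega
  · -- `e ≥ 3`
    obtain ⟨i1, i2⟩ := cg3_ineq hp he3 hd hl hl5 hla ha
    have hVpos : 32 ≤ V := by
      calc 32 ≤ p ^ a := h32
        _ = (p ^ a) ^ 1 := (pow_one _).symm
        _ ≤ (p ^ a) ^ e := Nat.pow_le_pow_right (by omega) (by omega)
        _ ≤ V := hV
    have j1 : 4 * bk ≤ V := by
      rcases Nat.lt_or_ge e 4 with h | h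
      · rw [h0 h]
        omega
      · have m1 : (16 * bk) ^ 2 ≤ (4 * V) ^ 2 := by
          calc (16 * bk) ^ 2 ≤ (e ^ 8 * Nat.sqrt V) ^ 2 := Nat.pow_le_pow_left h1 2
            _ = e ^ 16 * (Nat.sqrt V) ^ 2 := by ring
            _ ≤ (16 * (p ^ a) ^ e) * V := Nat.mul_le_mul (i1 h) (Nat.sqrt_le' V)
            _ ≤ (16 * V) * V := Nat.mul_le_mul_right _ (Nat.mul_le_mul_left _ hV)
            _ = (4 * V) ^ 2 := by ring
        have m2 : 16 * bk ≤ 4 * V := (Nat.pow_le_pow_iff_left (by norm_num)).1 m1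
        omega
    have j2 : 2 * bg ≤ V := by
      have n1 : 20 * bg ≤ a * p ^ a * e ^ 8 * c := by
        calc 20 * bg = 4 * (5 * bg) := by ring
          _ ≤ 4 * (a * N * (c - 1)) := Nat.mul_le_mul_left _ h2
          _ = a * (4 * N) * (c - 1) := by ring
          _ ≤ a * ((p ^ a - 1) * e ^ 8) * c :=
              Nat.mul_le_mul (Nat.mul_le_mul_left _ h4) (Nat.sub_le _ _)
          _ ≤ a * (p ^ a * e ^ 8) * c :=
              Nat.mul_le_mul_right _ (Nat.mul_le_mul_left _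
                (Nat.mul_le_mul_right _ (Nat.sub_le _ _)))
          _ = a * p ^ a * e ^ 8 * c := by ring
      have n2 : a ^ 5 ≤ 4 * (p ^ a) ^ 2 :=
        (cg3_a5 a ha5).trans (Nat.mul_le_mul_left _ (Nat.pow_le_pow_left hQ2 2))
      have n3 : (p ^ a) ^ (4 * e - 7) * (p ^ a) ^ 7 = ((p ^ a) ^ e) ^ 4 := by
        rw [← pow_add, ← pow_mul (p ^ a) e 4]
        congr 1
        omega
      have n4 : (a * p ^ a * e ^ 8 * c) ^ 5 ≤ (10 * V) ^ 5 := by
        calc (a * p ^ a * e ^ 8 * c) ^ 5 = a ^ 5 * ((p ^ a) ^ 5 * e ^ 40) * c ^ 5 := by ring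
          _ ≤ (4 * (p ^ a) ^ 2) * ((p ^ a) ^ 5 * e ^ 40) * V :=
              Nat.mul_le_mul (Nat.mul_le_mul_right _ n2) hc
          _ = (4 * e ^ 40) * (p ^ a) ^ 7 * V := by ring
          _ ≤ (10 ^ 5 * (p ^ a) ^ (4 * e - 7)) * (p ^ a) ^ 7 * V :=
              Nat.mul_le_mul_right _ (Nat.mul_le_mul_right _ i2)
          _ = 10 ^ 5 * ((p ^ a) ^ e) ^ 4 * V := by rw [mul_assoc (10 ^ 5), n3]
          _ ≤ 10 ^ 5 * V ^ 4 * V :=
              Nat.mul_le_mul_right _ (Nat.mul_le_mul_left _ (Nat.pow_le_pow_left hV 4))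
          _ = (10 * V) ^ 5 := by ring
      have n5 : a * p ^ a * e ^ 8 * c ≤ 10 * V := (Nat.pow_le_pow_iff_left (by norm_num)).1 n4
      omega
    omega
-- END cg3

-- BEGIN cg4
/-- (cg4, size 3) PROOF. `qp_E`; the centralizer `C` of `U` is not `U` (otherwise `L / U` is abelian by `qp_abq`), so `n > 0` (`SE.pos`), and `e ≥ 2` (`U < M 0 ≤ E`). `qp_gal`, `qp_dim`, `sq_ex`. Claim: `Bk ρ U ∪ Bg ρ U` is not the set of all nonzero vectors. If `Bg` is empty: `bk_48`, `bk_sp`, or `bk_gen`, `bk_num` (if `Bk` is empty it is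
clear as `card W > 1`). If `Bg` is not empty: `bk_gen`, `bg_cnt`, `card_C`, `bg_num` (`e < 4`: `s ^ k ∣ e` is impossible). Take `w ≠ 0` outside both sets. If a Sylow `r`-subgroup `R`, `r ≥ 5`, `r` not dividing `card U`, fixes `w` and is not trivial, then it contains an `x` of order `r`, and `w` is in one of the sets. -/
theorem cn (h : QP ρ U) (hs : Group.IsSolvable L)
    (hna : ¬ ∀ x y : L, x * y * x⁻¹ * y⁻¹ ∈ U) :
    ∃ w : W, w ≠ 0 ∧ ∀ r : ℕ, r.Prime → 5 ≤ r → ¬ r ∣ Nat.card U → ∀ R : Sylow r L,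
      (∀ x ∈ (R : Subgroup L), ρ x w = w) → ∀ x ∈ (R : Subgroup L), x = 1 := by
  classical
  obtain ⟨E, n, M, hE⟩ := qp_E h hs
  have hcyc := qp_cyc h
  have hprg : Prg U E := ⟨hcyc, hE.UE, hE.cU, hE.com, hE.cen⟩
  obtain ⟨e, he0, he, hep⟩ := sq_ex hprg
  have hex : ∃ x, (∀ u ∈ U, x * u = u * x) ∧ x ∉ U := by
    by_contra hcon
    push Not at hcon
    apply hna
    intro x y
    apply hcon
    intro u hu
    have h1 := qp_abq h x y
    rw [Subgroup.mem_centralizer_iff] at h1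
    exact (h1 u hu).symm
  have hn : 0 < n := hE.pos hex
  have he2 : 2 ≤ e := by
    by_contra hlt
    have h1 : e = 1 := by omega
    rw [h1, one_pow, Subgroup.relIndex_eq_one] at he
    have h2 := hE.mU ⟨0, hn⟩
    exact absurd (le_trans (hE.mE ⟨0, hn⟩) he) (not_le_of_gt h2)
  obtain ⟨a, ha0, hUa, _, hAA, ⟨d, hd0, hWd⟩, _⟩ := qp_gal h
  have hV : (p ^ a) ^ e ≤ Nat.card W := by
    rw [← hAA]
    exact qp_dim h hE e he
  have hdv : ∀ s : ℕ, s.Prime → s ∣ e → s ∣ p ^ a - 1 := fun s hsp hse =>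
    (hep s hsp hse).trans hUa
  obtain ⟨k1, k2⟩ := bk_gen h hs hE hn e he
  have hW1 : 1 < Nat.card W := Finite.one_lt_card
  have key : Nat.card (Bk ρ U) + Nat.card (Bg ρ U) + 1 < Nat.card W := by
    by_cases hg : Nat.card (Bg ρ U) = 0
    · rw [hg]
      by_cases hk : Nat.card (Bk ρ U) = 0
      · rw [hk]
        simpa using hW1
      · obtain ⟨s, k, hsp, hk0, hse, h4, h5, h7⟩ := k2 hk
        by_cases e1 : e = 4 ∨ e = 8
        · have := bk_48 h hs hE hn e he e1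
          omega
        · by_cases e3 : e = 9 ∨ e = 12 ∨ e = 16 ∨ e = 18 ∨ e = 27 ∨ e = 32
          · have := bk_sp h hs hE hn e he e3
            omega
          · have := bk_num p a e (Nat.card W) (Nat.card (Bk ρ U)) s k (Fact.out : p.Prime) ha0 he2
              hdv hV k1 hsp hk0 hse h4 h5 h7 (by omega)
            omega
    · obtain ⟨c, hc0, hc5, hb, hl⟩ := bg_cnt h a hAA
      obtain ⟨l, hlp, hl5, hla⟩ := hl hg
      obtain ⟨c1, c2⟩ := card_C h hs hE hn e a he hAA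
      refine bg_num p a e (Nat.card W) (Nat.card (Bk ρ U)) (Nat.card (Bg ρ U)) c
        (Nat.card (Subgroup.centralizer (U : Set L))) l (Fact.out : p.Prime) he2 hdv hV hlp hl5 hla
        ha0 ?_ k1 hc5 hc0 hb c1 c2
      intro he4
      by_contra hk
      obtain ⟨s, k, hsp, hk0, hse, h4, h5, h7⟩ := k2 hk
      have := Nat.le_of_dvd he0 hse
      omega
  have hex2 : ∃ w : W, w ∉ (Bk ρ U ∪ Bg ρ U) ∪ {0} := by
    by_contra hcon
    push Not at hcon
    have h1 : (Bk ρ U ∪ Bg ρ U) ∪ {0} = (Set.univ : Set W) := Set.eq_univ_of_forall hcon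
    have h2 : ((Bk ρ U ∪ Bg ρ U) ∪ {0}).ncard ≤ (Bk ρ U).ncard + (Bg ρ U).ncard + 1 := by
      refine (Set.ncard_union_le _ _).trans ?_
      rw [Set.ncard_singleton]
      have := Set.ncard_union_le (Bk ρ U) (Bg ρ U)
      omega
    rw [h1, Set.ncard_univ] at h2
    have h3 : (Bk ρ U).ncard = Nat.card (Bk ρ U) := rfl
    have h4 : (Bg ρ U).ncard = Nat.card (Bg ρ U) := rfl
    omega
  obtain ⟨w, hw⟩ := hex2
  simp only [Set.mem_union, Set.mem_singleton_iff, not_or] at hw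
  refine ⟨w, hw.2, ?_⟩
  intro r hr hr5 hrU R hfix x hx
  have : Fact r.Prime := ⟨hr⟩
  by_contra hx1
  obtain ⟨k, hk⟩ := (IsPGroup.iff_orderOf.mp R.isPGroup') ⟨x, hx⟩
  rw [Subgroup.orderOf_mk] at hk
  have hk0 : k ≠ 0 := by
    intro h0
    rw [h0, pow_zero, orderOf_eq_one_iff] at hk
    exact hx1 hk
  obtain ⟨k, rfl⟩ := Nat.exists_eq_succ_of_ne_zero hk0
  have hy1 : x ^ (r ^ k) ≠ 1 := by
    intro h0
    have h1 := orderOf_dvd_of_pow_eq_one h0
    rw [hk] at h1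
    have h2 := Nat.le_of_dvd (pow_pos hr.pos k) h1
    have h3 : r ^ k < r ^ (k + 1) := Nat.pow_lt_pow_right hr.one_lt (Nat.lt_succ_self k)
    exact absurd h2 (not_le_of_gt h3)
  have hyr : (x ^ (r ^ k)) ^ r = 1 := by
    rw [← pow_mul, ← pow_succ]
    have := pow_orderOf_eq_one x
    rw [hk] at this
    exact this
  have hyR : x ^ (r ^ k) ∈ (R : Subgroup L) := pow_mem hx _
  by_cases hcu : ∀ u ∈ U, x ^ (r ^ k) * u = u * x ^ (r ^ k)
  · exact hw.1.1 ⟨hw.2, _, ⟨hy1, r, hr, hr5, hrU, hyr⟩, hcu, hfix _ hyR⟩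
  · push Not at hcu
    exact hw.1.2 ⟨hw.2, _, ⟨hy1, r, hr, hr5, hyr⟩, hcu, hfix _ hyR⟩
-- END cg4

end

end Pool.Agent.Nfv
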