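import Pool.Agent.Nfv.Zl

/-! Subsets which no Sylow `r`-subgroup of a solvable transitive group stabilizes, `r ≥ 5`. -/

set_option autoImplicit false

namespace Pool.Agent.Nfv

open Pool.Agent.Nan Pool.Agent.Nas

section
variable {Y J : Type} [Group Y] [Finite Y] [Finite J] [MulAction Y J]

/-- `Δ` contains `j₀`, `j₁`, and no Sylow `r`-subgroup, `r ≥ 5`, which acts non-trivially, stabilizes it. -/
def Gd (Y : Type) {J : Type} [Group Y] [MulAction Y J] (j₀ j₁ : J) (Δ : Finset J) : Prop :=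
  j₀ ∈ Δ ∧ j₁ ∈ Δ ∧ (Nontrivial J → 2 ≤ Δ.card) ∧
    ∀ r : ℕ, r.Prime → 5 ≤ r → ∀ R : Sylow r Y,
      (∀ x ∈ (R : Subgroup Y), ∀ j ∈ Δ, x • j ∈ Δ) → ∀ x ∈ (R : Subgroup Y), ∀ j : J, x • j = j

-- BEGIN pf1
/-- (pf1, size 4) PROOF. `prim_reg`: `N` regular, commutative of prime exponent `s`, so `n = card J = card N = s ^ k`. If `x` fixes no point everything is clear. If `x` fixes a point `j₀` then the fixed points of `x` are the `n • j₀`, `n ∈ C = C_N(x)`, so their number is `card C`; `C` is not `N` (`C_Y(N) ≤ N`, and an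
`x ∈ N`, `x ≠ 1`, fixes no point). `card N / card C = s ^ m`, `m ≥ 1`. If `s = r` (so `r = 5` or `5` does not divide `n`) it is at least `r`. If `s ≠ r`: `x` permutes the elements of `N` outside `C` in orbits of length `r`, so `r ∣ card N - card C = card C * (s ^ m - 1)`, so `s ^ m ≡ 1` mod `r`, so `s ^ m ≥ r + 1`, and if `r = 5`, then
`s ^ m` is not `6`, so `s ^ m ≥ 11`. (Compare `fix_pt` of Nas/Pl.lean.) -/
theorem fix_pt [Nontrivial J] (hs : Group.IsSolvable Y)
    (hf : ∀ y : Y, (∀ j : J, y • j = j) → y = 1) (hp : MulAction.IsPreprimitive Y J) :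
    (∃ s k : ℕ, s.Prime ∧ 0 < k ∧ Nat.card J = s ^ k) ∧
    ∀ (r : ℕ) (x : Y), r.Prime → 5 ≤ r → x ^ r = 1 → x ≠ 1 →
      5 * Nat.card {j : J // x • j = j} ≤ Nat.card J ∧
      (¬ 5 ∣ Nat.card J → 7 * Nat.card {j : J // x • j = j} ≤ Nat.card J) ∧
      (¬ 5 ∣ Nat.card J → r = 5 → 11 * Nat.card {j : J // x • j = j} ≤ Nat.card J) := by
  obtain ⟨N, s, hN, hs', hexp, htr, hreg, hcen, -⟩ := prim_reg hs hf hp
  have hNn : N.Normal := hN.nor
  haveI : Fact s.Prime := ⟨hs'⟩
  have hpg : IsPGroup s N := fun a => ⟨1, by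
    rw [pow_one]; exact Subtype.ext (by simpa using hexp a a.2)⟩
  -- the bijection
  have hbij : ∀ j₀ : J, Function.Bijective (fun n : N => (n : Y) • j₀) := by
    intro j₀
    constructor
    · intro a b hab
      have h1 : ((b : Y)⁻¹ * (a : Y)) • j₀ = j₀ := by
        rw [mul_smul]
        have : (a : Y) • j₀ = (b : Y) • j₀ := hab
        rw [this, inv_smul_smul]
      have h2 := hreg _ (N.mul_mem (N.inv_mem b.2) a.2) j₀ h1
      exact Subtype.ext (inv_mul_eq_one.1 h2).symm
    · intro j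
      obtain ⟨n, hn, hnj⟩ := htr j₀ j
      exact ⟨⟨n, hn⟩, hnj⟩
  have hcardJ : Nat.card J = Nat.card N := by
    obtain ⟨j₀⟩ : Nonempty J := inferInstance
    exact (Nat.card_congr (Equiv.ofBijective _ (hbij j₀))).symm
  obtain ⟨k, hk⟩ := IsPGroup.iff_card.1 hpg
  have hJ2 : 1 < Nat.card J := Finite.one_lt_card
  have hk0 : 0 < k := by
    rcases Nat.eq_zero_or_pos k with h | h
    · rw [hcardJ, hk, h, pow_zero] at hJ2
      omega
    · exact h
  refine ⟨⟨s, k, hs', hk0, hcardJ.trans hk⟩, ?_⟩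
  intro r x hr hr5 hx hx1
  rcases isEmpty_or_nonempty {j : J // x • j = j} with he | ⟨⟨j₀, hj₀⟩⟩
  · simp
  have hxinv : x⁻¹ • j₀ = j₀ := by
    conv_lhs => rw [← hj₀]
    rw [inv_smul_smul]
  set C : Subgroup N := (Subgroup.centralizer {x}).subgroupOf N with hC
  have hmemC : ∀ n : N, n ∈ C ↔ x * n = n * x := by
    intro n
    rw [hC, Subgroup.mem_subgroupOf, Subgroup.mem_centralizer_singleton_iff]
    exact eq_comm
  have hfixC : ∀ n : N, x • ((n : Y) • j₀) = (n : Y) • j₀ ↔ n ∈ C := by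
    intro n
    rw [hmemC]
    constructor
    · intro h1
      have h2 : ((n : Y)⁻¹ * (x * n * x⁻¹)) • j₀ = j₀ := by
        rw [mul_smul, mul_smul, mul_smul, hxinv, h1, inv_smul_smul]
      have h3 := hreg _ (N.mul_mem (N.inv_mem n.2) (hNn.conj_mem _ n.2 x)) j₀ h2
      have h4 : x * (n : Y) * x⁻¹ = n := (inv_mul_eq_one.1 h3).symm
      exact mul_inv_eq_iff_eq_mul.1 h4
    · intro h1
      rw [smul_smul, h1, mul_smul, hj₀]
  have hcardFix : Nat.card {j : J // x • j = j} = Nat.card C := by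
    symm
    refine Nat.card_congr ?_
    exact (Equiv.ofBijective _ (hbij j₀)).subtypeEquiv (fun n => (hfixC n).symm)
  have hmul : Nat.card C * C.index = Nat.card N := Subgroup.card_mul_index C
  -- an element of `N` which does not commute with `x`
  have hxN : x ∉ N := fun h => hx1 (hreg x h j₀ hj₀)
  obtain ⟨n, hn, hnx⟩ : ∃ n ∈ N, ¬ x * n = n * x := by
    by_contra hcon
    push Not at hcon
    exact hxN (hcen x hcon)
  obtain ⟨m, hm⟩ := hpg.index C
  have hm0 : m ≠ 0 := by
    rintro rfl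
    rw [pow_zero, Subgroup.index_eq_one] at hm
    exact hnx ((hmemC ⟨n, hn⟩).1 (by rw [hm]; trivial))
  have hCpos : 0 < Nat.card C := Nat.card_pos
  have hsm : s ≤ C.index := by
    rw [hm]
    exact Nat.le_self_pow hm0 s
  have hs2 := hs'.two_le
  -- the second case
  have hmod : s ≠ r → C.index % r = 1 := by
    intro hsr
    haveI : Fact r.Prime := ⟨hr⟩
    have hxg : IsPGroup r (Subgroup.zpowers x) := by
      refine IsPGroup.of_card (n := 1) ?_
      rw [Nat.card_zpowers, pow_one]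
      exact orderOf_eq_prime hx hx1
    have h1 := hxg.card_modEq_card_fixedPoints J
    have h2 : Nat.card (MulAction.fixedPoints (Subgroup.zpowers x) J) =
        Nat.card {j : J // x • j = j} := by
      refine Nat.card_congr (Equiv.subtypeEquivRight fun j => ?_)
      rw [MulAction.mem_fixedPoints]
      constructor
      · intro h
        exact h ⟨x, Subgroup.mem_zpowers x⟩
      · rintro h ⟨g, hg⟩
        have h3 : Subgroup.zpowers x ≤ MulAction.stabilizer Y j := by
          rw [Subgroup.zpowers_le]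
          exact MulAction.mem_stabilizer_iff.2 h
        exact MulAction.mem_stabilizer_iff.1 (h3 hg)
    rw [h2, hcardFix, hcardJ, ← hmul] at h1
    have hcop : Nat.Coprime r (Nat.card C) := by
      have h3 : Nat.card C ∣ s ^ k := by
        rw [← hk, ← hmul]
        exact Dvd.intro _ rfl
      exact Nat.Coprime.coprime_dvd_right h3
        (Nat.Coprime.pow_right k ((Nat.coprime_primes hr hs').2 (Ne.symm hsr)))
    have h4 : Nat.card C * C.index ≡ Nat.card C * 1 [MOD r] := by
      rw [mul_one]; exact h1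
    have h5 := Nat.ModEq.cancel_left_of_coprime hcop h4
    have h6 : C.index % r = 1 % r := h5
    rw [h6, Nat.mod_eq_of_lt hr.one_lt]
  have hne6 : C.index ≠ 6 := by
    intro h6
    rw [hm] at h6
    have h2 : (2 : ℕ) ∣ s ^ m := by rw [h6]; norm_num
    have h3 : (3 : ℕ) ∣ s ^ m := by rw [h6]; norm_num
    have h2' := (Nat.prime_dvd_prime_iff_eq Nat.prime_two hs').1
      (Nat.prime_two.dvd_of_dvd_pow h2)
    have h3' := (Nat.prime_dvd_prime_iff_eq Nat.prime_three hs').1
      (Nat.prime_three.dvd_of_dvd_pow h3)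
    omega
  have hne1 : 2 ≤ C.index := hs2.trans hsm
  have hrs : s = r → r ≤ C.index := fun h => h ▸ hsm
  have hgt : s ≠ r → r + 1 ≤ C.index ∧ (r = 5 → 11 ≤ C.index) := by
    intro h
    have h1 := hmod h
    have h2 := Nat.div_add_mod C.index r
    rw [h1] at h2
    have h3 : 1 ≤ C.index / r := by
      rcases Nat.eq_zero_or_pos (C.index / r) with h4 | h4
      · rw [h4, mul_zero] at h2
        omega
      · exact h4
    have h5 : r * 1 ≤ r * (C.index / r) := Nat.mul_le_mul_left r h3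
    refine ⟨by omega, ?_⟩
    rintro rfl
    omega
  have hfin : ∀ q : ℕ, q ≤ C.index → q * Nat.card {j : J // x • j = j} ≤ Nat.card J := by
    intro q hq
    rw [hcardFix, hcardJ, ← hmul, mul_comm]
    exact Nat.mul_le_mul_left _ hq
  have h5J : s = 5 → 5 ∣ Nat.card J := by
    rintro rfl
    rw [hcardJ, hk]
    exact dvd_pow_self 5 (by omega)
  refine ⟨hfin 5 ?_, fun h5 => hfin 7 ?_, fun h5 hr5' => hfin 11 ?_⟩
  · by_cases h : s = r
    · exact hr5.trans (hrs h)
    · have := (hgt h).1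
      omega
  · by_cases h : s = r
    · have h1 : r ≠ 5 := fun h' => h5 (h5J (h.trans h'))
      have h2 : r ≠ 6 := by
        rintro rfl
        revert hr
        norm_num
      have h3 := hrs h
      omega
    · by_cases h' : r = 5
      · have := (hgt h).2 h'
        omega
      · have := (hgt h).1
        omega
  · by_cases h : s = r
    · exact absurd (h5J (h.trans hr5')) h5
    · exact (hgt h).2 hr5'
-- END pf1

-- BEGIN pf2
/-- The action by endomorphisms on a commutative group of exponent `r`. -/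
private noncomputable def pf2_rep {G S : Type} [Group G] [AddCommGroup S] (r : ℕ)
    [Module (ZMod r) S] (φ : G →* AddMonoid.End S) : Representation (ZMod r) G S where
  toFun y := AddMonoidHom.toZModLinearMap r (φ y)
  map_one' := by
    ext x
    show φ 1 x = x
    rw [map_one φ]
    rfl
  map_mul' a b := by
    ext x
    show φ (a * b) x = φ a (φ b x)
    rw [map_mul φ]
    rfl

private theorem pf2_bd {G S : Type} [Group G] [Finite G] [AddCommGroup S] [Finite S] [Nontrivial S]
    (hN : Nat.card S = 25) (hs : Group.IsSolvable G) (r : ℕ) (hr : r = 5)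
    [iM : Module (ZMod r) S] (φ : G →* AddMonoid.End S) (hfai : ∀ g, (∀ x, φ g x = x) → g = 1)
    (hirr : ∀ D : AddSubgroup S, (∀ g, ∀ x ∈ D, φ g x ∈ D) → D = ⊥ ∨ D = ⊤) (x : G) :
    ¬ P5 x := by
  subst hr
  have hf : ∀ h, (∀ w : S, pf2_rep 5 φ h w = w) → h = 1 := fun h hh => hfai h hh
  have hi : Irrd (pf2_rep 5 φ) ⊤ := by
    intro W hW
    rcases hirr W.toAddSubgroup fun g x hx => hW g (Subgroup.mem_top _) _ hx with h | h
    · left
      rw [Submodule.eq_bot_iff]
      intro w hw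
      have h1 : w ∈ W.toAddSubgroup := hw
      rw [h, AddSubgroup.mem_bot] at h1
      exact h1
    · right
      rw [Submodule.eq_top_iff']
      intro w
      have h1 : w ∈ W.toAddSubgroup := by
        rw [h]
        exact AddSubgroup.mem_top _
      exact h1
  exact zx25 (pf2_rep 5 φ) hs hf hi hN x

/-- (pf2, size 4) PROOF. `prim_reg`, the stabilizer `Y₀` of `j` acts faithfully and irreducibly by conjugation on `N` = `Additive N`, a module over `ZMod 5` (`card N = 25`), see the proof of `prim_card` in Nas/Ob.lean. `zx25`. -/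
theorem pl25 (hJ : Nat.card J = 25) (hs : Group.IsSolvable Y)
    (hf : ∀ y : Y, (∀ j : J, y • j = j) → y = 1) (hp : MulAction.IsPreprimitive Y J) (x : Y)
    (hx : P5 x) (j : J) : x • j ≠ j := by
  classical
  intro hxj
  have hntJ : Nontrivial J := by
    have : 1 < Nat.card J := by rw [hJ]; norm_num
    exact Finite.one_lt_card_iff_nontrivial.1 this
  obtain ⟨M, r, hab, hr, hexp, htr, hreg, hcen, hmin⟩ := prim_reg hs hf hp
  have hM := hab.nor
  have hcom := hab.com
  haveI := Fact.mk hr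
  have hbij : Function.Bijective (fun x : M => (x : Y) • j) := by
    constructor
    · intro a b hab
      have h1 : ((b : Y)⁻¹ * (a : Y)) • j = j := by
        have h2 : (a : Y) • j = (b : Y) • j := hab
        rw [mul_smul, h2, inv_smul_smul]
      have h3 := hreg _ (M.mul_mem (M.inv_mem b.2) a.2) j h1
      exact Subtype.ext (inv_mul_eq_one.1 h3).symm
    · intro j'
      obtain ⟨x, hx, hxj⟩ := htr j j'
      exact ⟨⟨x, hx⟩, hxj⟩
  have hcard : Nat.card M = 25 := (Nat.card_congr (Equiv.ofBijective _ hbij)).trans hJ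
  have hr5 : r = 5 := by
    have hnt : Nontrivial M := by
      have : 1 < Nat.card M := by rw [hcard]; norm_num
      exact Finite.one_lt_card_iff_nontrivial.1 this
    obtain ⟨m, hm⟩ := exists_ne (1 : M)
    have h1 : orderOf m ∣ r := orderOf_dvd_of_pow_eq_one (Subtype.ext (hexp m m.2))
    have h2 : orderOf m ∣ Nat.card M := orderOf_dvd_natCard m
    rw [hcard] at h2
    have h3 : orderOf m ≠ 1 := by
      rw [Ne, orderOf_eq_one_iff]
      exact hm
    have h4 : orderOf m = r := (hr.eq_one_or_self_of_dvd _ h1).resolve_left h3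
    rw [h4] at h2
    have h5 : r ∣ 5 ^ 2 := by simpa using h2
    exact (Nat.prime_dvd_prime_iff_eq hr Nat.prime_five).1 (hr.dvd_of_dvd_pow h5)
  letI iC : CommGroup M :=
    { (inferInstance : Group M) with
      mul_comm := fun a b => Subtype.ext (hcom a a.2 b b.2) }
  have hsol : Group.IsSolvable (MulAction.stabilizer Y j) := by
    haveI := hs
    infer_instance
  have hnt : Nontrivial (Additive M) := by
    obtain ⟨a, b, hab⟩ := exists_pair_ne J
    obtain ⟨x, hx⟩ := hbij.2 a
    obtain ⟨y, hy⟩ := hbij.2 b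
    refine ⟨Additive.ofMul x, Additive.ofMul y, fun hxy => hab ?_⟩
    have h1 : x = y := hxy
    rw [← hx, ← hy, h1]
  let φ : MulAction.stabilizer Y j →* MulAut M :=
    MulAut.conjNormal.comp (MulAction.stabilizer Y j).subtype
  have hφ : ∀ (y : MulAction.stabilizer Y j) (x : M),
      ((φ y x : M) : Y) = (y : Y) * (x : Y) * (y : Y)⁻¹ :=
    fun y x => MulAut.conjNormal_apply _ _
  let θ : MulAction.stabilizer Y j →* AddMonoid.End (Additive M) :=
    { toFun := fun y => MonoidHom.toAdditive (φ y).toMonoidHom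
      map_one' := by
        refine AddMonoidHom.ext fun x => ?_
        show Additive.ofMul (φ 1 (Additive.toMul x)) = x
        rw [map_one φ]
        rfl
      map_mul' := fun a b => by
        refine AddMonoidHom.ext fun x => ?_
        show Additive.ofMul (φ (a * b) (Additive.toMul x)) =
          Additive.ofMul (φ a (φ b (Additive.toMul x)))
        rw [map_mul φ]
        rfl }
  have hexp' : ∀ x : Additive M, r • x = 0 := fun x =>
    Subtype.ext (hexp _ (Additive.toMul x).2)
  have hfai : ∀ y, (∀ x, θ y x = x) → y = 1 := by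
    intro y hy
    have h1 : (y : Y) ∈ M := by
      refine hcen _ fun x hx => ?_
      have h2 := hφ y ⟨x, hx⟩
      have h4 : φ y ⟨x, hx⟩ = ⟨x, hx⟩ := hy (Additive.ofMul ⟨x, hx⟩)
      rw [h4] at h2
      have h3 : x = (y : Y) * x * (y : Y)⁻¹ := h2
      exact (eq_mul_inv_iff_mul_eq.1 h3).symm
    have h2 := hreg _ h1 j y.2
    exact Subtype.ext h2
  have hirr : ∀ D : AddSubgroup (Additive M), (∀ g, ∀ x ∈ D, θ g x ∈ D) → D = ⊥ ∨ D = ⊤ := by
    intro D' hD'
    let D : Subgroup M := AddSubgroup.toSubgroup' D'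
    have hD : ∀ g, ∀ x ∈ D, φ g x ∈ D := fun g x hx => hD' g _ hx
    have hnor : (D.map M.subtype).Normal := by
      refine ⟨fun y hy g => ?_⟩
      obtain ⟨z, hzD, rfl⟩ := hy
      obtain ⟨m, hm, hmj⟩ := htr j (g • j)
      have hst : m⁻¹ * g ∈ MulAction.stabilizer Y j := by
        rw [MulAction.mem_stabilizer_iff, mul_smul, ← hmj, inv_smul_smul]
      have h1 : g * (z : Y) * g⁻¹ = (m⁻¹ * g) * (z : Y) * (m⁻¹ * g)⁻¹ := by
        have h2 : (m⁻¹ * g) * (z : Y) * (m⁻¹ * g)⁻¹ ∈ M := hM.conj_mem (z : Y) z.2 _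
        have h3 : g * (z : Y) * g⁻¹ = m * ((m⁻¹ * g) * (z : Y) * (m⁻¹ * g)⁻¹) * m⁻¹ := by group
        rw [h3, hcom m hm _ h2, mul_assoc, mul_inv_cancel, mul_one]
      exact ⟨φ ⟨m⁻¹ * g, hst⟩ z, hD _ z hzD, (hφ ⟨m⁻¹ * g, hst⟩ z).trans h1.symm⟩
    have hle : D.map M.subtype ≤ M := by
      rintro y ⟨z, _, rfl⟩
      exact z.2
    rcases hmin _ hnor hle with h | h
    · left
      rw [eq_bot_iff]
      intro x hx
      have h1 : ((Additive.toMul x : M) : Y) ∈ D.map M.subtype := ⟨Additive.toMul x, hx, rfl⟩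
      rw [h, Subgroup.mem_bot] at h1
      rw [AddSubgroup.mem_bot]
      exact Subtype.ext h1
    · right
      rw [eq_top_iff]
      intro x _
      have h1 : ((Additive.toMul x : M) : Y) ∈ D.map M.subtype := by
        rw [h]
        exact (Additive.toMul x).2
      obtain ⟨z, hz, hzx⟩ := h1
      have h2 : z = Additive.toMul x := Subtype.ext hzx
      have h3 : Additive.ofMul z ∈ D' := hz
      rw [h2] at h3
      exact h3
  have hc' : Nat.card (Additive M) = 25 := hcard
  have hxs : x ∈ MulAction.stabilizer Y j := by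
    rw [MulAction.mem_stabilizer_iff]
    exact hxj
  have hP : P5 (⟨x, hxs⟩ : MulAction.stabilizer Y j) := by
    obtain ⟨h1, l, h2, h3, h4⟩ := hx
    refine ⟨fun h => h1 (congrArg Subtype.val h), l, h2, h3, Subtype.ext h4⟩
  exact @pf2_bd (MulAction.stabilizer Y j) (Additive M) _ _ _ _ hnt hc' hsol r hr5
    (AddCommGroup.zmodModule hexp') θ hfai hirr ⟨x, hxs⟩ hP
-- END pf2

-- BEGIN pf3
omit [Finite Y] [Finite J] in
private theorem pf3_fix {r : ℕ} (hr : r.Prime) (x : Y) (hx : x ^ r = 1) (Δ : Finset J)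
    (hc : Δ.card < r) (hs : ∀ j ∈ Δ, x • j ∈ Δ) : ∀ j ∈ Δ, x • j = j := by
  intro j hj
  have hmem : ∀ i : ℕ, x ^ i • j ∈ Δ := by
    intro i
    induction i with
    | zero => simpa using hj
    | succ i ih => rw [pow_succ', mul_smul]; exact hs _ ih
  obtain ⟨a, ha, b, hb, hab, he⟩ := Finset.exists_ne_map_eq_of_card_lt_of_maps_to
    (s := Finset.range r) (t := Δ) (f := fun i => x ^ i • j) (by simpa using hc)
    (fun i _ => hmem i)
  have ha' : a < r := by simpa using ha
  have hb' : b < r := by simpa using hb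
  have key : ∀ a b : ℕ, a < b → b < r → x ^ a • j = x ^ b • j → x • j = j := by
    intro a b hlt hbr he
    have h1 : x ^ (b - a) • j = j := by
      have h2 : x ^ b = x ^ a * x ^ (b - a) := by rw [← pow_add]; congr 1; omega
      rw [h2, mul_smul] at he
      exact (MulAction.injective (x ^ a) he).symm
    have hco : Nat.Coprime r (b - a) := Nat.coprime_of_lt_prime (by omega) (by omega) hr
    have p1 : Function.IsPeriodicPt (fun i : J => x • i) (b - a) j := by
      show (fun i : J => x • i)^[b - a] j = j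
      rw [smul_iterate]
      exact h1
    have p2 : Function.IsPeriodicPt (fun i : J => x • i) r j := by
      show (fun i : J => x • i)^[r] j = j
      rw [smul_iterate, hx]
      exact one_smul _ _
    have p3 := p2.gcd p1
    rw [hco] at p3
    exact p3
  rcases lt_or_gt_of_ne hab with h | h
  · exact key a b h hb' he
  · exact key b a h ha' he.symm

omit [Finite Y] in
private theorem pf3_el {r : ℕ} (R : Sylow r Y) (x : Y) (hx : x ∈ (R : Subgroup Y))
    (h1 : x ≠ 1) : ∃ y ∈ (R : Subgroup Y), y ^ r = 1 ∧ y ≠ 1 := by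
  classical
  have hex : ∃ k : ℕ, x ^ (r ^ k) = 1 := by
    obtain ⟨k, hk⟩ := R.isPGroup' ⟨x, hx⟩
    refine ⟨k, ?_⟩
    have := congrArg (Subtype.val) hk
    simpa using this
  have hk0 : Nat.find hex ≠ 0 := by
    intro h0
    have h2 := Nat.find_spec hex
    rw [h0] at h2
    exact h1 (by simpa using h2)
  obtain ⟨k, hk⟩ := Nat.exists_eq_succ_of_ne_zero hk0
  refine ⟨x ^ (r ^ k), Subgroup.pow_mem _ hx _, ?_, ?_⟩
  · have h2 := Nat.find_spec hex
    rw [hk] at h2
    rw [← pow_mul, ← pow_succ]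
    exact h2
  · exact Nat.find_min hex (by omega)

/-- the number of the stable sets is at most `2 ^ c`, `c` the number of orbits -/
private theorem pf3_cnt (r n q : ℕ) (hr : r.Prime) (hn : n = Nat.card J)
    (x : Y) (hx : x ^ r = 1) (hx1 : x ≠ 1)
    (hfp : ∀ y : Y, y ^ r = 1 → y ≠ 1 → q * Nat.card {j : J // y • j = j} ≤ Nat.card J) :
    ∃ c : ℕ, q * (c * r) ≤ (q + (r - 1)) * n ∧
      Nat.card {Δ : Finset J // ∀ j ∈ Δ, x • j ∈ Δ} ≤ 2 ^ c := by
  classical
  let _ : Fintype Y := Fintype.ofFinite Y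
  let _ : Fintype J := Fintype.ofFinite J
  set G := Subgroup.zpowers x with hG
  let _ : Fintype G := Fintype.ofFinite G
  let _ : Fintype (Quotient (MulAction.orbitRel G J)) := Fintype.ofFinite _
  have hB := MulAction.sum_card_fixedBy_eq_card_orbits_mul_card_group G J
  have hcG : Fintype.card G = r := by
    have := Fact.mk hr
    rw [← Nat.card_eq_fintype_card, Nat.card_zpowers]
    exact orderOf_eq_prime hx hx1
  have hfix1 : Fintype.card (MulAction.fixedBy J (1 : G)) ≤ n := by
    rw [hn, Nat.card_eq_fintype_card]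
    exact Fintype.card_subtype_le _
  have hone : ∀ g ∈ (Finset.univ.erase (1 : G)),
      q * Fintype.card (MulAction.fixedBy J g) ≤ n := by
    intro g hg
    have hg1' : g ≠ 1 := Finset.ne_of_mem_erase hg
    have hgr : (g : Y) ^ r = 1 := by
      obtain ⟨g, hg'⟩ := g
      obtain ⟨k, hk⟩ := Subgroup.mem_zpowers_iff.1 hg'
      show g ^ r = 1
      rw [← hk, ← zpow_natCast, ← zpow_mul, mul_comm, zpow_mul, zpow_natCast, hx, one_zpow]
    have hg1 : (g : Y) ≠ 1 := fun h => hg1' (Subtype.ext h)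
    have h3 := hfp g hgr hg1
    have h4 : Fintype.card (MulAction.fixedBy J g) = Nat.card {j : J // (g : Y) • j = j} := by
      rw [← Nat.card_eq_fintype_card]
      rfl
    rw [h4, hn]
    exact h3
  have hsum : q * (Fintype.card (Quotient (MulAction.orbitRel G J)) * r) ≤
      (q + (r - 1)) * n := by
    rw [← hcG, ← hB, Finset.mul_sum, ← Finset.add_sum_erase _ _ (Finset.mem_univ (1 : G)),
      add_mul]
    refine Nat.add_le_add (Nat.mul_le_mul_left _ hfix1) ?_
    refine (Finset.sum_le_sum hone).trans ?_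
    rw [Finset.sum_const, Finset.card_erase_of_mem (Finset.mem_univ _), Finset.card_univ,
      smul_eq_mul]
  refine ⟨_, hsum, ?_⟩
  have hinv : ∀ Δ : Finset J, (∀ j ∈ Δ, x • j ∈ Δ) → ∀ g : G, ∀ j ∈ Δ, g • j ∈ Δ := by
    intro Δ hΔ g j hj
    obtain ⟨g, hg'⟩ := g
    show g • j ∈ Δ
    have hg2 : g ∈ Submonoid.powers x := mem_powers_iff_mem_zpowers.2 hg'
    obtain ⟨k, hk⟩ := hg2
    have hk' : x ^ k = g := hk
    rw [← hk']
    clear hk hk' hg'
    induction k with
    | zero => simpa using hj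
    | succ k ih => rw [pow_succ', mul_smul]; exact hΔ _ ih
  let F : {Δ : Finset J // ∀ j ∈ Δ, x • j ∈ Δ} → Set (Quotient (MulAction.orbitRel G J)) :=
    fun Δ => {q | ∃ j ∈ Δ.1, Quotient.mk (MulAction.orbitRel G J) j = q}
  have hsub : ∀ Δ Δ' : {Δ : Finset J // ∀ j ∈ Δ, x • j ∈ Δ}, F Δ = F Δ' → Δ.1 ⊆ Δ'.1 := by
    intro Δ Δ' h j hj
    have h1 : Quotient.mk (MulAction.orbitRel G J) j ∈ F Δ := ⟨j, hj, rfl⟩
    rw [h] at h1
    obtain ⟨j', hj', he⟩ := h1
    have h2 : MulAction.orbitRel G J j j' := (Quotient.exact he.symm)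
    obtain ⟨g, hg⟩ := MulAction.orbitRel_apply.1 h2
    have hg' : g • j' = j := hg
    rw [← hg']
    exact hinv Δ'.1 Δ'.2 g j' hj'
  have hF : Function.Injective F := by
    intro Δ Δ' h
    exact Subtype.ext (Finset.Subset.antisymm (hsub _ _ h) (hsub _ _ h.symm))
  have hc := Nat.card_le_card_of_injective F hF
  refine hc.trans ?_
  rw [Nat.card_eq_fintype_card, Fintype.card_set]

private theorem pf3_pow (m : ℕ) (hm : 6 ≤ m) : (m + 1) ^ 4 ≤ 2 * m ^ 4 := by
  obtain ⟨k, rfl⟩ := Nat.exists_eq_add_of_le hm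
  ring_nf
  nlinarith [sq_nonneg k]

private theorem pf3_num1 (n : ℕ) (hn : 28 ≤ n) : n ^ 4 * 2 ^ (3 * n / 11) < 2 ^ n := by
  have h1 : ∀ m : ℕ, 21 ≤ m → (11 * m) ^ 4 < 4096 * 2 ^ m := by
    intro m hm
    induction m, hm using Nat.le_induction with
    | base => norm_num
    | succ m hm ih =>
      have h2 := pf3_pow m (by omega)
      calc (11 * (m + 1)) ^ 4 = 11 ^ 4 * (m + 1) ^ 4 := by rw [mul_pow]
        _ ≤ 11 ^ 4 * (2 * m ^ 4) := Nat.mul_le_mul_left _ h2
        _ = 2 * (11 * m) ^ 4 := by ring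
        _ < 2 * (4096 * 2 ^ m) := by omega
        _ = 4096 * 2 ^ (m + 1) := by ring
  have h3 : n ^ 4 < 2 ^ (n - 3 * n / 11) := by
    have h4 := h1 (n - 3 * n / 11) (by omega)
    have h5 : (8 * n) ^ 4 ≤ (11 * (n - 3 * n / 11)) ^ 4 := Nat.pow_le_pow_left (by omega) 4
    have h6 : (8 * n) ^ 4 = 4096 * n ^ 4 := by ring
    omega
  calc n ^ 4 * 2 ^ (3 * n / 11) < 2 ^ (n - 3 * n / 11) * 2 ^ (3 * n / 11) :=
        Nat.mul_lt_mul_of_pos_right h3 (by positivity)
    _ = 2 ^ n := by rw [← pow_add]; congr 1; omega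

private theorem pf3_num2 (n : ℕ) (hn : 30 ≤ n) : n ^ 4 * 2 ^ (9 * n / 25) < 2 ^ n := by
  have h1 : ∀ m : ℕ, 20 ≤ m → (25 * m) ^ 4 < 65536 * 2 ^ m := by
    intro m hm
    induction m, hm using Nat.le_induction with
    | base => norm_num
    | succ m hm ih =>
      have h2 := pf3_pow m (by omega)
      calc (25 * (m + 1)) ^ 4 = 25 ^ 4 * (m + 1) ^ 4 := by rw [mul_pow]
        _ ≤ 25 ^ 4 * (2 * m ^ 4) := Nat.mul_le_mul_left _ h2
        _ = 2 * (25 * m) ^ 4 := by ring
        _ < 2 * (65536 * 2 ^ m) := by omega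
        _ = 65536 * 2 ^ (m + 1) := by ring
  have h3 : n ^ 4 < 2 ^ (n - 9 * n / 25) := by
    have h4 := h1 (n - 9 * n / 25) (by omega)
    have h5 : (16 * n) ^ 4 ≤ (25 * (n - 9 * n / 25)) ^ 4 := Nat.pow_le_pow_left (by omega) 4
    have h6 : (16 * n) ^ 4 = 65536 * n ^ 4 := by ring
    omega
  calc n ^ 4 * 2 ^ (9 * n / 25) < 2 ^ (n - 9 * n / 25) * 2 ^ (9 * n / 25) :=
        Nat.mul_lt_mul_of_pos_right h3 (by positivity)
    _ = 2 ^ n := by rw [← pow_add]; congr 1; omega

/-- the bound for the number of the stable sets -/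
private noncomputable def pf3_e (n : ℕ) : ℕ := if 5 ∣ n then 9 * n / 25 else 3 * n / 11

private theorem pf3_num (n : ℕ) (hn : 28 ≤ n) : n ^ 4 * 2 ^ pf3_e n < 2 ^ n := by
  unfold pf3_e
  split_ifs with h
  · exact pf3_num2 n (by omega)
  · exact pf3_num1 n hn

private theorem pf3_orb [Nontrivial J] (hs : Group.IsSolvable Y)
    (hf : ∀ y : Y, (∀ j : J, y • j = j) → y = 1) (hp : MulAction.IsPreprimitive Y J)
    (r : ℕ) (hr : r.Prime) (hr5 : 5 ≤ r) (x : Y) (hx : x ^ r = 1) (hx1 : x ≠ 1) :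
    Nat.card {Δ : Finset J // ∀ j ∈ Δ, x • j ∈ Δ} ≤ 2 ^ pf3_e (Nat.card J) := by
  obtain ⟨-, hfp⟩ := fix_pt hs hf hp
  unfold pf3_e
  split_ifs with h5
  · obtain ⟨c, hc, hcard⟩ := pf3_cnt r (Nat.card J) 5 hr rfl x hx hx1
      (fun y hy hy1 => (hfp r y hr hr5 hy hy1).1)
    refine hcard.trans (Nat.pow_le_pow_right (by norm_num) ?_)
    have hle : 25 * c ≤ 9 * Nat.card J := by
      obtain ⟨t, rfl⟩ := Nat.exists_eq_add_of_le hr5
      have h1 : 5 + (5 + t - 1) = 9 + t := by omega
      rw [h1] at hc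
      nlinarith
    omega
  · rcases eq_or_ne r 5 with hr5' | hr5'
    · obtain ⟨c, hc, hcard⟩ := pf3_cnt r (Nat.card J) 11 hr rfl x hx hx1
        (fun y hy hy1 => (hfp r y hr hr5 hy hy1).2.2 h5 hr5')
      refine hcard.trans (Nat.pow_le_pow_right (by norm_num) ?_)
      subst hr5'
      omega
    · have hr7 : 7 ≤ r := by
        have h6 : r ≠ 6 := by
          rintro rfl
          revert hr
          norm_num
        omega
      obtain ⟨c, hc, hcard⟩ := pf3_cnt r (Nat.card J) 7 hr rfl x hx hx1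
        (fun y hy hy1 => (hfp r y hr hr5 hy hy1).2.1 h5)
      refine hcard.trans (Nat.pow_le_pow_right (by norm_num) ?_)
      have hle : 49 * c ≤ 13 * Nat.card J := by
        obtain ⟨t, rfl⟩ := Nat.exists_eq_add_of_le hr7
        have h1 : 7 + (7 + t - 1) = 13 + t := by omega
        rw [h1] at hc
        nlinarith
      omega

private theorem pf3_main [Nontrivial J] (hs : Group.IsSolvable Y)
    (hf : ∀ y : Y, (∀ j : J, y • j = j) → y = 1) (hp : MulAction.IsPreprimitive Y J)
    (j₀ j₁ : J) (hne : j₀ ≠ j₁) : ∃ Δ : Finset J, Gd Y j₀ j₁ Δ := by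
  classical
  let _ : Fintype Y := Fintype.ofFinite Y
  let _ : Fintype J := Fintype.ofFinite J
  -- it is enough to find `Δ` which no element of prime order `r ≥ 5` stabilizes
  suffices h : ∃ Δ : Finset J, j₀ ∈ Δ ∧ j₁ ∈ Δ ∧ ∀ r : ℕ, r.Prime → 5 ≤ r → ∀ x : Y,
      x ^ r = 1 → x ≠ 1 → ¬ ∀ j ∈ Δ, x • j ∈ Δ by
    obtain ⟨Δ, h0, h1, h2⟩ := h
    refine ⟨Δ, h0, h1, fun _ => ?_, ?_⟩
    · have : ({j₀, j₁} : Finset J) ⊆ Δ := by
        intro j hj
        rcases Finset.mem_insert.1 hj with rfl | hj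
        · exact h0
        · rw [Finset.mem_singleton.1 hj]; exact h1
      have h3 := Finset.card_le_card this
      rw [Finset.card_pair hne] at h3
      exact h3
    · intro r hr hr11 R hR x hx
      by_contra hcon
      have hx1 : x ≠ 1 := by
        rintro rfl
        exact hcon (fun j => one_smul _ _)
      obtain ⟨y, hy, hyr, hy1⟩ := pf3_el R x hx hx1
      exact h2 r hr hr11 y hyr hy1 (hR y hy)
  by_cases hn : Nat.card J < 28
  · -- small degree
    have hcard : ({j₀, j₁} : Finset J).card ≤ min (Nat.card J) 4 := by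
      rw [Finset.card_pair hne]
      have : 1 < Nat.card J := by
        rw [Nat.card_eq_fintype_card]
        exact Fintype.one_lt_card
      omega
    have hcard2 : min (Nat.card J) 4 ≤ (Finset.univ : Finset J).card := by
      rw [Finset.card_univ, ← Nat.card_eq_fintype_card]
      exact min_le_left _ _
    obtain ⟨Δ, hΔ1, hΔ2, hΔ3⟩ := Finset.exists_subsuperset_card_eq
      (Finset.subset_univ ({j₀, j₁} : Finset J)) hcard hcard2
    refine ⟨Δ, hΔ1 (by simp), hΔ1 (by simp), ?_⟩
    intro r hr hr5 x hx hx1 hst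
    have hfix := pf3_fix hr x hx Δ (by omega) hst
    obtain ⟨⟨s, k, hsp, hk0, hsk⟩, hfp⟩ := fix_pt hs hf hp
    obtain ⟨g1, g2, -⟩ := hfp r x hr hr5 hx hx1
    have hle : Δ.card ≤ Nat.card {j : J // x • j = j} := by
      have h4 : Δ.card = Nat.card {j : J // j ∈ Δ} := by
        rw [Nat.card_eq_fintype_card, Fintype.card_coe]
      rw [h4]
      refine Nat.card_le_card_of_injective
        (fun j : {j : J // j ∈ Δ} => (⟨j.1, hfix j.1 j.2⟩ : {j : J // x • j = j})) ?_
      intro a b hab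
      exact Subtype.ext (congrArg (fun z : {j : J // x • j = j} => z.1) hab)
    have hpos : 0 < Nat.card J := Nat.card_pos
    by_cases h5 : 5 ∣ Nat.card J
    · have hs5 : s = 5 := by
        rw [hsk] at h5
        exact ((Nat.prime_dvd_prime_iff_eq (by norm_num) hsp).1
          (Nat.Prime.dvd_of_dvd_pow (by norm_num) h5)).symm
      subst hs5
      have hk3 : k < 3 := by
        by_contra hcon
        have h6 : 5 ^ 3 ≤ 5 ^ k := Nat.pow_le_pow_right (by norm_num) (by omega)
        omega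
      have hk12 : k = 1 ∨ k = 2 := by omega
      rcases hk12 with rfl | rfl
      · rw [pow_one] at hsk
        omega
      · have h25 : Nat.card J = 25 := by rw [hsk]; norm_num
        exact pl25 h25 hs hf hp x ⟨hx1, r, hr, hr5, hx⟩ j₀ (hfix j₀ (hΔ1 (by simp)))
    · have g3 := g2 h5
      omega
  · -- large degree: counting
    by_contra hcon
    push Not at hcon
    have hn' : 28 ≤ Nat.card J := by omega
    let A := {Δ : Finset J // j₀ ∈ Δ ∧ j₁ ∈ Δ}
    have hbad : ∀ Δ : A, ∃ x : {x : Y // ∃ r : ℕ, r.Prime ∧ 5 ≤ r ∧ x ^ r = 1 ∧ x ≠ 1},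
        ∀ j ∈ Δ.1, x.1 • j ∈ Δ.1 := by
      rintro ⟨Δ, h0, h1⟩
      obtain ⟨r, hr, hr11, x, hx, hx1, hst⟩ := hcon Δ h0 h1
      exact ⟨⟨x, r, hr, hr11, hx, hx1⟩, hst⟩
    choose φ hφ using hbad
    let F : A → (x : {x : Y // ∃ r : ℕ, r.Prime ∧ 5 ≤ r ∧ x ^ r = 1 ∧ x ≠ 1}) ×
        {Δ : Finset J // ∀ j ∈ Δ, x.1 • j ∈ Δ} := fun Δ => ⟨φ Δ, ⟨Δ.1, hφ Δ⟩⟩
    have hF : Function.Injective F := by
      intro a b hab
      have h5 : ((F a).2 : Finset J) = ((F b).2 : Finset J) := by rw [hab]
      exact Subtype.ext h5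
    have hA := Nat.card_le_card_of_injective F hF
    have hsig : Nat.card ((x : {x : Y // ∃ r : ℕ, r.Prime ∧ 5 ≤ r ∧ x ^ r = 1 ∧ x ≠ 1}) ×
        {Δ : Finset J // ∀ j ∈ Δ, x.1 • j ∈ Δ}) ≤ Nat.card Y * 2 ^ pf3_e (Nat.card J) := by
      rw [Nat.card_sigma]
      calc ∑ x : {x : Y // ∃ r : ℕ, r.Prime ∧ 5 ≤ r ∧ x ^ r = 1 ∧ x ≠ 1},
            Nat.card {Δ : Finset J // ∀ j ∈ Δ, x.1 • j ∈ Δ}
          ≤ ∑ x : {x : Y // ∃ r : ℕ, r.Prime ∧ 5 ≤ r ∧ x ^ r = 1 ∧ x ≠ 1},
            2 ^ pf3_e (Nat.card J) := by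
            refine Finset.sum_le_sum ?_
            rintro ⟨x, r, hr, hr11, hx, hx1⟩ _
            exact pf3_orb hs hf hp r hr hr11 x hx hx1
        _ = Fintype.card {x : Y // ∃ r : ℕ, r.Prime ∧ 5 ≤ r ∧ x ^ r = 1 ∧ x ≠ 1} *
            2 ^ pf3_e (Nat.card J) := by
            rw [Finset.sum_const, Finset.card_univ, smul_eq_mul]
        _ ≤ Nat.card Y * 2 ^ pf3_e (Nat.card J) := by
            refine Nat.mul_le_mul_right _ ?_
            rw [Nat.card_eq_fintype_card]
            exact Fintype.card_subtype_le _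
    let E : Finset J → A × (Prop × Prop) := fun S =>
      (⟨insert j₀ (insert j₁ S), by simp, by simp⟩, (j₀ ∈ S, j₁ ∈ S))
    have hE : Function.Injective E := by
      intro S T hST
      have h6 : insert j₀ (insert j₁ S) = insert j₀ (insert j₁ T) :=
        congrArg (fun z : A × (Prop × Prop) => (z.1 : A).1) hST
      have h7 : (j₀ ∈ S) = (j₀ ∈ T) := congrArg (fun z : A × (Prop × Prop) => z.2.1) hST
      have h8 : (j₁ ∈ S) = (j₁ ∈ T) := congrArg (fun z : A × (Prop × Prop) => z.2.2) hST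
      ext j
      by_cases e0 : j = j₀
      · rw [e0]; exact iff_of_eq h7
      by_cases e1 : j = j₁
      · rw [e1]; exact iff_of_eq h8
      have h9 : j ∈ insert j₀ (insert j₁ S) ↔ j ∈ insert j₀ (insert j₁ T) := by rw [h6]
      simpa [e0, e1] using h9
    have hEc := Nat.card_le_card_of_injective E hE
    have hEl : Nat.card (Finset J) = 2 ^ Nat.card J := by
      rw [Nat.card_eq_fintype_card, Fintype.card_finset, Nat.card_eq_fintype_card]
    have hEr : Nat.card (A × (Prop × Prop)) = Nat.card A * 4 := by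
      rw [Nat.card_prod]
      congr 1
      rw [Nat.card_prod]
      simp
    rw [hEl, hEr] at hEc
    have hY := prim_card (Nat.card J) (ob (Nat.card J)) le_rfl hs hf hp
    have hnum := pf3_num (Nat.card J) hn'
    have h10 : 2 ^ Nat.card J ≤ Nat.card J ^ 4 * 2 ^ pf3_e (Nat.card J) := by
      calc 2 ^ Nat.card J ≤ Nat.card A * 4 := hEc
        _ ≤ (Nat.card Y * 2 ^ pf3_e (Nat.card J)) * 4 :=
            Nat.mul_le_mul_right 4 (hA.trans hsig)
        _ = (4 * Nat.card Y) * 2 ^ pf3_e (Nat.card J) := by ring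
        _ ≤ Nat.card J ^ 4 * 2 ^ pf3_e (Nat.card J) := Nat.mul_le_mul_right _ hY
    omega

/-- (pf3, size 5) The primitive case. PROOF. We may assume `j₀ ≠ j₁`. `n = card J`, a power of a prime. If `n ≤ 27` take for `Δ` a set with `min n 4` elements which contains `j₀`, `j₁`: if `R` stabilizes it, then it fixes its points (orbits of `r`-elements on a set with at most 4 elements); so for `n ≤ 4` it is trivial, and
for `n ≥ 5` an `x ∈ R` of order `r` would have at least 4 fixed points: for `n = 25` contradiction to `pl25`; for `n = 5` to `5 * fix ≤ n`; otherwise `5` does not divide `n`, `7 * fix ≤ n ≤ 27`, contradiction. If `n ≥ 28`: count the sets `Δ` which contain `j₀`, `j₁`: `2 ^ (n - 2)`. If `Δ` is bad then it is stabilized by an element `x` of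
prime order `r ≥ 5`; the number of sets which are stabilized by `x` is `2 ^ c`, `c` the number of orbits, `c = fix + (n - fix) / r`, and there are at most `card Y ≤ n ^ 4 / 4` elements (`prim_card`, `ob`). If `5 ∤ n`: `c ≤ 3 n / 11` (`r = 5`: `fix ≤ n / 11`; `r ≥ 7`: `fix ≤ n / 7`, `c ≤ 13 n / 49`), and
`n ^ 4 * 2 ^ (3 n / 11) < 2 ^ n` for `n ≥ 28`. If `5 ∣ n` then `n = 5 ^ k ≥ 125`, `c ≤ 9 n / 25`, `n ^ 4 * 2 ^ (9 n / 25) < 2 ^ n`. (Compare `pl_prim` of Nas/Pl.lean.) -/
theorem pl_prim [Nontrivial J] (hs : Group.IsSolvable Y)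
    (hf : ∀ y : Y, (∀ j : J, y • j = j) → y = 1) (hp : MulAction.IsPreprimitive Y J)
    (j₀ j₁ : J) : ∃ Δ : Finset J, Gd Y j₀ j₁ Δ := by
  by_cases hne : j₀ = j₁
  · obtain ⟨j₂, hj₂⟩ := exists_ne j₀
    obtain ⟨Δ, h0, _, h2, h3⟩ := pf3_main hs hf hp j₀ j₂ hj₂.symm
    exact ⟨Δ, h0, hne ▸ h0, h2, h3⟩
  · exact pf3_main hs hf hp j₀ j₁ hne
-- END pf3

-- BEGIN pl3
/-- The action of the stabilizer of `c` on the fiber over `c`. -/
@[reducible] def pl3_act {Y J C : Type} [Group Y] [MulAction Y J] [MulAction Y C] (π : J → C)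
    (hπ : ∀ (y : Y) (j : J), π (y • j) = y • π j) (c : C) :
    MulAction (MulAction.stabilizer Y c) {j : J // π j = c} where
  smul y k := ⟨(y : Y) • (k : J), by rw [hπ, k.2]; exact y.2⟩
  one_smul := fun k => Subtype.ext (one_smul Y (k : J))
  mul_smul := fun y z k => Subtype.ext (mul_smul (y : Y) (z : Y) (k : J))

theorem pl3_step {Y J C : Type} [Group Y] [Finite Y] [Finite J] [MulAction Y J]
    [MulAction Y C] [Nontrivial C] (htC : MulAction.IsPretransitive Y C) (π : J → C)
    (hπ : ∀ (y : Y) (j : J), π (y • j) = y • π j) (hsur : Function.Surjective π) (j₀ j₁ : J)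
    (T : Finset C) (hT : Gd Y (π j₀) (π j₁) T)
    (hF : ∀ (c : C) (k₀ k₁ : {j : J // π j = c}), ∃ Δ : Finset {j : J // π j = c},
      @Gd (MulAction.stabilizer Y c) _ _ (pl3_act π hπ c) k₀ k₁ Δ) :
    ∃ Δ : Finset J, Gd Y j₀ j₁ Δ := by
  classical
  haveI : Fintype J := Fintype.ofFinite J
  -- base points
  have hk : ∀ (c : C) (i : J), ∃ k : {j : J // π j = c}, π i = c → (k : J) = i := by
    intro c i
    by_cases h : π i = c
    · exact ⟨⟨i, h⟩, fun _ => rfl⟩
    · obtain ⟨j, hj⟩ := hsur c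
      exact ⟨⟨j, hj⟩, fun h' => absurd h' h⟩
  choose k hkk using hk
  have hD : ∀ c : C, ∃ Δ : Finset {j : J // π j = c},
      @Gd (MulAction.stabilizer Y c) _ _ (pl3_act π hπ c) (k c j₀) (k c j₁) Δ :=
    fun c => hF c _ _
  choose D hDG using hD
  let Δ : Finset J := Finset.univ.filter fun j => π j ∈ T ∧ (⟨j, rfl⟩ : {i : J // π i = π j}) ∈ D (π j)
  have hmem : ∀ (c : C) (i : {j : J // π j = c}), i ∈ D c → c ∈ T → (i : J) ∈ Δ := by
    rintro c ⟨i, rfl⟩ hi hc
    exact Finset.mem_filter.mpr ⟨Finset.mem_univ _, hc, hi⟩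
  have hmemT : ∀ j ∈ Δ, π j ∈ T := fun j hj => (Finset.mem_filter.mp hj).2.1
  have hmemD : ∀ (c : C) (i : {j : J // π j = c}), (i : J) ∈ Δ → i ∈ D c := by
    rintro c ⟨i, rfl⟩ hi
    exact (Finset.mem_filter.mp hi).2.2
  refine ⟨Δ, ?_, ?_, ?_, ?_⟩
  · have h1 := hmem (π j₀) (k (π j₀) j₀) (hDG (π j₀)).1 hT.1
    rwa [hkk (π j₀) j₀ rfl] at h1
  · have h1 := hmem (π j₁) (k (π j₁) j₁) (hDG (π j₁)).2.1 hT.2.1
    rwa [hkk (π j₁) j₁ rfl] at h1
  · intro _
    refine le_trans (hT.2.2.1 inferInstance) ?_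
    have h1 : T ⊆ Δ.image π := by
      intro c hc
      have h2 := hmem c (k c j₀) (hDG c).1 hc
      exact Finset.mem_image.mpr ⟨_, h2, (k c j₀).2⟩
    exact le_trans (Finset.card_le_card h1) Finset.card_image_le
  · intro r hr hr11 R hR
    haveI : Fact r.Prime := ⟨hr⟩
    -- trivial on `C`
    have h1 : ∀ x ∈ (R : Subgroup Y), ∀ c : C, x • c = c := by
      refine hT.2.2.2 r hr hr11 R ?_
      intro x hx c hc
      have h2 := hmem c (k c j₀) (hDG c).1 hc
      have h3 := hmemT _ (hR x hx _ h2)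
      rwa [hπ, (k c j₀).2] at h3
    -- trivial on the fiber over `c₀`
    set c₀ : C := π j₀ with hc₀
    have hle : (R : Subgroup Y) ≤ MulAction.stabilizer Y c₀ := fun x hx =>
      MulAction.mem_stabilizer_iff.mpr (h1 x hx c₀)
    have h4 : ∀ x ∈ (R : Subgroup Y), ∀ j : J, π j = c₀ → x • j = j := by
      intro x hx j hj
      letI := pl3_act π hπ c₀
      have h5 := (hDG c₀).2.2.2 r hr hr11 (R.subtype hle) (by
        intro z hz i hi
        have hz' : (z : Y) ∈ (R : Subgroup Y) := by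
          rw [Sylow.coe_subtype, Subgroup.mem_subgroupOf] at hz
          exact hz
        apply hmemD
        exact hR (z : Y) hz' (i : J) (hmem c₀ i hi hT.1)) ⟨x, hle hx⟩ (by
        rw [Sylow.coe_subtype, Subgroup.mem_subgroupOf]
        exact hx) ⟨j, hj⟩
      exact congrArg Subtype.val h5
    -- the kernel on `C`
    let K : Subgroup Y := (MulAction.toPermHom Y C).ker
    have hK : ∀ y : Y, y ∈ K ↔ ∀ c : C, y • c = c := by
      intro y
      constructor
      · intro hy c
        have h6 : MulAction.toPermHom Y C y = 1 := hy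
        have h7 := Equiv.congr_fun h6 c
        exact h7
      · intro hy
        show MulAction.toPermHom Y C y = 1
        ext c
        exact hy c
    have hRK : (R : Subgroup Y) ≤ K := fun x hx => (hK x).mpr (h1 x hx)
    intro x hx j
    obtain ⟨y, hy⟩ := htC.exists_smul_eq c₀ (π j)
    have hRK' : ((y⁻¹ • R : Sylow r Y) : Subgroup Y) ≤ K := by
      intro z hz
      rw [Sylow.coe_subgroup_smul] at hz
      have hz' : y * z * y⁻¹ ∈ (R : Subgroup Y) := by
        rw [Subgroup.mem_pointwise_smul_iff_inv_smul_mem] at hz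
        simpa [MulAut.conj_apply] using hz
      rw [hK]
      intro c
      have h8 := h1 _ hz' (y • c)
      rw [mul_smul, mul_smul, inv_smul_smul] at h8
      exact MulAction.injective y h8
    obtain ⟨κ, hκ⟩ := MulAction.exists_smul_eq K (R.subtype hRK) ((y⁻¹ • R).subtype hRK')
    have h9 : y⁻¹ * x * y ∈ ((y⁻¹ • R : Sylow r Y) : Subgroup Y) := by
      rw [Sylow.coe_subgroup_smul, Subgroup.mem_pointwise_smul_iff_inv_smul_mem]
      have h10 : (MulAut.conj y⁻¹)⁻¹ • (y⁻¹ * x * y) = x := by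
        rw [← map_inv, inv_inv, MulAut.smul_def, MulAut.conj_apply]
        group
      rw [h10]
      exact hx
    have h11 : (⟨y⁻¹ * x * y, hRK' h9⟩ : K) ∈
        ((κ • (R.subtype hRK) : Sylow r K) : Subgroup K) := by
      rw [hκ, Sylow.coe_subtype, Subgroup.mem_subgroupOf]
      exact h9
    rw [Sylow.coe_subgroup_smul, Subgroup.mem_pointwise_smul_iff_inv_smul_mem,
      Sylow.coe_subtype, Subgroup.mem_subgroupOf] at h11
    have h12 : (κ : Y)⁻¹ * (y⁻¹ * x * y) * (κ : Y) ∈ (R : Subgroup Y) := by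
      have h13 : (((MulAut.conj κ)⁻¹ • (⟨y⁻¹ * x * y, hRK' h9⟩ : K) : K) : Y) =
          (κ : Y)⁻¹ * (y⁻¹ * x * y) * (κ : Y) := by
        rw [← map_inv, MulAut.smul_def, MulAut.conj_apply]
        simp
      rwa [h13] at h11
    have hκc : ∀ c : C, (κ : Y)⁻¹ • c = c := by
      intro c
      exact (hK _).mp (K.inv_mem κ.2) c
    have h14 : π ((κ : Y)⁻¹ • y⁻¹ • j) = c₀ := by
      rw [hπ, hκc, hπ, ← hy, inv_smul_smul]
    have h15 := h4 _ h12 _ h14
    rw [mul_smul, smul_inv_smul, mul_smul] at h15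
    have h16 := MulAction.injective ((κ : Y)⁻¹) h15
    rw [mul_smul, mul_smul, smul_inv_smul] at h16
    exact MulAction.injective (y⁻¹) h16

theorem pl3_sys {Y J : Type} [Group Y] [Finite Y] [Finite J] [Nontrivial J] [MulAction Y J]
    (ht : MulAction.IsPretransitive Y J) (hnp : ¬ MulAction.IsPreprimitive Y J) :
    ∃ (C : Type) (_ : Finite C) (_ : Nontrivial C) (_ : MulAction Y C) (π : J → C),
      MulAction.IsPretransitive Y C ∧ (∀ (y : Y) (j : J), π (y • j) = y • π j) ∧
      Function.Surjective π ∧ Nat.card C < Nat.card J ∧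
      ∀ c, Nat.card {j : J // π j = c} < Nat.card J := by
  classical
  have h1 : ∃ B : Set J, MulAction.IsBlock Y B ∧ ¬ MulAction.IsTrivialBlock B := by
    by_contra hcon
    push Not at hcon
    exact hnp { toIsPretransitive := ht, isTrivialBlock_of_isBlock := fun {B} hB => hcon B hB }
  obtain ⟨B, hB, hB1⟩ := h1
  rw [MulAction.IsTrivialBlock, not_or] at hB1
  obtain ⟨hB1, hB2⟩ := hB1
  rw [Set.not_subsingleton_iff] at hB1
  obtain ⟨b₀, hb₀, b₁, hb₁, hb⟩ := hB1
  obtain ⟨j₂, hj₂⟩ := (Set.ne_univ_iff_exists_notMem B).mp hB2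
  choose g hg using fun j => ht.exists_smul_eq b₀ j
  open Pointwise in
  let S : Subgroup Y := MulAction.stabilizer Y B
  have hS : ∀ y : Y, y • b₀ ∈ B → y ∈ S := by
    intro y hy
    exact MulAction.mem_stabilizer_iff.mpr (hB.smul_eq_of_mem hb₀ hy)
  have hS' : ∀ y ∈ S, y • b₀ ∈ B := by
    intro y hy
    open Pointwise in
    have h2 : y • B = B := MulAction.mem_stabilizer_iff.mp hy
    rw [← h2]
    exact Set.smul_mem_smul_set hb₀
  let π : J → Y ⧸ S := fun j => (g j : Y ⧸ S)
  have hπ1 : ∀ j (y : Y), y • b₀ = j → π j = (y : Y ⧸ S) := by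
    intro j y hy
    apply QuotientGroup.eq.mpr
    apply hS
    have h3 : ((g j)⁻¹ * y) • b₀ = b₀ := by
      rw [mul_smul, hy]
      exact inv_smul_eq_iff.mpr (hg j).symm
    rw [h3]
    exact hb₀
  have hπB : ∀ j, j ∈ B ↔ π j = π b₀ := by
    intro j
    rw [hπ1 b₀ 1 (one_smul _ _)]
    constructor
    · intro hj
      apply Eq.symm
      apply QuotientGroup.eq.mpr
      rw [inv_one, one_mul]
      apply hS
      rw [hg]
      exact hj
    · intro hj
      have h4 := QuotientGroup.eq.mp hj.symm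
      rw [inv_one, one_mul] at h4
      have h5 := hS' _ h4
      rwa [hg] at h5
  have hne : π j₂ ≠ π b₀ := fun h => hj₂ ((hπB j₂).mpr h)
  haveI : Nontrivial (Y ⧸ S) := ⟨π j₂, π b₀, hne⟩
  have hsur : Function.Surjective π := by
    intro c
    obtain ⟨y, rfl⟩ := QuotientGroup.mk_surjective c
    exact ⟨y • b₀, hπ1 _ y rfl⟩
  refine ⟨Y ⧸ S, inferInstance, inferInstance, inferInstance, π, inferInstance, ?_, hsur, ?_, ?_⟩
  · intro y j
    rw [hπ1 (y • j) (y * g j) (by rw [mul_smul, hg])]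
    rfl
  · have hni : ¬ Function.Injective π := by
      intro hinj
      exact hb (hinj ((hπB b₁).mp hb₁).symm)
    haveI : Fintype J := Fintype.ofFinite J
    haveI : Fintype (Y ⧸ S) := Fintype.ofFinite _
    rw [Nat.card_eq_fintype_card, Nat.card_eq_fintype_card]
    exact Fintype.card_lt_of_surjective_not_injective π hsur hni
  · intro c
    apply Finite.card_subtype_lt (x := if π j₂ = c then b₀ else j₂)
    split_ifs with h6
    · rw [← h6]
      exact fun h => hne h.symm
    · exact h6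

theorem pl3_all (n : ℕ) : ∀ (Y J : Type) (_ : Group Y) (_ : Finite Y) (_ : Finite J)
    (_ : MulAction Y J), Nat.card J ≤ n → Group.IsSolvable Y → MulAction.IsPretransitive Y J →
    ∀ j₀ j₁ : J, ∃ Δ : Finset J, Gd Y j₀ j₁ Δ := by
  induction n with
  | zero =>
    intro Y J _ _ _ _ hn hs ht j₀ j₁
    haveI : Nonempty J := ⟨j₀⟩
    have := Nat.card_pos (α := J)
    omega
  | succ n ih =>
    intro Y J _ _ _ _ hn hs ht j₀ j₁
    rcases subsingleton_or_nontrivial J with hJ | hJ
    · refine ⟨{j₀}, Finset.mem_singleton_self _, ?_, ?_, ?_⟩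
      · rw [Subsingleton.elim j₁ j₀]
        exact Finset.mem_singleton_self _
      · intro h
        exact absurd hJ (not_subsingleton_iff_nontrivial.mpr h)
      · intro r _ _ R _ x _ j
        exact Subsingleton.elim _ _
    · by_cases hp : MulAction.IsPreprimitive Y J
      · -- the image in the permutations
        let φ : Y →* Equiv.Perm J := MulAction.toPermHom Y J
        have hsur := φ.rangeRestrict_surjective
        haveI := hs
        have hs' : Group.IsSolvable φ.range := Group.isSolvable_of_surjective hsur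
        let f : J →ₑ[φ.rangeRestrict] J := ⟨id, fun y j => rfl⟩
        have hp' : MulAction.IsPreprimitive φ.range J :=
          MulAction.IsPreprimitive.of_surjective (f := f) Function.surjective_id
        obtain ⟨Δ, h1, h2, h3, h4⟩ := pl_prim (Y := φ.range) (J := J) hs' (by
          intro y hy
          apply Subtype.ext
          apply Equiv.ext
          intro j
          exact hy j) hp' j₀ j₁
        refine ⟨Δ, h1, h2, h3, ?_⟩
        intro r hr hr11 R hR x hx j
        haveI : Fact r.Prime := ⟨hr⟩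
        refine h4 r hr hr11 (R.mapSurjective hsur) ?_ (φ.rangeRestrict x) ?_ j
        · intro z hz i hi
          rw [Sylow.coe_mapSurjective] at hz
          obtain ⟨y, hy, rfl⟩ := Subgroup.mem_map.mp hz
          exact hR y hy i hi
        · rw [Sylow.coe_mapSurjective]
          exact Subgroup.mem_map_of_mem _ hx
      · obtain ⟨C, _, _, _, π, htC, hπ, hsur, hcC, hcF⟩ := pl3_sys ht hp
        obtain ⟨T, hT⟩ := ih Y C inferInstance inferInstance inferInstance inferInstance
          (by omega) hs htC (π j₀) (π j₁)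
        refine pl3_step htC π hπ hsur j₀ j₁ T hT ?_
        intro c k₀ k₁
        have hcc := hcF c
        haveI := hs
        refine ih (MulAction.stabilizer Y c) {j : J // π j = c} inferInstance inferInstance
          inferInstance (pl3_act π hπ c) (by omega) inferInstance ?_ k₀ k₁
        letI := pl3_act π hπ c
        constructor
        intro a b
        obtain ⟨y, hy⟩ := ht.exists_smul_eq (a : J) (b : J)
        refine ⟨⟨y, ?_⟩, Subtype.ext hy⟩
        rw [MulAction.mem_stabilizer_iff]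
        calc y • c = y • π (a : J) := by rw [a.2]
          _ = π (y • (a : J)) := (hπ _ _).symm
          _ = c := by rw [hy, b.2]

/-- (pl3, size 5) PROOF. Induction on `card J`, for all `Y`. `card J = 1`: `Δ` = everything. If the action is primitive: `pl_prim` for the image of
`Y` in the permutations of `J` (Sylow subgroups map onto Sylow subgroups). Otherwise there is a block `b`, `1 < card b < card J`; `Σ` = the set of
its translates. Induction for `Y` on `Σ` gives `T ⊆ Σ` with the blocks of `j₀` and `j₁` in it; for each `c ∈ T` induction for the stabilizer `Y_c` on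
`c` gives `Δ_c ⊆ c` (which contains `j₀`, `j₁` if they are in `c`; nonempty). `Δ` = the union of the `Δ_c`, `c ∈ T`. If a Sylow subgroup `R` of `Y`
stabilizes `Δ` then it stabilizes `T`, so it acts trivially on `Σ`, so it is in all the `Y_c` and stabilizes all the `Δ_c`, `c ∈ T`; it is a Sylow
subgroup of `Y_c`, so it is trivial on `c ∈ T`. The kernel `K₀` of `Y` on `Σ` contains `R`, `R` is a Sylow subgroup of `K₀`; `R` is trivial on one block
`c`, so `r` does not divide the order of the image of `K₀` in the permutations of `c`; for another block `c' = y c` the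
images of `K₀` (normal) are isomorphic, so `R` is trivial on `c'` too. `2 ≤ card Δ`: `card T ≥ 2` or `card Δ_c ≥ 2`. -/
theorem pl (hs : Group.IsSolvable Y) (ht : MulAction.IsPretransitive Y J) (j₀ j₁ : J) :
    ∃ Δ : Finset J, Gd Y j₀ j₁ Δ :=
  pl3_all (Nat.card J) Y J inferInstance inferInstance inferInstance inferInstance le_rfl hs ht
    j₀ j₁
-- END pl3

end

end Pool.Agent.Nfv
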