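import Pool.Agent.Nfv.Lc

/-! From the linear algebra to characters of a `p`-group with operators. -/

set_option autoImplicit false

namespace Pool.Agent.Nfv

open Classical
open Pool.Agent.Nan Pool.Agent.Nas
open Pool.Agent.KB Pool.Agent.KB.ContrAux Pool.Agent.KBL Pool.Agent.KBZ Pool.Agent.KBU
  Pool.Agent.KBQ Pool.Agent.KBY

/-- The properties of the data of a block for the primes in `B`. -/
structure Blk2 {H : Type} [Group H] (A : Subgroup H) (B : Set ℕ) (p : ℕ)
    (nt : Subgroup H → Prop) (Ss : Subgroup H) (n : ℕ) (St : Fin n → Subgroup H) : Prop where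
  b1 : ∀ a ∈ A, (∀ j, a ∈ St j) → a ∈ Ss
  c : ∀ r ∈ B, (∃ q : ℕ, q.Prime ∧ q ≠ p ∧ ∃ D : Subgroup H, D.Normal ∧ D ≤ cm A r ∧
      IsPGroup q D ∧ nt D) →
    ¬ ((∃ R : Sylow r H, (R : Subgroup H) ≤ Ss) ∧ (∀ j, ∃ R : Sylow r H, (R : Subgroup H) ≤ St j) ∧
      (∀ c ∈ cm A r, c ∈ Ss → ∀ j, c ∈ St j) ∧ Srj A r St)

/-- The data of one prime `p` for a `p`-group `P` on which `H` acts; `nb` is a set of primes which
must not divide the index of the stabilizer of a high character trivially. -/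
def Loc2 {P H : Type} [Group P] [Group H] (p : ℕ) (φ : H →* MulAut P) (A : Subgroup H)
    (B nb : Set ℕ) : Prop :=
  ∃ s ∈ Irr P, ∃ (n : ℕ) (St : Fin n → Subgroup H) (Θ : (Fin n → H) → P → ℂ),
    (∀ k, (∀ j, k j ∈ A) → Θ k ∈ Irr P) ∧
    (∀ k, (∀ j, k j ∈ A) → ∀ r ∈ B, ∀ R : Sylow r H, (R : Subgroup H) ≤ fxS φ (Θ k) →
      ∀ h ∈ (R : Subgroup H), ∀ j, (k j)⁻¹ * h * k j ∈ St j) ∧
    ((∃ d : ℕ, s 1 = d ∧ p ∣ d) ∨ ∀ k, (∀ j, k j ∈ A) → ∃ d : ℕ, Θ k 1 = d ∧ p ∣ d) ∧
    (∀ k, (∀ j, k j ∈ A) → ∀ r ∈ nb, ∀ R : Sylow r H, ¬ (R : Subgroup H) ≤ fxS φ (Θ k)) ∧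
    Blk2 A B p (fun D => ∃ d ∈ D, φ d ≠ 1) (fxS φ s) n St

section
variable {p : ℕ} [Fact p.Prime] {P H V U : Type} [Group P] [Finite P] [Group H] [Finite H]
  [AddCommGroup V] [Module (ZMod p) V] [Finite V] [AddCommGroup U] [Module (ZMod p) U] [Finite U]
  {φ : H →* MulAut P} {ρV : Representation (ZMod p) H V} {ρU : Representation (ZMod p) H U}
  {β : V →ₗ[ZMod p] V →ₗ[ZMod p] U} {q : P → V} {κ : U → P}

-- BEGIN lo1
/-- (lo1, size 3) PROOF. As `loc_core` of Nan/Pl.lean, with `lc_main` for `la_main`. Case Y: `s = 1`, `n = 1`, `Θ k` = the conjugates of the `θ` of `chr`; the condition on `nb`: a Sylow subgroup `R` which fixes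
`Θ k`, `k ∈ A`, gives the Sylow subgroup `k⁻¹ R k` which fixes `θ`. Case X: `s` = the `θ` of `chr` for `l`, `m`; `Θ k` = the linear character of `∑ t j ∘ ρV (k j)⁻¹` (`chr_lin`). -/
theorem loc_core2 (hC : C2 p φ ρV ρU β q κ) {A : Subgroup H} {B : Set ℕ} {n : ℕ}
    {F : Fin n → Fam p H} {em : ∀ i, (F i).X →ₗ[ZMod p] Module.Dual (ZMod p) V}
    (h : LS ρV ρU β A B F em) :
    Loc2 p φ A B {r | r.Prime ∧ 5 ≤ r ∧ ∃ i, ¬ (F i).Bt r} := by
  obtain ⟨ζ, hζ⟩ := zt_ex p
  have hL := h.ltg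
  have hlin := fun t => chr_lin hC ζ hζ t
  have hfxt : ∀ t h, h ∈ fxS φ (fun x : P =>
      ((ζ (Multiplicative.ofAdd (t (q x))) : ℂˣ) : ℂ)) ↔ FixL ρV t h := fun t => (hlin t).2
  rcases lc_main h with hY | hX
  · obtain ⟨l, hl, m, hm, hnb⟩ := hY
    obtain ⟨θ, hθ, ⟨d, hd, hpd⟩, hfx⟩ := chr hC hL.pH ζ hζ l (ltg_ne hL l hl) m
    have h1irr : (fun _ : P => (1 : ℂ)) ∈ Irr P := by
      have h0 := (hlin 0).1
      have h1 : (fun x : P => ((ζ (Multiplicative.ofAdd
          ((0 : Module.Dual (ZMod p) V) (q x))) : ℂˣ) : ℂ)) = fun _ => 1 := by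
        funext x
        rw [LinearMap.zero_apply, ofAdd_zero, map_one, Units.val_one]
      rw [h1] at h0
      exact h0
    have hst : ∀ k : Fin 1 → H, ∀ g ∈ fxS φ (fun x => θ (φ (k 0)⁻¹ x)),
        (k 0)⁻¹ * g * k 0 ∈ fxS φ θ := by
      intro k g hh x
      have h1 := hh (φ (k 0) x)
      change θ (φ (k 0)⁻¹ (φ g (φ (k 0) x))) = θ (φ (k 0)⁻¹ (φ (k 0) x)) at h1
      simp only [← MulAut.mul_apply, ← map_mul] at h1
      rw [inv_mul_cancel, map_one, MulAut.one_apply, ← mul_assoc] at h1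
      exact h1
    refine ⟨fun _ => 1, h1irr, 1, fun _ => fxS φ θ, fun k x => θ (φ (k 0)⁻¹ x), ?_, ?_, ?_, ?_, ?_⟩
    · intro k _
      exact Inf_irr (φ (k 0)⁻¹).toMonoidHom (φ (k 0)⁻¹).surjective θ hθ
    · intro k _ r _ R hR g hg j
      have hj : j = 0 := Subsingleton.elim j 0
      subst hj
      exact hst k g (hR hg)
    · right
      intro k _
      refine ⟨d, ?_, hpd⟩
      change θ (φ (k 0)⁻¹ 1) = d
      rw [map_one, hd]
    · rintro k _ r ⟨hr, hr11, hi⟩ R hR
      refine hnb r hr hr11 hi ((k 0)⁻¹ • R) fun x hx => ?_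
      rw [Sylow.coe_subgroup_smul, Subgroup.mem_pointwise_smul_iff_inv_smul_mem] at hx
      have h1 : k 0 * x * (k 0)⁻¹ ∈ (R : Subgroup H) := by
        have h2 : (MulAut.conj (k 0)⁻¹)⁻¹ • x = k 0 * x * (k 0)⁻¹ := by
          rw [← map_inv, inv_inv, MulAut.smul_def, MulAut.conj_apply]
        rw [← h2]
        exact hx
      have h3 := hst k _ (hR h1)
      have h4 : (k 0)⁻¹ * (k 0 * x * (k 0)⁻¹) * k 0 = x := by group
      rw [h4] at h3
      exact (hfx x).1 h3
    · refine ⟨fun a _ _ x => rfl, ?_⟩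
      rintro r hr ⟨r', _, _, D, _, hDle, _, d, hd, hd1⟩ ⟨_, _, h3, _⟩
      have hne : cm A r ≠ ⊥ := by
        intro h8
        have h9 := hDle hd
        rw [h8, Subgroup.mem_bot] at h9
        exact hd1 (by rw [h9, map_one])
      obtain ⟨e, he, he'⟩ := hm (cm A r) (cm_nor h.ab r) (cm_le h.ab r) hne
      exact he' ((hfx e).1 (h3 e he (fun x => rfl) 0))
  · obtain ⟨l, hl, m, n', t, h1, h2, h3, h4⟩ := hX
    obtain ⟨θ, hθ, ⟨d, hd, hpd⟩, hfx⟩ := chr hC hL.pH ζ hζ l (ltg_ne hL l hl) m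
    have hsum : ∀ k : Fin n' → H, ∀ g ∈ fxS φ (fun x : P =>
        ((ζ (Multiplicative.ofAdd ((∑ j, t j ∘ₗ ρV (k j)⁻¹) (q x))) : ℂˣ) : ℂ)), ∀ v,
        ∑ j, t j (ρV (k j)⁻¹ (ρV g v)) = ∑ j, t j (ρV (k j)⁻¹ v) := by
      intro k g hg v
      have h5 := ((hlin (∑ j, t j ∘ₗ ρV (k j)⁻¹)).2 g).1 hg v
      simpa only [LinearMap.sum_apply, LinearMap.comp_apply] using h5
    refine ⟨θ, hθ, n', fun j => fxS φ (fun x : P =>
      ((ζ (Multiplicative.ofAdd (t j (q x))) : ℂˣ) : ℂ)), fun k x =>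
      ((ζ (Multiplicative.ofAdd ((∑ j, t j ∘ₗ ρV (k j)⁻¹) (q x))) : ℂˣ) : ℂ), ?_, ?_, ?_, ?_, ?_⟩
    · intro k _
      exact (hlin _).1
    · intro k hk r hr R hR g hg j
      rw [hfxt]
      exact h1 k hk r hr R (fun x hx => hsum k x (hR hx)) g hg j
    · left
      exact ⟨d, hd, hpd⟩
    · rintro k hk r ⟨hr, hr11, hi⟩ R hR
      exact h4 k hk r hr hr11 hi R fun x hx => hsum k x (hR hx)
    · refine ⟨fun a ha h5 => (hfx a).2 (h2 a ha fun j => (hfxt _ _).1 (h5 j)), ?_⟩
      rintro r hr ⟨r', _, _, D, _, hDle, _, d, hd, hd1⟩ ⟨⟨R, hR⟩, h5, h6, h7⟩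
      have hne : cm A r ≠ ⊥ := by
        intro h8
        have h9 := hDle hd
        rw [h8, Subgroup.mem_bot] at h9
        exact hd1 (by rw [h9, map_one])
      refine h3 r hr hne ⟨⟨R, fun x hx => (hfx x).1 (hR hx)⟩, fun j => ?_, fun c hc hc' j => ?_,
        fun x hx => ?_⟩
      · obtain ⟨R', hR'⟩ := h5 j
        exact ⟨R', fun x hx => (hfxt _ _).1 (hR' hx)⟩
      · exact (hfxt _ _).1 (h6 c hc ((hfx c).2 hc') j)
      · obtain ⟨y, hy, hy'⟩ := h7 x hx
        exact ⟨y, hy, fun j => (hfxt _ _).1 (hy' j)⟩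
-- END lo1

end

section
variable {P H : Type} [Group P] [Finite P] [Group H] [Finite H]

-- BEGIN lo2
/-- (lo2, size 2) PROOF. As `loc_inf` of Nan/Pl.lean. -/
theorem loc_inf2 {P' : Type} [Group P'] (p : ℕ) (π : P →* P') (hπ : Function.Surjective π)
    (φ : H →* MulAut P) (φ' : H →* MulAut P') (he : ∀ h x, π (φ h x) = φ' h (π x))
    (htriv : ∀ D : Subgroup H, (∀ d ∈ D, φ' d = 1) → ∀ d ∈ D, φ d = 1) (A : Subgroup H)
    (B nb : Set ℕ) (h : Loc2 p φ' A B nb) : Loc2 p φ A B nb := by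
  obtain ⟨s, hs, n, St, Θ, h1, h2, h3, h5, h4⟩ := h
  have hfx : ∀ χ : P' → ℂ, fxS φ (fun x => χ (π x)) = fxS φ' χ := by
    intro χ
    ext g
    rw [mem_fxS, mem_fxS]
    constructor
    · intro hg y
      obtain ⟨x, rfl⟩ := hπ y
      rw [← he]
      exact hg x
    · intro hg x
      rw [he]
      exact hg (π x)
  have hnt : ∀ D : Subgroup H, (∃ d ∈ D, φ d ≠ 1) → ∃ d ∈ D, φ' d ≠ 1 := by
    intro D hD
    by_contra hcon
    push Not at hcon
    obtain ⟨d, hd, hd1⟩ := hD
    exact hd1 (htriv D hcon d hd)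
  refine ⟨fun x => s (π x), Inf_irr π hπ s hs, n, St, fun k x => Θ k (π x),
    fun k hk => Inf_irr π hπ _ (h1 k hk), ?_, ?_, ?_, ?_⟩
  · intro k hk r hr R hR
    refine h2 k hk r hr R ?_
    rw [← hfx]
    exact hR
  · have e1 : s (π 1) = s 1 := by rw [map_one]
    have e2 : ∀ k, Θ k (π 1) = Θ k 1 := by
      intro k
      rw [map_one]
    change (∃ d : ℕ, s (π 1) = d ∧ p ∣ d) ∨
      ∀ k, (∀ j, k j ∈ A) → ∃ d : ℕ, Θ k (π 1) = d ∧ p ∣ d
    rw [e1]
    rcases h3 with h3 | h3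
    · exact Or.inl h3
    · refine Or.inr fun k hk => ?_
      rw [e2 k]
      exact h3 k hk
  · intro k hk r hr R hR
    refine h5 k hk r hr R ?_
    rw [← hfx]
    exact hR
  · rw [hfx s]
    refine ⟨h4.b1, ?_⟩
    rintro r hr ⟨q, hq, hqp, D, hDn, hDc, hDq, hD⟩
    exact h4.c r hr ⟨q, hq, hqp, D, hDn, hDc, hDq, hnt D hD⟩
-- END lo2

-- BEGIN lo3
/-- (lo3, size 3) PROOF. As `loc_map` of Nan/Pl.lean; Sylow subgroups of `H` map onto Sylow subgroups of `H'`, and every Sylow subgroup of `H'` is such an image. -/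
theorem loc_map2 {H' : Type} [Group H'] [Finite H'] (p : ℕ) (σ : H →* H')
    (hσ : Function.Surjective σ) (φ : H →* MulAut P) (φ' : H' →* MulAut P)
    (he : ∀ h, φ h = φ' (σ h)) {A : Subgroup H} (hA : Ab A) (B nb : Set ℕ)
    (hB : ∀ r ∈ B, AR A r) (hnb : ∀ r ∈ nb, r.Prime) (h : Loc2 p φ' (A.map σ) B nb) :
    Loc2 p φ A B nb := by
  obtain ⟨s, hs, n, St, Θ, h1, h2, h3, h4, hb⟩ := h
  obtain ⟨hA', hAR', hcm⟩ := map_ab σ hσ hA
  have hfx : ∀ χ : P → ℂ, ∀ g : H, g ∈ fxS φ χ ↔ σ g ∈ fxS φ' χ := by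
    intro χ g
    rw [mem_fxS, mem_fxS, he]
  have hmem : ∀ k : Fin n → H, (∀ j, k j ∈ A) → ∀ j, (fun j => σ (k j)) j ∈ A.map σ :=
    fun k hk j => ⟨k j, hk j, rfl⟩
  refine ⟨s, hs, n, fun j => (St j).comap σ, fun k => Θ fun j => σ (k j), ?_, ?_, ?_, ?_, ?_⟩
  · exact fun k hk => h1 _ (hmem k hk)
  · intro k hk r hr R hR g hg j
    have : Fact r.Prime := ⟨(hB r hr).prime⟩
    have hle : ((R.mapSurjective hσ : Sylow r H') : Subgroup H') ≤
        fxS φ' (Θ fun j => σ (k j)) := by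
      rw [Sylow.coe_mapSurjective, Subgroup.map_le_iff_le_comap]
      exact fun x hx => (hfx _ x).1 (hR hx)
    have hg' : σ g ∈ ((R.mapSurjective hσ : Sylow r H') : Subgroup H') := by
      rw [Sylow.coe_mapSurjective]
      exact ⟨g, hg, rfl⟩
    have h5 := h2 _ (hmem k hk) r hr _ hle (σ g) hg' j
    rw [Subgroup.mem_comap, map_mul, map_mul, map_inv]
    exact h5
  · rcases h3 with h3 | h3
    · exact Or.inl h3
    · exact Or.inr fun k hk => h3 _ (hmem k hk)
  · intro k hk r hr R hR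
    have : Fact r.Prime := ⟨hnb r hr⟩
    refine h4 _ (hmem k hk) r hr (R.mapSurjective hσ) ?_
    rw [Sylow.coe_mapSurjective, Subgroup.map_le_iff_le_comap]
    exact fun x hx => (hfx _ x).1 (hR hx)
  · have hnt : ∀ D : Subgroup H, (∃ d ∈ D, φ d ≠ 1) → ∃ d ∈ D.map σ, φ' d ≠ 1 := by
      rintro D ⟨d, hd, hne⟩
      exact ⟨σ d, ⟨d, hd, rfl⟩, by rwa [← he]⟩
    refine ⟨?_, ?_⟩
    · intro a ha hj
      rw [hfx]
      exact hb.b1 (σ a) ⟨a, ha, rfl⟩ hj
    · rintro r hr ⟨q, hq, hqp, D, hD, hDc, hDq, hDn⟩ ⟨⟨R, hR⟩, hRj, hcj, hS⟩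
      have hrp : r.Prime := (hB r hr).prime
      have : Fact r.Prime := ⟨hrp⟩
      have hc := hcm r hrp
      refine hb.c r hr ⟨q, hq, hqp, D.map σ, hD.map σ hσ, ?_, hDq.map σ, hnt D hDn⟩
        ⟨⟨R.mapSurjective hσ, ?_⟩, ?_, ?_, ?_⟩
      · rw [hc]
        exact Subgroup.map_mono hDc
      · rw [Sylow.coe_mapSurjective, Subgroup.map_le_iff_le_comap]
        exact fun x hx => (hfx s x).1 (hR hx)
      · intro j
        obtain ⟨R', hR'⟩ := hRj j
        refine ⟨R'.mapSurjective hσ, ?_⟩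
        rw [Sylow.coe_mapSurjective, Subgroup.map_le_iff_le_comap]
        exact hR'
      · rw [hc]
        rintro c ⟨c, hcc, rfl⟩ hcs j
        exact hcj c hcc ((hfx s c).2 hcs) j
      · intro x hx
        rw [hc] at hx ⊢
        choose x' hx' hxx using hx
        obtain ⟨y, hy, hyj⟩ := hS x' hx'
        refine ⟨σ y, ⟨y, hy, rfl⟩, fun j => ?_⟩
        have := hyj j
        rw [Subgroup.mem_comap, map_mul, map_inv, hxx] at this
        exact this
-- END lo3

-- BEGIN lo4
/-- (lo4, size 3) `vu` of Nan/Pl.lean with the kernel of `q`. PROOF. The proof of `vu` (copy it; `V`, `q` come from `pe_V`, which gives the kernel). -/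
theorem vu2 (p : ℕ) [Fact p.Prime] (hP : IsPGroup p P) (hH : ¬ p ∣ Nat.card H)
    (φ : H →* MulAut P) (hinj : Function.Injective φ)
    (hcen : ∀ x ∈ commutator P, ∀ y : P, x * y = y * x) (hexp : ∀ x ∈ commutator P, x ^ p = 1)
    (hne : commutator P ≠ ⊥)
    (hirr : ∀ N : Subgroup P, N ≤ commutator P → (∀ h, ∀ x ∈ N, φ h x ∈ N) →
      N = ⊥ ∨ N = commutator P) :
    ∃ (V U : Type) (_ : AddCommGroup V) (_ : Module (ZMod p) V) (_ : Finite V)
      (_ : AddCommGroup U) (_ : Module (ZMod p) U) (_ : Finite U)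
      (ρV : Representation (ZMod p) H V) (ρU : Representation (ZMod p) H U)
      (β : V →ₗ[ZMod p] V →ₗ[ZMod p] U) (q : P → V) (κ : U → P),
      C2 p φ ρV ρU β q κ ∧ Ltg p ρV ρU β ∧ ∀ x, q x = 0 ↔ x ∈ pe_Phi p P := by
  have hp : p.Prime := Fact.out
  obtain ⟨V, iV, mV, fV, q, hq, hs, hk⟩ := pe_V p P
  -- the space `U`
  obtain ⟨U, iU, mU, fU, κ, hκadd, hκmem, hκinj, hκex⟩ := pe_U p hcen hexp
  have hκinj' : ∀ u w, κ u = κ w → u = w := fun u w h => hκinj h
  have hκ0 : κ 0 = 1 := by simpa using hκadd 0 0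
  have hpU : ∀ u : U, p • u = 0 := fun u => by
    rw [← Nat.cast_smul_eq_nsmul (ZMod p), ZMod.natCast_self, zero_smul]
  have hκneg : ∀ u, κ (-u) = (κ u)⁻¹ := fun u => by
    have h := hκadd u (-u)
    rw [add_neg_cancel, hκ0] at h
    exact eq_inv_of_mul_eq_one_right h.symm
  -- `φ h` on `V`
  have hφPhi : ∀ h, ∀ x ∈ pe_Phi p P, φ h x ∈ pe_Phi p P := by
    intro h x hx
    have h1 : (pe_Phi p P).map (φ h).toMonoidHom ≤ pe_Phi p P := by
      show (commutator P ⊔ Subgroup.closure {z | ∃ x : P, z = x ^ p}).map _ ≤ _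
      rw [Subgroup.map_sup]
      refine sup_le ?_ ?_
      · have h2 : (commutator P).map (φ h).toMonoidHom = commutator P :=
          (Subgroup.characteristic_iff_map_eq.1 inferInstance (φ h))
        rw [h2]
        exact le_sup_left
      · rw [MonoidHom.map_closure, Subgroup.closure_le]
        rintro _ ⟨_, ⟨x, rfl⟩, rfl⟩
        refine Subgroup.mem_sup_right (Subgroup.subset_closure ⟨φ h x, ?_⟩)
        exact map_pow (φ h) x p
    exact h1 ⟨x, hx, rfl⟩
  have hρ : ∀ h, ∃ F : V →+ V, ∀ x, F (q x) = q (φ h x) := by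
    intro h
    refine pe_lift q hq hs (fun x => q (φ h x)) (fun x y => ?_) fun x hx => ?_
    · show q (φ h (x * y)) = _
      rw [map_mul, hq]
    · exact (hk _).2 (hφPhi h x ((hk x).1 hx))
  choose FV hFV using hρ
  let ρV : Representation (ZMod p) H V :=
    { toFun := fun h => (FV h).toZModLinearMap p
      map_one' := by
        refine LinearMap.ext fun v => ?_
        obtain ⟨x, rfl⟩ := hs v
        show FV 1 (q x) = q x
        rw [hFV, map_one, MulAut.one_apply]
      map_mul' := by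
        intro g k
        refine LinearMap.ext fun v => ?_
        obtain ⟨x, rfl⟩ := hs v
        show FV (g * k) (q x) = FV g (FV k (q x))
        rw [hFV, hFV, hFV, map_mul, MulAut.mul_apply] }
  have hρV : ∀ h x, ρV h (q x) = q (φ h x) := fun h x => hFV h x
  -- `φ h` on `U`
  have hcinv : ∀ h, ∀ x ∈ commutator P, φ h x ∈ commutator P := by
    intro h x hx
    have h1 : (commutator P).map (φ h).toMonoidHom = commutator P :=
      (Subgroup.characteristic_iff_map_eq.1 inferInstance (φ h))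
    rw [← h1]
    exact ⟨x, hx, rfl⟩
  have hρ' : ∀ h, ∃ F : U →+ U, ∀ u, κ (F u) = φ h (κ u) := by
    intro h
    choose f hf using fun u => hκex _ (hcinv h _ (hκmem u))
    refine ⟨⟨⟨f, ?_⟩, ?_⟩, hf⟩
    · refine hκinj' _ _ ?_
      rw [hf, hκ0, map_one]
    · intro u w
      refine hκinj' _ _ ?_
      show κ (f (u + w)) = κ (f u + f w)
      rw [hκadd, hf, hf, hf, hκadd, map_mul]
  choose FU hFU using hρ'
  let ρU : Representation (ZMod p) H U :=
    { toFun := fun h => (FU h).toZModLinearMap p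
      map_one' := by
        refine LinearMap.ext fun u => hκinj' _ _ ?_
        show κ (FU 1 u) = κ u
        rw [hFU, map_one, MulAut.one_apply]
      map_mul' := by
        intro g k
        refine LinearMap.ext fun u => hκinj' _ _ ?_
        show κ (FU (g * k) u) = κ (FU g (FU k u))
        rw [hFU, hFU, hFU, map_mul, MulAut.mul_apply] }
  have hρU : ∀ h u, κ (ρU h u) = φ h (κ u) := fun h u => hFU h u
  -- the commutator map
  have hcm : ∀ x y : P, x * y * x⁻¹ * y⁻¹ ∈ commutator P := fun x y =>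
    Subgroup.commutator_mem_commutator (Subgroup.mem_top x) (Subgroup.mem_top y)
  choose c hc using fun x y => hκex _ (hcm x y)
  have hc1 : ∀ x x' y, c (x * x') y = c x y + c x' y := by
    intro x x' y
    refine hκinj' _ _ ?_
    rw [hκadd, hc, hc, hc]
    have h1 := hcen _ (hcm x' y)
    have h2 : x * x' * y * (x * x')⁻¹ * y⁻¹ = x * (x' * y * x'⁻¹ * y⁻¹) * (y * x⁻¹ * y⁻¹) := by
      group
    have h3 : (x' * y * x'⁻¹ * y⁻¹) * x * (y * x⁻¹ * y⁻¹) =
        (x' * y * x'⁻¹ * y⁻¹) * (x * y * x⁻¹ * y⁻¹) := by group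
    rw [h2, ← h1 x, h3, h1]
  have hc2 : ∀ x y y', c x (y * y') = c x y + c x y' := by
    intro x y y'
    refine hκinj' _ _ ?_
    rw [hκadd, hc, hc, hc]
    have h1 := hcen _ (hcm x y')
    have h2 : x * (y * y') * x⁻¹ * (y * y')⁻¹ =
        (x * y * x⁻¹) * (x * y' * x⁻¹ * y'⁻¹) * y⁻¹ := by
      group
    have h3 : (x * y' * x⁻¹ * y'⁻¹) * (x * y * x⁻¹) * y⁻¹ =
        (x * y' * x⁻¹ * y'⁻¹) * (x * y * x⁻¹ * y⁻¹) := by group
    rw [h2, ← h1 (x * y * x⁻¹), h3, h1]
  -- vanishing on `Φ`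
  have hker : ∀ f : P → U, (∀ x y, f (x * y) = f x + f y) → ∀ x, q x = 0 → f x = 0 := by
    intro f hf x hx
    let f' : P →* Multiplicative U := MonoidHom.mk' (fun x => Multiplicative.ofAdd (f x))
      fun a b => by rw [hf]; rfl
    have h1 : pe_Phi p P ≤ f'.ker := by
      refine pe_Phi_le p f' fun a => ?_
      obtain ⟨u, rfl⟩ := Multiplicative.ofAdd.surjective a
      rw [← ofAdd_nsmul]
      have h2 : p • u = 0 := hpU u
      rw [h2]
      rfl
    exact h1 ((hk x).1 hx)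
  have hF1 : ∀ x, ∃ F : V →+ U, ∀ y, F (q y) = c x y := fun x =>
    pe_lift q hq hs (c x) (hc2 x) (hker _ (hc2 x))
  choose F1 hF1 using hF1
  have hF1add : ∀ x x', F1 (x * x') = F1 x + F1 x' := by
    intro x x'
    refine AddMonoidHom.ext fun v => ?_
    obtain ⟨y, rfl⟩ := hs v
    rw [AddMonoidHom.add_apply, hF1, hF1, hF1, hc1]
  obtain ⟨B, hB⟩ : ∃ B : V →+ (V →+ U), ∀ x, B (q x) = F1 x := by
    refine pe_lift q hq hs F1 hF1add fun x hx => ?_
    refine AddMonoidHom.ext fun v => ?_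
    obtain ⟨y, rfl⟩ := hs v
    rw [hF1]
    exact hker (fun x => c x y) (fun a b => hc1 a b y) x hx
  let β : V →ₗ[ZMod p] V →ₗ[ZMod p] U := LinearMap.mk₂ (ZMod p) (fun v w => B v w)
    (fun v v' w => by rw [map_add]; rfl)
    (fun a v w => by
      have h1 := ZMod.map_smul (AddMonoidHom.flip B w) a v
      exact h1)
    (fun v w w' => map_add _ _ _)
    (fun a v w => ZMod.map_smul (B v) a w)
  have hβ : ∀ x y, β (q x) (q y) = c x y := by
    intro x y
    show B (q x) (q y) = c x y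
    rw [hB, hF1]
  refine ⟨V, U, iV, mV, fV, iU, mU, fU, ρV, ρU, β, q, κ, ?_, ?_, hk⟩
  · exact
      { pgr := hP
        q_mul := hq
        q_surj := hs
        q_eq := fun h x => (hρV h x).symm
        κ_add := hκadd
        κ_inj := fun u hu => hκinj' u 0 (hu.trans hκ0.symm)
        κ_cen := fun u x => hcen _ (hκmem u) x
        κ_eq := hρU
        comm := fun x y => by rw [hβ, hc]
        qκ := fun u => (hk _).2 (Subgroup.mem_sup_left (hκmem u)) }
  · refine
      { pH := hH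
        alt := ?_
        eqv := ?_
        ne := ?_
        irr := ?_
        fai := ?_ }
    · intro v
      obtain ⟨x, rfl⟩ := hs v
      rw [hβ]
      refine hκinj' _ _ ?_
      rw [hc, hκ0]
      group
    · intro h v w
      obtain ⟨x, rfl⟩ := hs v
      obtain ⟨y, rfl⟩ := hs w
      rw [hρV, hρV, hβ, hβ]
      refine hκinj' _ _ ?_
      rw [hρU, hc, hc, map_mul, map_mul, map_mul, map_inv, map_inv]
    · intro h0
      apply hne
      rw [commutator_def, eq_bot_iff, Subgroup.commutator_le]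
      intro x _ y _
      have h1 : c x y = 0 := by rw [← hβ, h0]; rfl
      have h2 := hc x y
      rw [h1, hκ0] at h2
      rw [Subgroup.mem_bot, commutatorElement_def, ← h2]
    · intro W hW
      let N : Subgroup P :=
        { carrier := {x | ∃ u ∈ W, κ u = x}
          one_mem' := ⟨0, W.zero_mem, hκ0⟩
          mul_mem' := by
            rintro _ _ ⟨u, hu, rfl⟩ ⟨w, hw, rfl⟩
            exact ⟨u + w, W.add_mem hu hw, hκadd u w⟩
          inv_mem' := by
            rintro _ ⟨u, hu, rfl⟩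
            exact ⟨-u, W.neg_mem hu, hκneg u⟩ }
      have hN1 : N ≤ commutator P := by
        rintro _ ⟨u, hu, rfl⟩
        exact hκmem u
      have hN2 : ∀ h, ∀ x ∈ N, φ h x ∈ N := by
        rintro h _ ⟨u, hu, rfl⟩
        exact ⟨ρU h u, hW h (Subgroup.mem_top h) u hu, hρU h u⟩
      rcases hirr N hN1 hN2 with h | h
      · left
        rw [eq_bot_iff]
        intro u hu
        have h1 : κ u ∈ N := ⟨u, hu, rfl⟩
        rw [h, Subgroup.mem_bot] at h1
        exact hκinj' u 0 (h1.trans hκ0.symm)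
      · right
        rw [eq_top_iff]
        intro u _
        have h1 : κ u ∈ N := by
          rw [h]
          exact hκmem u
        obtain ⟨w, hw, hwu⟩ := h1
        rw [← hκinj' _ _ hwu]
        exact hw
    · intro h hh
      -- the kernel of `ρV` acts trivially
      let K : Subgroup H :=
        { carrier := {h | ∀ v, ρV h v = v}
          one_mem' := fun v => by rw [map_one]; rfl
          mul_mem' := fun {a b} ha hb v => by
            rw [map_mul]
            show ρV a (ρV b v) = v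
            rw [hb, ha]
          inv_mem' := fun {a} ha v => by
            have h2 : ρV a⁻¹ (ρV a v) = v := by
              rw [← Module.End.mul_apply, ← map_mul, inv_mul_cancel, map_one]
              rfl
            rw [ha v] at h2
            exact h2 }
      have hK : ∀ g ∈ K, ∀ x, φ g x = x := by
        have hKc : ¬ p ∣ Nat.card K := fun hd => hH (hd.trans K.card_subgroup_dvd_card)
        have h1 := gc_core p hp hP hKc (φ.comp K.subtype) (fun g x => ?_)
        · intro g hg x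
          exact h1 ⟨g, hg⟩ x
        · have h2 : q (x⁻¹ * φ g x) = 0 := by
            have h3 : q (φ g x) = q x := by
              rw [← hρV]
              exact g.2 (q x)
            have h4 := hq x (x⁻¹ * φ g x)
            rw [mul_inv_cancel_left, h3] at h4
            exact (left_eq_add.1 h4)
          have h3 : pe_Phi p P ≤ frattini P := by
            refine sup_le (gc_comm_le p hP) ?_
            rw [Subgroup.closure_le]
            rintro _ ⟨z, rfl⟩
            exact gc_pow_mem p hP z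
          exact h3 ((hk _).1 h2)
      refine hinj ?_
      rw [map_one]
      ext x
      exact hK h hh x
-- END lo4

-- BEGIN lo5
omit [Finite H] in
/-- (lo5) The action of `H'` on the module. -/
private theorem lo5_ex {p : ℕ} {H' : Type} [Group H'] (σ : H →* H')
    (hσ : Function.Surjective σ) {X : Type} [AddCommGroup X] [Module (ZMod p) X]
    (ρ : Representation (ZMod p) H X) (hk : ∀ h, σ h = 1 → ∀ x, ρ h x = x) :
    ∃ ρ' : Representation (ZMod p) H' X, ∀ h, ρ' (σ h) = ρ h := by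
  have hd : ∀ g h, σ g = σ h → ρ g = ρ h := by
    intro g h hgh
    have h1 : σ (h⁻¹ * g) = 1 := by rw [map_mul, map_inv, hgh, inv_mul_cancel]
    have h2 : ρ g = ρ h * ρ (h⁻¹ * g) := by rw [← map_mul, mul_inv_cancel_left]
    have h3 : ρ (h⁻¹ * g) = 1 := LinearMap.ext fun x => hk _ h1 x
    rw [h2, h3, mul_one]
  choose s hs using hσ
  exact ⟨{ toFun := fun g => ρ (s g)
           map_one' := by
             rw [hd (s 1) 1 (by rw [hs, map_one]), map_one]
           map_mul' := fun g h => by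
             rw [hd (s (g * h)) (s g * s h) (by rw [hs, map_mul, hs, hs]), map_mul] },
    fun h => hd _ _ (hs _)⟩

omit [Finite H] in
private theorem lo5_AA {p : ℕ} {H' : Type} [Group H'] (σ : H →* H')
    (hσ : Function.Surjective σ) {X : Type} [AddCommGroup X] [Module (ZMod p) X]
    (ρ : Representation (ZMod p) H X) (ρ' : Representation (ZMod p) H' X)
    (hρ : ∀ h, ρ' (σ h) = ρ h) (N : Subgroup H') : AA ρ' N = AA ρ (N.comap σ) := by
  unfold AA
  congr 1
  ext z
  constructor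
  · rintro ⟨n, hn, rfl⟩
    obtain ⟨h, rfl⟩ := hσ n
    exact ⟨h, hn, (hρ h).symm⟩
  · rintro ⟨h, hh, rfl⟩
    exact ⟨σ h, hh, hρ h⟩

omit [Finite H] in
private theorem lo5_bs {p : ℕ} {H' : Type} [Group H'] (σ : H →* H')
    (hσ : Function.Surjective σ) {X J : Type} [AddCommGroup X] [Module (ZMod p) X]
    (ρ : Representation (ZMod p) H X) (ρ' : Representation (ZMod p) H' X)
    (hρ : ∀ h, ρ' (σ h) = ρ h) {W : J → Submodule (ZMod p) X} {UU : J → Subgroup H}
    (h : BS ρ W UU) : BS ρ' W fun j => (UU j).map σ := by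
  have hNm : ∀ j g, σ g ∈ Nm ρ' (W j) ↔ g ∈ Nm ρ (W j) := by
    intro j g
    rw [mem_Nm, mem_Nm, hρ]
  refine ⟨h.ind, h.sup, h.ne, ?_, ?_, ?_, ?_, ?_, ?_, ?_, ?_, ?_⟩
  · intro g j
    obtain ⟨g, rfl⟩ := hσ g
    rw [hρ]
    exact h.prm g j
  · intro j j'
    obtain ⟨g, hg⟩ := h.tra j j'
    exact ⟨σ g, by rw [hρ]; exact hg⟩
  · intro j N hN hn hc z hz
    rw [lo5_AA σ hσ ρ ρ' hρ N] at hz
    refine h.qp j (N.comap σ) ?_ ?_ ?_ z hz
    · intro n hn
      exact (hNm j n).1 (hN hn)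
    · intro g hg n hn'
      rw [Subgroup.mem_comap, map_mul, map_mul, map_inv]
      exact hn _ ((hNm j g).2 hg) _ hn'
    · intro a ha b hb w hw
      have h1 := hc (σ a) ha (σ b) hb w hw
      rwa [hρ, hρ] at h1
  · rintro j _ ⟨u, hu, rfl⟩
    exact (hNm j u).2 (h.uN j hu)
  · rintro j g hg _ ⟨u, hu, rfl⟩
    obtain ⟨g, rfl⟩ := hσ g
    exact ⟨g * u * g⁻¹, h.uNor j g ((hNm j g).1 hg) u hu, by rw [map_mul, map_mul, map_inv]⟩
  · rintro j _ ⟨a, ha, rfl⟩ _ ⟨b, hb, rfl⟩ w hw
    rw [hρ, hρ]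
    exact h.uCom j a ha b hb w hw
  · intro j g hg
    obtain ⟨g, rfl⟩ := hσ g
    refine ⟨g, h.uKer j g ?_, rfl⟩
    intro w hw
    have h1 := hg w hw
    rwa [hρ] at h1
  · intro j N hN hn hc hU n hn'
    obtain ⟨n, rfl⟩ := hσ n
    refine ⟨n, h.uMax j (N.comap σ) ?_ ?_ ?_ ?_ hn', rfl⟩
    · intro n hn
      exact (hNm j n).1 (hN hn)
    · intro g hg n hn'
      rw [Subgroup.mem_comap, map_mul, map_mul, map_inv]
      exact hn _ ((hNm j g).2 hg) _ hn'
    · intro a ha b hb w hw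
      have h1 := hc (σ a) ha (σ b) hb w hw
      rwa [hρ, hρ] at h1
    · intro u hu
      exact hU ⟨u, hu, rfl⟩
  · rintro g j j' hg _ ⟨u, hu, rfl⟩
    obtain ⟨g, rfl⟩ := hσ g
    rw [hρ] at hg
    exact ⟨g * u * g⁻¹, h.uCj g j j' hg u hu, by rw [map_mul, map_mul, map_inv]⟩

private theorem lo5_bt {p : ℕ} {H' : Type} [Group H'] [Finite H'] (σ : H →* H')
    (hσ : Function.Surjective σ) {X J : Type} [AddCommGroup X] [Module (ZMod p) X]
    (ρ : Representation (ZMod p) H X) (ρ' : Representation (ZMod p) H' X)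
    (hρ : ∀ h, ρ' (σ h) = ρ h) {W : J → Submodule (ZMod p) X} {UU : J → Subgroup H}
    (h : BS ρ W UU) (r : ℕ) (hr : r.Prime) :
    Bt ρ' W (fun j => (UU j).map σ) r ↔ Bt ρ W UU r := by
  have : Fact r.Prime := ⟨hr⟩
  have hNm : ∀ j g, σ g ∈ Nm ρ' (W j) ↔ g ∈ Nm ρ (W j) := by
    intro j g
    rw [mem_Nm, mem_Nm, hρ]
  have hTv : ∀ j g, Tv ρ' (W j) (σ g) ↔ Tv ρ (W j) g := by
    intro j g
    unfold Tv
    rw [hρ]
  have hS : ∀ Q : H' → Prop, (∀ R : Sylow r H', ∀ x ∈ (R : Subgroup H'), Q x) ↔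
      ∀ R : Sylow r H, ∀ x ∈ (R : Subgroup H), Q (σ x) := by
    intro Q
    constructor
    · intro hQ R x hx
      refine hQ (R.mapSurjective hσ) (σ x) ?_
      rw [Sylow.coe_mapSurjective]
      exact ⟨x, hx, rfl⟩
    · intro hQ R' x hx
      obtain ⟨R, rfl⟩ := Sylow.mapSurjective_surjective hσ r R'
      rw [Sylow.coe_mapSurjective] at hx
      obtain ⟨x, hx, rfl⟩ := hx
      exact hQ R x hx
  unfold Bt
  refine or_congr ?_ (and_congr ?_ (and_congr ?_ ?_))
  · rw [hS fun x => ∀ v, ρ' x v = v]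
    simp only [hρ]
  · rw [hS fun x => ∀ j, (W j).map (ρ' x) = W j]
    simp only [hρ]
  · constructor
    · intro hA j x hx y hy
      obtain ⟨u, hu, he⟩ := hA j (σ x) ((hNm j x).2 hx) (σ y) ((hNm j y).2 hy)
      have h1 : Tv ρ (W j) (u⁻¹ * (x * y * x⁻¹ * y⁻¹)) := by
        rw [← hTv]
        have h2 : σ (u⁻¹ * (x * y * x⁻¹ * y⁻¹)) = 1 := by
          rw [map_mul, map_inv, he, map_mul, map_mul, map_mul, map_inv, map_inv, inv_mul_cancel]
        rw [h2]
        intro w _
        rw [map_one]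
        rfl
      have h2 := (UU j).mul_mem hu (h.uKer j _ h1)
      rwa [mul_inv_cancel_left] at h2
    · intro hA j x hx y hy
      obtain ⟨x, rfl⟩ := hσ x
      obtain ⟨y, rfl⟩ := hσ y
      exact ⟨x * y * x⁻¹ * y⁻¹, hA j x ((hNm j x).1 hx) y ((hNm j y).1 hy), by
        rw [map_mul, map_mul, map_mul, map_inv, map_inv]⟩
  · constructor
    · intro hU j u hu ht
      rw [← hTv]
      refine hU j (σ u) ⟨u, hu, rfl⟩ ?_
      rw [← map_pow, hTv]
      exact ht
    · rintro hU j _ ⟨u, hu, rfl⟩ ht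
      rw [hTv]
      refine hU j u hu ?_
      rw [← hTv, map_pow]
      exact ht

/-- (lo5, size 4) A family for `H` whose modules factor through `σ : H → H'`. PROOF. `X`, `J`, `W` the same, `ρ'` with `ρ' (σ h) = ρ h` (`hk`), `UU' j = (UU j).map σ` (`UU j` contains the kernel of `σ`: `uKer`). `Nm ρ' W` is the image of
`Nm ρ W`; `AA ρ' N = AA ρ (N.comap σ)`. `BS`, `Bt` (Sylow subgroups of `H'` are the images of those of `H`), and `A`: `(⨅ UU j).map σ ≤ ⨅ (UU j).map σ`. -/
theorem fam_map {p : ℕ} [Fact p.Prime] {H' : Type} [Group H'] [Finite H'] (σ : H →* H')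
    (hσ : Function.Surjective σ) (F : Fam p H) (hk : ∀ h, σ h = 1 → ∀ x, F.ρ h x = x) :
    ∃ (F' : Fam p H') (e : F.X ≃ₗ[ZMod p] F'.X),
      (∀ h x, F'.ρ (σ h) (e x) = e (F.ρ h x)) ∧ (∀ r : ℕ, r.Prime → (F'.Bt r ↔ F.Bt r)) ∧
      F.A.map σ ≤ F'.A := by
  obtain ⟨ρ', hρ⟩ := lo5_ex σ hσ F.ρ hk
  have hirr : Irrd ρ' ⊤ := by
    intro W hW
    refine F.irr W fun h _ w hw => ?_
    have h1 := hW (σ h) (Subgroup.mem_top _) w hw
    rwa [hρ] at h1
  refine ⟨⟨F.X, ρ', hirr, F.J, F.W, fun j => (F.UU j).map σ, lo5_bs σ hσ F.ρ ρ' hρ F.bs⟩,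
    LinearEquiv.refl (ZMod p) F.X, ?_, ?_, ?_⟩
  · intro h x
    change ρ' (σ h) x = F.ρ h x
    rw [hρ]
  · intro r hr
    exact lo5_bt σ hσ F.ρ ρ' hρ F.bs r hr
  · exact le_iInf fun j => Subgroup.map_mono (iInf_le _ j)
-- END lo5

-- BEGIN lo6
private noncomputable def lo6_act (φ : H →* MulAut P) (N₀ : Subgroup P) [N₀.Normal]
    (hinv : ∀ h, ∀ x ∈ N₀, φ h x ∈ N₀) : H →* MulAut (P ⧸ N₀) where
  toFun h := QuotientGroup.congr N₀ N₀ (φ h) (by
    apply le_antisymm
    · rintro _ ⟨x, hx, rfl⟩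
      exact hinv h x hx
    · intro x hx
      refine ⟨φ h⁻¹ x, hinv _ x hx, ?_⟩
      change φ h (φ h⁻¹ x) = x
      rw [← MulAut.mul_apply, ← map_mul, mul_inv_cancel, map_one, MulAut.one_apply])
  map_one' := by
    ext x
    induction x using QuotientGroup.induction_on with
    | H x =>
      change ((φ 1 x : P) : P ⧸ N₀) = x
      rw [map_one, MulAut.one_apply]
  map_mul' g h := by
    ext x
    induction x using QuotientGroup.induction_on with
    | H x =>
      change ((φ (g * h) x : P) : P ⧸ N₀) = ((φ g (φ h x) : P) : P ⧸ N₀)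
      rw [map_mul, MulAut.mul_apply]

omit [Finite P] [Finite H] in
private theorem lo6_act_mk (φ : H →* MulAut P) (N₀ : Subgroup P) [N₀.Normal]
    (hinv : ∀ h, ∀ x ∈ N₀, φ h x ∈ N₀) (h : H) (x : P) :
    lo6_act φ N₀ hinv h (x : P ⧸ N₀) = ((φ h x : P) : P ⧸ N₀) := rfl

omit [Finite P] [Finite H] in
private theorem lo6_map {P' : Type} [Group P'] (π : P →* P') (hπ : Function.Surjective π) :
    commutator P' = (commutator P).map π := by
  rw [commutator_def, commutator_def, Subgroup.map_commutator, Subgroup.map_top_of_surjective π hπ]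

omit [Finite P] [Finite H] in
private theorem lo6_phi (p : ℕ) (N₀ : Subgroup P) [N₀.Normal] (h : N₀ ≤ pe_Phi p P) (x : P) :
    QuotientGroup.mk' N₀ x ∈ pe_Phi p (P ⧸ N₀) ↔ x ∈ pe_Phi p P := by
  have h1 : pe_Phi p (P ⧸ N₀) = (pe_Phi p P).map (QuotientGroup.mk' N₀) := by
    unfold pe_Phi
    rw [Subgroup.map_sup, lo6_map _ (QuotientGroup.mk'_surjective N₀), MonoidHom.map_closure]
    congr 2
    ext z
    constructor
    · rintro ⟨y, rfl⟩
      obtain ⟨y, rfl⟩ := QuotientGroup.mk'_surjective N₀ y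
      exact ⟨y ^ p, ⟨y, rfl⟩, map_pow _ _ _⟩
    · rintro ⟨_, ⟨y, rfl⟩, rfl⟩
      exact ⟨QuotientGroup.mk' N₀ y, map_pow _ _ _⟩
  rw [h1]
  constructor
  · rintro ⟨y, hy, he⟩
    have h2 : y⁻¹ * x ∈ N₀ := QuotientGroup.eq.1 he
    have h3 := (pe_Phi p P).mul_mem hy (h h2)
    rwa [mul_inv_cancel_left] at h3
  · intro hx
    exact ⟨x, hx, rfl⟩

/-- (lo6, size 5) PROOF. As `loc_main` of Nan/Pl.lean: `N₀` from `ex_N0`; `loc_inf2` for `P → P / N₀`; `loc_map2` for the map `σ` of `H` onto the range of the action on `P / N₀`; `vu2` for `P / N₀`; `loc_core2`. The `V'`, `q'` of `vu2`: `q' ∘ π : P → V'` has the kernel `pe_Phi p P` (`N₀ ≤ commutator P ≤ pe_Phi`), the same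
as `q`, so there is an isomorphism `V ≃ V'`, compatible with the actions (`pe_lift`), and `em` gives maps to `Dual V'`. The families: `fam_map` (`σ h = 1` implies that `h` is trivial on `V'`, on `V` and on the `(F i).X`). `LS` for `A.map σ`: `map_ab`, `triv`: the elements of `cm (A.map σ) r` are the images of those of `cm A r`. -/
theorem loc_main2 (p : ℕ) [hp : Fact p.Prime] (h11 : 5 ≤ p) (hP : IsPGroup p P)
    (hH : ¬ p ∣ Nat.card H) (hs : Group.IsSolvable H) (φ : H →* MulAut P)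
    (hne : commutator P ≠ ⊥) {V : Type} [AddCommGroup V] [Module (ZMod p) V] [Finite V]
    (ρV : Representation (ZMod p) H V) (q : P → V) (hq : ∀ x y, q (x * y) = q x + q y)
    (hqs : Function.Surjective q) (hqk : ∀ x, q x = 0 ↔ x ∈ pe_Phi p P)
    (hqe : ∀ h x, q (φ h x) = ρV h (q x)) {n : ℕ} (F : Fin n → Fam p H)
    (em : ∀ i, (F i).X →ₗ[ZMod p] Module.Dual (ZMod p) V)
    (inj : ∀ i, Function.Injective (em i))
    (eqv : ∀ i h x v, em i ((F i).ρ h x) v = em i x (ρV h⁻¹ v))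
    (ind : iSupIndep fun i => LinearMap.range (em i)) (sup : ⨆ i, LinearMap.range (em i) = ⊤)
    {A : Subgroup H} (hA : Ab A) (B : Set ℕ) (hB : ∀ r ∈ B, AR A r) (hB11 : ∀ r ∈ B, 5 ≤ r)
    (Ale : ∀ i, A ≤ (F i).A) (bt : ∀ r ∈ B, ∀ i, (F i).Bt r)
    (triv : ∀ r ∈ B, ∀ i, (∀ c ∈ cm A r, ∀ x, (F i).ρ c x = x) →
      ∀ R : Sylow r H, ∀ y ∈ (R : Subgroup H), ∀ x, (F i).ρ y x = x) :
    Loc2 p φ A B {r | r.Prime ∧ 5 ≤ r ∧ ∃ i, ¬ (F i).Bt r} := by
  have hpp : p.Prime := hp.out
  obtain ⟨N₀, hN, hinv, hlt, hcen, hexp, hmin⟩ := ex_N0 p hpp hP φ hne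
  have hcom : ∀ f : P →* ℂˣ, ∀ x ∈ N₀, f x = 1 := fun f x hx => by
    have h1 : commutator P ≤ f.ker := Abelianization.commutator_subset_ker f
    exact h1 (hlt.le hx)
  refine loc_inf2 p (QuotientGroup.mk' N₀) (QuotientGroup.mk'_surjective N₀) φ
    (lo6_act φ N₀ hinv) (fun h x => (lo6_act_mk φ N₀ hinv h x).symm) ?_ A B _ ?_
  · intro D hD d hd
    have hcard : ¬ p ∣ Nat.card D := fun h => hH (h.trans (Subgroup.card_subgroup_dvd_card D))
    have key := triv_of_lin p hpp hP hcard (φ.comp D.subtype) (by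
      rintro f ⟨g, hg⟩ x
      change f (φ g x) = f x
      have h1 : lo6_act φ N₀ hinv g (x : P ⧸ N₀) = (x : P ⧸ N₀) := by rw [hD g hg, MulAut.one_apply]
      rw [lo6_act_mk, eq_comm, QuotientGroup.eq] at h1
      have h2 := hcom f _ h1
      rw [map_mul, map_inv, inv_mul_eq_one] at h2
      exact h2.symm)
    ext x
    exact key ⟨d, hd⟩ x
  · set φ' := lo6_act φ N₀ hinv with hφ'
    have hσ : Function.Surjective φ'.rangeRestrict := φ'.rangeRestrict_surjective
    refine loc_map2 p φ'.rangeRestrict hσ φ' φ'.range.subtype (fun h => rfl) hA B _ hB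
      (fun r hr => hr.1) ?_
    obtain ⟨hA', hAR', hcmA⟩ := map_ab φ'.rangeRestrict hσ hA
    have hcm : commutator (P ⧸ N₀) = (commutator P).map (QuotientGroup.mk' N₀) :=
      lo6_map _ (QuotientGroup.mk'_surjective N₀)
    have hc1 : ∀ x ∈ commutator (P ⧸ N₀), ∀ y : P ⧸ N₀, x * y = y * x := by
      intro x hx y
      rw [hcm] at hx
      obtain ⟨x, hx, rfl⟩ := hx
      obtain ⟨y, rfl⟩ := QuotientGroup.mk'_surjective N₀ y
      have h1 := hcen x hx y
      rw [← QuotientGroup.eq_one_iff] at h1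
      have h2 : QuotientGroup.mk' N₀ (x * y * x⁻¹ * y⁻¹) = 1 := h1
      rw [map_mul, map_mul, map_mul, map_inv, map_inv, mul_inv_eq_one, mul_inv_eq_iff_eq_mul] at h2
      exact h2
    suffices h : _ ∧ _ ∧ _ by
      obtain ⟨V', U, i1, i2, i3, i4, i5, i6, ρV', ρU, β, q', κ, hC, hL, hk'⟩ :=
        vu2 p (hP.to_quotient N₀)
        (fun h => hH (h.trans (Subgroup.card_range_dvd φ'))) φ'.range.subtype
        Subtype.val_injective hc1 h.1 h.2.1 h.2.2
      -- the isomorphism of `V` and `V'`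
      have hNPhi : N₀ ≤ pe_Phi p P := hlt.le.trans le_sup_left
      have hk0 : ∀ x, q' (QuotientGroup.mk' N₀ x) = 0 ↔ q x = 0 := by
        intro x
        rw [hk', hqk, lo6_phi p N₀ hNPhi]
      obtain ⟨e₀, he₀⟩ := pe_lift q hq hqs (fun x => q' (QuotientGroup.mk' N₀ x))
        (fun x y => by rw [map_mul, hC.q_mul]) (fun x hx => (hk0 x).2 hx)
      have he₀b : Function.Bijective e₀ := by
        constructor
        · rw [injective_iff_map_eq_zero]
          intro v hv
          obtain ⟨x, rfl⟩ := hqs v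
          rw [he₀] at hv
          exact (hk0 x).1 hv
        · intro v'
          obtain ⟨y, rfl⟩ := hC.q_surj v'
          obtain ⟨x, rfl⟩ := QuotientGroup.mk'_surjective N₀ y
          exact ⟨q x, he₀ x⟩
      let e : V ≃ₗ[ZMod p] V' := LinearEquiv.ofBijective (e₀.toZModLinearMap p) he₀b
      have he : ∀ x, e (q x) = q' (QuotientGroup.mk' N₀ x) := he₀
      have hee : ∀ (h : H) v, e (ρV h v) = ρV' (φ'.rangeRestrict h) (e v) := by
        intro h v
        obtain ⟨x, rfl⟩ := hqs v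
        rw [← hqe, he, he, ← hC.q_eq]
        rfl
      have hees : ∀ (h : H) v', e.symm (ρV' (φ'.rangeRestrict h) v') = ρV h (e.symm v') := by
        intro h v'
        rw [LinearEquiv.symm_apply_eq, hee, LinearEquiv.apply_symm_apply]
      have hker : ∀ h : H, φ'.rangeRestrict h = 1 → ∀ v, ρV h v = v := by
        intro h h1 v
        apply e.injective
        rw [hee, h1, map_one]
        rfl
      have hkF : ∀ i, ∀ h : H, φ'.rangeRestrict h = 1 → ∀ x, (F i).ρ h x = x := by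
        intro i h h1 x
        apply inj i
        ext v
        rw [eqv]
        congr 1
        exact hker _ (by rw [map_inv, h1, inv_one]) v
      choose F' eF heF hbtF hAF using fun i => fam_map φ'.rangeRestrict hσ (F i) (hkF i)
      let em' : ∀ i, (F' i).X →ₗ[ZMod p] Module.Dual (ZMod p) V' := fun i =>
        (e.symm.dualMap : Module.Dual (ZMod p) V →ₗ[ZMod p] Module.Dual (ZMod p) V').comp
          ((em i).comp ((eF i).symm : (F' i).X →ₗ[ZMod p] (F i).X))
      have hem' : ∀ i x v', em' i x v' = em i ((eF i).symm x) (e.symm v') := fun i x v' => rfl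
      have hrange : ∀ i, LinearMap.range (em' i) =
          (LinearMap.range (em i)).map
            (e.symm.dualMap : Module.Dual (ZMod p) V →ₗ[ZMod p] Module.Dual (ZMod p) V') := by
        intro i
        rw [LinearMap.range_comp, LinearMap.range_comp, LinearEquiv.range, Submodule.map_top]
      have hLS : LS ρV' ρU β (A.map φ'.rangeRestrict) B F' em' := by
        refine ⟨hL, ?_, h11, hA', fun r hr => hAR' r (hB r hr), hB11, ?_, ?_, ?_, ?_, ?_, ?_, ?_⟩
        · exact Group.isSolvable_of_surjective hσ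
        · intro i x y hxy
          apply (eF i).symm.injective
          apply inj i
          ext v
          have h1 := congrArg (fun f : Module.Dual (ZMod p) V' => f (e v)) hxy
          simp only [hem', LinearEquiv.symm_apply_apply] at h1
          exact h1
        · intro i h x v
          obtain ⟨h, rfl⟩ := hσ h
          rw [hem', hem', ← map_inv, hees, ← eqv]
          congr 2
          rw [LinearEquiv.symm_apply_eq, ← heF, LinearEquiv.apply_symm_apply]
        · have h1 := ind.map_orderIso (Submodule.orderIsoMapComap e.symm.dualMap)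
          have h2 : (fun i => LinearMap.range (em' i)) =
              (Submodule.orderIsoMapComap e.symm.dualMap) ∘ fun i => LinearMap.range (em i) := by
            funext i
            exact hrange i
          rw [h2]
          exact h1
        · simp only [hrange]
          rw [← Submodule.map_iSup, sup, Submodule.map_top]
          exact LinearEquiv.range _
        · intro i
          exact (Subgroup.map_mono (Ale i)).trans (hAF i)
        · intro r hr i
          exact (hbtF i r (hB r hr).prime).2 (bt r hr i)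
        · intro r hr i hc R' y hy x
          have hrp : r.Prime := (hB r hr).prime
          have : Fact r.Prime := ⟨hrp⟩
          obtain ⟨R, rfl⟩ := Sylow.mapSurjective_surjective hσ r R'
          rw [Sylow.coe_mapSurjective] at hy
          obtain ⟨y, hy, rfl⟩ := hy
          obtain ⟨x, rfl⟩ := (eF i).surjective x
          rw [heF]
          congr 1
          refine triv r hr i (fun c hc' x => ?_) R y hy x
          apply (eF i).injective
          rw [← heF]
          refine hc _ ?_ _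
          rw [hcmA r hrp]
          exact ⟨c, hc', rfl⟩
      have hnb : {r : ℕ | r.Prime ∧ 5 ≤ r ∧ ∃ i, ¬ (F i).Bt r} =
          {r : ℕ | r.Prime ∧ 5 ≤ r ∧ ∃ i, ¬ (F' i).Bt r} := by
        ext r
        simp only [Set.mem_ofPred_eq]
        refine and_congr_right fun hr => and_congr_right fun _ => exists_congr fun i => ?_
        rw [hbtF i r hr]
      rw [hnb]
      exact loc_core2 hC hLS
    refine ⟨?_, ?_, ?_⟩
    · intro x hx
      rw [hcm] at hx
      obtain ⟨x, hx, rfl⟩ := hx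
      rw [← map_pow]
      exact (QuotientGroup.eq_one_iff _).2 (hexp x hx)
    · intro h
      rw [hcm, Subgroup.map_eq_bot_iff, QuotientGroup.ker_mk'] at h
      exact absurd h (not_le_of_gt hlt)
    · intro N hNle hNinv
      have hNn : N.Normal := ⟨fun n hn g => by
        rw [← hc1 n (hNle hn) g, mul_inv_cancel_right]
        exact hn⟩
      have h1 := hmin (N.comap (QuotientGroup.mk' N₀)) (hNn.comap _) ?_ ?_ ?_
      · rcases h1 with h1 | h1
        · left
          rw [← Subgroup.map_comap_eq_self_of_surjective (QuotientGroup.mk'_surjective N₀) N, h1,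
            QuotientGroup.map_mk'_self]
        · right
          rw [← Subgroup.map_comap_eq_self_of_surjective (QuotientGroup.mk'_surjective N₀) N, h1,
            hcm]
      · intro x hx
        rw [Subgroup.mem_comap]
        have : QuotientGroup.mk' N₀ x = 1 := (QuotientGroup.eq_one_iff _).2 hx
        rw [this]
        exact N.one_mem
      · intro x hx
        rw [Subgroup.mem_comap] at hx
        have h2 := hNle hx
        rw [hcm] at h2
        obtain ⟨y, hy, hxy⟩ := h2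
        have h3 : y⁻¹ * x ∈ N₀ := QuotientGroup.eq.1 hxy
        have h4 := (commutator P).mul_mem hy (hlt.le h3)
        rwa [mul_inv_cancel_left] at h4
      · intro h x hx
        exact hNinv (φ'.rangeRestrict h) _ hx
-- END lo6

end

end Pool.Agent.Nfv
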