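import Pool.Agent.Nas.Ob

/-! Elements of prime order `≥ 5` of small solvable irreducible linear groups. -/

set_option autoImplicit false

namespace Pool.Agent.Nfv

open Pool.Agent.Nan Pool.Agent.Nas

/-- `x` has prime order `≥ 5`. -/
def P5 {X : Type} [Group X] (x : X) : Prop := x ≠ 1 ∧ ∃ l : ℕ, l.Prime ∧ 5 ≤ l ∧ x ^ l = 1

-- BEGIN za1
/-- (za1, size 3) PROOF. For `s ^ k ≤ 17` there are only the prime powers `2, 3, 4, 5, 7, 8, 9, 11, 13, 16, 17`, and
`3`, `8`, `15 = 3 * 5`, `24`, `48`, `63 = 9 * 7`, `80 = 16 * 5`, `255 = 3 * 5 * 17` are the numbers `(s ^ k) ^ 2 - 1` for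
`s ^ k = 2, 3, 4, 5, 7, 8, 9, 16`. (Compare `zl1_case` of Nas/Zl.lean; `s ≤ 16`, `k ≤ 4`, `interval_cases`.) -/
theorem pn5 (l s k : ℕ) (hl : l.Prime) (hl5 : 5 ≤ l) (hs : s.Prime) (hk : 0 < k)
    (hd : l ∣ s ^ (2 * k) - 1) : 4 ≤ s ^ k ∧ s ^ k ≠ 5 ∧ s ^ k ≠ 7 ∧ (s ^ k = 4 → l = 5) ∧
      (s ^ k = 8 → l = 7) ∧ (s ^ k = 9 → l = 5) := by
  have h1 : s ^ (2 * k) = (s ^ k) ^ 2 := by rw [mul_comm, pow_mul]
  rw [h1] at hd
  have h2 : 2 ≤ s ^ k := hs.two_le.trans (Nat.le_self_pow hk.ne' s)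
  generalize s ^ k = q at hd h2
  have h3 : ∀ n : ℕ, q ^ 2 - 1 = n → l ∣ n := fun n hn => hn ▸ hd
  refine ⟨?_, ?_, ?_, ?_, ?_, ?_⟩
  · by_contra hcon
    push Not at hcon
    interval_cases q
    · have h4 := h3 3 (by norm_num)
      have h5 := Nat.le_of_dvd (by norm_num) h4
      omega
    · have h4 := h3 8 (by norm_num)
      have h5 := Nat.le_of_dvd (by norm_num) h4
      interval_cases l <;> first | omega | (revert hl; norm_num)
  · rintro rfl
    have h4 := h3 24 (by norm_num)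
    have h5 := Nat.le_of_dvd (by norm_num) h4
    interval_cases l <;> first | omega | (revert hl; norm_num)
  · rintro rfl
    have h4 := h3 48 (by norm_num)
    have h5 := Nat.le_of_dvd (by norm_num) h4
    interval_cases l <;> first | omega | (revert hl; norm_num)
  · rintro rfl
    have h4 := h3 15 (by norm_num)
    have h5 := Nat.le_of_dvd (by norm_num) h4
    interval_cases l <;> first | rfl | omega | (revert hl; norm_num)
  · rintro rfl
    have h4 := h3 63 (by norm_num)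
    have h5 := Nat.le_of_dvd (by norm_num) h4
    interval_cases l <;> first | rfl | omega | (revert hl; norm_num)
  · rintro rfl
    have h4 := h3 80 (by norm_num)
    have h5 := Nat.le_of_dvd (by norm_num) h4
    interval_cases l <;> first | rfl | omega | (revert hl; norm_num)
-- END za1

-- BEGIN za2
theorem za2_card_dvd {G : Type} [Group G] [Finite G] (N : Subgroup G) [N.Normal] (l : ℕ)
    (hl : l.Prime) (hd : ¬ l ∣ N.index) (x : G) (hx : x ^ l = 1) : x ∈ N := by
  have hc : Nat.Coprime l N.index := (Nat.Prime.coprime_iff_not_dvd hl).2 hd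
  have h1 : x ^ N.index ∈ N := Subgroup.pow_index_mem N x
  have h2 : ((QuotientGroup.mk x : G ⧸ N)) ^ l = 1 := by
    rw [← QuotientGroup.mk_pow, hx]; rfl
  have h3 : ((QuotientGroup.mk x : G ⧸ N)) ^ N.index = 1 := by
    rw [← QuotientGroup.mk_pow]
    exact (QuotientGroup.eq_one_iff _).2 h1
  have h4 := orderOf_dvd_of_pow_eq_one h2
  have h5 := orderOf_dvd_of_pow_eq_one h3
  have h6 : orderOf (QuotientGroup.mk x : G ⧸ N) = 1 := Nat.eq_one_of_dvd_coprimes hc h4 h5
  exact (QuotientGroup.eq_one_iff _).1 (orderOf_eq_one_iff.1 h6)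

theorem za2_not_dvd (l a : ℕ) (hl : l.Prime) (hl5 : 5 ≤ l) (ha : 0 < a) (ha8 : a ≤ 8)
    (ha5 : a ≠ 5) (ha7 : a ≠ 7) : ¬ l ∣ a := by
  intro h
  have h1 := Nat.le_of_dvd ha h
  have h2 : l ≤ 8 := h1.trans ha8
  have h6 : l ≠ 6 := by
    rintro rfl
    revert hl
    decide
  have h8 : l ≠ 8 := by
    rintro rfl
    revert hl
    decide
  interval_cases l <;> interval_cases a <;> omega

/-- The number facts of `zu`. -/
theorem za2_num {p a b e d' : ℕ} (ha : 0 < a) (had : a * d' = b) (hd' : 0 < d')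
    (hb : p = 2 ∧ b ≤ 8 ∧ b ≠ 5 ∧ b ≠ 7 ∨ p = 3 ∧ b ≤ 3 ∨ p = 5 ∧ b ≤ 2) :
    a ≤ 8 ∧ a ≠ 5 ∧ a ≠ 7 ∧ (a * e ≤ b → 4 ≤ e → p = 2 ∧ (a = 1 ∨ a = 2) ∧ (5 ≤ e → a = 1) ∧
      (a = 2 → e = 4)) := by
  have hab : a ≤ b := by
    rw [← had]
    exact Nat.le_mul_of_pos_right a hd'
  have hb8 : b ≤ 8 := by rcases hb with h | h | h <;> omega
  have ha8 : a ≤ 8 := hab.trans hb8
  refine ⟨ha8, ?_, ?_, ?_⟩
  · rintro rfl
    have : d' = 1 := by
      by_contra h
      have : 2 ≤ d' := by omega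
      omega
    subst this
    rcases hb with h | h | h <;> omega
  · rintro rfl
    have : d' = 1 := by
      by_contra h
      have : 2 ≤ d' := by omega
      omega
    subst this
    rcases hb with h | h | h <;> omega
  · intro hae he4
    have h4a : a * 4 ≤ b := (Nat.mul_le_mul_left a he4).trans hae
    have ha2 : a ≤ 2 := by omega
    have hp : p = 2 := by rcases hb with h | h | h <;> omega
    refine ⟨hp, by omega, ?_, ?_⟩
    · intro he5
      have h5a : a * 5 ≤ b := (Nat.mul_le_mul_left a he5).trans hae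
      omega
    · rintro rfl
      omega

/-- (za2, size 3) PROOF. Let `x` have prime order `l ≥ 5`. `qp_gal`: `card W = (p ^ a) ^ d'`, so `a * d' = b`, and the index of
`C = centralizer U` divides `a`. `l` does not divide `a` (`a` divides `b`, and `b` is `1, 2, 3, 4, 6` or `8`), so `x ∈ C` (compare `zl2_card_dvd` of Nas/Zl.lean). `qp_E`,
`sq_ex`, `qp_dim`: `(p ^ a) ^ e ≤ p ^ b`, so `a * e ≤ b`, and the primes which divide `e` divide `card U`, which divides `p ^ a - 1`. So `l` does not divide `e`: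
`l ∣ e` gives `e ≥ 5`, so `p = 2`, `a = 1`, and `l ∣ 2 ^ 1 - 1`. If `x ∉ E`: `prm_act` gives `s ^ k ∣ e`, `l ∣ s ^ (2k) - 1`, `pn5`: `s ^ k ≥ 4`. This is
impossible for `p = 3, 5` (`e ≤ b ≤ 3`); for `p = 2`: `e ≥ 4`, so `a ≤ 2`; `s` divides `2 ^ a - 1`, so `s = 3`, `a = 2`, `s ^ k ≥ 9`, `e ≥ 9`, contradiction. So `x ∈ E`, and `l` does not divide
`card (E / U) = e ^ 2`, so `x ∈ U`. -/
theorem zu {p : ℕ} [Fact p.Prime] {L W : Type} [Group L] [Finite L] [AddCommGroup W]
    [Module (ZMod p) W] [Finite W] [Nontrivial W] {ρ : Representation (ZMod p) L W}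
    {U : Subgroup L} (h : QP ρ U) (hs : Group.IsSolvable L) (b : ℕ)
    (hb : p = 2 ∧ b ≤ 8 ∧ b ≠ 5 ∧ b ≠ 7 ∨ p = 3 ∧ b ≤ 3 ∨ p = 5 ∧ b ≤ 2)
    (hW : Nat.card W = p ^ b) (x : L) (hx : P5 x) : x ∈ U := by
  obtain ⟨-, l, hl, hl5, hxl⟩ := hx
  have hp : p.Prime := Fact.out
  obtain ⟨a, ha, hUa, hidx, hAA, ⟨d', hd', hWd⟩, -⟩ := qp_gal h
  have had : a * d' = b := by
    rw [hW, ← pow_mul] at hWd
    exact (Nat.pow_right_injective hp.two_le hWd).symm
  have hUn : U.Normal := h.ab.nor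
  obtain ⟨E, n, M, hE⟩ := qp_E h hs
  have hPrg : Prg U E := ⟨qp_cyc h, hE.UE, hE.cU, hE.com, hE.cen⟩
  obtain ⟨e, he0, he, hes⟩ := sq_ex hPrg
  have hdim := qp_dim h hE e he
  have hae : a * e ≤ b := by
    rw [hAA, hW, ← pow_mul] at hdim
    exact (Nat.pow_le_pow_iff_right hp.one_lt).1 hdim
  obtain ⟨ha8, ha5, ha7, hnum⟩ := za2_num (e := e) ha had hd' hb
  have hnum := hnum hae
  have hxC : x ∈ Subgroup.centralizer (U : Set L) := by
    refine za2_card_dvd _ l hl ?_ x hxl
    intro hdvd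
    exact za2_not_dvd l a hl hl5 ha ha8 ha5 ha7 (hdvd.trans hidx)
  have hle : ¬ l ∣ e := by
    intro hd
    have he5 : 5 ≤ e := hl5.trans (Nat.le_of_dvd he0 hd)
    obtain ⟨hp2, -, h5, -⟩ := hnum (by omega)
    have ha1 := h5 he5
    have h1 : l ∣ p ^ a - 1 := (hes l hl hd).trans hUa
    rw [hp2, ha1] at h1
    exact hl.one_lt.ne' (Nat.dvd_one.1 h1)
  have hxu : ∀ u ∈ U, x * u = u * x := fun u hu => (Subgroup.mem_centralizer_iff.1 hxC u hu).symm
  have hxE : x ∈ E := by
    by_contra hxE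
    obtain ⟨s, k, hsp, hk, hske, hls⟩ := prm_act (qp_cyc h) hE e he l hl hle x hxu hxl hxE
    have h4 := (pn5 l s k hl hl5 hsp hk hls).1
    have hse : s ^ k ≤ e := Nat.le_of_dvd he0 hske
    obtain ⟨hp2, ha12, -, ha2⟩ := hnum (by omega)
    have hsU : s ∣ p ^ a - 1 := (hes s hsp ((dvd_pow_self s hk.ne').trans hske)).trans hUa
    rcases ha12 with ha1 | ha1
    · rw [hp2, ha1] at hsU
      exact hsp.one_lt.ne' (Nat.dvd_one.1 hsU)
    · have he4 := ha2 ha1
      rw [hp2, ha1] at hsU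
      have hs3 : s = 3 := (Nat.prime_dvd_prime_iff_eq hsp Nat.prime_three).1 hsU
      have h5 : s ^ k = 4 := by omega
      have h6 : s ∣ 4 := by
        rw [← h5]
        exact dvd_pow_self s hk.ne'
      rw [hs3] at h6
      omega
  have hmem : (⟨x, hxE⟩ : E) ∈ U.subgroupOf E := by
    refine za2_card_dvd (U.subgroupOf E) l hl ?_ ⟨x, hxE⟩ ?_
    · have h1 : (U.subgroupOf E).index = e ^ 2 := he
      rw [h1]
      exact fun h2 => hle (hl.dvd_of_dvd_pow h2)
    · apply Subtype.ext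
      simpa using hxl
  exact Subgroup.mem_subgroupOf.1 hmem
-- END za2

section
variable {p : ℕ} [Fact p.Prime] {X S J : Type} [Group X] [Finite X] [AddCommGroup S]
  [Module (ZMod p) S] [Finite S] [Nontrivial S] [Finite J] {ρ : Representation (ZMod p) X S}
  {W : J → Submodule (ZMod p) S} {UU : J → Subgroup X}

-- BEGIN zb1
theorem zb1_inj (ρ : Representation (ZMod p) X S) (g : X) : Function.Injective (ρ g) := by
  intro a b hab
  have h1 : ρ g⁻¹ (ρ g a) = ρ g⁻¹ (ρ g b) := by rw [hab]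
  rwa [← Module.End.mul_apply, ← Module.End.mul_apply, ← map_mul, inv_mul_cancel, map_one] at h1

/-- Two nonzero vectors of a line over the field with two elements are equal. -/
theorem zb1_line {T : Type} [AddCommGroup T] [Module (ZMod 2) T] {V : Submodule (ZMod 2) T}
    (h1 : Module.finrank (ZMod 2) V = 1) {v w : T} (hv : v ∈ V) (hw : w ∈ V) (hv0 : v ≠ 0)
    (hw0 : w ≠ 0) : v = w := by
  obtain ⟨c, hc⟩ := (finrank_eq_one_iff_of_nonzero' (⟨v, hv⟩ : V)
    (fun h => hv0 (congrArg Subtype.val h))).1 h1 ⟨w, hw⟩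
  have h2 : c • v = w := congrArg Subtype.val hc
  have h3 : ∀ c : ZMod 2, c = 0 ∨ c = 1 := by decide
  rcases h3 c with rfl | rfl
  · rw [zero_smul] at h2
    exact absurd h2.symm hw0
  · rwa [one_smul] at h2

/-- If all the blocks are lines over the field with two elements then there is a fixed vector. -/
theorem zb1_two {X S J : Type} [Group X] [Finite X] [AddCommGroup S]
    [Module (ZMod 2) S] [Finite S] [Nontrivial S] [Finite J] {ρ : Representation (ZMod 2) X S}
    {W : J → Submodule (ZMod 2) S} {UU : J → Subgroup X} (h : BS ρ W UU) (hirr : Irrd ρ ⊤)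
    (hJ : Nonempty J) (h1 : ∀ j, Module.finrank (ZMod 2) (W j) = 1) :
    Module.finrank (ZMod 2) S = 1 := by
  classical
  have := Fintype.ofFinite J
  have : Fact (Nat.Prime 2) := ⟨Nat.prime_two⟩
  have hinjW : Function.Injective W := h.ind.injective h.ne
  have hne : ∀ j, ∃ w ∈ W j, w ≠ 0 := fun j => (Submodule.ne_bot_iff _).1 (h.ne j)
  choose v hv hv0 using hne
  have hs0 : ∑ j, v j ≠ 0 := by
    intro h0
    obtain ⟨j⟩ := hJ
    exact hv0 j ((iSupIndep_iff_finsetSum_eq_zero_imp_eq_zero W).1 h.ind Finset.univ v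
      (fun j _ => hv j) h0 j (Finset.mem_univ _))
  have hfix : ∀ g : X, ρ g (∑ j, v j) = ∑ j, v j := by
    intro g
    choose f hf using fun j => h.prm g j
    have hfinj : Function.Injective f := by
      intro a b hab
      apply hinjW
      have h2 : (W a).map (ρ g) = (W b).map (ρ g) := by rw [hf, hf, hab]
      exact Submodule.map_injective_of_injective (zb1_inj ρ g) h2
    have hfb : Function.Bijective f := Finite.injective_iff_bijective.1 hfinj
    have h3 : ∀ j, ρ g (v j) = v (f j) := by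
      intro j
      refine zb1_line (h1 (f j)) ?_ (hv (f j)) ?_ (hv0 (f j))
      · rw [← hf]
        exact Submodule.mem_map_of_mem (hv j)
      · intro h4
        apply hv0 j
        apply zb1_inj ρ g
        rw [h4, map_zero]
    rw [map_sum]
    calc ∑ j, ρ g (v j) = ∑ j, v (f j) := Finset.sum_congr rfl fun j _ => h3 j
      _ = ∑ j, v j := hfb.sum_comp v
  have hinv : ∀ g ∈ (⊤ : Subgroup X), ∀ w ∈ Submodule.span (ZMod 2) {∑ j, v j},
      ρ g w ∈ Submodule.span (ZMod 2) {∑ j, v j} := by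
    intro g _ w hw
    obtain ⟨c, rfl⟩ := Submodule.mem_span_singleton.1 hw
    rw [map_smul, hfix]
    exact hw
  rcases hirr (Submodule.span (ZMod 2) {∑ j, v j}) hinv with h2 | h2
  · exact absurd (Submodule.span_singleton_eq_bot.1 h2) hs0
  · rw [← finrank_top (ZMod 2) S, ← h2]
    exact finrank_span_singleton hs0

/-- (zb1, size 3) PROOF. All the blocks have the same cardinality `p ^ b` (`tra`), and `card S = ∏ card (W j)` (`ind`, `sup`; see the proof of `ob_imp`, `zl`).
`J` is not empty since `S` is not trivial. If `p = 2` and `b = 1` then every block has exactly one nonzero vector `w j`; the sum of all the `w j` is fixed by `X` and not zero (`ind`), so by `hirr` it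
spans `S`, `card S = 2`, `d = 1`. -/
theorem bl_dim (h : BS ρ W UU) (hirr : Irrd ρ ⊤) (d : ℕ) (hS : Nat.card S = p ^ d) :
    Nonempty J ∧ ∃ b : ℕ, 0 < b ∧ b * Nat.card J = d ∧ (∀ j, Nat.card (W j) = p ^ b) ∧
      (p = 2 → 2 ≤ d → 2 ≤ b) := by
  classical
  have := Fintype.ofFinite J
  have hp : p.Prime := Fact.out
  have hJ : Nonempty J := by
    by_contra hJe
    rw [not_nonempty_iff] at hJe
    have h1 := h.sup
    rw [iSup_of_empty] at h1
    exact bot_ne_top h1
  have hfr : Module.finrank (ZMod p) S = d := by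
    have h1 : Nat.card S = p ^ Module.finrank (ZMod p) S := by
      have := Module.natCard_eq_pow_finrank (K := ZMod p) (V := S)
      rw [Nat.card_zmod] at this
      exact this
    rw [hS] at h1
    exact (Nat.pow_right_injective hp.two_le h1).symm
  obtain ⟨j0⟩ := hJ
  have heq : ∀ j, Module.finrank (ZMod p) (W j) = Module.finrank (ZMod p) (W j0) := by
    intro j
    obtain ⟨g, hg⟩ := h.tra j0 j
    rw [← hg]
    exact (LinearEquiv.finrank_eq (Submodule.equivMapOfInjective (ρ g) (zb1_inj ρ g) (W j0))).symm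
  have hsum : Module.finrank (ZMod p) S = Nat.card J * Module.finrank (ZMod p) (W j0) := by
    have hint : DirectSum.IsInternal W :=
      DirectSum.isInternal_submodule_of_iSupIndep_of_iSup_eq_top h.ind h.sup
    have h1 := (LinearEquiv.ofBijective (DirectSum.coeLinearMap W) hint).finrank_eq
    rw [← h1, Module.finrank_directSum, Finset.sum_congr rfl fun j _ => heq j, Finset.sum_const,
      Finset.card_univ, ← Nat.card_eq_fintype_card, smul_eq_mul]
  have hb0 : 0 < Module.finrank (ZMod p) (W j0) := by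
    rw [Module.finrank_pos_iff]
    exact (Submodule.nontrivial_iff_ne_bot).2 (h.ne j0)
  refine ⟨⟨j0⟩, Module.finrank (ZMod p) (W j0), hb0, ?_, ?_, ?_⟩
  · rw [← hfr, hsum, mul_comm]
  · intro j
    have h1 := Module.natCard_eq_pow_finrank (K := ZMod p) (V := W j)
    rw [Nat.card_zmod, heq j] at h1
    exact h1
  · intro hp2 hd
    by_contra hb
    have hb1 : Module.finrank (ZMod p) (W j0) = 1 := by omega
    subst hp2
    have h2 := zb1_two h hirr ⟨j0⟩ fun j => (heq j).trans hb1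
    omega
-- END zb1

-- BEGIN zb2
private theorem zb2_free {D X : Type} [Group D] [Finite D] [MulAction D X] [Finite X]
    (h : ∀ (d : D) (x : X), d • x = x → d = 1) : Nat.card D ∣ Nat.card X := by
  have h0 : ∀ b : X, MulAction.stabilizer D b = ⊥ := by
    intro b
    rw [Subgroup.eq_bot_iff_forall]
    intro d hd
    exact h d b hd
  have e := MulAction.selfEquivOrbitsQuotientProd h0
  rw [Nat.card_congr e, Nat.card_prod]
  exact Dvd.intro_left _ rfl

private theorem zb2_div {p : ℕ} {V : Type} [AddCommGroup V] [Module (ZMod p) V] [Finite V]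
    (D : Subgroup (Module.End (ZMod p) V)ˣ) [Finite D]
    (hfpf : ∀ c ∈ D, ∀ u : V, u ≠ 0 → (c : Module.End (ZMod p) V) u = u → c = 1) :
    Nat.card D ∣ Nat.card V - 1 := by
  classical
  have hcard : Nat.card {u : V // u ≠ 0} = Nat.card V - 1 := by
    have := Fintype.ofFinite V
    rw [Nat.card_eq_fintype_card, Nat.card_eq_fintype_card, Fintype.card_subtype_compl,
      Fintype.card_subtype_eq]
  let act : MulAction D {u : V // u ≠ 0} :=
    { smul := fun c u => ⟨((c : (Module.End (ZMod p) V)ˣ) : Module.End (ZMod p) V) u.1, fun h0 => u.2 (by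
        have h1 : (((c : (Module.End (ZMod p) V)ˣ)⁻¹ : (Module.End (ZMod p) V)ˣ) : Module.End (ZMod p) V)
            (((c : (Module.End (ZMod p) V)ˣ) : Module.End (ZMod p) V) u.1) = u.1 := by
          rw [← Module.End.mul_apply, Units.inv_mul, Module.End.one_apply]
        rw [← h1, h0, map_zero])⟩
      one_smul := fun u => rfl
      mul_smul := fun a b u => rfl }
  rw [← hcard]
  refine zb2_free fun d x hx => ?_
  have h1 : ((d : (Module.End (ZMod p) V)ˣ) : Module.End (ZMod p) V) x.1 = x.1 :=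
    congrArg Subtype.val hx
  exact Subtype.ext (hfpf d d.2 x.1 x.2 h1)

/-- (zb2, size 4) PROOF. `A = ⨅ j, UU j` is normal (`uCj`) and abelian (faithful, commutative on each block). `A → Π j, (Aut (W j))` is injective, and the image `A j` in the `j`-th factor acts without fixed points on
`W j` minus 0 (`bs_fpf`), so `card (A j)` divides `card (W j) - 1 = p ^ b - 1`. `A` is isomorphic to a subgroup of the product of the `A j`, so `card A ∣ ∏ card (A j) ∣ (p ^ b - 1) ^ card J`.
(Compare the proof of `zl` in Nas/Zl.lean.) -/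
theorem bl_A (h : BS ρ W UU) (hf : ∀ h, (∀ w, ρ h w = w) → h = 1) (b : ℕ)
    (hb : ∀ j, Nat.card (W j) = p ^ b) :
    Ab (⨅ j, UU j) ∧ Nat.card (⨅ j, UU j : Subgroup X) ∣ (p ^ b - 1) ^ Nat.card J := by
  classical
  have : Fintype J := Fintype.ofFinite J
  have htriv : ∀ g : X, (∀ j, Tv ρ (W j) g) → g = 1 := by
    intro g hg
    apply hf
    intro w
    have hw : w ∈ (⨆ j, W j) := by rw [h.sup]; exact Submodule.mem_top
    refine Submodule.iSup_induction W (motive := fun w => ρ g w = w) hw ?_ ?_ ?_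
    · intro j w hw; exact hg j w hw
    · exact map_zero _
    · intro a b ha hb; rw [map_add, ha, hb]
  refine ⟨⟨⟨?_⟩, ?_⟩, ?_⟩
  · intro a ha g
    rw [Subgroup.mem_iInf] at ha ⊢
    intro j'
    obtain ⟨j, hj⟩ := h.prm g⁻¹ j'
    have h1 : (W j).map (ρ g) = W j' := by
      rw [← hj]
      calc ((W j').map (ρ g⁻¹)).map (ρ g) = (W j').map (ρ g * ρ g⁻¹) :=
            (Submodule.map_comp _ _ _).symm
        _ = W j' := by
          rw [← map_mul, mul_inv_cancel, map_one]
          exact Submodule.map_id _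
    exact h.uCj g j j' h1 a (ha j)
  · intro a ha b hb
    rw [Subgroup.mem_iInf] at ha hb
    have h1 : (b * a)⁻¹ * (a * b) = 1 := by
      apply htriv
      intro j w hw
      have h2 := h.uCom j a (ha j) b (hb j) w hw
      calc ρ ((b * a)⁻¹ * (a * b)) w = ρ (b * a)⁻¹ (ρ a (ρ b w)) := by
            rw [map_mul, map_mul]; rfl
        _ = ρ (b * a)⁻¹ (ρ (b * a) w) := by rw [h2, map_mul]; rfl
        _ = w := by
          rw [← Module.End.mul_apply, ← map_mul, inv_mul_cancel, map_one]; rfl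
    exact (inv_mul_eq_one.1 h1).symm
  · have hle : ∀ j, (⨅ j, UU j : Subgroup X) ≤ Nm ρ (W j) := fun j => (iInf_le UU j).trans (h.uN j)
    let f : ∀ j, (⨅ j, UU j : Subgroup X) →* (Module.End (ZMod p) (W j))ˣ := fun j =>
      ((ob4_rp ρ (W j)).toHomUnits).comp (Subgroup.inclusion (hle j))
    have hfa : ∀ j (a : (⨅ j, UU j : Subgroup X)) (w : W j),
        ((((f j a : (Module.End (ZMod p) (W j))ˣ) : Module.End (ZMod p) (W j)) w : W j) : S) =
          ρ (a : X) w := fun j a w => rfl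
    have hfin : ∀ j, Finite (f j).range := fun j =>
      Finite.of_surjective _ (f j).rangeRestrict_surjective
    let F : (⨅ j, UU j : Subgroup X) →* ((j : J) → (f j).range) :=
      MonoidHom.pi fun j => (f j).rangeRestrict
    have hF : Function.Injective F := by
      rw [injective_iff_map_eq_one]
      intro a ha
      apply Subtype.ext
      apply htriv
      intro j w hw
      have h1 : f j a = 1 := congrArg Subtype.val (congrFun ha j)
      have h2 := hfa j a ⟨w, hw⟩
      rw [h1] at h2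
      exact h2.symm
    have h1 : Nat.card (⨅ j, UU j : Subgroup X) ∣ Nat.card ((j : J) → (f j).range) :=
      Subgroup.card_dvd_of_injective F hF
    rw [Nat.card_pi] at h1
    refine h1.trans ?_
    have h2 : ∀ j, Nat.card (f j).range ∣ p ^ b - 1 := by
      intro j
      rw [← hb j]
      refine zb2_div (f j).range ?_
      rintro _ ⟨a, rfl⟩ u hu0 hu
      have h3 : ρ (a : X) u = u := by
        rw [← hfa j a u, hu]
      have h4 := bs_fpf h j (a : X) (Subgroup.mem_iInf.1 a.2 j) u u.2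
        (fun h0 => hu0 (Subtype.ext h0)) h3
      apply Units.ext
      apply LinearMap.ext
      intro w
      apply Subtype.ext
      rw [hfa j a w]
      exact h4 w w.2
    calc ∏ j, Nat.card (f j).range ∣ ∏ _j : J, (p ^ b - 1) :=
          Finset.prod_dvd_prod_of_dvd _ _ fun j _ => h2 j
      _ = (p ^ b - 1) ^ Nat.card J := by
          rw [Finset.prod_const, Finset.card_univ, Nat.card_eq_fintype_card]
-- END zb2

-- BEGIN zb3
theorem zb3_fix (h : BS ρ W UU) (hJ : Nat.card J ≤ 4) (l : ℕ) (hl : l.Prime) (hl5 : 5 ≤ l)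
    (x : X) (hx : x ^ l = 1) (j : J) : (W j).map (ρ x) = W j := by
  classical
  have := Fintype.ofFinite J
  have hinj : Function.Injective W := h.ind.injective h.ne
  choose f hf using fun j => h.prm x j
  have hit : ∀ n : ℕ, (W j).map (ρ (x ^ n)) = W (f^[n] j) := by
    intro n
    induction n with
    | zero =>
      simp only [pow_zero, map_one, Function.iterate_zero, id_eq]
      exact Submodule.map_id _
    | succ n ih =>
      rw [pow_succ', map_mul, Function.iterate_succ_apply', ← hf, ← ih]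
      exact Submodule.map_comp _ _ _
  have hper : Function.IsPeriodicPt f l j := by
    have h1 := hit l
    rw [hx, map_one] at h1
    have h2 : (W j).map (1 : Module.End (ZMod p) S) = W j := Submodule.map_id _
    rw [h2] at h1
    exact (hinj h1).symm
  have hmp := hper.minimalPeriod_dvd
  rcases (Nat.dvd_prime hl).1 hmp with h1 | h1
  · have h2 : Function.IsFixedPt f j := Function.minimalPeriod_eq_one_iff_isFixedPt.1 h1
    rw [hf, h2]
  · exfalso
    have h2 := Function.minimalPeriod_le_card (f := f) (x := j)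
    rw [h1, ← Nat.card_eq_fintype_card] at h2
    omega

/-- (zb3, size 3) PROOF. `x` (order `l ≥ 5`) permutes the at most 4 blocks, so it fixes them all. `bs_qp` for `j`: the image of `x` in `L` is 1 or again of prime order `l`, so it is in `U` by `hq`, so `x ∈ UU j`. -/
theorem bl_U (h : BS ρ W UU) (hs : Group.IsSolvable X) (hJ : Nat.card J ≤ 4) (b : ℕ)
    (hb : ∀ j, Nat.card (W j) = p ^ b)
    (hq : ∀ (L V : Type) [Group L] [Finite L] [AddCommGroup V] [Module (ZMod p) V] [Finite V]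
      [Nontrivial V] (ρV : Representation (ZMod p) L V) (U : Subgroup L), QP ρV U →
      Group.IsSolvable L → Nat.card V = p ^ b → ∀ x : L, P5 x → x ∈ U) (x : X) (hx : P5 x) :
    x ∈ ⨅ j, UU j := by
  classical
  obtain ⟨-, l, hl, hl5, hxl⟩ := hx
  rw [Subgroup.mem_iInf]
  intro j
  have hfix := zb3_fix h hJ l hl hl5 x hxl j
  obtain ⟨L, _, _, ρL, π, U, hπ, hπρ, hQP, hU⟩ := bs_qp h j
  have : Nontrivial (W j) := (Submodule.nontrivial_iff_ne_bot).2 (h.ne j)
  have hsN : Group.IsSolvable (Nm ρ (W j)) := by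
    have := hs
    infer_instance
  have hsL : Group.IsSolvable L := by
    have := hsN
    exact Group.isSolvable_of_surjective hπ
  have hxN : x ∈ Nm ρ (W j) := hfix
  have h1 : π ⟨x, hxN⟩ ∈ U := by
    by_cases h2 : π ⟨x, hxN⟩ = 1
    · rw [h2]
      exact U.one_mem
    · refine hq L (W j) ρL U hQP hsL (hb j) _ ⟨h2, l, hl, hl5, ?_⟩
      rw [← map_pow]
      have : (⟨x, hxN⟩ : Nm ρ (W j)) ^ l = 1 := Subtype.ext (by simpa using hxl)
      rw [this, map_one]
  exact (hU ⟨x, hxN⟩).1 h1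
-- END zb3

-- BEGIN zb4
/-- (zb4, size 4) PROOF. `Y` = the image of `X` in the permutations of `J` (`h • j = j'` iff `(W j).map (ρ h) = W j'`; `W` is injective by `ind`, `ne`), transitive by `tra`. The kernel embeds in the product over `j` of its
images in `GL (W j)`, each of which is contained in the group `L` of `bs_qp`. (Compare the proof of `ob_imp` in Nas/Ob.lean.) -/
theorem bl_card (h : BS ρ W UU) (hs : Group.IsSolvable X) (hf : ∀ h, (∀ w, ρ h w = w) → h = 1)
    (b N : ℕ) (hb : ∀ j, Nat.card (W j) = p ^ b)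
    (hq : ∀ (L V : Type) [Group L] [Finite L] [AddCommGroup V] [Module (ZMod p) V] [Finite V]
      [Nontrivial V] (ρV : Representation (ZMod p) L V) (U : Subgroup L), QP ρV U →
      Group.IsSolvable L → Nat.card V = p ^ b → Nat.card L ≤ N) :
    ∃ Y : Subgroup (Equiv.Perm J), Group.IsSolvable Y ∧ MulAction.IsPretransitive Y J ∧
      Nat.card X ≤ Nat.card Y * N ^ Nat.card J := by
  classical
  haveI : Fintype J := Fintype.ofFinite J
  letI : MulAction X J := ob4_act h
  set φ : X →* Equiv.Perm J := MulAction.toPermHom X J with hφ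
  have hφ1 : ∀ g j, (W j).map (ρ g) = W (φ g j) := fun g j => Classical.choose_spec (h.prm g j)
  have hcard : Nat.card X = Nat.card φ.ker * Nat.card φ.range := by
    rw [← Subgroup.index_ker, Subgroup.card_mul_index]
  have hK : ∀ k : φ.ker, ∀ j, (k : X) ∈ Nm ρ (W j) := by
    intro k j
    rw [mem_Nm, hφ1]
    have h1 : φ (k : X) = 1 := k.2
    rw [h1]
    rfl
  refine ⟨φ.range, ?_, ?_, ?_⟩
  · haveI := hs
    exact Group.isSolvable_of_surjective φ.rangeRestrict_surjective
  · constructor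
    intro j j'
    obtain ⟨g, hg⟩ := h.tra j j'
    refine ⟨⟨φ g, g, rfl⟩, ?_⟩
    show φ g j = j'
    exact ob4_inj h ((hφ1 g j).symm.trans hg)
  · choose L iG iF ρL π U hπ hπρ hQP hU using fun j => bs_qp h j
    have hLN : ∀ j, Nat.card (L j) ≤ N := by
      intro j
      have : Nontrivial (W j) := (Submodule.nontrivial_iff_ne_bot).2 (h.ne j)
      have hsN : Group.IsSolvable (Nm ρ (W j)) := by
        have := hs
        infer_instance
      have hsL : Group.IsSolvable (L j) := by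
        have := hsN
        exact Group.isSolvable_of_surjective (hπ j)
      exact hq (L j) (W j) (ρL j) (U j) (hQP j) hsL (hb j)
    have hKc : Nat.card φ.ker ≤ ∏ j, Nat.card (L j) := by
      rw [← Nat.card_pi]
      refine Nat.card_le_card_of_injective
        (fun (k : φ.ker) (j : J) => π j ⟨(k : X), hK k j⟩) ?_
      intro k k' hkk
      apply Subtype.ext
      have hW : ∀ j, ∀ w ∈ W j, ρ (k : X) w = ρ (k' : X) w := by
        intro j w hw
        have h1 : π j ⟨(k : X), hK k j⟩ = π j ⟨(k' : X), hK k' j⟩ := congrFun hkk j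
        have h2 := hπρ j ⟨(k : X), hK k j⟩ ⟨w, hw⟩
        have h3 := hπρ j ⟨(k' : X), hK k' j⟩ ⟨w, hw⟩
        rw [h1] at h2
        exact h2.symm.trans h3
      have hall : ρ (k : X) = ρ (k' : X) := by
        have h1 : (⊤ : Submodule (ZMod p) S) ≤ LinearMap.eqLocus (ρ (k : X)) (ρ (k' : X)) := by
          rw [← h.sup]
          exact iSup_le fun j w hw => hW j w hw
        apply LinearMap.ext
        intro w
        exact h1 Submodule.mem_top
      have h4 : (k' : X)⁻¹ * (k : X) = 1 := by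
        apply hf
        intro w
        rw [map_mul, hall, ← map_mul, inv_mul_cancel, map_one]
        rfl
      exact (inv_mul_eq_one.mp h4).symm
    calc Nat.card X = Nat.card φ.ker * Nat.card φ.range := hcard
      _ ≤ (∏ j, Nat.card (L j)) * Nat.card φ.range := Nat.mul_le_mul_right _ hKc
      _ ≤ (∏ _j : J, N) * Nat.card φ.range :=
          Nat.mul_le_mul_right _ (Finset.prod_le_prod' fun j _ => hLN j)
      _ = Nat.card φ.range * N ^ Nat.card J := by
          rw [Finset.prod_const, Finset.card_univ, Nat.card_eq_fintype_card (α := J), Nat.mul_comm]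
-- END zb4

-- BEGIN zb5
/-- (zb5, size 2) One block. PROOF. `W j = ⊤`, `Nm ρ (W j) = ⊤`. -/
theorem bl_one [Subsingleton J] (h : BS ρ W UU) (hf : ∀ h, (∀ w, ρ h w = w) → h = 1) (j : J) :
    QP ρ (UU j) := by
  have hW : W j = ⊤ := by
    rw [← h.sup]
    refine le_antisymm (le_iSup W j) (iSup_le fun j' => ?_)
    rw [Subsingleton.elim j' j]
  have hm : ∀ w : S, w ∈ W j := fun w => by rw [hW]; exact Submodule.mem_top
  have hN : Nm ρ (W j) = ⊤ := by
    refine eq_top_iff.2 fun g _ => ?_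
    rw [mem_Nm, hW]
    refine eq_top_iff.2 fun w _ => ?_
    refine ⟨ρ g⁻¹ w, Submodule.mem_top, ?_⟩
    rw [← Module.End.mul_apply, ← map_mul, mul_inv_cancel, map_one, Module.End.one_apply]
  have hN' : ∀ N : Subgroup X, N ≤ Nm ρ (W j) := fun N => by rw [hN]; exact le_top
  have hg : ∀ g : X, g ∈ Nm ρ (W j) := fun g => by rw [hN]; exact Subgroup.mem_top g
  have key : ∀ N : Subgroup X, Ab N → ∀ a ∈ N, ∀ b ∈ N, ∀ w ∈ W j, ρ a (ρ b w) = ρ b (ρ a w) := by
    intro N hN1 a ha b hb w _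
    rw [← Module.End.mul_apply, ← map_mul, hN1.com a ha b hb, map_mul, Module.End.mul_apply]
  refine ⟨hf, ?_, ?_, ?_⟩
  · intro N hN1 z hz
    rcases h.qp j N (hN' N) (fun g _ n hn => hN1.nor.conj_mem n hn g) (key N hN1) z hz with h1 | h1
    · exact Or.inl (LinearMap.ext fun w => h1 w (hm w))
    · exact Or.inr fun w hw => h1 w (hm w) hw
  · refine ⟨⟨fun n hn g => h.uNor j g (hg g) n hn⟩, fun a ha b hb => ?_⟩
    have h1 : (b * a)⁻¹ * (a * b) = 1 := by
      refine hf _ fun w => ?_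
      have h2 : ρ (a * b) w = ρ (b * a) w := by
        rw [map_mul, map_mul, Module.End.mul_apply, Module.End.mul_apply]
        exact h.uCom j a ha b hb w (hm w)
      rw [map_mul, Module.End.mul_apply, h2, ← Module.End.mul_apply, ← map_mul, inv_mul_cancel,
        map_one, Module.End.one_apply]
    exact (inv_mul_eq_one.1 h1).symm
  · intro N hN1 hU
    exact h.uMax j N (hN' N) (fun g _ n hn => hN1.nor.conj_mem n hn g) (key N hN1) hU
-- END zb5

end

-- BEGIN zc1
/-- (zc1, size 2) PROOF. The elements with `x ^ l = 1` are in `A`, where they form a subgroup of order a power of `l`, which divides `m`. So if `l` does not divide `m` there is none, except 1. -/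
theorem ab_l {X : Type} [Group X] [Finite X] {A : Subgroup X} (hA : Ab A) (m l c : ℕ)
    (hm : Nat.card A ∣ m) (hl : l.Prime) (hc : ¬ l ^ (c + 1) ∣ m) (hx : ∀ x : X, P5 x → x ∈ A)
    (hl5 : 5 ≤ l) : Nat.card {x : X // x ^ l = 1} ≤ l ^ c := by
  have h1 : ∀ x : X, x ^ l = 1 → x ∈ A := by
    intro x hx1
    by_cases h0 : x = 1
    · rw [h0]
      exact A.one_mem
    · exact hx x ⟨h0, l, hl, hl5, hx1⟩
  let K : Subgroup X :=
    { carrier := {x | x ^ l = 1}
      one_mem' := one_pow l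
      mul_mem' := by
        intro a b ha hb
        have ha' : a ^ l = 1 := ha
        have hb' : b ^ l = 1 := hb
        show (a * b) ^ l = 1
        have hab : Commute a b := hA.com a (h1 a ha') b (h1 b hb')
        rw [hab.mul_pow, ha', hb', one_mul]
      inv_mem' := by
        intro a ha
        have ha' : a ^ l = 1 := ha
        show a⁻¹ ^ l = 1
        rw [inv_pow, ha', inv_one] }
  have hK : ∀ x : X, x ∈ K ↔ x ^ l = 1 := fun x => Iff.rfl
  have hKA : K ≤ A := fun x hx1 => h1 x hx1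
  haveI : Fact l.Prime := ⟨hl⟩
  have hp : IsPGroup l K := by
    intro x
    refine ⟨1, ?_⟩
    rw [pow_one]
    exact Subtype.ext x.2
  obtain ⟨k, hk⟩ := (IsPGroup.iff_card).1 hp
  have h2 : Nat.card K ∣ m := (Subgroup.card_dvd_of_le hKA).trans hm
  have h3 : k ≤ c := by
    by_contra hcon
    push Not at hcon
    refine hc ((pow_dvd_pow l (Nat.succ_le_of_lt hcon)).trans ?_)
    rw [← hk]
    exact h2
  have h4 : Nat.card {x : X // x ^ l = 1} = Nat.card K := rfl
  rw [h4, hk]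
  exact Nat.pow_le_pow_right hl.pos h3
-- END zc1

section
variable {X S : Type} [Group X] [Finite X] [AddCommGroup S] [Finite S] [Nontrivial S]

-- BEGIN zc2
theorem zc2_cnt {X : Type} [Group X] [Finite X] (l c : ℕ) (h : ∀ x : X, P5 x → x ^ l = 1)
    (hc : Nat.card {x : X // x ^ l = 1} ≤ c + 1) : Nat.card {x : X // P5 x} ≤ c := by
  classical
  have h1 : Set.ncard {x : X | P5 x} + 1 ≤ Set.ncard {x : X | x ^ l = 1} := by
    rw [← Set.ncard_insert_of_notMem (a := 1) (s := {x : X | P5 x}) (fun h => h.1 rfl)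
      (Set.toFinite _)]
    refine Set.ncard_le_ncard ?_ (Set.toFinite _)
    rintro x (rfl | hx)
    · exact one_pow l
    · exact h x hx
  have h2 : Nat.card {x : X // P5 x} = Set.ncard {x : X | P5 x} := rfl
  have h3 : Nat.card {x : X // x ^ l = 1} = Set.ncard {x : X | x ^ l = 1} := rfl
  omega

theorem zc2_cnt2 {X : Type} [Group X] [Finite X] (l l' a b : ℕ)
    (h : ∀ x : X, P5 x → x ^ l = 1 ∨ x ^ l' = 1)
    (ha : Nat.card {x : X // x ^ l = 1} ≤ a) (hb : Nat.card {x : X // x ^ l' = 1} ≤ b) :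
    Nat.card {x : X // P5 x} ≤ a + b := by
  classical
  have h1 : Set.ncard {x : X | P5 x} ≤ Set.ncard ({x : X | x ^ l = 1} ∪ {x : X | x ^ l' = 1}) :=
    Set.ncard_le_ncard (fun x hx => h x hx) (Set.toFinite _)
  have h2 := Set.ncard_union_le {x : X | x ^ l = 1} {x : X | x ^ l' = 1}
  have h3 : Nat.card {x : X // P5 x} = Set.ncard {x : X | P5 x} := rfl
  have h4 : Nat.card {x : X // x ^ l = 1} = Set.ncard {x : X | x ^ l = 1} := rfl
  have h5 : Nat.card {x : X // x ^ l' = 1} = Set.ncard {x : X | x ^ l' = 1} := rfl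
  omega

theorem zc2_pr (l q : ℕ) (hl : l.Prime) (hq : q.Prime) (h : l ∣ q) : l = q :=
  (Nat.prime_dvd_prime_iff_eq hl hq).1 h

theorem zc2_l (b l : ℕ) (hl : l.Prime) (hl5 : 5 ≤ l) (h : l ∣ 2 ^ b - 1) :
    b ≠ 2 ∧ (b = 3 → l = 7) ∧ (b = 4 → l = 5) ∧ (b = 6 → l = 7) ∧ (b = 8 → l = 5 ∨ l = 17) := by
  have h3 : ¬ l ∣ 3 := fun h1 => by
    have := zc2_pr l 3 hl Nat.prime_three h1
    omega
  refine ⟨?_, ?_, ?_, ?_, ?_⟩
  · rintro rfl
    exact h3 (by simpa using h)
  · rintro rfl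
    exact zc2_pr l 7 hl (by norm_num) (by simpa using h)
  · rintro rfl
    have h1 : l ∣ 3 * 5 := by simpa using h
    rcases (hl.dvd_mul).1 h1 with h2 | h2
    · exact absurd h2 h3
    · exact zc2_pr l 5 hl (by norm_num) h2
  · rintro rfl
    have h1 : l ∣ 3 * (3 * 7) := by simpa using h
    rcases (hl.dvd_mul).1 h1 with h2 | h2
    · exact absurd h2 h3
    · rcases (hl.dvd_mul).1 h2 with h2 | h2
      · exact absurd h2 h3
      · exact zc2_pr l 7 hl (by norm_num) h2
  · rintro rfl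
    have h1 : l ∣ 3 * (5 * 17) := by simpa using h
    rcases (hl.dvd_mul).1 h1 with h2 | h2
    · exact absurd h2 h3
    · rcases (hl.dvd_mul).1 h2 with h2 | h2
      · exact Or.inl (zc2_pr l 5 hl (by norm_num) h2)
      · exact Or.inr (zc2_pr l 17 hl (by norm_num) h2)

/-- (zc2, size 4) PROOF. `bs_ex`; `bl_dim`: `b * k = d`, `k = card J`, `b ≥ 2`, so `k ≤ 4`, and `b` is `2, 3, 4, 6` or `8`. `zu`, `bl_U`: all `x` with `P5 x` are in `A = ⨅ j, UU j`; `bl_A`: `card A` divides
`(2 ^ b - 1) ^ k`, which is `3` for `d = 2`; `15` or `9` for `d = 4`; `63`, `49` or `27` for `d = 6`; `255`, `225` or `81` for `d = 8`. `ab_l` for the possible primes `l = 5, 7, 17`: at most `1`; `5`; `49` (`l = 7` only); `5 + 17 - 1` or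
`25` elements (with the element 1). -/
theorem zx2 [Module (ZMod 2) S] (ρ : Representation (ZMod 2) X S) (hs : Group.IsSolvable X)
    (hf : ∀ h, (∀ w, ρ h w = w) → h = 1) (hirr : Irrd ρ ⊤) (d : ℕ) (hS : Nat.card S = 2 ^ d) :
    (d = 2 → ∀ x : X, ¬ P5 x) ∧
    (d = 4 → Nat.card {x : X // P5 x} ≤ 4 ∧ ∀ x : X, P5 x → x ^ 5 = 1) ∧
    (d = 6 → Nat.card {x : X // P5 x} ≤ 48 ∧ ∀ x : X, P5 x → x ^ 7 = 1) ∧
    (d = 8 → Nat.card {x : X // P5 x} ≤ 24) := by
  haveI : Fact (Nat.Prime 2) := ⟨Nat.prime_two⟩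
  obtain ⟨J, hJ, W, UU, h⟩ := bs_ex hirr
  haveI := hJ
  obtain ⟨_, b, hb0, hbJ, hb, hb2⟩ := bl_dim h hirr d hS
  obtain ⟨hAb, hA⟩ := bl_A h hf b hb
  have key : (d = 2 ∨ d = 4 ∨ d = 6 ∨ d = 8) → 2 ≤ b ∧ ∀ x : X, P5 x → x ∈ ⨅ j, UU j := by
    intro hd
    have h2 : 2 ≤ b := hb2 rfl (by omega)
    have hbd : b ∣ d := ⟨_, hbJ.symm⟩
    have hJ4 : Nat.card J ≤ 4 := by
      by_contra hcon
      have : 2 * 5 ≤ b * Nat.card J := Nat.mul_le_mul h2 (by omega)
      omega
    have hb8 : b ≤ 8 := (Nat.le_of_dvd (by omega) hbd).trans (by omega)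
    have h5 : b ≠ 5 := by
      rintro rfl
      omega
    have h7 : b ≠ 7 := by
      rintro rfl
      omega
    exact ⟨h2, fun x hx => bl_U h hs hJ4 b hb (fun L V _ _ _ _ _ _ ρV U hQ hsL hV y hy =>
      zu hQ hsL b (Or.inl ⟨rfl, hb8, h5, h7⟩) hV y hy) x hx⟩
  have kl : (∀ x : X, P5 x → x ∈ ⨅ j, UU j) → ∀ x : X, P5 x →
      ∃ l : ℕ, l.Prime ∧ 5 ≤ l ∧ x ^ l = 1 ∧ l ∣ 2 ^ b - 1 := by
    intro hall x hx
    obtain ⟨hx1, l, hl, hl5, hxl⟩ := hx
    have hord : orderOf x = l := by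
      haveI : Fact l.Prime := ⟨hl⟩
      exact orderOf_eq_prime hxl hx1
    have h1 : l ∣ Nat.card (⨅ j, UU j : Subgroup X) := by
      rw [← hord]
      exact Subgroup.orderOf_dvd_natCard _ (hall x ⟨hx1, l, hl, hl5, hxl⟩)
    exact ⟨l, hl, hl5, hxl, hl.dvd_of_dvd_pow (h1.trans hA)⟩
  have none : (∀ x : X, ¬ P5 x) → Nat.card {x : X // P5 x} = 0 := by
    intro h0
    haveI : IsEmpty {x : X // P5 x} := ⟨fun x => h0 x.1 x.2⟩
    exact Nat.card_of_isEmpty
  have no2 : b = 2 → (∀ x : X, P5 x → x ∈ ⨅ j, UU j) → ∀ x : X, ¬ P5 x := by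
    intro h2 hall x hx
    obtain ⟨l, hl, hl5, _, hd⟩ := kl hall x hx
    exact (zc2_l b l hl hl5 hd).1 h2
  refine ⟨?_, ?_, ?_, ?_⟩
  · intro hd
    obtain ⟨h2, hall⟩ := key (Or.inl hd)
    have hb' : b = 2 := by
      have : b ≤ 2 := Nat.le_of_dvd (by norm_num) ⟨Nat.card J, by rw [hbJ, hd]⟩
      omega
    exact no2 hb' hall
  · intro hd
    obtain ⟨h2, hall⟩ := key (Or.inr (Or.inl hd))
    have hb' : b = 2 ∨ b = 4 := by
      have h3 : b ∣ 4 := ⟨Nat.card J, by rw [hbJ, hd]⟩
      have h4 : b ≤ 4 := Nat.le_of_dvd (by norm_num) h3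
      interval_cases b <;> omega
    rcases hb' with hb' | hb'
    · have h0 := no2 hb' hall
      exact ⟨by rw [none h0]; omega, fun x hx => absurd hx (h0 x)⟩
    · have h5 : ∀ x : X, P5 x → x ^ 5 = 1 := by
        intro x hx
        obtain ⟨l, hl, hl5, hxl, hd'⟩ := kl hall x hx
        have := (zc2_l b l hl hl5 hd').2.2.1 hb'
        rw [← this]
        exact hxl
      refine ⟨zc2_cnt 5 4 h5 ?_, h5⟩
      have hk : Nat.card J = 1 := by
        rw [hb', hd] at hbJ
        omega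
      rw [hk, hb'] at hA
      exact ab_l hAb 15 5 1 (by simpa using hA) (by norm_num) (by norm_num) hall (by norm_num)
  · intro hd
    obtain ⟨h2, hall⟩ := key (Or.inr (Or.inr (Or.inl hd)))
    have hb' : b = 2 ∨ b = 3 ∨ b = 6 := by
      have h3 : b ∣ 6 := ⟨Nat.card J, by rw [hbJ, hd]⟩
      have h4 : b ≤ 6 := Nat.le_of_dvd (by norm_num) h3
      interval_cases b <;> omega
    rcases hb' with hb' | hb' | hb'
    · have h0 := no2 hb' hall
      exact ⟨by rw [none h0]; omega, fun x hx => absurd hx (h0 x)⟩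
    · have h7 : ∀ x : X, P5 x → x ^ 7 = 1 := by
        intro x hx
        obtain ⟨l, hl, hl5, hxl, hd'⟩ := kl hall x hx
        have := (zc2_l b l hl hl5 hd').2.1 hb'
        rw [← this]
        exact hxl
      refine ⟨zc2_cnt 7 48 h7 ?_, h7⟩
      have hk : Nat.card J = 2 := by
        rw [hb', hd] at hbJ
        omega
      rw [hk, hb'] at hA
      exact ab_l hAb 49 7 2 (by simpa using hA) (by norm_num) (by norm_num) hall (by norm_num)
    · have h7 : ∀ x : X, P5 x → x ^ 7 = 1 := by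
        intro x hx
        obtain ⟨l, hl, hl5, hxl, hd'⟩ := kl hall x hx
        have := (zc2_l b l hl hl5 hd').2.2.2.1 hb'
        rw [← this]
        exact hxl
      refine ⟨zc2_cnt 7 48 h7 ?_, h7⟩
      have hk : Nat.card J = 1 := by
        rw [hb', hd] at hbJ
        omega
      rw [hk, hb'] at hA
      exact ab_l hAb 63 7 2 (by simpa using hA) (by norm_num) (by norm_num) hall (by norm_num)
  · intro hd
    obtain ⟨h2, hall⟩ := key (Or.inr (Or.inr (Or.inr hd)))
    have hb' : b = 2 ∨ b = 4 ∨ b = 8 := by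
      have h3 : b ∣ 8 := ⟨Nat.card J, by rw [hbJ, hd]⟩
      have h4 : b ≤ 8 := Nat.le_of_dvd (by norm_num) h3
      interval_cases b <;> omega
    rcases hb' with hb' | hb' | hb'
    · have h0 := no2 hb' hall
      rw [none h0]
      omega
    · have h5 : ∀ x : X, P5 x → x ^ 5 = 1 := by
        intro x hx
        obtain ⟨l, hl, hl5, hxl, hd'⟩ := kl hall x hx
        have := (zc2_l b l hl hl5 hd').2.2.1 hb'
        rw [← this]
        exact hxl
      refine zc2_cnt 5 24 h5 ?_
      have hk : Nat.card J = 2 := by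
        rw [hb', hd] at hbJ
        omega
      rw [hk, hb'] at hA
      exact ab_l hAb 225 5 2 (by simpa using hA) (by norm_num) (by norm_num) hall (by norm_num)
    · have h5 : ∀ x : X, P5 x → x ^ 5 = 1 ∨ x ^ 17 = 1 := by
        intro x hx
        obtain ⟨l, hl, hl5, hxl, hd'⟩ := kl hall x hx
        rcases (zc2_l b l hl hl5 hd').2.2.2.2 hb' with rfl | rfl
        · exact Or.inl hxl
        · exact Or.inr hxl
      have hk : Nat.card J = 1 := by
        rw [hb', hd] at hbJ
        omega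
      rw [hk, hb'] at hA
      have h1 := ab_l hAb 255 5 1 (by simpa using hA) (by norm_num) (by norm_num) hall
        (by norm_num)
      have h2 := ab_l hAb 255 17 1 (by simpa using hA) (by norm_num) (by norm_num) hall
        (by norm_num)
      have h3 := zc2_cnt2 5 17 (5 ^ 1) (17 ^ 1) h5 h1 h2
      exact h3.trans (by norm_num)
-- END zc2

-- BEGIN zc3
/-- (zc3, size 3) PROOF. `bs_ex`, `bl_dim`: one or two blocks, `zu`, `bl_U`, `bl_A`: `card A` divides `24` or `16`; all `x` with `P5 x` are in `A`, so their order divides it. -/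
theorem zx25 [Module (ZMod 5) S] (ρ : Representation (ZMod 5) X S) (hs : Group.IsSolvable X)
    (hf : ∀ h, (∀ w, ρ h w = w) → h = 1) (hirr : Irrd ρ ⊤) (hS : Nat.card S = 25) (x : X) :
    ¬ P5 x := by
  intro hx
  have hp5 : Nat.Prime 5 := by norm_num
  haveI : Fact (Nat.Prime 5) := ⟨hp5⟩
  obtain ⟨J, hJ, W, UU, h⟩ := bs_ex hirr
  haveI := hJ
  obtain ⟨_, b, hb0, hbJ, hb, _⟩ := bl_dim h hirr 2 (by rw [hS]; norm_num)
  have hb2 : b ≤ 2 := Nat.le_of_dvd (by norm_num) ⟨_, hbJ.symm⟩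
  have hJ2 : Nat.card J ≤ 2 := Nat.le_of_dvd (by norm_num) ⟨b, by rw [mul_comm]; exact hbJ.symm⟩
  have hxA : x ∈ ⨅ j, UU j := bl_U h hs (by omega) b hb (fun L V _ _ _ _ _ _ ρV U hQ hsL hV y hy =>
    zu hQ hsL b (Or.inr (Or.inr ⟨rfl, hb2⟩)) hV y hy) x hx
  obtain ⟨_, hA⟩ := bl_A h hf b hb
  obtain ⟨hx1, l, hl, hl5, hxl⟩ := hx
  have hord : orderOf x = l := by
    haveI : Fact l.Prime := ⟨hl⟩
    exact orderOf_eq_prime hxl hx1
  have h1 : l ∣ Nat.card (⨅ j, UU j : Subgroup X) := by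
    rw [← hord]
    exact Subgroup.orderOf_dvd_natCard _ hxA
  have h2 := (h1.trans hA)
  have h3 : l ∣ 5 ^ b - 1 := hl.dvd_of_dvd_pow h2
  have h4 : b = 1 ∨ b = 2 := by omega
  rcases h4 with rfl | rfl
  · have := Nat.le_of_dvd (by norm_num) h3
    omega
  · have h5 : l ∣ 2 ^ 3 * 3 := by simpa using h3
    rcases (hl.dvd_mul).1 h5 with h6 | h6
    · have := (Nat.prime_dvd_prime_iff_eq hl Nat.prime_two).1 (hl.dvd_of_dvd_pow h6)
      omega
    · have := (Nat.prime_dvd_prime_iff_eq hl Nat.prime_three).1 h6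
      omega
-- END zc3

end

section
variable {L : Type} [Group L] [Finite L] {U E : Subgroup L} {n : ℕ} {M : Fin n → Subgroup L}

/-- `x` has prime order `≥ 5` which does not divide `card U`. -/
def Pe (U : Subgroup L) (x : L) : Prop :=
  x ≠ 1 ∧ ∃ l : ℕ, l.Prime ∧ 5 ≤ l ∧ ¬ l ∣ Nat.card U ∧ x ^ l = 1

/-- The number of cosets of `E` which contain an `x` with `Pe U x` which centralizes `U`. -/
noncomputable def Ct (U E : Subgroup L) : ℕ :=
  Nat.card {y : L ⧸ E // ∃ x : L, (x : L ⧸ E) = y ∧ Pe U x ∧ ∀ u ∈ U, x * u = u * x}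

-- BEGIN zd1
theorem zd1_prg (hc : IsCyclic U) (hmx : ∀ N : Subgroup L, Ab N → U ≤ N → N ≤ U)
    (hE : SE U E n M) (i : Fin n) : Prg U (M i) := by
  have := hE.mN i
  have hcU : ∀ x ∈ M i, ∀ u ∈ U, x * u = u * x := fun x hx => hE.cU x (hE.mE i hx)
  refine ⟨hc, (hE.mU i).le, hcU, fun x hx y hy => hE.com x (hE.mE i hx) y (hE.mE i hy), ?_⟩
  -- the center of `M i`
  set Z : Subgroup L := M i ⊓ Subgroup.centralizer (M i : Set L) with hZ
  have hZm : ∀ x, x ∈ Z ↔ x ∈ M i ∧ ∀ y ∈ M i, x * y = y * x := by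
    intro x
    rw [hZ, Subgroup.mem_inf, Subgroup.mem_centralizer_iff]
    exact ⟨fun h => ⟨h.1, fun y hy => (h.2 y hy).symm⟩, fun h => ⟨h.1, fun y hy => (h.2 y hy).symm⟩⟩
  have hZN : Z.Normal := inferInstance
  have hUZ : U ≤ Z := fun u hu => (hZm u).2 ⟨(hE.mU i).le hu, fun y hy => (hcU y hy u hu).symm⟩
  rcases hE.mMin i Z hZN hUZ (fun x hx => ((hZm x).1 hx).1) with h | h
  · intro x hx hy
    rw [← h]
    exact (hZm x).2 ⟨hx, hy⟩
  · exfalso
    have hab : Ab (M i) := ⟨hE.mN i, fun a ha b hb => by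
      rw [← h] at ha
      exact ((hZm a).1 ha).2 b hb⟩
    exact (hE.mU i).not_ge (hmx (M i) hab (hE.mU i).le)

/-- (zd1, size 3) PROOF. `M i / U` is not commutative with ... : the elements of `M i` which commute with `M i` form a normal subgroup `Z` of `L`, `U ≤ Z ≤ M i` (`U` is centralized by `E`); if `Z = M i` then `M i` is a commutative normal
subgroup which contains `U`, so `M i ≤ U` (`hmx`), contradiction to `mU`. So `Z = U` (`mMin`), and `Prg U (M i)` holds; `sq_ex`. `e i ≥ 2` by `mU`; `∏ (e i) ^ 2 = e ^ 2` by `card`. -/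
theorem se_sq (hc : IsCyclic U) (hN : U.Normal) (hmx : ∀ N : Subgroup L, Ab N → U ≤ N → N ≤ U)
    (hE : SE U E n M) (e : ℕ) (he : U.relIndex E = e ^ 2) :
    ∃ ee : Fin n → ℕ, (∀ i, 2 ≤ ee i ∧ U.relIndex (M i) = ee i ^ 2) ∧ ∏ i, ee i = e := by
  choose ee h0 h1 _ using fun i => sq_ex (zd1_prg hc hmx hE i)
  refine ⟨ee, fun i => ⟨?_, h1 i⟩, ?_⟩
  · by_contra h
    have h2 : ee i = 1 := by
      have := h0 i
      omega
    have h3 := h1 i
    rw [h2, one_pow, Subgroup.relIndex_eq_one] at h3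
    exact (hE.mU i).not_ge h3
  · have h2 : (∏ i, ee i) ^ 2 = e ^ 2 := by
      rw [← Finset.prod_pow, ← he, hE.card]
      exact Finset.prod_congr rfl fun i _ => (h1 i).symm
    exact Nat.pow_left_injective (n := 2) (by norm_num) h2
-- END zd1

-- BEGIN zd2
private theorem zd2_one (hs : Group.IsSolvable L) (U M : Subgroup L)
    [U.Normal] (hM : M.Normal) (hU : U < M)
    (hmin : ∀ N : Subgroup L, N.Normal → U ≤ N → N ≤ M → N = U ∨ N = M) (N q : ℕ)
    (hX : ∀ (r : ℕ) [Fact r.Prime] (X S : Type) [Group X] [Finite X] [AddCommGroup S]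
      [Module (ZMod r) S] [Finite S] [Nontrivial S] (ρ : Representation (ZMod r) X S),
      Group.IsSolvable X → (∀ h, (∀ w, ρ h w = w) → h = 1) → Irrd ρ ⊤ →
      Nat.card S = U.relIndex M → Nat.card {x : X // P5 x} ≤ N) :
    ∃ (C : Subgroup L) (_ : C.Normal), (∀ x ∈ C, ∀ y ∈ M, x * y * x⁻¹ * y⁻¹ ∈ U) ∧
      Nat.card {x : L ⧸ C // P5 x} ≤ N ∧
      ((∀ (r : ℕ) [Fact r.Prime] (X S : Type) [Group X] [Finite X] [AddCommGroup S]
      [Module (ZMod r) S] [Finite S] [Nontrivial S] (ρ : Representation (ZMod r) X S),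
      Group.IsSolvable X → (∀ h, (∀ w, ρ h w = w) → h = 1) → Irrd ρ ⊤ →
      Nat.card S = U.relIndex M → ∀ x : X, P5 x → x ^ q = 1) →
      ∀ x : L ⧸ C, P5 x → x ^ q = 1) := by
  obtain ⟨r, hr, S, iA, iM, iF, iN, ρ, qq, q1, q2, q3, q4, q5, q6, q7⟩ := chief hs U M hM hU hmin
  let f : L →* Module.End (ZMod r) S := ρ
  have hf : ∀ g, f g = ρ g := fun g => rfl
  let ρ' : L ⧸ f.ker →* Module.End (ZMod r) S := QuotientGroup.lift f.ker f le_rfl
  have h1 : ∀ g : L, ρ' (g : L ⧸ f.ker) = ρ g := fun g => rfl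
  have hsL : Group.IsSolvable L := hs
  have hsQ : Group.IsSolvable (L ⧸ f.ker) := inferInstance
  have hfai : ∀ h : L ⧸ f.ker, (∀ w, ρ' h w = w) → h = 1 := by
    intro h hh
    obtain ⟨g, rfl⟩ := QuotientGroup.mk_surjective h
    rw [QuotientGroup.eq_one_iff, MonoidHom.mem_ker]
    apply LinearMap.ext
    intro w
    have := hh w
    rw [h1] at this
    rw [hf, this]
    rfl
  have hirr : Irrd (ρ' : Representation (ZMod r) (L ⧸ f.ker) S) ⊤ := by
    intro W hW
    refine q5 W fun g _ w hw => ?_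
    have := hW (g : L ⧸ f.ker) (Subgroup.mem_top _) w hw
    rw [h1] at this
    exact this
  refine ⟨f.ker, inferInstance, ?_, hX r (L ⧸ f.ker) S ρ' hsQ hfai hirr q6, fun hY =>
    hY r (L ⧸ f.ker) S ρ' hsQ hfai hirr q6⟩
  intro x hx y hy
  have hxy : x * y * x⁻¹ ∈ M := hM.conj_mem y hy x
  have h1 := q4 x ⟨y, hy⟩ ⟨x * y * x⁻¹, hxy⟩ rfl
  have h2 : ρ x = 1 := hx
  rw [h2, Module.End.one_apply] at h1
  have h3 : qq (⟨x * y * x⁻¹, hxy⟩ * ⟨y, hy⟩⁻¹) = 0 := by
    have h4 := q1 (⟨x * y * x⁻¹, hxy⟩ * ⟨y, hy⟩⁻¹) ⟨y, hy⟩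
    rw [inv_mul_cancel_right, h1] at h4
    exact left_eq_add.1 (by rw [add_comm] at h4; exact h4)
  exact (q3 _).1 h3

private theorem zd2_E (hN : U.Normal) (hE : SE U E n M) (C : Fin n → Subgroup L)
    (hCM : ∀ i, ∀ x ∈ C i, ∀ y ∈ M i, x * y * x⁻¹ * y⁻¹ ∈ U) (x : L)
    (hxU : ∀ u ∈ U, x * u = u * x) (hx : ∀ i, x ∈ C i) : x ∈ E := by
  refine hE.big x hxU ?_
  let T : Subgroup L :=
    { carrier := {y | x * y * x⁻¹ * y⁻¹ ∈ U}
      one_mem' := by
        show x * 1 * x⁻¹ * 1⁻¹ ∈ U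
        simp
      mul_mem' := by
        intro y z hy hz
        have hy' : x * y * x⁻¹ * y⁻¹ ∈ U := hy
        have hz' : x * z * x⁻¹ * z⁻¹ ∈ U := hz
        show x * (y * z) * x⁻¹ * (y * z)⁻¹ ∈ U
        have h2 := U.mul_mem hy' (hN.conj_mem _ hz' y)
        have h3 : x * (y * z) * x⁻¹ * (y * z)⁻¹ =
          x * y * x⁻¹ * y⁻¹ * (y * (x * z * x⁻¹ * z⁻¹) * y⁻¹) := by group
        rw [h3]; exact h2
      inv_mem' := by
        intro y hy
        have hy' : x * y * x⁻¹ * y⁻¹ ∈ U := hy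
        show x * y⁻¹ * x⁻¹ * (y⁻¹)⁻¹ ∈ U
        have h2 := hN.conj_mem _ (U.inv_mem hy') y⁻¹
        have h3 : x * y⁻¹ * x⁻¹ * (y⁻¹)⁻¹ =
          y⁻¹ * (x * y * x⁻¹ * y⁻¹)⁻¹ * (y⁻¹)⁻¹ := by group
        rw [h3]; exact h2 }
  have hT := hE.gen T (by
    intro u hu
    show x * u * x⁻¹ * u⁻¹ ∈ U
    rw [hxU u hu, mul_inv_cancel_right, mul_inv_cancel]
    exact U.one_mem) (fun i y hy => hCM i x (hx i) y hy)
  exact fun y hy => hT hy

private theorem zd2_nE (hc : IsCyclic U) (hE : SE U E n M) (x : L) (hx : Pe U x) : x ∉ E := by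
  obtain ⟨hx1, l, hl, -, hlU, hxl⟩ := hx
  intro hxE
  have hcE : ¬ l ∣ Nat.card E := by
    obtain ⟨e, he, h1, h2⟩ := sq_ex (U := U) (E := E) ⟨hc, hE.UE, hE.cU, hE.com, hE.cen⟩
    have h5 := Subgroup.relIndex_mul_relIndex ⊥ U E bot_le hE.UE
    rw [Subgroup.relIndex_bot_left, Subgroup.relIndex_bot_left, h1] at h5
    intro h6
    rw [← h5] at h6
    rcases hl.dvd_mul.1 h6 with h7 | h7
    · exact hlU h7
    · exact hlU (h2 l hl (hl.dvd_of_dvd_pow h7))
  apply hcE
  have h3 : orderOf x = l := by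
    haveI : Fact l.Prime := ⟨hl⟩
    exact orderOf_eq_prime hxl hx1
  have h4 : orderOf (⟨x, hxE⟩ : E) = l := by
    rw [← h3]
    exact (orderOf_injective E.subtype E.subtype_injective ⟨x, hxE⟩).symm
  rw [← h4]
  exact orderOf_dvd_natCard _

/-- (zd2, size 4) PROOF. For each `i` take the module `S i` of `M i / U` (`chief`) and `X i` = the quotient of `L` by the kernel of the action on it: solvable, faithful, irreducible. A `y` in the set of `Ct` comes from `x` with `x ^ l = 1`; its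
images `x i` in the `X i` are 1 or of prime order `l ≥ 5`, so there are at most `N i + 1` possibilities for `x i`. `x` modulo `E` is determined by the `x i`: `x ∈ C = centralizer U`, and an element of `C` which is trivial in all the `X i` is in `E` (`gen`, `big`;
see `cs_ob`, `cs_zl`). `x ∉ E` (`l` does not divide `card E`: a prime divisor of `card (E / U)` divides `card U`, `sq_ex`), so not all the `x i` are 1: so `Ct + 1 ≤ ∏ (N i + 1)`. If `x i ≠ 1` then
`(x i) ^ q = 1` and `(x i) ^ l = 1` give `l = q`. -/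
theorem ct_prod (hs : Group.IsSolvable L) (hc : IsCyclic U) (hN : U.Normal) (hE : SE U E n M)
    (N : Fin n → ℕ) (q : ℕ) (hq : q.Prime)
    (hX : ∀ i, ∀ (r : ℕ) [Fact r.Prime] (X S : Type) [Group X] [Finite X] [AddCommGroup S]
      [Module (ZMod r) S] [Finite S] [Nontrivial S] (ρ : Representation (ZMod r) X S),
      Group.IsSolvable X → (∀ h, (∀ w, ρ h w = w) → h = 1) → Irrd ρ ⊤ →
      Nat.card S = U.relIndex (M i) → Nat.card {x : X // P5 x} ≤ N i) :
    Ct U E + 1 ≤ ∏ i, (N i + 1) ∧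
    ((∀ i, ∀ (r : ℕ) [Fact r.Prime] (X S : Type) [Group X] [Finite X] [AddCommGroup S]
      [Module (ZMod r) S] [Finite S] [Nontrivial S] (ρ : Representation (ZMod r) X S),
      Group.IsSolvable X → (∀ h, (∀ w, ρ h w = w) → h = 1) → Irrd ρ ⊤ →
      Nat.card S = U.relIndex (M i) → ∀ x : X, P5 x → x ^ q = 1) →
      ∀ x : L, Pe U x → (∀ u ∈ U, x * u = u * x) → x ^ q = 1) := by
  classical
  have := hN
  have h1 : ∀ i, ∃ (C : Subgroup L) (_ : C.Normal),
      (∀ x ∈ C, ∀ y ∈ M i, x * y * x⁻¹ * y⁻¹ ∈ U) ∧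
      Nat.card {x : L ⧸ C // P5 x} ≤ N i ∧
      ((∀ (r : ℕ) [Fact r.Prime] (X S : Type) [Group X] [Finite X] [AddCommGroup S]
      [Module (ZMod r) S] [Finite S] [Nontrivial S] (ρ : Representation (ZMod r) X S),
      Group.IsSolvable X → (∀ h, (∀ w, ρ h w = w) → h = 1) → Irrd ρ ⊤ →
      Nat.card S = U.relIndex (M i) → ∀ x : X, P5 x → x ^ q = 1) →
      ∀ x : L ⧸ C, P5 x → x ^ q = 1) := fun i =>
    zd2_one hs U (M i) (hE.mN i) (hE.mU i) (hE.mMin i) (N i) q (hX i)
  choose C hC hCM hCN hCq using h1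
  have h5 : ∀ x : L, Pe U x → ∀ i, (x : L ⧸ C i) ≠ 1 → P5 (x : L ⧸ C i) := by
    rintro x ⟨hx1, l, hl, hl5, hlU, hxl⟩ i hi
    refine ⟨hi, l, hl, hl5, ?_⟩
    rw [← QuotientGroup.mk_pow, hxl]
    rfl
  have h6 : ∀ x : L, Pe U x → (∀ u ∈ U, x * u = u * x) → ∃ i, (x : L ⧸ C i) ≠ 1 := by
    intro x hx hxU
    by_contra hcon
    push Not at hcon
    exact zd2_nE hc hE x hx (zd2_E hN hE C hCM x hxU fun i =>
      (QuotientGroup.eq_one_iff _).1 (hcon i))
  constructor
  · let Y := {y : L ⧸ E // ∃ x : L, (x : L ⧸ E) = y ∧ Pe U x ∧ ∀ u ∈ U, x * u = u * x}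
    let g : Option Y → ∀ i, Option {x : L ⧸ C i // P5 x} := fun o i =>
      match o with
      | none => none
      | some y => if h : P5 (y.2.choose : L ⧸ C i) then some ⟨(y.2.choose : L ⧸ C i), h⟩ else none
    have hg0 : ∀ i, g none i = none := fun i => rfl
    have hg1 : ∀ (y : Y) i, g (some y) i = if h : P5 (y.2.choose : L ⧸ C i) then
        some ⟨(y.2.choose : L ⧸ C i), h⟩ else none := fun y i => rfl
    have hy : ∀ y : Y, ∃ i, P5 (y.2.choose : L ⧸ C i) := by
      intro y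
      obtain ⟨h7, h8, h9⟩ := y.2.choose_spec
      obtain ⟨i, hi⟩ := h6 _ h8 h9
      exact ⟨i, h5 _ h8 i hi⟩
    have hinj : Function.Injective g := by
      intro a b hab
      rcases a with _ | a <;> rcases b with _ | b
      · rfl
      · obtain ⟨i, hi⟩ := hy b
        have h7 := congrFun hab i
        rw [hg0, hg1, dif_pos hi] at h7
        exact absurd h7 (by simp)
      · obtain ⟨i, hi⟩ := hy a
        have h7 := congrFun hab i
        rw [hg0, hg1, dif_pos hi] at h7
        exact absurd h7 (by simp)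
      · congr 1
        obtain ⟨ha1, ha2, ha3⟩ := a.2.choose_spec
        obtain ⟨hb1, hb2, hb3⟩ := b.2.choose_spec
        have hab' : ∀ i, (a.2.choose : L ⧸ C i) = (b.2.choose : L ⧸ C i) := by
          intro i
          have h7 := congrFun hab i
          rw [hg1, hg1] at h7
          by_cases hai : P5 (a.2.choose : L ⧸ C i) <;> by_cases hbi : P5 (b.2.choose : L ⧸ C i)
          · rw [dif_pos hai, dif_pos hbi] at h7
            have h8 := Option.some.inj h7
            exact congrArg Subtype.val h8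
          · rw [dif_pos hai, dif_neg hbi] at h7
            exact absurd h7 (by simp)
          · rw [dif_neg hai, dif_pos hbi] at h7
            exact absurd h7 (by simp)
          · have h8 : (a.2.choose : L ⧸ C i) = 1 := by
              by_contra h
              exact hai (h5 _ ha2 i h)
            have h9 : (b.2.choose : L ⧸ C i) = 1 := by
              by_contra h
              exact hbi (h5 _ hb2 i h)
            rw [h8, h9]
        apply Subtype.ext
        rw [← ha1, ← hb1, QuotientGroup.eq]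
        refine zd2_E hN hE C hCM _ ?_ fun i => QuotientGroup.eq.1 (hab' i)
        intro u hu
        have ha4 := ha3 u hu
        have hb4 := hb3 u hu
        have ha5 : (a.2.choose)⁻¹ * u = u * (a.2.choose)⁻¹ := by
          rw [inv_mul_eq_iff_eq_mul, ← mul_assoc, ha4, mul_inv_cancel_right]
        rw [mul_assoc, hb4, ← mul_assoc, ha5, mul_assoc]
    have h7 : Nat.card (Option Y) ≤ Nat.card (∀ i, Option {x : L ⧸ C i // P5 x}) :=
      Nat.card_le_card_of_injective g hinj
    rw [Finite.card_option, Nat.card_pi] at h7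
    refine h7.trans (Finset.prod_le_prod' fun i _ => ?_)
    rw [Finite.card_option]
    exact Nat.succ_le_succ (hCN i)
  · intro hY x hx hxU
    obtain ⟨i, hi⟩ := h6 x hx hxU
    have h7 := hCq i (hY i) (x : L ⧸ C i) (h5 x hx i hi)
    obtain ⟨hx1, l, hl, hl5, hlU, hxl⟩ := hx
    have h8 : (x : L ⧸ C i) ^ l = 1 := by
      rw [← QuotientGroup.mk_pow, hxl]
      rfl
    have h9 : orderOf (x : L ⧸ C i) = l := by
      haveI : Fact l.Prime := ⟨hl⟩
      exact orderOf_eq_prime h8 hi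
    have h10 : orderOf (x : L ⧸ C i) = q := by
      haveI : Fact q.Prime := ⟨hq⟩
      exact orderOf_eq_prime h7 hi
    rw [← h10, h9]
    exact hxl
-- END zd2

-- BEGIN zd3
private theorem zd3_two {r : ℕ} [Fact r.Prime] {S : Type} [AddCommGroup S] [Module (ZMod r) S]
    [Finite S] [Nontrivial S] (m : ℕ) (hS : Nat.card S = 2 ^ m) : r = 2 := by
  have hr : r.Prime := Fact.out
  have h1 := Module.natCard_eq_pow_finrank (K := ZMod r) (V := S)
  rw [Nat.card_zmod, hS] at h1
  have h2 : 0 < Module.finrank (ZMod r) S := Module.finrank_pos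
  have h3 : r ∣ 2 ^ m := by
    rw [h1]
    exact dvd_pow_self r h2.ne'
  exact (Nat.prime_dvd_prime_iff_eq hr Nat.prime_two).1 (hr.dvd_of_dvd_pow h3)

/-- (zd3, size 3) PROOF. `se_sq`: the `ee i` are `4` (one of them) or `2`, `2`. A group `X` as in `ct_prod` on `S` with `card S = 4` or `16` is over `ZMod 2` (`r` is the only prime divisor of `card S`, which is a power of `r`): `zx2`: `N i = 0` or `4`. -/
theorem ct4 (hs : Group.IsSolvable L) (hc : IsCyclic U) (hN : U.Normal)
    (hmx : ∀ N : Subgroup L, Ab N → U ≤ N → N ≤ U) (hE : SE U E n M)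
    (he : U.relIndex E = 4 ^ 2) : Ct U E ≤ 4 := by
  classical
  obtain ⟨ee, h1, h2⟩ := se_sq hc hN hmx hE 4 he
  have h24 : ∀ i, ee i = 2 ∨ ee i = 4 := by
    intro i
    have h3 : ee i ∣ 4 := by
      rw [← h2]
      exact Finset.dvd_prod_of_mem ee (Finset.mem_univ i)
    have h4 := Nat.le_of_dvd (by norm_num) h3
    have h5 := (h1 i).1
    interval_cases h : ee i
    · exact Or.inl rfl
    · omega
    · exact Or.inr rfl
  have hX : ∀ i, ∀ (r : ℕ) [Fact r.Prime] (X S : Type) [Group X] [Finite X] [AddCommGroup S]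
      [Module (ZMod r) S] [Finite S] [Nontrivial S] (ρ : Representation (ZMod r) X S),
      Group.IsSolvable X → (∀ h, (∀ w, ρ h w = w) → h = 1) → Irrd ρ ⊤ →
      Nat.card S = U.relIndex (M i) →
      Nat.card {x : X // P5 x} ≤ (fun i => if ee i = 4 then 4 else 0) i := by
    intro i r hr X S _ _ _ _ _ _ ρ hsX hf hirr hS
    rw [(h1 i).2] at hS
    rcases h24 i with h | h
    · have h4 : Nat.card S = 2 ^ 2 := by rw [hS, h]
      have h5 : r = 2 := zd3_two 2 h4
      subst h5
      have h6 := (zx2 ρ hsX hf hirr 2 h4).1 rfl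
      have h7 : IsEmpty {x : X // P5 x} := ⟨fun x => h6 x.1 x.2⟩
      rw [Nat.card_of_isEmpty]
      exact Nat.zero_le _
    · have h4 : Nat.card S = 2 ^ 4 := by rw [hS, h]; norm_num
      have h5 : r = 2 := zd3_two 4 h4
      subst h5
      have h6 := ((zx2 ρ hsX hf hirr 4 h4).2.1 rfl).1
      show _ ≤ if ee i = 4 then 4 else 0
      rw [if_pos h]
      exact h6
  have h3 := (ct_prod hs hc hN hE (fun i => if ee i = 4 then 4 else 0) 2 Nat.prime_two hX).1
  have h4 : ∏ i, ((fun i => if ee i = 4 then 4 else 0) i + 1) ≤ 5 := by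
    by_cases h5 : ∃ i, ee i = 4
    · obtain ⟨i, hi⟩ := h5
      rw [Finset.prod_eq_single i]
      · show (if ee i = 4 then 4 else 0) + 1 ≤ 5
        rw [if_pos hi]
      · intro j _ hj
        exfalso
        have h6 : ee i * ee j ∣ 4 := by
          rw [← Finset.prod_pair (f := ee) hj.symm]
          calc ∏ k ∈ {i, j}, ee k ∣ ∏ k, ee k := Finset.prod_dvd_prod_of_subset _ _ _ (Finset.subset_univ _)
            _ = 4 := h2
        rw [hi] at h6
        have h7 := Nat.le_of_dvd (by norm_num) h6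
        have h8 := (h1 j).1
        omega
      · intro h6
        exact absurd (Finset.mem_univ i) h6
    · push Not at h5
      have h6 : ∀ i ∈ Finset.univ, ((fun i => if ee i = 4 then 4 else 0) i + 1) = 1 := by
        intro i _
        show (if ee i = 4 then 4 else 0) + 1 = 1
        rw [if_neg (h5 i)]
      rw [Finset.prod_eq_one h6]
      norm_num
  have h5 : Ct U E + 1 ≤ 5 := h3.trans h4
  omega
-- END zd3

-- BEGIN zd4
theorem zd4_nE (hc : IsCyclic U) (hE : SE U E n M) {x : L} {l : ℕ} (hl : l.Prime) (hx : x ≠ 1)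
    (hlU : ¬ l ∣ Nat.card U) (hxl : x ^ l = 1) : x ∉ E := by
  have hcE : ¬ l ∣ Nat.card E := by
    obtain ⟨e, he, h1, h2⟩ := sq_ex (U := U) (E := E) ⟨hc, hE.UE, hE.cU, hE.com, hE.cen⟩
    have h5 := Subgroup.relIndex_mul_relIndex ⊥ U E bot_le hE.UE
    rw [Subgroup.relIndex_bot_left, Subgroup.relIndex_bot_left, h1, mul_comm] at h5
    rw [← h5]
    intro h3
    rcases (Nat.Prime.dvd_mul hl).1 h3 with h4 | h4
    · exact hlU (h2 l hl (hl.dvd_of_dvd_pow h4))
    · exact hlU h4
  intro hxE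
  haveI := Fact.mk hl
  have h1 : orderOf (⟨x, hxE⟩ : E) = l :=
    orderOf_eq_prime (Subtype.ext hxl) fun h => hx (congrArg Subtype.val h)
  exact hcE (h1 ▸ orderOf_dvd_natCard _)

theorem zd4_ord (hc : IsCyclic U) (hE : SE U E n M) {x x₀ : L} {l l₀ : ℕ} (hl : l.Prime)
    (hx : x ≠ 1) (hlU : ¬ l ∣ Nat.card U) (hxl : x ^ l = 1) (hl₀ : l₀.Prime) (hx₀ : x₀ ≠ 1)
    (hl₀U : ¬ l₀ ∣ Nat.card U) (hx₀l : x₀ ^ l₀ = 1) (hxx : x₀⁻¹ * x ∈ E) : l = l₀ := by
  haveI := hE.nor
  haveI := Fact.mk hl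
  haveI := Fact.mk hl₀
  have h1 : (x₀ : L ⧸ E) = (x : L ⧸ E) := QuotientGroup.eq.2 hxx
  have h2 : orderOf (x : L ⧸ E) = l := by
    refine orderOf_eq_prime ?_ ?_
    · rw [← QuotientGroup.mk_pow, hxl, QuotientGroup.mk_one]
    · intro h
      exact zd4_nE hc hE hl hx hlU hxl ((QuotientGroup.eq_one_iff x).1 h)
  have h3 : orderOf (x₀ : L ⧸ E) = l₀ := by
    refine orderOf_eq_prime ?_ ?_
    · rw [← QuotientGroup.mk_pow, hx₀l, QuotientGroup.mk_one]
    · intro h
      exact zd4_nE hc hE hl₀ hx₀ hl₀U hx₀l ((QuotientGroup.eq_one_iff x₀).1 h)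
  rw [← h2, ← h3, h1]

/-- (zd4, size 3) PROOF. All the `x` of a coset `y` in the set of `Ct` with `Pe U x` have the same order `l` (`x ∉ E`, so the image of `x` in `L / E` has order `l`), so the coset contains at most
`U.relIndex E` of them (`cos_cnt`). -/
theorem pe_ct (hc : IsCyclic U) (hE : SE U E n M) (e : ℕ) (he : U.relIndex E = e ^ 2) :
    Nat.card {x : L // Pe U x ∧ ∀ u ∈ U, x * u = u * x} ≤ Ct U E * e ^ 2 := by
  classical
  haveI := hE.nor
  let A := {x : L // Pe U x ∧ ∀ u ∈ U, x * u = u * x}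
  let B := {y : L ⧸ E // ∃ x : L, (x : L ⧸ E) = y ∧ Pe U x ∧ ∀ u ∈ U, x * u = u * x}
  let f : A → B := fun x => ⟨(x.1 : L ⧸ E), x.1, rfl, x.2.1, x.2.2⟩
  haveI : Fintype A := Fintype.ofFinite A
  haveI : Fintype B := Fintype.ofFinite B
  have hA : Nat.card A = (Finset.univ : Finset A).card := by
    rw [Nat.card_eq_fintype_card, Finset.card_univ]
  have hB : Ct U E = (Finset.univ : Finset B).card := by
    show Nat.card B = _
    rw [Nat.card_eq_fintype_card, Finset.card_univ]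
  show Nat.card A ≤ _
  rw [hA, hB, mul_comm]
  refine Finset.card_le_mul_card_image_of_maps_to (f := f) (fun _ _ => Finset.mem_univ _) _ ?_
  rintro ⟨y, x₀, hy, ⟨hx₀, l, hl, hl5, hlU, hx₀l⟩, hx₀U⟩ -
  rw [← he]
  refine le_trans ?_ (cos_cnt hc hE l hl hlU x₀)
  let b : B := ⟨y, x₀, hy, ⟨hx₀, l, hl, hl5, hlU, hx₀l⟩, hx₀U⟩
  have h1 : (Finset.univ.filter fun a : A => f a = b).card = Nat.card {a : A // f a = b} := by
    rw [Nat.card_eq_fintype_card, Fintype.card_subtype]
  show (Finset.univ.filter fun a : A => f a = b).card ≤ _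
  rw [h1]
  have h2 : ∀ a : {a : A // f a = b}, x₀⁻¹ * a.1.1 ∈ E := by
    rintro ⟨⟨x, hx⟩, hxb⟩
    have h3 : (x : L ⧸ E) = y := congrArg Subtype.val hxb
    exact QuotientGroup.eq.1 (hy.trans h3.symm)
  refine Nat.card_le_card_of_injective (fun a : {a : A // f a = b} =>
    (⟨a.1.1, a.1.2.2, ?_, h2 a⟩ : {x : L // (∀ u ∈ U, x * u = u * x) ∧ x ^ l = 1 ∧
      x₀⁻¹ * x ∈ E})) ?_
  · obtain ⟨hx, l', hl', -, hl'U, hxl'⟩ := a.1.2.1
    have h3 := zd4_ord hc hE hl' hx hl'U hxl' hl hx₀ hlU hx₀l (h2 a)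
    rw [← h3]
    exact hxl'
  · rintro ⟨⟨x, hx⟩, hxb⟩ ⟨⟨x', hx'⟩, hxb'⟩ haa
    have h3 : x = x' := congrArg Subtype.val haa
    subst h3
    rfl
-- END zd4

end

section
variable {L W : Type} [Group L] [Finite L] [AddCommGroup W] [Finite W] [Nontrivial W]

-- BEGIN ze1
private theorem ze1_mem {G : Type} [Group G] [Finite G] (N : Subgroup G) [N.Normal] (l : ℕ)
    (hl : l.Prime) (hd : ¬ l ∣ N.index) (x : G) (hx : x ^ l = 1) : x ∈ N := by
  have hc : Nat.Coprime l N.index := (Nat.Prime.coprime_iff_not_dvd hl).2 hd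
  have h1 : x ^ N.index ∈ N := Subgroup.pow_index_mem N x
  have h2 : ((QuotientGroup.mk x : G ⧸ N)) ^ l = 1 := by
    rw [← QuotientGroup.mk_pow, hx]; rfl
  have h3 : ((QuotientGroup.mk x : G ⧸ N)) ^ N.index = 1 := by
    rw [← QuotientGroup.mk_pow]
    exact (QuotientGroup.eq_one_iff _).2 h1
  have h4 := orderOf_dvd_of_pow_eq_one h2
  have h5 := orderOf_dvd_of_pow_eq_one h3
  have h6 : orderOf (QuotientGroup.mk x : G ⧸ N) = 1 := Nat.eq_one_of_dvd_coprimes hc h4 h5
  exact (QuotientGroup.eq_one_iff _).1 (orderOf_eq_one_iff.1 h6)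

/-- (ze1, size 3) PROOF. `qp_gal`, `a ∣ b` so `l ∤ a` for primes `l ≥ 5` (`b = 4, 6`): all `x` with `P5 x` centralize `U`. `qp_E`, `sq_ex`, `qp_dim`: `a * e ≤ b ≤ 6`. Suppose that some `x` with `P5 x` is not in `E`. `prm_act`, `pn5`: `s ^ k ∣ e`, `s ^ k ≥ 4`, not `5`; `s` divides
`card U`, which divides `3 ^ a - 1`, so `s ≠ 3`. So `e = 4` (`e = 6` is impossible as `3` does not divide `e`), `a = 1`, `card U ≤ 2`, all `x` with `P5 x` satisfy `Pe U x`: at most `4 * 16` (`pe_ct`, `ct4`). Otherwise all `x` with `P5 x` are in `E` and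
(`l` does not divide `e`: `e` is prime to `3` and `e ≤ 6`; `e = 5` is impossible since `a = 1` and `5` does not divide `3 - 1`) in `U`. -/
theorem zq3 [Module (ZMod 3) W] {ρ : Representation (ZMod 3) L W} {U : Subgroup L}
    (h : QP ρ U) (hs : Group.IsSolvable L) (b : ℕ) (hb : b = 4 ∨ b = 6)
    (hW : Nat.card W = 3 ^ b) :
    (∀ x : L, P5 x → x ∈ U) ∨ Nat.card {x : L // P5 x} ≤ 64 := by
  haveI : Fact (Nat.Prime 3) := ⟨Nat.prime_three⟩
  obtain ⟨a, ha, hUa, hidx, hAA, ⟨d', hd', hWd⟩, -⟩ := qp_gal h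
  have had : a * d' = b := by
    rw [hW, ← pow_mul] at hWd
    exact (Nat.pow_right_injective (by norm_num : 2 ≤ 3) hWd).symm
  have hab : a ∣ b := ⟨d', had.symm⟩
  have hla : ∀ l : ℕ, l.Prime → 5 ≤ l → ¬ l ∣ a := by
    intro l hl hl5 hd
    have h1 := hd.trans hab
    rcases hb with rfl | rfl
    · have := Nat.le_of_dvd (by norm_num) h1
      omega
    · have h2 := Nat.le_of_dvd (by norm_num) h1
      have h3 : l = 5 ∨ l = 6 := by omega
      rcases h3 with rfl | rfl
      · norm_num at h1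
      · norm_num at hl
  have hUn : U.Normal := h.ab.nor
  have hcen : ∀ x : L, P5 x → ∀ u ∈ U, x * u = u * x := by
    rintro x ⟨-, l, hl, hl5, hx⟩
    have hxC : x ∈ Subgroup.centralizer (U : Set L) := by
      refine ze1_mem _ l hl ?_ x hx
      exact fun hdvd => hla l hl hl5 (hdvd.trans hidx)
    exact fun u hu => (Subgroup.mem_centralizer_iff.1 hxC u hu).symm
  obtain ⟨E, n, M, hE⟩ := qp_E h hs
  have hPrg : Prg U E := ⟨qp_cyc h, hE.UE, hE.cU, hE.com, hE.cen⟩
  obtain ⟨e, he0, he, hes⟩ := sq_ex hPrg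
  have hdim := qp_dim h hE e he
  have hae : a * e ≤ b := by
    rw [hAA, hW, ← pow_mul] at hdim
    exact (Nat.pow_le_pow_iff_right (by norm_num)).1 hdim
  have he6 : e ≤ 6 := by
    have h1 : e ≤ a * e := Nat.le_mul_of_pos_left _ ha
    omega
  have h3e : ¬ 3 ∣ e := by
    intro h3
    have h1 := (hes 3 Nat.prime_three h3).trans hUa
    have h2 : 3 ∣ 3 ^ a := dvd_pow_self 3 ha.ne'
    have h4 : 3 ∣ 3 ^ a - (3 ^ a - 1) := Nat.dvd_sub h2 h1
    have h5 : 0 < 3 ^ a := by positivity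
    have h6 : 3 ^ a - (3 ^ a - 1) = 1 := by omega
    rw [h6] at h4
    norm_num at h4
  have hle : ∀ l : ℕ, l.Prime → 5 ≤ l → ¬ l ∣ e := by
    intro l hl hl5 hd
    have h1 := Nat.le_of_dvd he0 hd
    have h2 : e = 5 ∨ e = 6 := by omega
    rcases h2 with rfl | rfl
    · have h3 : l = 5 := by omega
      subst h3
      have h4 : a = 1 := by omega
      subst h4
      have h5 := (hes 5 hl (dvd_refl 5)).trans hUa
      norm_num at h5
    · exact h3e (by norm_num)
  by_cases hall : ∀ x : L, P5 x → x ∈ E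
  · left
    intro x hx
    have hxE := hall x hx
    obtain ⟨-, l, hl, hl5, hxl⟩ := hx
    have hmem : (⟨x, hxE⟩ : E) ∈ U.subgroupOf E := by
      refine ze1_mem (U.subgroupOf E) l hl ?_ ⟨x, hxE⟩ ?_
      · have h1 : (U.subgroupOf E).index = e ^ 2 := he
        rw [h1]
        exact fun h2 => hle l hl hl5 (hl.dvd_of_dvd_pow h2)
      · apply Subtype.ext
        simpa using hxl
    exact Subgroup.mem_subgroupOf.1 hmem
  · right
    push Not at hall
    obtain ⟨x, hx, hxE⟩ := hall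
    have hxU := hcen x hx
    obtain ⟨-, l, hl, hl5, hxl⟩ := hx
    obtain ⟨s, k, hsp, hk, hske, hls⟩ := prm_act (qp_cyc h) hE e he l hl (hle l hl hl5) x hxU hxl hxE
    obtain ⟨h4s, h5s, -, -, -, -⟩ := pn5 l s k hl hl5 hsp hk hls
    have hsk := Nat.le_of_dvd he0 hske
    have he4 : e = 4 := by
      have h1 : e = 4 ∨ e = 5 ∨ e = 6 := by omega
      rcases h1 with h1 | h1 | h1
      · exact h1
      · subst h1
        rcases (Nat.dvd_prime Nat.prime_five).1 hske with h2 | h2
        · omega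
        · exact absurd h2 h5s
      · subst h1
        exact absurd (by norm_num) h3e
    subst he4
    have ha1 : a = 1 := by omega
    subst ha1
    have hU2 : Nat.card U ≤ 2 := Nat.le_of_dvd (by norm_num) hUa
    have hct := ct4 hs (qp_cyc h) hUn h.mx hE he
    have hpe := pe_ct (qp_cyc h) hE 4 he
    have hinj : Nat.card {x : L // P5 x} ≤
        Nat.card {x : L // Pe U x ∧ ∀ u ∈ U, x * u = u * x} := by
      refine Nat.card_le_card_of_injective (fun x => ⟨x.1, ?_, hcen x.1 x.2⟩) ?_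
      · obtain ⟨hx1, m, hm, hm5, hxm⟩ := x.2
        refine ⟨hx1, m, hm, hm5, ?_, hxm⟩
        intro hd
        have := Nat.le_of_dvd Nat.card_pos hd
        omega
      · intro x y hxy
        exact Subtype.ext (congrArg (fun z => z.1) hxy)
    calc Nat.card {x : L // P5 x} ≤ Nat.card {x : L // Pe U x ∧ ∀ u ∈ U, x * u = u * x} := hinj
      _ ≤ Ct U E * 4 ^ 2 := hpe
      _ ≤ 4 * 4 ^ 2 := Nat.mul_le_mul_right _ hct
      _ = 64 := by norm_num
-- END ze1

-- BEGIN ze2
private theorem ze2_gen [Module (ZMod 2) W] {ρ : Representation (ZMod 2) L W} {U : Subgroup L}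
    (h : QP ρ U) (hs : Group.IsSolvable L) (b : ℕ) (hW : Nat.card W = 2 ^ b) :
    ∃ a : ℕ, 0 < a ∧ a ∣ b ∧ (Nat.card L ≤ a * (2 ^ a - 1) ∨
      ∃ e : ℕ, 2 ≤ e ∧ a * e ≤ b ∧ (∀ s : ℕ, s.Prime → s ∣ e → s ∣ 2 ^ a - 1) ∧
        4 * Nat.card L ≤ a * (2 ^ a - 1) * e ^ 8) := by
  haveI : Fact (Nat.Prime 2) := ⟨Nat.prime_two⟩
  obtain ⟨a, ha, hUa, hCa, hAA, ⟨d, hd, hWd⟩, -⟩ := qp_gal h
  have had : a * d = b := by
    rw [hW, ← pow_mul] at hWd
    exact (Nat.pow_right_injective (le_refl 2) hWd).symm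
  refine ⟨a, ha, ⟨d, had.symm⟩, ?_⟩
  obtain ⟨E, n, M, hE⟩ := qp_E h hs
  have hcyc := qp_cyc h
  have hUC : U ≤ Subgroup.centralizer (U : Set L) := by
    intro u hu
    rw [Subgroup.mem_centralizer_iff]
    intro v hv
    exact h.ab.com v hv u hu
  have hQ2 : 2 ≤ 2 ^ a := Nat.le_self_pow ha.ne' 2
  have hU1 : Nat.card U ≤ 2 ^ a - 1 := Nat.le_of_dvd (by omega) hUa
  have hC1 : (Subgroup.centralizer (U : Set L)).index ≤ a := Nat.le_of_dvd ha hCa
  have hcL : Nat.card L = (Subgroup.centralizer (U : Set L)).index *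
      Nat.card (Subgroup.centralizer (U : Set L)) := by
    rw [mul_comm]; exact (Subgroup.card_mul_index _).symm
  have hcC : Nat.card (Subgroup.centralizer (U : Set L)) =
      Nat.card U * U.relIndex (Subgroup.centralizer (U : Set L)) := by
    have h1 := Subgroup.relIndex_mul_relIndex ⊥ U (Subgroup.centralizer (U : Set L)) bot_le hUC
    rw [Subgroup.relIndex_bot_left, Subgroup.relIndex_bot_left] at h1
    exact h1.symm
  rcases Nat.eq_zero_or_pos n with hn | hn
  · left
    have h1 : Subgroup.centralizer (U : Set L) ≤ U := by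
      intro x hx
      by_contra hxU
      have := hE.pos ⟨x, fun u hu => (Subgroup.mem_centralizer_iff.1 hx u hu).symm, hxU⟩
      omega
    have h2 : U.relIndex (Subgroup.centralizer (U : Set L)) = 1 := Subgroup.relIndex_eq_one.2 h1
    rw [hcL, hcC, h2, mul_one]
    exact Nat.mul_le_mul hC1 hU1
  · right
    have hEC : E ≤ Subgroup.centralizer (U : Set L) := by
      intro x hx
      rw [Subgroup.mem_centralizer_iff]
      intro u hu
      exact (hE.cU x hx u hu).symm
    have hrel : U.relIndex (Subgroup.centralizer (U : Set L)) =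
        U.relIndex E * E.relIndex (Subgroup.centralizer (U : Set L)) :=
      (Subgroup.relIndex_mul_relIndex _ _ _ hE.UE hEC).symm
    obtain ⟨e, he, hUE, hes⟩ := sq_ex (U := U) (E := E) ⟨hcyc, hE.UE, hE.cU, hE.com, hE.cen⟩
    have he2 : 2 ≤ e := by
      by_contra hlt
      have he1 : e = 1 := by omega
      rw [he1, one_pow, Subgroup.relIndex_eq_one] at hUE
      exact absurd (hE.mU ⟨0, hn⟩) (not_lt_of_ge ((hE.mE _).trans hUE))
    have hdim := qp_dim h hE e hUE
    have hae : a * e ≤ b := by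
      rw [hAA, hW, ← pow_mul] at hdim
      exact (Nat.pow_le_pow_iff_right (by norm_num)).1 hdim
    refine ⟨e, he2, hae, fun s hs1 hs2 => (hes s hs1 hs2).trans hUa, ?_⟩
    have h5 : 4 * E.relIndex (Subgroup.centralizer (U : Set L)) ≤ U.relIndex E ^ 3 :=
      cs_ob hs h.ab.nor hE hn (U.relIndex E) (ob _) le_rfl
    rw [hUE] at h5
    calc 4 * Nat.card L = (Subgroup.centralizer (U : Set L)).index * Nat.card U * (e ^ 2) *
          (4 * E.relIndex (Subgroup.centralizer (U : Set L))) := by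
          rw [hcL, hcC, hrel, hUE]; ring
      _ ≤ a * (2 ^ a - 1) * e ^ 2 * (e ^ 2) ^ 3 :=
          Nat.mul_le_mul (Nat.mul_le_mul_right _ (Nat.mul_le_mul hC1 hU1)) h5
      _ = a * (2 ^ a - 1) * e ^ 8 := by ring

/-- (ze2, size 3) PROOF. `qp_gal`, `qp_E`, `sq_ex`, `qp_dim`: `a * e ≤ b`, `a ∣ b`, `card L = card U * e ^ 2 * E.relIndex C * C.index`, `card U ∣ 2 ^ a - 1`, `C.index ≤ a`. `b = 5`: `a = 1`: `U = ⊥`, `e = 1` (its primes divide `card U`), `C = U`
(`SE.pos`: if `C ≠ U` then `n > 0`, `e ≥ 2`), `L = C = 1`; `a = 5`: `e = 1`, `C = U`, `card L ≤ 31 * 5`. `b = 10`: `a = 1`: `card L = 1`; `a = 2`: `e = 1`: `3 * 2`; `e = 3`: `3 * 9 * 182 * 2 = 9828` (`cs_ob`, `ob`); `a = 5`: `155`; `a = 10`: `10230`. -/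
theorem zq2 [Module (ZMod 2) W] {ρ : Representation (ZMod 2) L W} {U : Subgroup L}
    (h : QP ρ U) (hs : Group.IsSolvable L) (b : ℕ) (hW : Nat.card W = 2 ^ b) :
    (b = 5 → Nat.card L ≤ 155) ∧ (b = 10 → Nat.card L ≤ 10230) := by
  obtain ⟨a, ha, hab, hL⟩ := ze2_gen h hs b hW
  have hpr : ∀ e : ℕ, 2 ≤ e → ∃ s : ℕ, s.Prime ∧ s ∣ e := fun e he =>
    Nat.exists_prime_and_dvd (by omega)
  constructor
  · rintro rfl
    have h1 : a = 1 ∨ a = 5 := (Nat.dvd_prime Nat.prime_five).1 hab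
    rcases h1 with rfl | rfl
    · rcases hL with hL | ⟨e, he2, hae, hes, -⟩
      · norm_num at hL
        omega
      · obtain ⟨s, hs1, hs2⟩ := hpr e he2
        have h2 := hes s hs1 hs2
        norm_num at h2
        exact absurd h2 hs1.ne_one
    · rcases hL with hL | ⟨e, he2, hae, hes, -⟩
      · norm_num at hL
        exact hL
      · omega
  · rintro rfl
    have h1 : a = 1 ∨ a = 2 ∨ a = 5 ∨ a = 10 := by
      have h2 := Nat.le_of_dvd (by norm_num) hab
      interval_cases a <;> simp_all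
    rcases h1 with rfl | rfl | rfl | rfl
    · rcases hL with hL | ⟨e, he2, hae, hes, -⟩
      · norm_num at hL
        omega
      · obtain ⟨s, hs1, hs2⟩ := hpr e he2
        have h2 := hes s hs1 hs2
        norm_num at h2
        exact absurd h2 hs1.ne_one
    · rcases hL with hL | ⟨e, he2, hae, hes, h4⟩
      · norm_num at hL
        omega
      · have h2 : ¬ 2 ∣ e := by
          intro h3
          have := hes 2 Nat.prime_two h3
          norm_num at this
        have h3 : ¬ 5 ∣ e := by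
          intro h3
          have := hes 5 Nat.prime_five h3
          norm_num at this
        have h5 : e = 3 := by omega
        subst h5
        norm_num at h4
        omega
    · rcases hL with hL | ⟨e, he2, hae, hes, -⟩
      · norm_num at hL
        omega
      · have h5 : e = 2 := by omega
        subst h5
        have := hes 2 Nat.prime_two (dvd_refl 2)
        norm_num at this
    · rcases hL with hL | ⟨e, he2, hae, hes, -⟩
      · norm_num at hL
        exact hL
      · omega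
-- END ze2

end

-- BEGIN ze3
/-- (ze3, size 3) PROOF. `card J = 5` is prime, so the action is primitive (Mathlib: `MulAction.IsPreprimitive.of_prime_card`-like; or blocks have cardinality dividing 5). `prim_reg`: `N` regular, `card N = 5`, `C_Y(N) ≤ N`; `Y / N` embeds in
`MulAut N`, which has 4 elements. -/
theorem deg5 {J : Type} [Finite J] (hJ : Nat.card J = 5) (Y : Subgroup (Equiv.Perm J))
    (hs : Group.IsSolvable Y) (ht : MulAction.IsPretransitive Y J) : Nat.card Y ≤ 20 := by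
  classical
  have : Fact (Nat.Prime 5) := ⟨by norm_num⟩
  have hnt : Nontrivial J := by
    rw [← Finite.one_lt_card_iff_nontrivial]
    omega
  have hp : MulAction.IsPreprimitive Y J :=
    MulAction.IsPreprimitive.of_prime_card (by rw [hJ]; norm_num)
  obtain ⟨N, r, hN, hr, hexp, htr, hreg, hcen, -⟩ := prim_reg hs (fun y hy => by
    apply Subtype.ext
    apply Equiv.ext
    intro j
    exact hy j) hp
  obtain ⟨j₀⟩ : Nonempty J := inferInstance
  have hNn : N.Normal := hN.nor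
  have hbij : Function.Bijective (fun n : N => (n : Y) • j₀) := by
    constructor
    · intro a b hab
      have h1 : ((b : Y)⁻¹ * (a : Y)) • j₀ = j₀ := by
        rw [mul_smul]
        have h2 : (a : Y) • j₀ = (b : Y) • j₀ := hab
        rw [h2, inv_smul_smul]
      have h3 := hreg _ (N.mul_mem (N.inv_mem b.2) a.2) j₀ h1
      apply Subtype.ext
      exact (inv_mul_eq_one.1 h3).symm
    · intro j
      obtain ⟨x, hx, hxj⟩ := htr j₀ j
      exact ⟨⟨x, hx⟩, hxj⟩
  have hNc : Nat.card N = 5 := by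
    rw [← hJ]
    exact Nat.card_congr (Equiv.ofBijective _ hbij)
  have : IsCyclic N := isCyclic_of_prime_card hNc
  have hker : (MulAut.conjNormal (H := N)).ker ≤ N := by
    intro y hy
    apply hcen
    intro x hx
    rw [MonoidHom.mem_ker] at hy
    have h1 : MulAut.conjNormal y (⟨x, hx⟩ : N) = ⟨x, hx⟩ := by rw [hy]; rfl
    have h2 := congrArg Subtype.val h1
    rw [MulAut.conjNormal_apply] at h2
    have h3 : y * x * y⁻¹ = x := h2
    calc y * x = y * x * y⁻¹ * y := by group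
      _ = x * y := by rw [h3]
  have hA : Nat.card (MulAut N) = 4 := by
    rw [IsCyclic.card_mulAut, hNc]
    decide
  have h1 : Nat.card Y = Nat.card (MulAut.conjNormal (H := N)).ker *
      Nat.card (MulAut.conjNormal (H := N)).range := by
    rw [← (MulAut.conjNormal (H := N)).ker.card_mul_index]
    rw [Subgroup.index_ker]
  have h2 : Nat.card (MulAut.conjNormal (H := N)).ker ≤ 5 := by
    rw [← hNc]
    exact Nat.card_le_card_of_injective _ (Subgroup.inclusion_injective hker)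
  have h3 : Nat.card (MulAut.conjNormal (H := N)).range ≤ 4 := by
    rw [← hA]
    exact Nat.card_le_card_of_injective _ (Subtype.val_injective)
  rw [h1]
  exact Nat.mul_le_mul h2 h3
-- END ze3

section
variable {X S : Type} [Group X] [Finite X] [AddCommGroup S] [Finite S] [Nontrivial S]

-- BEGIN ze4
private theorem ze4_ord {X : Type} [Group X] [Finite X] {A : Subgroup X} (m : ℕ)
    (hm : Nat.card A ∣ m) (x : X) (hx : P5 x) (hA : x ∈ A) :
    ∃ l : ℕ, l.Prime ∧ 5 ≤ l ∧ l ∣ m ∧ x ^ l = 1 := by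
  obtain ⟨hx1, l, hl, hl5, hxl⟩ := hx
  refine ⟨l, hl, hl5, ?_, hxl⟩
  have h1 : orderOf x = l := by
    have : Fact l.Prime := ⟨hl⟩
    exact orderOf_eq_prime hxl hx1
  have h2 : orderOf (⟨x, hA⟩ : A) = l := by
    rw [← h1]
    exact Subgroup.orderOf_mk x hA
  rw [← h2]
  exact (orderOf_dvd_natCard _).trans hm

private theorem ze4_none {X : Type} [Group X] [Finite X] {A : Subgroup X} (c k : ℕ)
    (hm : Nat.card A ∣ (2 ^ c) ^ k) (x : X) (hx : P5 x) (hA : x ∈ A) : False := by
  obtain ⟨l, hl, hl5, hd, -⟩ := ze4_ord _ hm x hx hA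
  have h1 : l ∣ 2 := hl.dvd_of_dvd_pow (hl.dvd_of_dvd_pow hd)
  have h2 := Nat.le_of_dvd (by norm_num) h1
  omega

private theorem ze4_le {X : Type} [Group X] [Finite X] {A : Subgroup X} (m : ℕ) (hm0 : 0 < m)
    (hm : Nat.card A ∣ m) (hx : ∀ x : X, P5 x → x ∈ A) : Nat.card {x : X // P5 x} ≤ m := by
  have h1 : Nat.card {x : X // P5 x} ≤ Nat.card A :=
    Nat.card_le_card_of_injective (fun x : {x : X // P5 x} => (⟨x.1, hx x.1 x.2⟩ : A)) (by
      intro x y hxy
      have := congrArg Subtype.val hxy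
      exact Subtype.ext this)
  exact h1.trans (Nat.le_of_dvd hm0 hm)

private theorem ze4_two {L V : Type} [Group L] [Finite L] [AddCommGroup V] [Module (ZMod 3) V]
    [Finite V] [Nontrivial V] {ρV : Representation (ZMod 3) L V} (hf : ∀ h, (∀ w, ρV h w = w) → h = 1)
    (hV : Nat.card V = 3) : Nat.card L ≤ 2 := by
  classical
  obtain ⟨w, hw⟩ := exists_ne (0 : V)
  have hspan : ∀ v : V, ∃ c : ZMod 3, c • w = v := by
    have hinj : Function.Injective (fun c : ZMod 3 => c • w) := by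
      intro c c' hcc
      have hcc' : (c - c') • w = 0 := by
        rw [sub_smul]
        exact sub_eq_zero.2 hcc
      rcases smul_eq_zero.1 hcc' with h | h
      · exact sub_eq_zero.1 h
      · exact absurd h hw
    have hcard : Nat.card (ZMod 3) = Nat.card V := by
      rw [hV, Nat.card_zmod]
    have hbij : Function.Bijective (fun c : ZMod 3 => c • w) :=
      (Nat.bijective_iff_injective_and_card _).2 ⟨hinj, hcard⟩
    exact fun v => hbij.2 v
  have hne : ∀ g : L, ρV g w ≠ 0 := by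
    intro g hg
    apply hw
    have h1 : ρV g⁻¹ (ρV g w) = w := by
      rw [← Module.End.mul_apply, ← map_mul, inv_mul_cancel, map_one, Module.End.one_apply]
    rw [← h1, hg, map_zero]
  have hinj : Function.Injective (fun g : L => (⟨ρV g w, hne g⟩ : {v : V // v ≠ 0})) := by
    intro g g' hgg
    have h1 : ρV g w = ρV g' w := congrArg Subtype.val hgg
    have h2 : g'⁻¹ * g = 1 := by
      apply hf
      intro v
      obtain ⟨c, rfl⟩ := hspan v
      rw [map_smul, map_mul, Module.End.mul_apply, h1]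
      have h3 : ρV g'⁻¹ (ρV g' w) = w := by
        rw [← Module.End.mul_apply, ← map_mul, inv_mul_cancel, map_one, Module.End.one_apply]
      rw [h3]
    exact (inv_mul_eq_one.1 h2).symm
  have h1 := Nat.card_le_card_of_injective _ hinj
  have h2 : Nat.card {v : V // v ≠ 0} = 2 := by
    have : Fintype V := Fintype.ofFinite V
    rw [Nat.card_eq_fintype_card, Fintype.card_subtype_compl, Fintype.card_subtype_eq,
      ← Nat.card_eq_fintype_card, hV]
  omega

/-- (ze4, size 4) PROOF. `bs_ex`, `bl_dim`: `b * k = d`, `k = card J`. If `b ≤ 3` and `k ≤ 4`: `zu`, `bl_U`, `bl_A`, all `x` with `P5 x` are in `A`, `card A` divides `(3 ^ b - 1) ^ k`. `d = 2`: `8` or `4`: none. `d = 4`: `k = 2, 4`: `64` or `16`: none; `k = 1`: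
`bl_one`, `zq3`: at most 64, or all in `U`, `card U ∣ 80` (`bl_A`): at most 79 - no: `ab_l`: at most 4 (only `l = 5`). `d = 6`: `k = 2, 3`: `card A ≤ 26 ^ 2, 8 ^ 3`; `k = 1`: at most 64, or in `U`, `card U ≤ 728`; `k = 6`: `b = 1`: `bl_card` with `N = 2` (a faithful group on a module with 3 elements has
at most 2 elements), `card Y ≤ 4 ^ 6 / 4` (`pb_of`, `ob`): `card X ≤ 1024 * 64`. -/
theorem zx3 [Module (ZMod 3) S] (ρ : Representation (ZMod 3) X S) (hs : Group.IsSolvable X)
    (hf : ∀ h, (∀ w, ρ h w = w) → h = 1) (hirr : Irrd ρ ⊤) (d : ℕ) (hS : Nat.card S = 3 ^ d) :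
    (d = 2 → ∀ x : X, ¬ P5 x) ∧ (d = 4 → Nat.card {x : X // P5 x} ≤ 64) ∧
    (d = 6 → Nat.card {x : X // P5 x} ≤ 65536) := by
  classical
  obtain ⟨J, iJ, W, UU, hB⟩ := bs_ex (ρ := ρ) hirr
  obtain ⟨hJne, b, hb0, hbk, hbW, -⟩ := bl_dim hB hirr d hS
  obtain ⟨hAb, hAc⟩ := bl_A hB hf b hbW
  have hk0 : 0 < Nat.card J := Nat.card_pos
  have hin : b ≤ 3 → Nat.card J ≤ 4 → ∀ x : X, P5 x → x ∈ ⨅ j, UU j := by
    intro hb3 hk4 x hx
    exact bl_U hB hs hk4 b hbW (fun L V _ _ _ _ _ _ ρV U h hs' hV y hy =>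
      zu h hs' b (Or.inr (Or.inl ⟨rfl, hb3⟩)) hV y hy) x hx
  have hempty : (∀ x : X, ¬ P5 x) → Nat.card {x : X // P5 x} = 0 := by
    intro h
    have : IsEmpty {x : X // P5 x} := ⟨fun x => h x.1 x.2⟩
    exact Nat.card_of_isEmpty
  have hone : Nat.card J = 1 → (b = 4 ∨ b = 6) →
      (∀ x : X, P5 x → x ∈ ⨅ j, UU j) ∨ Nat.card {x : X // P5 x} ≤ 64 := by
    intro hJ1 hb46
    have hsub : Subsingleton J := (Nat.card_eq_one_iff_unique.1 hJ1).1
    obtain ⟨j⟩ := hJne
    have hbd : d = b := by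
      rw [← hbk, hJ1, mul_one]
    rcases zq3 (bl_one hB hf j) hs b hb46 (by rw [hS, hbd]) with h | h
    · left
      intro x hx
      rw [Subgroup.mem_iInf]
      intro j'
      rw [Subsingleton.elim j' j]
      exact h x hx
    · exact Or.inr h
  have hle : ∀ k b : ℕ, 0 < k → 0 < b → b * k = 2 → (b = 1 ∧ k = 2) ∨ (b = 2 ∧ k = 1) := by
    intro k b hk hb h
    have h1 : b ≤ 2 := by
      rw [← h]
      exact Nat.le_mul_of_pos_right b hk
    interval_cases b <;> omega
  have hle4 : ∀ k b : ℕ, 0 < k → 0 < b → b * k = 4 →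
      (b = 1 ∧ k = 4) ∨ (b = 2 ∧ k = 2) ∨ (b = 4 ∧ k = 1) := by
    intro k b hk hb h
    have h1 : b ≤ 4 := by
      rw [← h]
      exact Nat.le_mul_of_pos_right b hk
    interval_cases b <;> omega
  have hle6 : ∀ k b : ℕ, 0 < k → 0 < b → b * k = 6 →
      (b = 1 ∧ k = 6) ∨ (b = 2 ∧ k = 3) ∨ (b = 3 ∧ k = 2) ∨ (b = 6 ∧ k = 1) := by
    intro k b hk hb h
    have h1 : b ≤ 6 := by
      rw [← h]
      exact Nat.le_mul_of_pos_right b hk
    interval_cases b <;> omega
  refine ⟨?_, ?_, ?_⟩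
  · intro hd x hx
    rw [hd] at hbk
    rcases hle _ _ hk0 hb0 hbk with ⟨h1, h2⟩ | ⟨h1, h2⟩
    · rw [h1] at hAc
      exact ze4_none 1 _ (by simpa using hAc) x hx (hin (by omega) (by omega) x hx)
    · rw [h1] at hAc
      exact ze4_none 3 _ (by simpa using hAc) x hx (hin (by omega) (by omega) x hx)
  · intro hd
    rw [hd] at hbk
    rcases hle4 _ _ hk0 hb0 hbk with ⟨h1, h2⟩ | ⟨h1, h2⟩ | ⟨h1, h2⟩
    · rw [h1] at hAc
      rw [hempty fun x hx => ze4_none 1 _ (by simpa using hAc) x hx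
        (hin (by omega) (by omega) x hx)]
      norm_num
    · rw [h1] at hAc
      rw [hempty fun x hx => ze4_none 3 _ (by simpa using hAc) x hx
        (hin (by omega) (by omega) x hx)]
      norm_num
    · rcases hone h2 (Or.inl h1) with h | h
      · rw [h1, h2] at hAc
        have h80 : Nat.card (⨅ j, UU j : Subgroup X) ∣ 80 := by simpa using hAc
        have h5 := ab_l hAb 80 5 1 h80 (by norm_num) (by norm_num) h le_rfl
        have h6 : Nat.card {x : X // P5 x} ≤ Nat.card {x : X // x ^ 5 = 1} := by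
          refine Nat.card_le_card_of_injective
            (fun x : {x : X // P5 x} => (⟨x.1, ?_⟩ : {x : X // x ^ 5 = 1})) ?_
          · obtain ⟨l, hl, hl5, hd', hxl⟩ := ze4_ord 80 h80 x.1 x.2 (h x.1 x.2)
            have hl80 : l ∣ 2 ^ 4 * 5 := by
              have : (80 : ℕ) = 2 ^ 4 * 5 := by norm_num
              rwa [this] at hd'
            have hl' : l = 5 := by
              rcases (Nat.Prime.dvd_mul hl).1 hl80 with h3 | h3
              · have h4 := Nat.le_of_dvd (by norm_num) (hl.dvd_of_dvd_pow h3)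
                omega
              · have h4 := Nat.le_of_dvd (by norm_num) h3
                omega
            rw [hl'] at hxl
            exact hxl
          · intro x y hxy
            have := congrArg Subtype.val hxy
            exact Subtype.ext this
        calc Nat.card {x : X // P5 x} ≤ Nat.card {x : X // x ^ 5 = 1} := h6
          _ ≤ 5 ^ 1 := h5
          _ ≤ 64 := by norm_num
      · exact h
  · intro hd
    rw [hd] at hbk
    rcases hle6 _ _ hk0 hb0 hbk with ⟨h1, h2⟩ | ⟨h1, h2⟩ | ⟨h1, h2⟩ | ⟨h1, h2⟩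
    · obtain ⟨Y, hYs, hYt, hYc⟩ := bl_card hB hs hf b 2 hbW
        (fun L V _ _ _ _ _ _ ρV U h _ hV => ze4_two h.fai (by rw [hV, h1, pow_one]))
      have hpb : 4 * Nat.card Y ≤ 4 ^ Nat.card J :=
        pb_of 6 (ob 6) Y J inferInstance inferInstance inferInstance hJne inferInstance hYs (by
          intro y hy
          apply Subtype.ext
          apply Equiv.ext
          intro j
          exact hy j) (by omega)
      rw [h2] at hpb hYc
      have h3 : Nat.card {x : X // P5 x} ≤ Nat.card X :=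
        Nat.card_le_card_of_injective Subtype.val Subtype.val_injective
      norm_num at hpb hYc
      omega
    · rw [h1, h2] at hAc
      have h3 : Nat.card (⨅ j, UU j : Subgroup X) ∣ 512 := by simpa using hAc
      have h4 := ze4_le 512 (by norm_num) h3 (hin (by omega) (by omega))
      omega
    · rw [h1, h2] at hAc
      have h3 : Nat.card (⨅ j, UU j : Subgroup X) ∣ 676 := by simpa using hAc
      have h4 := ze4_le 676 (by norm_num) h3 (hin (by omega) (by omega))
      omega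
    · rcases hone h2 (Or.inr h1) with h | h
      · rw [h1, h2] at hAc
        have h3 : Nat.card (⨅ j, UU j : Subgroup X) ∣ 728 := by simpa using hAc
        have h4 := ze4_le 728 (by norm_num) h3 h
        omega
      · omega
-- END ze4

-- BEGIN ze5
private theorem ze5_six {L V : Type} [Group L] [Finite L] [AddCommGroup V] [Module (ZMod 2) V]
    [Finite V] [Nontrivial V] {ρV : Representation (ZMod 2) L V} {U : Subgroup L} (h : QP ρV U)
    (hc : Nat.card V = 4) : Nat.card L ≤ 6 := by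
  classical
  have hne : ∀ (g : L) (v : V), v ≠ 0 → ρV g v ≠ 0 := by
    intro g v hv h0
    apply hv
    have h1 : ρV g⁻¹ (ρV g v) = v := by
      rw [← Module.End.mul_apply, ← map_mul, inv_mul_cancel, map_one, Module.End.one_apply]
    rw [← h1, h0, map_zero]
  have hc3 : Nat.card {v : V // v ≠ 0} = 3 := by
    have : Fintype V := Fintype.ofFinite V
    rw [Nat.card_eq_fintype_card, Fintype.card_subtype_compl, Fintype.card_subtype_eq,
      ← Nat.card_eq_fintype_card, hc]
  have hP : Nat.card (Equiv.Perm {v : V // v ≠ 0}) = 6 := by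
    rw [Nat.card_perm, hc3]
    rfl
  rw [← hP]
  refine Nat.card_le_card_of_injective
    (fun g : L => ({ toFun := fun v => ⟨ρV g v.1, hne g v.1 v.2⟩
                     invFun := fun v => ⟨ρV g⁻¹ v.1, hne g⁻¹ v.1 v.2⟩
                     left_inv := fun v => Subtype.ext (by
                      change ρV g⁻¹ (ρV g v.1) = v.1
                      rw [← Module.End.mul_apply, ← map_mul, inv_mul_cancel, map_one,
                        Module.End.one_apply])
                     right_inv := fun v => Subtype.ext (by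
                      change ρV g (ρV g⁻¹ v.1) = v.1
                      rw [← Module.End.mul_apply, ← map_mul, mul_inv_cancel, map_one,
                        Module.End.one_apply]) } : Equiv.Perm {v : V // v ≠ 0})) ?_
  intro a b hab
  have h1 : ∀ v : V, ρV a v = ρV b v := by
    intro v
    by_cases hv : v = 0
    · rw [hv, map_zero, map_zero]
    · have h2 := congrArg (fun e : Equiv.Perm {v : V // v ≠ 0} => (e ⟨v, hv⟩ : V)) hab
      exact h2
  have h3 : b⁻¹ * a = 1 := by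
    apply h.fai
    intro w
    rw [map_mul, Module.End.mul_apply, h1 w, ← Module.End.mul_apply, ← map_mul, inv_mul_cancel,
      map_one, Module.End.one_apply]
  exact (inv_mul_eq_one.1 h3).symm

/-- (ze5, size 3) PROOF. `bs_ex`, `bl_dim`: `b * k = 10`, `b ≥ 2`: `k = 1`: `bl_card` with `N = 10230` (`zq2`; `card Y = 1`). `k = 2`: `N = 155`, `card Y ≤ 2`: `48050`. `k = 5`: `N = 6` (a faithful group on a module with 4 elements permutes the 3 nonzero elements), `card Y ≤ 20` (`deg5`): `20 * 6 ^ 5`. -/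
theorem zx210 [Module (ZMod 2) S] (ρ : Representation (ZMod 2) X S) (hs : Group.IsSolvable X)
    (hf : ∀ h, (∀ w, ρ h w = w) → h = 1) (hirr : Irrd ρ ⊤) (hS : Nat.card S = 2 ^ 10) :
    Nat.card X ≤ 155520 := by
  classical
  obtain ⟨J, iJ, W, UU, hB⟩ := bs_ex (ρ := ρ) hirr
  obtain ⟨hJne, b, hb0, hbk, hWb, hb2⟩ := bl_dim hB hirr 10 hS
  have hb2' : 2 ≤ b := hb2 rfl (by norm_num)
  have hble : b ≤ 10 := by
    rw [← hbk]
    exact Nat.le_mul_of_pos_right b Nat.card_pos
  have hperm : ∀ Y : Subgroup (Equiv.Perm J), Nat.card Y ≤ (Nat.card J).factorial := by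
    intro Y
    rw [← Nat.card_perm]
    exact Nat.card_le_card_of_injective _ Subtype.val_injective
  have hcases : (b = 2 ∧ Nat.card J = 5) ∨ (b = 5 ∧ Nat.card J = 2) ∨
      (b = 10 ∧ Nat.card J = 1) := by
    generalize Nat.card J = k at hbk
    interval_cases b <;> omega
  rcases hcases with ⟨hb, hk⟩ | ⟨hb, hk⟩ | ⟨hb, hk⟩
  · obtain ⟨Y, hYs, hYt, hY⟩ := bl_card hB hs hf b 6 hWb (by
      intro L V _ _ _ _ _ _ ρV U hQ _ hcV
      exact ze5_six hQ (by rw [hcV, hb]; norm_num))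
    have h1 := deg5 hk Y hYs hYt
    rw [hk] at hY
    calc Nat.card X ≤ Nat.card Y * 6 ^ 5 := hY
      _ ≤ 20 * 6 ^ 5 := Nat.mul_le_mul_right _ h1
      _ = 155520 := by norm_num
  · obtain ⟨Y, hYs, hYt, hY⟩ := bl_card hB hs hf b 155 hWb (by
      intro L V _ _ _ _ _ _ ρV U hQ hsL hcV
      exact (zq2 hQ hsL b hcV).1 hb)
    have h1 := hperm Y
    rw [hk] at hY h1
    calc Nat.card X ≤ Nat.card Y * 155 ^ 2 := hY
      _ ≤ 2 * 155 ^ 2 := Nat.mul_le_mul_right _ h1
      _ ≤ 155520 := by norm_num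
  · obtain ⟨Y, hYs, hYt, hY⟩ := bl_card hB hs hf b 10230 hWb (by
      intro L V _ _ _ _ _ _ ρV U hQ hsL hcV
      exact (zq2 hQ hsL b hcV).2 hb)
    have h1 := hperm Y
    rw [hk] at hY h1
    calc Nat.card X ≤ Nat.card Y * 10230 ^ 1 := hY
      _ ≤ 1 * 10230 ^ 1 := Nat.mul_le_mul_right _ h1
      _ ≤ 155520 := by norm_num
-- END ze5

end

section
variable {L : Type} [Group L] [Finite L] {U E : Subgroup L} {n : ℕ} {M : Fin n → Subgroup L}

-- BEGIN ze6
private theorem ze6_card {r : ℕ} [Fact r.Prime] {S : Type} [AddCommGroup S]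
    [Module (ZMod r) S] [Finite S] : ∃ d : ℕ, Nat.card S = r ^ d := by
  refine ⟨Module.finrank (ZMod r) S, ?_⟩
  rw [Module.natCard_eq_pow_finrank (K := ZMod r), Nat.card_zmod]

private theorem ze6_eq {r : ℕ} [Fact r.Prime] {S : Type} [AddCommGroup S]
    [Module (ZMod r) S] [Finite S] {q c : ℕ} (hq : q.Prime) (h : Nat.card S = c) (hc : q ∣ c) :
    r = q := by
  obtain ⟨d, hd⟩ := ze6_card (r := r) (S := S)
  rw [h] at hd
  rw [hd] at hc
  exact ((Nat.prime_dvd_prime_iff_eq hq (Fact.out : r.Prime)).1 (hq.dvd_of_dvd_pow hc)).symm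

private def ze6_N (a : ℕ) : ℕ := if a = 4 then 4 else if a = 8 then 48 else
  if a = 16 then 24 else if a = 9 then 64 else if a = 27 then 65536 else
  if a = 32 then 155520 else 0

private theorem ze6_zero {X : Type} [Group X] [Finite X] (h : ∀ x : X, ¬ P5 x) :
    Nat.card {x : X // P5 x} ≤ 0 := by
  have : IsEmpty {x : X // P5 x} := ⟨fun x => h x.1 x.2⟩
  exact le_of_eq Nat.card_of_isEmpty

private theorem ze6_bd (a : ℕ) (ha : a = 2 ∨ a = 3 ∨ a = 4 ∨ a = 6 ∨ a = 8 ∨ a = 9 ∨ a = 12 ∨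
    a = 16 ∨ a = 18 ∨ a = 27 ∨ a = 32) (r : ℕ) [Fact r.Prime] (X S : Type) [Group X] [Finite X]
    [AddCommGroup S] [Module (ZMod r) S] [Finite S] [Nontrivial S]
    (ρ : Representation (ZMod r) X S) (hs : Group.IsSolvable X)
    (hf : ∀ h, (∀ w, ρ h w = w) → h = 1) (hirr : Irrd ρ ⊤) (hS : Nat.card S = a ^ 2) :
    Nat.card {x : X // P5 x} ≤ ze6_N a := by
  have np : 2 ∣ a → 3 ∣ a → False := by
    intro h2 h3
    have e2 : r = 2 := ze6_eq (S := S) Nat.prime_two hS (dvd_pow h2 two_ne_zero)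
    have e3 : r = 3 := ze6_eq (S := S) Nat.prime_three hS (dvd_pow h3 two_ne_zero)
    omega
  rcases ha with rfl | rfl | rfl | rfl | rfl | rfl | rfl | rfl | rfl | rfl | rfl
  · obtain rfl : r = 2 := ze6_eq (S := S) Nat.prime_two hS (by norm_num)
    exact ze6_zero ((zx2 ρ hs hf hirr 2 (by rw [hS])).1 rfl)
  · obtain rfl : r = 3 := ze6_eq (S := S) Nat.prime_three hS (by norm_num)
    exact ze6_zero ((zx3 ρ hs hf hirr 2 (by rw [hS])).1 rfl)
  · obtain rfl : r = 2 := ze6_eq (S := S) Nat.prime_two hS (by norm_num)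
    exact ((zx2 ρ hs hf hirr 4 (by rw [hS]; norm_num)).2.1 rfl).1
  · exact (np (by norm_num) (by norm_num)).elim
  · obtain rfl : r = 2 := ze6_eq (S := S) Nat.prime_two hS (by norm_num)
    exact ((zx2 ρ hs hf hirr 6 (by rw [hS]; norm_num)).2.2.1 rfl).1
  · obtain rfl : r = 3 := ze6_eq (S := S) Nat.prime_three hS (by norm_num)
    exact (zx3 ρ hs hf hirr 4 (by rw [hS]; norm_num)).2.1 rfl
  · exact (np (by norm_num) (by norm_num)).elim
  · obtain rfl : r = 2 := ze6_eq (S := S) Nat.prime_two hS (by norm_num)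
    exact (zx2 ρ hs hf hirr 8 (by rw [hS]; norm_num)).2.2.2 rfl
  · exact (np (by norm_num) (by norm_num)).elim
  · obtain rfl : r = 3 := ze6_eq (S := S) Nat.prime_three hS (by norm_num)
    exact (zx3 ρ hs hf hirr 6 (by rw [hS]; norm_num)).2.2 rfl
  · obtain rfl : r = 2 := ze6_eq (S := S) Nat.prime_two hS (by norm_num)
    exact (Nat.card_le_card_of_injective _ Subtype.val_injective).trans
      (zx210 ρ hs hf hirr (by rw [hS]; norm_num))

private theorem ze6_prod {n : ℕ} (ee : Fin n → ℕ) (f g : ℕ → ℕ) (e : ℕ) (h1 : g 1 = 1)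
    (hg : ∀ a b : ℕ, a * b ∣ e → g a * g b ≤ g (a * b)) (hf : ∀ i, f (ee i) ≤ g (ee i))
    (he : ∏ i, ee i = e) : ∏ i, f (ee i) ≤ g e := by
  classical
  have key : ∀ s : Finset (Fin n), ∏ i ∈ s, f (ee i) ≤ g (∏ i ∈ s, ee i) := by
    intro s
    induction s using Finset.induction_on with
    | empty => simp [h1]
    | insert i s his ih =>
      rw [Finset.prod_insert his, Finset.prod_insert his]
      refine (Nat.mul_le_mul (hf i) ih).trans (hg _ _ ?_)
      rw [← Finset.prod_insert his, ← he]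
      exact Finset.prod_dvd_prod_of_subset _ _ _ (Finset.subset_univ _)
  have := key Finset.univ
  rwa [he] at this

private def ze6_g (a : ℕ) : ℕ := if a = 4 ∨ a = 12 then 5 else if a = 8 ∨ a = 16 then 49 else
  if a = 9 ∨ a = 18 then 65 else if a = 27 then 65537 else if a = 32 then 155521 else 1

private theorem ze6_mul (g : ℕ → ℕ) (e : ℕ) (h0 : 0 < e)
    (h : ∀ a ∈ Finset.range (e + 1), ∀ b ∈ Finset.range (e + 1), a * b ∣ e → g a * g b ≤ g (a * b))
    (a b : ℕ) (hab : a * b ∣ e) : g a * g b ≤ g (a * b) := by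
  have ha : a ≤ e := Nat.le_of_dvd h0 ((Dvd.intro _ rfl).trans hab)
  have hb : b ≤ e := Nat.le_of_dvd h0 ((Dvd.intro_left _ rfl).trans hab)
  exact h a (Finset.mem_range.2 (by omega)) b (Finset.mem_range.2 (by omega)) hab

private theorem ze6_dv (P : ℕ → Prop) (e : ℕ) (h0 : 0 < e)
    (h : ∀ a ∈ Finset.range (e + 1), 2 ≤ a → a ∣ e → P a) (a : ℕ) (h2 : 2 ≤ a) (hd : a ∣ e) :
    P a :=
  h a (Finset.mem_range.2 (Nat.lt_succ_of_le (Nat.le_of_dvd h0 hd))) h2 hd

/-- (ze6, size 4) PROOF. `se_sq`, `ct_prod` with `N i = NN (ee i)`, `NN 2 = NN 3 = 0`, `NN 4 = 4`, `NN 8 = 48`, `NN 16 = 24`, `NN 9 = 64`, `NN 27 = 65536`, `NN 32 = 155520` (`zx2`, `zx3`, `zx210`; the group acts over `ZMod r`, `card S = (ee i) ^ 2` is a power of `r`; so `ee i` is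
a prime power: `6, 12, 18` do not occur). Let `g 1 = g 2 = g 3 = g 6 = 1`, `g 4 = g 12 = 5`, `g 8 = g 16 = 49`, `g 9 = g 18 = 65`, `g 27 = 65537`, `g 32 = 155521`. Then `NN a + 1 ≤ g a` and `g a * g b ≤ g (a * b)` for `a * b ∣ e`, so `∏ (NN (ee i) + 1) ≤ g e` (induction over a finset of indices).
For `e = 8`: if some `ee i = 8` then `n = 1`, and `q = 7`; otherwise the `ee i` are `2`, `4`, at most one is `4`: `∏ ≤ 5`, and `q = 5`. -/
theorem ct_num (hs : Group.IsSolvable L) (hc : IsCyclic U) (hN : U.Normal)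
    (hmx : ∀ N : Subgroup L, Ab N → U ≤ N → N ≤ U) (hE : SE U E n M) (e : ℕ)
    (he : U.relIndex E = e ^ 2) :
    (e = 8 → (Ct U E ≤ 4 ∧ ∀ x : L, Pe U x → (∀ u ∈ U, x * u = u * x) → x ^ 5 = 1) ∨
      (Ct U E ≤ 48 ∧ ∀ x : L, Pe U x → (∀ u ∈ U, x * u = u * x) → x ^ 7 = 1)) ∧
    (e = 9 → Ct U E ≤ 64) ∧ (e = 12 → Ct U E ≤ 4) ∧ (e = 16 → Ct U E ≤ 48) ∧
    (e = 18 → Ct U E ≤ 64) ∧ (e = 27 → Ct U E ≤ 65536) ∧ (e = 32 → Ct U E ≤ 155520) := by
  obtain ⟨ee, hee, hpr⟩ := se_sq hc hN hmx hE e he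
  have hdv : ∀ i, ee i ∣ e := by
    intro i
    rw [← hpr]
    exact Finset.dvd_prod_of_mem ee (Finset.mem_univ i)
  have hX : (∀ i, ee i = 2 ∨ ee i = 3 ∨ ee i = 4 ∨ ee i = 6 ∨ ee i = 8 ∨ ee i = 9 ∨ ee i = 12 ∨
      ee i = 16 ∨ ee i = 18 ∨ ee i = 27 ∨ ee i = 32) → ∀ i, ∀ (r : ℕ) [Fact r.Prime]
      (X S : Type) [Group X] [Finite X] [AddCommGroup S]
      [Module (ZMod r) S] [Finite S] [Nontrivial S] (ρ : Representation (ZMod r) X S),
      Group.IsSolvable X → (∀ h, (∀ w, ρ h w = w) → h = 1) → Irrd ρ ⊤ →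
      Nat.card S = U.relIndex (M i) → Nat.card {x : X // P5 x} ≤ ze6_N (ee i) := by
    intro ha i r _ X S _ _ _ _ _ _ ρ h1 h2 h3 h4
    rw [(hee i).2] at h4
    exact ze6_bd (ee i) (ha i) r X S ρ h1 h2 h3 h4
  have main : (∀ i, ee i = 2 ∨ ee i = 3 ∨ ee i = 4 ∨ ee i = 6 ∨ ee i = 8 ∨ ee i = 9 ∨
      ee i = 12 ∨ ee i = 16 ∨ ee i = 18 ∨ ee i = 27 ∨ ee i = 32) → 0 < e →
      (∀ a ∈ Finset.range (e + 1), ∀ b ∈ Finset.range (e + 1), a * b ∣ e →
        ze6_g a * ze6_g b ≤ ze6_g (a * b)) → Ct U E + 1 ≤ ze6_g e := by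
    intro ha h0 hg
    refine ((ct_prod hs hc hN hE (fun i => ze6_N (ee i)) 5 (by norm_num) (hX ha)).1).trans ?_
    refine ze6_prod ee (fun a => ze6_N a + 1) ze6_g e rfl (ze6_mul ze6_g e h0 hg) ?_ hpr
    intro i
    rcases ha i with h | h | h | h | h | h | h | h | h | h | h <;> rw [h] <;>
      norm_num [ze6_N, ze6_g]
  refine ⟨?_, ?_, ?_, ?_, ?_, ?_, ?_⟩
  · rintro rfl
    have h8 : ∀ i, ee i = 2 ∨ ee i = 4 ∨ ee i = 8 := fun i =>
      ze6_dv (fun a => a = 2 ∨ a = 4 ∨ a = 8) 8 (by norm_num) (by decide) _ (hee i).1 (hdv i)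
    by_cases hex : ∃ i, ee i = 8
    · right
      obtain ⟨i₀, hi₀⟩ := hex
      have hall : ∀ i, ee i = 8 := by
        intro i
        by_cases hii : i = i₀
        · rw [hii, hi₀]
        · exfalso
          have h1 : ee i * ee i₀ ∣ 8 := by
            rw [← hpr, ← Finset.prod_pair hii]
            exact Finset.prod_dvd_prod_of_subset _ _ _ (Finset.subset_univ _)
          rw [hi₀] at h1
          have h2 := Nat.le_of_dvd (by norm_num) h1
          have h3 := (hee i).1
          omega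
      have ha : ∀ i, ee i = 2 ∨ ee i = 3 ∨ ee i = 4 ∨ ee i = 6 ∨ ee i = 8 ∨ ee i = 9 ∨
          ee i = 12 ∨ ee i = 16 ∨ ee i = 18 ∨ ee i = 27 ∨ ee i = 32 := by
        intro i
        rw [hall i]
        simp
      have hm := main ha (by norm_num) (by decide)
      refine ⟨Nat.le_of_succ_le_succ hm, ?_⟩
      refine (ct_prod hs hc hN hE (fun i => ze6_N (ee i)) 7 (by norm_num) (hX ha)).2 ?_
      intro i r _ X S _ _ _ _ _ _ ρ h1 h2 h3 h4
      rw [(hee i).2, hall i] at h4
      obtain rfl : r = 2 := ze6_eq (S := S) Nat.prime_two h4 (by norm_num)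
      exact ((zx2 ρ h1 h2 h3 6 (by rw [h4]; norm_num)).2.2.1 rfl).2
    · left
      have h24 : ∀ i, ee i = 2 ∨ ee i = 4 := by
        intro i
        rcases h8 i with h | h | h
        · exact Or.inl h
        · exact Or.inr h
        · exact (hex ⟨i, h⟩).elim
      have ha : ∀ i, ee i = 2 ∨ ee i = 3 ∨ ee i = 4 ∨ ee i = 6 ∨ ee i = 8 ∨ ee i = 9 ∨
          ee i = 12 ∨ ee i = 16 ∨ ee i = 18 ∨ ee i = 27 ∨ ee i = 32 := by
        intro i
        rcases h24 i with h | h <;> rw [h] <;> simp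
      have hcp := ct_prod hs hc hN hE (fun i => ze6_N (ee i)) 5 (by norm_num) (hX ha)
      constructor
      · have h5 : Ct U E + 1 ≤ 5 := by
          refine hcp.1.trans ?_
          refine ze6_prod ee (fun a => ze6_N a + 1) (fun a => if a = 4 ∨ a = 8 then 5 else 1) 8
            rfl (ze6_mul _ 8 (by norm_num) (by decide)) ?_ hpr
          intro i
          rcases h24 i with h | h <;> rw [h] <;> norm_num [ze6_N]
        exact Nat.le_of_succ_le_succ h5
      · refine hcp.2 ?_
        intro i r _ X S _ _ _ _ _ _ ρ h1 h2 h3 h4 x hx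
        rcases h24 i with h | h
        · rw [(hee i).2, h] at h4
          obtain rfl : r = 2 := ze6_eq (S := S) Nat.prime_two h4 (by norm_num)
          exact ((zx2 ρ h1 h2 h3 2 (by rw [h4])).1 rfl x hx).elim
        · rw [(hee i).2, h] at h4
          obtain rfl : r = 2 := ze6_eq (S := S) Nat.prime_two h4 (by norm_num)
          exact ((zx2 ρ h1 h2 h3 4 (by rw [h4]; norm_num)).2.1 rfl).2 x hx
  all_goals
    rintro rfl
    have ha : ∀ i, ee i = 2 ∨ ee i = 3 ∨ ee i = 4 ∨ ee i = 6 ∨ ee i = 8 ∨ ee i = 9 ∨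
        ee i = 12 ∨ ee i = 16 ∨ ee i = 18 ∨ ee i = 27 ∨ ee i = 32 := fun i =>
      ze6_dv (fun a => a = 2 ∨ a = 3 ∨ a = 4 ∨ a = 6 ∨ a = 8 ∨ a = 9 ∨ a = 12 ∨ a = 16 ∨
        a = 18 ∨ a = 27 ∨ a = 32) _ (by norm_num) (by decide) _ (hee i).1 (hdv i)
    have hm := main ha (by norm_num) (by decide)
    exact Nat.le_of_succ_le_succ hm
-- END ze6

end

end Pool.Agent.Nfv
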